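import Mathlib

/-!
# Level colourings of cubic graphs (MP_b1c9a2_co, Strong Ando conjecture): definitions

A colouring of the vertices of a graph `G` with two colours is given by a `Finset` `S`
(the white vertices; the vertices outside `S` are black).
-/

set_option autoImplicit false
set_option linter.unusedSectionVars false

namespace Pool.Agent.Lib.Ando

variable {V : Type*} [Fintype V] [DecidableEq V] (G : SimpleGraph V) [DecidableRel G.Adj]

/-- The neighbours of `v` with the same colour as `v`. -/
def sm (S : Finset V) (v : V) : Finset V :=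
  Finset.univ.filter (fun w => G.Adj v w ∧ (w ∈ S ↔ v ∈ S))

/-- The neighbours of `v` with the other colour. -/
def op (S : Finset V) (v : V) : Finset V :=
  Finset.univ.filter (fun w => G.Adj v w ∧ ¬ (w ∈ S ↔ v ∈ S))

/-- The number of neighbours of `v` with the same colour as `v`. -/
def sd (S : Finset V) (v : V) : ℕ := (sm G S v).card

/-- Twice the number of monochromatic edges. -/
def mm (S : Finset V) : ℤ := ∑ v, (sd G S v : ℤ)

/-- The number of white vertices minus the number of black vertices. -/
def imb (S : Finset V) : ℤ := (S.card : ℤ) - (Sᶜ.card : ℤ)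

/-- Half the change of the imbalance when the colours on `F` are exchanged. -/
def iot (S F : Finset V) : ℤ := ((F \ S).card : ℤ) - ((F ∩ S).card : ℤ)

/-- The change of the number of monochromatic edges when the colours on `F` are exchanged. -/
def cost (S F : Finset V) : ℤ :=
  (∑ v ∈ F, (3 - 2 * (sd G S v : ℤ)))
    - ∑ x ∈ F, ∑ y ∈ F, (if G.Adj x y then (if (x ∈ S ↔ y ∈ S) then (-1 : ℤ) else 1) else 0)

/-- A level colouring: it minimises `mm + |imb|`, all monochromatic degrees are at most one,
and its imbalance `2 * k ≥ 0` is least possible among the colourings with these two properties. -/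
structure Level (k : ℕ) (S : Finset V) : Prop where
  imb_eq : imb S = 2 * k
  opt : ∀ T : Finset V, mm G S + |imb S| ≤ mm G T + |imb T|
  tf : ∀ v, sd G S v ≤ 1
  low : ∀ T : Finset V, (∀ v, sd G T v ≤ 1) → mm G T + |imb T| = mm G S + |imb S| →
    |imb S| ≤ |imb T|

/-- No two adjacent vertices have a common neighbour. -/
def NoTri : Prop := ∀ a b c : V, G.Adj a b → G.Adj b c → ¬ G.Adj a c

/-- No cycle of length four. -/
def NoSq : Prop := ∀ a b c d : V, G.Adj a b → G.Adj b c → G.Adj c d → G.Adj d a → a = c ∨ b = d

/-- Every monochromatic component is a path with at most four vertices. -/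
def Good4 (S : Finset V) : Prop :=
  ∀ v, sd G S v ≤ 2 ∧ (sd G S v = 2 → ((sm G S v).filter (fun w => sd G S w = 2)).card ≤ 1)

/-- The number of vertices of `A` with two neighbours of their own colour. -/
def n2 (S A : Finset V) : ℕ := (A.filter (fun v => sd G S v = 2)).card

/-- The number of ordered pairs of adjacent vertices of the same colour, the first one in `A`,
both having two neighbours of their own colour. -/
def q2 (S A : Finset V) : ℕ :=
  ∑ v ∈ A.filter (fun v => sd G S v = 2), ((sm G S v).filter (fun w => sd G S w = 2)).card

/-- The effect of the exchange of the colours on `F`: the new colouring is `Good4`, its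
imbalance is `imb S + 2 * i`, and it has `a` white and `b` black vertices of monochromatic
degree two and `a'`, `b'` ordered adjacent pairs of such vertices. -/
structure Eff (S F : Finset V) (i : ℤ) (a a' b b' : ℕ) : Prop where
  good : Good4 G (symmDiff S F)
  imb_eq : imb (symmDiff S F) = imb S + 2 * i
  nw : n2 G (symmDiff S F) (symmDiff S F) = a
  qw : q2 G (symmDiff S F) (symmDiff S F) = a'
  nb : n2 G (symmDiff S F) (symmDiff S F)ᶜ = b
  qb : q2 G (symmDiff S F) (symmDiff S F)ᶜ = b'

/-- The territory of `F`: the set `F`, its neighbours, and the monochromatic neighbours of these. -/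
def ter (S F : Finset V) : Finset V :=
  F ∪ (Finset.univ.filter (fun w => ∃ v ∈ F, G.Adj v w))
    ∪ (Finset.univ.filter (fun x => ∃ w, (∃ v ∈ F, G.Adj v w) ∧ x ∈ sm G S w))

/-- The desired conclusion: a Strong Ando colouring all of whose components have at most four
vertices. -/
def Good : Prop :=
  ∃ S : Finset V,
      S.card = Sᶜ.card ∧
      Nonempty (G.induce (S : Set V) ≃g G.induce ((Sᶜ : Finset V) : Set V)) ∧
      (G.induce (S : Set V)).IsAcyclic ∧
      (G.induce ((Sᶜ : Finset V) : Set V)).IsAcyclic ∧
      (∀ v ∈ S, (S.filter (fun w => G.Adj v w)).card ≤ 2) ∧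
      (∀ v ∈ Sᶜ, (Sᶜ.filter (fun w => G.Adj v w)).card ≤ 2) ∧
      (∀ c : (G.induce (S : Set V)).ConnectedComponent, c.supp.ncard ≤ 4) ∧
      (∀ c : (G.induce ((Sᶜ : Finset V) : Set V)).ConnectedComponent, c.supp.ncard ≤ 4)

/-- The white vertices of monochromatic degree one among the neighbours of the black vertex `b`. -/
def UN (S : Finset V) (b : V) : Finset V := (op G S b).filter (fun u => sd G S u = 1)

/-- The sites: white vertices of monochromatic degree one both of whose black neighbours have
monochromatic degree zero. -/
def sites (S : Finset V) : Finset V :=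
  Finset.univ.filter (fun u => u ∈ S ∧ sd G S u = 1 ∧ ∀ b ∈ op G S u, sd G S b = 0)

/-- The sites adjacent to `e`. -/
def stA (S : Finset V) (e : V) : Finset V := (sites G S).filter (fun w => e ∈ op G S w)

/-- For a white vertex `x`: the vertex itself if it is a site, otherwise the sites adjacent to a
black neighbour of `x` of monochromatic degree zero. -/
def ks (S : Finset V) (x : V) : Finset V :=
  if x ∈ sites G S then {x} else ((op G S x).filter (fun e => sd G S e = 0)).biUnion (stA G S)

/-- The sites that can conflict with the leaf operation at `(u, b)`. -/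
def kLeaf (S : Finset V) (u b : V) : Finset V :=
  {u} ∪ (sm G S u).biUnion (ks G S)
    ∪ (op G S b \ {u}).biUnion (fun o => (op G S o \ {b}).biUnion (stA G S))

/-- The sites that can conflict with the operation T1 at `(w, e)`. -/
def kT1 (S : Finset V) (w e : V) : Finset V :=
  {w} ∪ (sm G S w).biUnion (ks G S)
    ∪ ((op G S e).filter (fun o => sd G S o = 0)).biUnion
        (fun o => (op G S o \ {e}).biUnion (stA G S))
    ∪ (UN G S e \ {w}).biUnion (fun x => (sm G S x).biUnion (ks G S))

/-- The vertices of type ZL whose operation can conflict with T1 at `(w, e)`. -/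
def kT1L (S : Finset V) (w e : V) : Finset V :=
  sm G S w ∪ (UN G S e \ {w}).biUnion (sm G S) ∪ ((op G S w).biUnion (UN G S) \ {w})

/-- The vertices of type ZL whose operation can conflict with the one at `x`. -/
def kL (S : Finset V) (x : V) : Finset V :=
  {x} ∪ sm G S x
    ∪ ((op G S x).filter (fun l => sd G S l = 1)).biUnion (fun l => (sm G S l).biUnion (UN G S))

/-- A leaf end: the site `u` is the only white neighbour of monochromatic degree one of its black
neighbour `b`. -/
def LeafE (S : Finset V) (u b : V) : Prop :=
  u ∈ sites G S ∧ b ∈ op G S u ∧ (UN G S b).card = 1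

/-- An end of the second kind: exactly two neighbours of monochromatic degree one. -/
def TE (S : Finset V) (w e : V) : Prop :=
  w ∈ sites G S ∧ e ∈ op G S w ∧ (UN G S e).card = 2

/-- A star: a black vertex `b` of monochromatic degree zero all of whose neighbours `ui` are white
of monochromatic degree one; `vi` is the white neighbour of `ui` and `xi` its other black
neighbour, of monochromatic degree zero. -/
structure Star (S : Finset V) (b u1 u2 u3 x1 x2 x3 v1 v2 v3 : V) : Prop where
  hb : b ∉ S
  sb : sd G S b = 0
  ob : op G S b = {u1, u2, u3}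
  n12 : u1 ≠ u2
  n13 : u1 ≠ u3
  n23 : u2 ≠ u3
  h1 : u1 ∈ S
  h2 : u2 ∈ S
  h3 : u3 ∈ S
  s1 : sm G S u1 = {v1}
  s2 : sm G S u2 = {v2}
  s3 : sm G S u3 = {v3}
  o1 : op G S u1 = {b, x1}
  o2 : op G S u2 = {b, x2}
  o3 : op G S u3 = {b, x3}
  b1 : b ≠ x1
  b2 : b ≠ x2
  b3 : b ≠ x3
  z1 : sd G S x1 = 0
  z2 : sd G S x2 = 0
  z3 : sd G S x3 = 0

/-- A finite graph all of whose vertices have degree at most two, and such that every vertex of
degree two has at most one neighbour of degree two (the components are paths with at most four
vertices). -/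
def P4 {X : Type*} [Fintype X] [DecidableEq X] (H : SimpleGraph X) [DecidableRel H.Adj] : Prop :=
  ∀ x, H.degree x ≤ 2 ∧
    (H.degree x = 2 → ((H.neighborFinset x).filter (fun y => H.degree y = 2)).card ≤ 1)

end Pool.Agent.Lib.Ando
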