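import Mathlib
import Pool.Agent.Lib.Ando.Defs

set_option autoImplicit false
set_option linter.unusedSectionVars false

/-!
# Ando.Acyc: a graph with property `P4` is acyclic

Proof. Suppose there is a cycle, `c : H.Walk v v` with `c.IsCycle`. Every vertex x on the cycle has at least two different
neighbours that are on the cycle (its predecessor and its successor; the length is >= 3), so its degree is exactly two by
`P4`, and both neighbours are on the cycle, so they also have degree two. So the filter in `P4` has at least two elements,
a contradiction. (It is enough to do it at the base vertex v: the second vertex `c.snd` and the second to last vertex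
`c.penultimate` are different neighbours of v (`SimpleGraph.Walk.IsCycle.snd_ne_penultimate`); rotating the
cycle (`IsCycle.rotate`) shows that every vertex of the support has two different neighbours in the support, so degree two.)
Alternatively use `SimpleGraph.isAcyclic_iff_forall_edge_isBridge` or any other route.
-/

namespace Pool.Agent.Lib.Ando

variable {V : Type*} [Fintype V] [DecidableEq V] (G : SimpleGraph V) [DecidableRel G.Adj]

namespace AcycAux

theorem two_nbr {X : Type*} [Fintype X] [DecidableEq X] (H : SimpleGraph X)
    [DecidableRel H.Adj] (h : P4 H) {v : X} (c : H.Walk v v) (hc : c.IsCycle) :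
    H.Adj v c.snd ∧ H.Adj v c.penultimate ∧ c.snd ≠ c.penultimate ∧ H.degree v = 2 := by
  have h1 : H.Adj v c.snd := c.adj_snd hc.not_nil
  have h2 : H.Adj v c.penultimate := (c.adj_penultimate hc.not_nil).symm
  have h3 := hc.snd_ne_penultimate
  refine ⟨h1, h2, h3, ?_⟩
  have h4 := (h v).1
  have h5 : 2 ≤ H.degree v := by
    rw [← SimpleGraph.card_neighborFinset_eq_degree, ← Finset.card_pair h3]
    apply Finset.card_le_card
    intro y hy
    simp only [Finset.mem_insert, Finset.mem_singleton] at hy
    rw [SimpleGraph.mem_neighborFinset]
    rcases hy with rfl | rfl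
    · exact h1
    · exact h2
  omega

end AcycAux

theorem P4.isAcyclic {X : Type*} [Fintype X] [DecidableEq X] (H : SimpleGraph X)
    [DecidableRel H.Adj] (h : P4 H) : H.IsAcyclic := by
  intro v c hc
  obtain ⟨h1, h2, h3, h4⟩ := AcycAux.two_nbr H h c hc
  have key : ∀ w ∈ c.support, H.degree w = 2 := by
    intro w hw
    exact (AcycAux.two_nbr H h (c.rotate w hw) (hc.rotate hw)).2.2.2
  have k1 : H.degree c.snd = 2 := key _ (c.getVert_mem_support 1)
  have k2 : H.degree c.penultimate = 2 := key _ (c.getVert_mem_support _)
  have h5 := (h v).2 h4
  rw [Finset.card_le_one] at h5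
  exact h3 (h5 c.snd (by simp [h1, k1]) c.penultimate (by simp [h2, k2]))

end Pool.Agent.Lib.Ando
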