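import Mathlib
import Pool.Agent.Lib.Ando.Defs

set_option autoImplicit false
set_option linter.unusedSectionVars false

/-!
# Ando.Comp4: the components of a graph with property `P4` have at most four vertices

Proof. Let c be a component and v in c. If v has degree 0 then c = {v}. If all vertices of c have degree <= 1: c is contained in
the set v, its neighbour (closed under adjacency). Otherwise choose v in c of degree 2 with neighbours a, b. At most one of a, b
has degree 2. If none: {v, a, b} is closed under adjacency, contains v, so it contains c (a vertex reachable from v is in the set, by induction on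
the walk; `SimpleGraph.ConnectedComponent.supp` of the component of v is the set of reachable vertices). If a has degree 2, with
neighbours v, a': a has the neighbour v of degree two, so a' has degree <= 1 (P4 at a), so its only neighbour is a; b has degree <= 1, its only neighbour is v.
So {v, a, b, a'} is closed under adjacency. Cardinality at most 4 (`Set.ncard_le_ncard`, `Set.ncard_insert_le`).
-/

namespace Pool.Agent.Lib.Ando

variable {V : Type*} [Fintype V] [DecidableEq V] (G : SimpleGraph V) [DecidableRel G.Adj]

namespace Comp4Aux

variable {X : Type*} [Fintype X] [DecidableEq X] (H : SimpleGraph X) [DecidableRel H.Adj]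

theorem supp_subset (A : Finset X) (v : X) (hv : v ∈ A)
    (hA : ∀ x ∈ A, ∀ y, H.Adj x y → y ∈ A) :
    (H.connectedComponentMk v).supp ⊆ (A : Set X) := by
  intro w hw
  have hr : H.Reachable w v := by
    simpa [SimpleGraph.ConnectedComponent.mem_supp_iff, SimpleGraph.ConnectedComponent.eq] using hw
  obtain ⟨p⟩ := hr.symm
  have key : ∀ {a b : X} (q : H.Walk a b), a ∈ A → b ∈ A := by
    intro a b q
    induction q with
    | nil => exact fun h => h
    | cons hadj _ ih => exact fun h => ih (hA _ h _ hadj)
  exact_mod_cast key p hv

theorem eq_of_deg_le_one {b w y : X} (hb : H.degree b ≤ 1) (h1 : H.Adj b w) (h2 : H.Adj b y) :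
    y = w := by
  have := Finset.card_le_one.mp (hb : (H.neighborFinset b).card ≤ 1)
  exact this y (by simpa using h2) w (by simpa using h1)

theorem closed_of {w a b : X} (h : P4 H) (hw : H.neighborFinset w = {a, b}) (hw2 : H.degree w = 2)
    (hb : H.degree b ≠ 2) :
    ∃ A : Finset X, w ∈ A ∧ (∀ x ∈ A, ∀ y, H.Adj x y → y ∈ A) ∧ A.card ≤ 4 := by
  have hb1 : H.degree b ≤ 1 := by
    have := (h b).1
    omega
  have hwa : H.Adj w a := by
    have : a ∈ H.neighborFinset w := by rw [hw]; simp
    simpa using this
  have hwb : H.Adj w b := by
    have : b ∈ H.neighborFinset w := by rw [hw]; simp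
    simpa using this
  have hwy : ∀ y, H.Adj w y → y = a ∨ y = b := by
    intro y hy
    have : y ∈ H.neighborFinset w := by simpa using hy
    rw [hw] at this
    simpa using this
  by_cases ha : H.degree a = 2
  · -- neighbours of a
    have hcard : (H.neighborFinset a).card = 2 := ha
    have hwm : w ∈ H.neighborFinset a := by simpa using hwa.symm
    obtain ⟨c, d, hcd, hcdeq⟩ := Finset.card_eq_two.mp hcard
    have hex : ∃ a', a' ≠ w ∧ H.neighborFinset a = {w, a'} := by
      rw [hcdeq] at hwm
      rcases Finset.mem_insert.mp hwm with h1 | h1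
      · exact ⟨d, by rw [h1]; exact fun e => hcd e.symm, by rw [hcdeq, h1]⟩
      · have h1' : w = d := by simpa using h1
        exact ⟨c, by rw [h1']; exact hcd, by rw [hcdeq, h1', Finset.pair_comm]⟩
    obtain ⟨a', ha'w, haN⟩ := hex
    have haa' : H.Adj a a' := by
      have : a' ∈ H.neighborFinset a := by rw [haN]; simp
      simpa using this
    have ha'2 : H.degree a' ≠ 2 := by
      intro hd
      have h2 := (h a).2 ha
      have := Finset.card_le_one.mp h2 w (by simp [haN, hw2]) a' (by
        rw [Finset.mem_filter]
        exact ⟨by rw [haN]; simp, hd⟩)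
      exact ha'w this.symm
    have ha'1 : H.degree a' ≤ 1 := by
      have := (h a').1
      omega
    refine ⟨{w, a, b, a'}, by simp, ?_, ?_⟩
    · intro x hx y hxy
      simp only [Finset.mem_insert, Finset.mem_singleton] at hx ⊢
      rcases hx with rfl | rfl | rfl | rfl
      · rcases hwy y hxy with h1 | h1
        · exact Or.inr (Or.inl h1)
        · exact Or.inr (Or.inr (Or.inl h1))
      · have : y ∈ H.neighborFinset x := by simpa using hxy
        rw [haN] at this
        rcases Finset.mem_insert.mp this with h1 | h1
        · exact Or.inl h1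
        · exact Or.inr (Or.inr (Or.inr (by simpa using h1)))
      · exact Or.inl (eq_of_deg_le_one H hb1 hwb.symm hxy)
      · exact Or.inr (Or.inl (eq_of_deg_le_one H ha'1 haa'.symm hxy))
    · exact Finset.card_le_four
  · have ha1 : H.degree a ≤ 1 := by
      have := (h a).1
      omega
    refine ⟨{w, a, b}, by simp, ?_, ?_⟩
    · intro x hx y hxy
      simp only [Finset.mem_insert, Finset.mem_singleton] at hx ⊢
      rcases hx with rfl | rfl | rfl
      · rcases hwy y hxy with h1 | h1
        · exact Or.inr (Or.inl h1)
        · exact Or.inr (Or.inr h1)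
      · exact Or.inl (eq_of_deg_le_one H ha1 hwa.symm hxy)
      · exact Or.inl (eq_of_deg_le_one H hb1 hwb.symm hxy)
    · exact le_trans Finset.card_le_three (by norm_num)

end Comp4Aux

open Comp4Aux in
theorem P4.comp_le {X : Type*} [Fintype X] [DecidableEq X] (H : SimpleGraph X)
    [DecidableRel H.Adj] (h : P4 H) (c : H.ConnectedComponent) : c.supp.ncard ≤ 4 := by
  have main : ∀ w ∈ c.supp, (∃ A : Finset X, w ∈ A ∧ (∀ x ∈ A, ∀ y, H.Adj x y → y ∈ A) ∧
      A.card ≤ 4) → c.supp.ncard ≤ 4 := by
    rintro w hw ⟨A, hwA, hA, hc⟩
    have hcw : H.connectedComponentMk w = c := by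
      simpa [SimpleGraph.ConnectedComponent.mem_supp_iff] using hw
    have hsub : c.supp ⊆ (A : Set X) := by
      rw [← hcw]
      exact supp_subset H A w hwA hA
    calc c.supp.ncard ≤ (A : Set X).ncard := Set.ncard_le_ncard hsub A.finite_toSet
      _ = A.card := Set.ncard_coe_finset A
      _ ≤ 4 := hc
  by_cases hex : ∃ w ∈ c.supp, H.degree w = 2
  · obtain ⟨w, hw, hw2⟩ := hex
    apply main w hw
    obtain ⟨a, b, hab, hwab⟩ := Finset.card_eq_two.mp (hw2 : (H.neighborFinset w).card = 2)
    by_cases hb : H.degree b = 2
    · have ha : H.degree a ≠ 2 := by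
        intro ha
        have := Finset.card_le_one.mp ((h w).2 hw2) a (by
          rw [Finset.mem_filter]
          exact ⟨by rw [hwab]; simp, ha⟩) b (by
          rw [Finset.mem_filter]
          exact ⟨by rw [hwab]; simp, hb⟩)
        exact hab this
      exact closed_of H h (by rw [hwab, Finset.pair_comm]) hw2 ha
    · exact closed_of H h hwab hw2 hb
  · push Not at hex
    obtain ⟨v, hv⟩ := c.nonempty_supp
    apply main v hv
    by_cases hn : (H.neighborFinset v) = ∅
    · refine ⟨{v}, by simp, ?_, by simp⟩
      intro x hx y hxy
      have hx' : x = v := by simpa using hx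
      have : y ∈ H.neighborFinset v := by simpa [hx'] using hxy
      rw [hn] at this
      simp at this
    · obtain ⟨u, hu⟩ := Finset.nonempty_iff_ne_empty.mpr hn
      have hvu : H.Adj v u := by simpa using hu
      have hus : u ∈ c.supp := by
        rw [SimpleGraph.ConnectedComponent.mem_supp_iff] at hv ⊢
        rw [← hv]
        exact SimpleGraph.ConnectedComponent.connectedComponentMk_eq_of_adj hvu.symm
      have hv1 : H.degree v ≤ 1 := by
        have h1 := (h v).1
        have h2 := hex v hv
        omega
      have hu1 : H.degree u ≤ 1 := by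
        have h1 := (h u).1
        have h2 := hex u hus
        omega
      refine ⟨{v, u}, by simp, ?_, le_trans Finset.card_le_two (by norm_num)⟩
      intro x hx y hxy
      simp only [Finset.mem_insert, Finset.mem_singleton] at hx ⊢
      rcases hx with rfl | rfl
      · exact Or.inr (eq_of_deg_le_one H hv1 hvu hxy)
      · exact Or.inl (eq_of_deg_le_one H hu1 hvu.symm hxy)

end Pool.Agent.Lib.Ando
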