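import Mathlib
import Pool.Agent.Lib.Ando.Defs

set_option autoImplicit false
set_option linter.unusedSectionVars false

/-!
# Ando.IsoGen: two `P4` graphs with the same four numbers are isomorphic

Strong induction on the number of vertices: remove a component (a path with 1, 2, 3 or 4 vertices) of the same type from
both graphs (the numbers decide that a component of the same type exists in both) and glue.
-/

namespace Pool.Agent.Lib.Ando

namespace IsoGenAux

variable {X : Type*} [Fintype X] [DecidableEq X] {Y : Type*} [Fintype Y] [DecidableEq Y]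

/-- closed under adjacency -/
def Cl (H : SimpleGraph X) (A : Finset X) : Prop := ∀ x ∈ A, ∀ y, H.Adj x y → y ∈ A

/-- partial isomorphism -/
structure PI (H : SimpleGraph X) (K : SimpleGraph Y) (A : Finset X) (B : Finset Y)
    (f : X → Y) : Prop where
  maps : ∀ x ∈ A, f x ∈ B
  inj : ∀ x ∈ A, ∀ y ∈ A, f x = f y → x = y
  surj : ∀ y ∈ B, ∃ x ∈ A, f x = y
  adj : ∀ x ∈ A, ∀ y ∈ A, (H.Adj x y ↔ K.Adj (f x) (f y))

section
variable (H : SimpleGraph X) [DecidableRel H.Adj] (K : SimpleGraph Y) [DecidableRel K.Adj]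

theorem deg_eq {A : Finset X} {B : Finset Y} {f : X → Y} (hf : PI H K A B f)
    (hA : Cl H A) (hB : Cl K B) {x : X} (hx : x ∈ A) : H.degree x = K.degree (f x) := by
  rw [← SimpleGraph.card_neighborFinset_eq_degree, ← SimpleGraph.card_neighborFinset_eq_degree]
  apply Finset.card_bij (fun y _ => f y)
  · intro y hy
    rw [SimpleGraph.mem_neighborFinset] at hy ⊢
    exact (hf.adj x hx y (hA x hx y hy)).1 hy
  · intro a ha b hb h
    rw [SimpleGraph.mem_neighborFinset] at ha hb
    exact hf.inj a (hA x hx a ha) b (hA x hx b hb) h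
  · intro y hy
    rw [SimpleGraph.mem_neighborFinset] at hy
    obtain ⟨x', hx', rfl⟩ := hf.surj y (hB _ (hf.maps x hx) y hy)
    refine ⟨x', ?_, rfl⟩
    rw [SimpleGraph.mem_neighborFinset]
    exact (hf.adj x hx x' hx').2 hy

theorem q_eq {A : Finset X} {B : Finset Y} {f : X → Y} (hf : PI H K A B f)
    (hA : Cl H A) (hB : Cl K B) {x : X} (hx : x ∈ A) :
    ((H.neighborFinset x).filter (fun z => H.degree z = 2)).card
      = ((K.neighborFinset (f x)).filter (fun z => K.degree z = 2)).card := by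
  apply Finset.card_bij (fun y _ => f y)
  · intro y hy
    rw [Finset.mem_filter, SimpleGraph.mem_neighborFinset] at hy ⊢
    exact ⟨(hf.adj x hx y (hA x hx y hy.1)).1 hy.1,
      by rw [← deg_eq H K hf hA hB (hA x hx y hy.1)]; exact hy.2⟩
  · intro a ha b hb h
    rw [Finset.mem_filter, SimpleGraph.mem_neighborFinset] at ha hb
    exact hf.inj a (hA x hx a ha.1) b (hA x hx b hb.1) h
  · intro y hy
    rw [Finset.mem_filter, SimpleGraph.mem_neighborFinset] at hy
    obtain ⟨x', hx', rfl⟩ := hf.surj y (hB _ (hf.maps x hx) y hy.1)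
    refine ⟨x', ?_, rfl⟩
    rw [Finset.mem_filter, SimpleGraph.mem_neighborFinset]
    exact ⟨(hf.adj x hx x' hx').2 hy.1, by rw [deg_eq H K hf hA hB hx']; exact hy.2⟩

def D (A : Finset X) : ℕ := ∑ x ∈ A, H.degree x
def N (A : Finset X) : ℕ := ∑ x ∈ A, if H.degree x = 2 then 1 else 0
def Q (A : Finset X) : ℕ := ∑ x ∈ A, if H.degree x = 2 then
  ((H.neighborFinset x).filter (fun z => H.degree z = 2)).card else 0

theorem sum_PI {A : Finset X} {B : Finset Y} {f : X → Y} (hf : PI H K A B f)
    (u : X → ℕ) (v : Y → ℕ) (h : ∀ x ∈ A, u x = v (f x)) :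
    ∑ x ∈ A, u x = ∑ y ∈ B, v y := by
  apply Finset.sum_bij (fun x _ => f x)
  · exact fun x hx => hf.maps x hx
  · exact fun a ha b hb h => hf.inj a ha b hb h
  · intro y hy
    obtain ⟨x, hx, h⟩ := hf.surj y hy
    exact ⟨x, hx, h⟩
  · exact h

theorem nums {A : Finset X} {B : Finset Y} {f : X → Y} (hf : PI H K A B f)
    (hA : Cl H A) (hB : Cl K B) :
    A.card = B.card ∧ D H A = D K B ∧ N H A = N K B ∧ Q H A = Q K B := by
  refine ⟨?_, ?_, ?_, ?_⟩
  · rw [Finset.card_eq_sum_ones, Finset.card_eq_sum_ones]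
    exact sum_PI H K hf (fun _ => 1) (fun _ => 1) (fun _ _ => rfl)
  · exact sum_PI H K hf _ _ (fun x hx => deg_eq H K hf hA hB hx)
  · apply sum_PI H K hf
    intro x hx
    rw [deg_eq H K hf hA hB hx]
  · apply sum_PI H K hf
    intro x hx
    rw [deg_eq H K hf hA hB hx, q_eq H K hf hA hB hx]

/-- gluing -/
theorem glue {A C : Finset X} {B E : Finset Y} {f g : X → Y}
    (hC : C ⊆ A) (hE : E ⊆ B) (hA : Cl H C) (hB : Cl K E)
    (hf : PI H K (A \ C) (B \ E) f) (hg : PI H K C E g) :
    PI H K A B (fun x => if x ∈ C then g x else f x) := by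
  constructor
  · intro x hx
    by_cases h : x ∈ C
    · simp only [h, if_true]; exact hE (hg.maps x h)
    · simp only [h, if_false]
      exact (Finset.mem_sdiff.1 (hf.maps x (Finset.mem_sdiff.2 ⟨hx, h⟩))).1
  · intro x hx y hy hxy
    by_cases h : x ∈ C <;> by_cases h' : y ∈ C
    · simp only [h, h', if_true] at hxy; exact hg.inj x h y h' hxy
    · simp only [h, h', if_true, if_false] at hxy
      exact absurd (hg.maps x h) (by
        rw [hxy]
        exact (Finset.mem_sdiff.1 (hf.maps y (Finset.mem_sdiff.2 ⟨hy, h'⟩))).2)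
    · simp only [h, h', if_true, if_false] at hxy
      exact absurd (hg.maps y h') (by
        rw [← hxy]
        exact (Finset.mem_sdiff.1 (hf.maps x (Finset.mem_sdiff.2 ⟨hx, h⟩))).2)
    · simp only [h, h', if_false] at hxy
      exact hf.inj x (Finset.mem_sdiff.2 ⟨hx, h⟩) y (Finset.mem_sdiff.2 ⟨hy, h'⟩) hxy
  · intro y hy
    by_cases h : y ∈ E
    · obtain ⟨x, hx, rfl⟩ := hg.surj y h
      exact ⟨x, hC hx, by simp only [hx, if_true]⟩
    · obtain ⟨x, hx, rfl⟩ := hf.surj y (Finset.mem_sdiff.2 ⟨hy, h⟩)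
      have := Finset.mem_sdiff.1 hx
      exact ⟨x, this.1, by simp only [this.2, if_false]⟩
  · intro x hx y hy
    by_cases h : x ∈ C <;> by_cases h' : y ∈ C
    · simp only [h, h', if_true]; exact hg.adj x h y h'
    · simp only [h, h', if_true, if_false]
      constructor
      · intro a; exact absurd (hA x h y a) h'
      · intro a
        exact absurd (hB _ (hg.maps x h) _ a)
          (Finset.mem_sdiff.1 (hf.maps y (Finset.mem_sdiff.2 ⟨hy, h'⟩))).2
    · simp only [h, h', if_true, if_false]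
      constructor
      · intro a; exact absurd (hA y h' x a.symm) h
      · intro a
        exact absurd (hB _ (hg.maps y h') _ a.symm)
          (Finset.mem_sdiff.1 (hf.maps x (Finset.mem_sdiff.2 ⟨hx, h⟩))).2
    · simp only [h, h', if_false]
      exact hf.adj x (Finset.mem_sdiff.2 ⟨hx, h⟩) y (Finset.mem_sdiff.2 ⟨hy, h'⟩)

/-- a path component inside `A` -/
def Comp (m : ℕ) (A : Finset X) : Prop :=
  ∃ p : Fin m → X, Function.Injective p ∧ (∀ i, p i ∈ A) ∧
    (∀ i j, H.Adj (p i) (p j) ↔ (i.val + 1 = j.val ∨ j.val + 1 = i.val)) ∧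
    (∀ i y, H.Adj (p i) y → ∃ j, p j = y)

theorem exists_PI {m : ℕ} (hm : 0 < m) {A : Finset X} {B : Finset Y}
    (hA : Comp H m A) (hB : Comp K m B) :
    ∃ C E g, C ⊆ A ∧ E ⊆ B ∧ C.Nonempty ∧ Cl H C ∧ Cl K E ∧ PI H K C E g := by
  obtain ⟨p, p1, p2, p3, p4⟩ := hA
  obtain ⟨q, q1, q2, q3, q4⟩ := hB
  classical
  have : Nonempty (Fin m) := ⟨⟨0, hm⟩⟩
  refine ⟨Finset.univ.image p, Finset.univ.image q,
    fun x => q (Function.invFun p x), ?_, ?_, ?_, ?_, ?_, ?_⟩
  · intro x hx
    obtain ⟨i, _, rfl⟩ := Finset.mem_image.1 hx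
    exact p2 i
  · intro x hx
    obtain ⟨i, _, rfl⟩ := Finset.mem_image.1 hx
    exact q2 i
  · exact ⟨p ⟨0, hm⟩, Finset.mem_image_of_mem _ (Finset.mem_univ _)⟩
  · intro x hx y hxy
    obtain ⟨i, _, rfl⟩ := Finset.mem_image.1 hx
    obtain ⟨j, rfl⟩ := p4 i y hxy
    exact Finset.mem_image_of_mem _ (Finset.mem_univ _)
  · intro x hx y hxy
    obtain ⟨i, _, rfl⟩ := Finset.mem_image.1 hx
    obtain ⟨j, rfl⟩ := q4 i y hxy
    exact Finset.mem_image_of_mem _ (Finset.mem_univ _)
  · constructor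
    · intro x hx
      exact Finset.mem_image_of_mem _ (Finset.mem_univ _)
    · intro x hx y hy hxy
      obtain ⟨i, _, rfl⟩ := Finset.mem_image.1 hx
      obtain ⟨j, _, rfl⟩ := Finset.mem_image.1 hy
      simp only [Function.leftInverse_invFun p1 _] at hxy
      rw [q1 hxy]
    · intro y hy
      obtain ⟨i, _, rfl⟩ := Finset.mem_image.1 hy
      refine ⟨p i, Finset.mem_image_of_mem _ (Finset.mem_univ _), ?_⟩
      simp only [Function.leftInverse_invFun p1 _]
    · intro x hx y hy
      obtain ⟨i, _, rfl⟩ := Finset.mem_image.1 hx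
      obtain ⟨j, _, rfl⟩ := Finset.mem_image.1 hy
      simp only [Function.leftInverse_invFun p1 _]
      rw [p3, q3]

/-- the two neighbours of a vertex of degree two -/
theorem nbr2 {x z : X} (hx : H.degree x = 2) (hz : H.Adj x z) :
    ∃ e, e ≠ z ∧ H.Adj x e ∧ ∀ y, H.Adj x y → y = z ∨ y = e := by
  rw [← SimpleGraph.card_neighborFinset_eq_degree, Finset.card_eq_two] at hx
  obtain ⟨a, b, hab, h⟩ := hx
  have hm : ∀ y, H.Adj x y ↔ y = a ∨ y = b := by
    intro y
    rw [← SimpleGraph.mem_neighborFinset, h]; simp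
  rcases (hm z).1 hz with rfl | rfl
  · exact ⟨b, hab.symm, (hm b).2 (Or.inr rfl), fun y hy => (hm y).1 hy⟩
  · exact ⟨a, hab, (hm a).2 (Or.inl rfl), fun y hy => ((hm y).1 hy).symm⟩

theorem nbr1 {x z : X} (hx : H.degree x = 1) (hz : H.Adj x z) :
    ∀ y, H.Adj x y → y = z := by
  rw [← SimpleGraph.card_neighborFinset_eq_degree, Finset.card_eq_one] at hx
  obtain ⟨a, h⟩ := hx
  have hm : ∀ y, H.Adj x y ↔ y = a := by
    intro y
    rw [← SimpleGraph.mem_neighborFinset, h]; simp
  intro y hy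
  rw [(hm y).1 hy, (hm z).1 hz]

theorem deg_pos {x z : X} (hz : H.Adj x z) : 0 < H.degree x :=
  (SimpleGraph.degree_pos_iff_exists_adj (G := H) (v := x)).2 ⟨z, hz⟩

theorem comp1 {A : Finset X} {x : X} (hx : x ∈ A) (h0 : H.degree x = 0) : Comp H 1 A := by
  refine ⟨fun _ => x, fun i j _ => Subsingleton.elim _ _, fun _ => hx, ?_, ?_⟩
  · intro i j
    have := i.isLt; have := j.isLt
    constructor
    · intro h; exact absurd h (H.irrefl)
    · intro h; omega
  · intro i y h
    have : 0 < H.degree x := deg_pos H h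
    omega

theorem comp2 {A : Finset X} (hA : Cl H A) {x z : X} (hx : x ∈ A) (h0 : H.degree x = 1)
    (hz : H.Adj x z) (h1 : H.degree z = 1) : Comp H 2 A := by
  have n1 := nbr1 H h0 hz
  have n2 := nbr1 H h1 hz.symm
  have hne := hz.ne
  refine ⟨![x, z], ?_, ?_, ?_, ?_⟩
  · intro i j h
    fin_cases i <;> fin_cases j <;> simp at h ⊢ <;> first | exact hne h | exact hne h.symm
  · intro i
    fin_cases i
    · exact hx
    · exact hA x hx z hz
  · intro i j
    fin_cases i <;> fin_cases j <;> simp [hz, hz.symm]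
  · intro i y h
    fin_cases i
    · exact ⟨1, (n1 y h).symm⟩
    · exact ⟨0, (n2 y h).symm⟩

theorem comp3 {A : Finset X} (hA : Cl H A) {x a b : X} (hx : x ∈ A)
    (hab : b ≠ a) (ha : H.Adj x a) (hb : H.Adj x b) (hx2 : ∀ y, H.Adj x y → y = a ∨ y = b)
    (h1 : H.degree a = 1) (h2 : H.degree b = 1) : Comp H 3 A := by
  have n1 := nbr1 H h1 ha.symm
  have n2 := nbr1 H h2 hb.symm
  have e1 : ¬ H.Adj a b := fun h => hb.ne (n1 b h).symm
  have e2 : ¬ H.Adj b a := fun h => e1 h.symm
  have d1 := ha.ne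
  have d2 := hb.ne
  refine ⟨![a, x, b], ?_, ?_, ?_, ?_⟩
  · intro i j h
    fin_cases i <;> fin_cases j <;> simp at h ⊢ <;>
      first
      | exact d1 h
      | exact d1 h.symm
      | exact d2 h
      | exact d2 h.symm
      | exact hab h
      | exact hab h.symm
  · intro i
    fin_cases i
    · exact hA x hx a ha
    · exact hx
    · exact hA x hx b hb
  · intro i j
    fin_cases i <;> fin_cases j <;> simp [ha, hb, ha.symm, hb.symm, e1, e2]
  · intro i y h
    fin_cases i
    · exact ⟨1, (n1 y h).symm⟩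
    · rcases hx2 y h with h | h
      · exact ⟨0, h.symm⟩
      · exact ⟨2, h.symm⟩
    · exact ⟨1, (n2 y h).symm⟩

/-- path `a x z b` -/
theorem comp4 {A : Finset X} (hA : Cl H A) {x z a b : X} (hx : x ∈ A)
    (hxz : H.Adj x z) (ha : H.Adj x a) (hb : H.Adj z b) (haz : a ≠ z) (hbx : b ≠ x)
    (hx2 : ∀ y, H.Adj x y → y = z ∨ y = a) (hz2 : ∀ y, H.Adj z y → y = x ∨ y = b)
    (h1 : H.degree a = 1) (h2 : H.degree b = 1) : Comp H 4 A := by
  have n1 := nbr1 H h1 ha.symm
  have n2 := nbr1 H h2 hb.symm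
  have hab : a ≠ b := by
    rintro rfl
    exact hxz.ne (n1 z hb.symm).symm
  have e1 : ¬ H.Adj a z := fun h => hxz.ne (n1 z h).symm
  have e2 : ¬ H.Adj a b := fun h => hbx (n1 b h)
  have e3 : ¬ H.Adj x b := fun h => by
    rcases hx2 b h with h | h
    · exact hb.ne h.symm
    · exact hab h.symm
  have e1' : ¬ H.Adj z a := fun h => e1 h.symm
  have e2' : ¬ H.Adj b a := fun h => e2 h.symm
  have e3' : ¬ H.Adj b x := fun h => e3 h.symm
  have d1 := ha.ne
  have d2 := hb.ne
  have d3 := hxz.ne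
  refine ⟨![a, x, z, b], ?_, ?_, ?_, ?_⟩
  · intro i j h
    fin_cases i <;> fin_cases j <;> simp at h ⊢ <;>
      first
      | exact d1 h
      | exact d1 h.symm
      | exact d2 h
      | exact d2 h.symm
      | exact d3 h
      | exact d3 h.symm
      | exact hab h
      | exact hab h.symm
      | exact haz h
      | exact haz h.symm
      | exact hbx h
      | exact hbx h.symm
  · intro i
    fin_cases i
    · exact hA x hx a ha
    · exact hx
    · exact hA x hx z hxz
    · exact hA z (hA x hx z hxz) b hb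
  · intro i j
    fin_cases i <;> fin_cases j <;>
      simp [ha, hb, hxz, ha.symm, hb.symm, hxz.symm, e1, e2, e3, e1', e2', e3']
  · intro i y h
    fin_cases i
    · exact ⟨1, (n1 y h).symm⟩
    · rcases hx2 y h with h | h
      · exact ⟨2, h.symm⟩
      · exact ⟨0, h.symm⟩
    · rcases hz2 y h with h | h
      · exact ⟨1, h.symm⟩
      · exact ⟨3, h.symm⟩
    · exact ⟨2, (n2 y h).symm⟩

theorem one_of {x y z : X} (hH : P4 H) (hx : H.degree x = 2) (hy : H.Adj x y) (hz : H.Adj x z)
    (h : y ≠ z) (hy2 : H.degree y = 2) : H.degree z = 1 := by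
  have h1 := (hH z).1
  have h2 := deg_pos H hz.symm
  have h3 : H.degree z ≠ 2 := by
    intro h3
    have h4 := (hH x).2 hx
    rw [Finset.card_le_one] at h4
    exact h (h4 y (by simp [hy, hy2]) z (by simp [hz, h3]))
  omega

theorem caseQ {A : Finset X} (hA : Cl H A) (hH : P4 H) (h : 0 < Q H A) : Comp H 4 A := by
  have : ∃ x ∈ A, 0 < (if H.degree x = 2 then
      ((H.neighborFinset x).filter (fun z => H.degree z = 2)).card else 0) := by
    by_contra hc
    push Not at hc
    have : Q H A = 0 := Finset.sum_eq_zero (fun x hx => Nat.le_zero.1 (hc x hx))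
    omega
  obtain ⟨x, hx, h⟩ := this
  split_ifs at h with h2
  · obtain ⟨z, hz⟩ := Finset.card_pos.1 h
    rw [Finset.mem_filter, SimpleGraph.mem_neighborFinset] at hz
    obtain ⟨hxz, hz2⟩ := hz
    obtain ⟨a, haz, ha, hx2⟩ := nbr2 H h2 hxz
    obtain ⟨b, hbx, hb, hzz⟩ := nbr2 H hz2 hxz.symm
    exact comp4 H hA hx hxz ha hb haz hbx hx2 hzz
      (one_of H hH h2 hxz ha haz.symm hz2) (one_of H hH hz2 hxz.symm hb hbx.symm h2)
  · omega

theorem caseN {A : Finset X} (hA : Cl H A) (hH : P4 H) (hq : Q H A = 0) (h : 0 < N H A) :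
    Comp H 3 A := by
  have : ∃ x ∈ A, 0 < (if H.degree x = 2 then 1 else 0) := by
    by_contra hc
    push Not at hc
    have : N H A = 0 := Finset.sum_eq_zero (fun x hx => Nat.le_zero.1 (hc x hx))
    omega
  obtain ⟨x, hx, h⟩ := this
  split_ifs at h with h2
  · have h3 : (if H.degree x = 2 then
      ((H.neighborFinset x).filter (fun z => H.degree z = 2)).card else 0) = 0 :=
        (Finset.sum_eq_zero_iff.1 hq) x hx
    rw [if_pos h2, Finset.card_eq_zero] at h3
    have h4 : ∀ z, H.Adj x z → H.degree z = 1 := by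
      intro z hz
      have h5 := (hH z).1
      have h6 := deg_pos H hz.symm
      have h7 : H.degree z ≠ 2 := by
        intro h7
        have : z ∈ ((H.neighborFinset x).filter (fun z => H.degree z = 2)) := by simp [hz, h7]
        rw [h3] at this
        simp at this
      omega
    obtain ⟨a, ha⟩ := (SimpleGraph.degree_pos_iff_exists_adj (G := H) (v := x)).1 (by omega)
    obtain ⟨b, hab, hb, hx2⟩ := nbr2 H h2 ha
    exact comp3 H hA hx hab ha hb hx2 (h4 a ha) (h4 b hb)
  · omega

theorem degN {A : Finset X} (hH : P4 H) (hn : N H A = 0) {x : X} (hx : x ∈ A) :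
    H.degree x ≤ 1 := by
  have h3 : (if H.degree x = 2 then 1 else 0) = 0 := (Finset.sum_eq_zero_iff.1 hn) x hx
  have h1 := (hH x).1
  split_ifs at h3 with h
  omega

theorem case1 {A : Finset X} (h : D H A < A.card) :
    Comp H 1 A := by
  have : ∃ x ∈ A, H.degree x < 1 := by
    by_contra hc
    push Not at hc
    have : A.card ≤ D H A := by
      rw [Finset.card_eq_sum_ones]
      exact Finset.sum_le_sum hc
    omega
  obtain ⟨x, hx, h⟩ := this
  exact comp1 H hx (by omega)

theorem case2 {A : Finset X} (hA : Cl H A) (hH : P4 H) (hn : N H A = 0)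
    (h : ¬ D H A < A.card) (hne : A.Nonempty) : Comp H 2 A := by
  have h1 : ∀ x ∈ A, H.degree x = 1 := by
    intro x hx
    by_contra hc
    apply h
    rw [Finset.card_eq_sum_ones]
    refine Finset.sum_lt_sum (fun y hy => degN H hH hn hy) ⟨x, hx, ?_⟩
    have := degN H hH hn hx
    omega
  obtain ⟨x, hx⟩ := hne
  obtain ⟨z, hz⟩ := (SimpleGraph.degree_pos_iff_exists_adj (G := H) (v := x)).1
    (by have := h1 x hx; omega)
  exact comp2 H hA hx (h1 x hx) hz (h1 z (hA x hx z hz))

theorem sdiff_nums {A C : Finset X} (h : C ⊆ A) :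
    D H (A \ C) + D H C = D H A ∧ N H (A \ C) + N H C = N H A ∧ Q H (A \ C) + Q H C = Q H A :=
  ⟨Finset.sum_sdiff h, Finset.sum_sdiff h, Finset.sum_sdiff h⟩

theorem sdiff_cl {A C : Finset X} (hA : Cl H A) (hC : Cl H C) : Cl H (A \ C) := by
  intro x hx y hxy
  rw [Finset.mem_sdiff] at hx ⊢
  exact ⟨hA x hx.1 y hxy, fun h => hx.2 (hC y h x hxy.symm)⟩

theorem main (e0 : X ≃ Y) (hH : P4 H) (hK : P4 K) (n : ℕ) :
    ∀ (A : Finset X) (B : Finset Y), A.card = n → Cl H A → Cl K B → A.card = B.card →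
      D H A = D K B → N H A = N K B → Q H A = Q K B → ∃ f, PI H K A B f := by
  induction n using Nat.strong_induction_on with
  | _ n ih =>
    intro A B hn hA hB hc hD hN hQ
    by_cases hne : A.Nonempty
    · have hne' : B.Nonempty := by
        rw [← Finset.card_pos] at hne ⊢; omega
      have key : ∃ m, 0 < m ∧ Comp H m A ∧ Comp K m B := by
        by_cases q : 0 < Q H A
        · exact ⟨4, by norm_num, caseQ H hA hH q, caseQ K hB hK (hQ ▸ q)⟩
        · have q0 : Q H A = 0 := by omega
          by_cases q' : 0 < N H A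
          · exact ⟨3, by norm_num, caseN H hA hH q0 q', caseN K hB hK (hQ ▸ q0) (hN ▸ q')⟩
          · have n0 : N H A = 0 := by omega
            by_cases d : D H A < A.card
            · exact ⟨1, by norm_num, case1 H d, case1 K (by omega)⟩
            · exact ⟨2, by norm_num, case2 H hA hH n0 d hne,
                case2 K hB hK (hN ▸ n0) (by omega) hne'⟩
      obtain ⟨m, hm, c1, c2⟩ := key
      obtain ⟨C, E, g, hCA, hEB, hCne, hC, hE, hg⟩ := exists_PI H K hm c1 c2
      obtain ⟨k1, k2, k3, k4⟩ := nums H K hg hC hE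
      obtain ⟨s1, s2, s3⟩ := sdiff_nums H hCA
      obtain ⟨t1, t2, t3⟩ := sdiff_nums K hEB
      have u1 := Finset.card_sdiff_add_card_eq_card hCA
      have u2 := Finset.card_sdiff_add_card_eq_card hEB
      have u3 := Finset.card_pos.2 hCne
      obtain ⟨f, hf⟩ := ih (A \ C).card (by omega) (A \ C) (B \ E) rfl (sdiff_cl H hA hC)
        (sdiff_cl K hB hE) (by omega) (by omega) (by omega) (by omega)
      exact ⟨_, glue H K hCA hEB hC hE hf hg⟩
    · rw [Finset.not_nonempty_iff_eq_empty] at hne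
      subst hne
      have : B = ∅ := by
        rw [← Finset.card_eq_zero, ← hc]; rfl
      subst this
      exact ⟨e0, ⟨by simp, by simp, by simp, by simp⟩⟩

end

end IsoGenAux

theorem iso_of_P4 {X Y : Type*} [Fintype X] [DecidableEq X] [Fintype Y] [DecidableEq Y]
    (H : SimpleGraph X) [DecidableRel H.Adj] (K : SimpleGraph Y) [DecidableRel K.Adj]
    (hH : P4 H) (hK : P4 K)
    (hcard : Fintype.card X = Fintype.card Y)
    (hdeg : ∑ x, H.degree x = ∑ y, K.degree y)
    (h2 : (Finset.univ.filter (fun x => H.degree x = 2)).card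
      = (Finset.univ.filter (fun y => K.degree y = 2)).card)
    (hq : ∑ x ∈ Finset.univ.filter (fun x => H.degree x = 2),
        ((H.neighborFinset x).filter (fun z => H.degree z = 2)).card
      = ∑ y ∈ Finset.univ.filter (fun y => K.degree y = 2),
        ((K.neighborFinset y).filter (fun z => K.degree z = 2)).card) :
    Nonempty (H ≃g K) := by
  obtain ⟨f, hf⟩ := IsoGenAux.main H K (Fintype.equivOfCardEq hcard) hH hK _
    Finset.univ Finset.univ rfl (fun _ _ _ _ => Finset.mem_univ _)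
    (fun _ _ _ _ => Finset.mem_univ _) (by simpa using hcard) hdeg
    (by
      unfold IsoGenAux.N
      rw [← Finset.card_filter, ← Finset.card_filter]; exact h2)
    (by
      unfold IsoGenAux.Q
      rw [← Finset.sum_filter, ← Finset.sum_filter]; exact hq)
  have hb : Function.Bijective f :=
    ⟨fun x y h => hf.inj x (Finset.mem_univ _) y (Finset.mem_univ _) h,
      fun y => by
        obtain ⟨x, _, h⟩ := hf.surj y (Finset.mem_univ _)
        exact ⟨x, h⟩⟩
  exact ⟨⟨Equiv.ofBijective f hb, fun {a b} =>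
    (hf.adj a (Finset.mem_univ _) b (Finset.mem_univ _)).symm⟩⟩

end Pool.Agent.Lib.Ando
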