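import Mathlib
import Pool.Agent.Lib.Ando.Defs

set_option autoImplicit false
set_option linter.unusedSectionVars false

namespace Pool.Agent.Lib.Ando

variable {V : Type*} [Fintype V] [DecidableEq V] (G : SimpleGraph V) [DecidableRel G.Adj]

variable {G} in
theorem mem_sm {S : Finset V} {v w : V} :
    w ∈ sm G S v ↔ G.Adj v w ∧ (w ∈ S ↔ v ∈ S) := by
  simp [sm]

variable {G} in
theorem mem_op {S : Finset V} {v w : V} :
    w ∈ op G S v ↔ G.Adj v w ∧ ¬ (w ∈ S ↔ v ∈ S) := by
  simp [op]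

variable {G} in
theorem sm_symm {S : Finset V} {v w : V} (h : w ∈ sm G S v) : v ∈ sm G S w := by
  rw [mem_sm] at h ⊢
  exact ⟨h.1.symm, h.2.symm⟩

variable {G} in
theorem op_symm {S : Finset V} {v w : V} (h : w ∈ op G S v) : v ∈ op G S w := by
  rw [mem_op] at h ⊢
  exact ⟨h.1.symm, fun h' => h.2 h'.symm⟩

theorem sm_disj_op (S : Finset V) (v : V) : Disjoint (sm G S v) (op G S v) := by
  rw [Finset.disjoint_left]
  intro w h1 h2
  rw [mem_sm] at h1
  rw [mem_op] at h2
  exact h2.2 h1.2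

theorem sm_union_op (S : Finset V) (v : V) : sm G S v ∪ op G S v = G.neighborFinset v := by
  ext w
  rw [Finset.mem_union, mem_sm, mem_op, SimpleGraph.mem_neighborFinset]
  tauto

variable {G} in
theorem sd_add_op (hG : G.IsRegularOfDegree 3) (S : Finset V) (v : V) :
    sd G S v + (op G S v).card = 3 := by
  have h := hG v
  rw [← SimpleGraph.card_neighborFinset_eq_degree, ← sm_union_op G S v,
    Finset.card_union_of_disjoint (sm_disj_op G S v)] at h
  exact h

theorem sm_compl (S : Finset V) (v : V) : sm G Sᶜ v = sm G S v := by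
  ext w
  rw [mem_sm, mem_sm, Finset.mem_compl, Finset.mem_compl]
  tauto

theorem op_compl (S : Finset V) (v : V) : op G Sᶜ v = op G S v := by
  ext w
  rw [mem_op, mem_op, Finset.mem_compl, Finset.mem_compl]
  tauto

theorem sd_compl (S : Finset V) (v : V) : sd G Sᶜ v = sd G S v := by
  unfold sd; rw [sm_compl]

theorem mm_compl (S : Finset V) : mm G Sᶜ = mm G S := by
  unfold mm; simp_rw [sd_compl]

theorem imb_compl (S : Finset V) : imb Sᶜ = - imb S := by
  unfold imb; rw [compl_compl]; ring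

/-- Neighbours of the same colour after the exchange on `F`, for a vertex outside `F`. -/
theorem sm_flip_not_mem {S F : Finset V} {v : V} (hv : v ∉ F) :
    sm G (symmDiff S F) v = (sm G S v \ F) ∪ (op G S v ∩ F) := by
  ext w
  rw [Finset.mem_union, Finset.mem_sdiff, Finset.mem_inter, mem_sm, mem_sm, mem_op,
    Finset.mem_symmDiff, Finset.mem_symmDiff]
  tauto

/-- Neighbours of the same colour after the exchange on `F`, for a vertex of `F`. -/
theorem sm_flip_mem {S F : Finset V} {v : V} (hv : v ∈ F) :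
    sm G (symmDiff S F) v = (op G S v \ F) ∪ (sm G S v ∩ F) := by
  ext w
  rw [Finset.mem_union, Finset.mem_sdiff, Finset.mem_inter, mem_sm, mem_sm, mem_op,
    Finset.mem_symmDiff, Finset.mem_symmDiff]
  tauto

theorem op_flip_not_mem {S F : Finset V} {v : V} (hv : v ∉ F) :
    op G (symmDiff S F) v = (op G S v \ F) ∪ (sm G S v ∩ F) := by
  ext w
  rw [Finset.mem_union, Finset.mem_sdiff, Finset.mem_inter, mem_op, mem_op, mem_sm,
    Finset.mem_symmDiff, Finset.mem_symmDiff]
  tauto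

theorem op_flip_mem {S F : Finset V} {v : V} (hv : v ∈ F) :
    op G (symmDiff S F) v = (sm G S v \ F) ∪ (op G S v ∩ F) := by
  ext w
  rw [Finset.mem_union, Finset.mem_sdiff, Finset.mem_inter, mem_op, mem_op, mem_sm,
    Finset.mem_symmDiff, Finset.mem_symmDiff]
  tauto

/-- Both colours see the same number of bichromatic edges. -/
theorem sum_op_eq (S : Finset V) :
    ∑ v ∈ S, (op G S v).card = ∑ v ∈ Sᶜ, (op G S v).card := by
  have h : ∀ A : Finset V, ∑ v ∈ A, (op G S v).card
      = ∑ v ∈ A, ∑ w, if (G.Adj v w ∧ ¬ (w ∈ S ↔ v ∈ S)) then 1 else 0 := by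
    intro A
    refine Finset.sum_congr rfl fun v _ => ?_
    unfold op
    rw [Finset.card_filter]
  rw [h, h]
  have h1 : ∀ v ∈ S, (∑ w, if (G.Adj v w ∧ ¬ (w ∈ S ↔ v ∈ S)) then 1 else 0)
      = ∑ w ∈ Sᶜ, if G.Adj v w then 1 else 0 := by
    intro v hv
    rw [← Finset.sum_compl_add_sum S]
    have h2 : (∑ w ∈ S, if (G.Adj v w ∧ ¬ (w ∈ S ↔ v ∈ S)) then 1 else 0) = 0 := by
      apply Finset.sum_eq_zero
      intro w hw
      rw [if_neg]
      rintro ⟨_, h3⟩
      exact h3 ⟨fun _ => hv, fun _ => hw⟩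
    rw [h2, add_zero]
    refine Finset.sum_congr rfl fun w hw => ?_
    rw [Finset.mem_compl] at hw
    by_cases ha : G.Adj v w
    · rw [if_pos ha, if_pos]
      exact ⟨ha, fun h3 => hw (h3.2 hv)⟩
    · rw [if_neg ha, if_neg]
      exact fun h3 => ha h3.1
  have h1' : ∀ v ∈ Sᶜ, (∑ w, if (G.Adj v w ∧ ¬ (w ∈ S ↔ v ∈ S)) then 1 else 0)
      = ∑ w ∈ S, if G.Adj w v then 1 else 0 := by
    intro v hv
    rw [Finset.mem_compl] at hv
    rw [← Finset.sum_add_sum_compl S]
    have h2 : (∑ w ∈ Sᶜ, if (G.Adj v w ∧ ¬ (w ∈ S ↔ v ∈ S)) then 1 else 0) = 0 := by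
      apply Finset.sum_eq_zero
      intro w hw
      rw [Finset.mem_compl] at hw
      rw [if_neg]
      rintro ⟨_, h3⟩
      exact h3 ⟨fun h => absurd h hw, fun h => absurd h hv⟩
    rw [h2, add_zero]
    refine Finset.sum_congr rfl fun w hw => ?_
    by_cases ha : G.Adj w v
    · rw [if_pos ha, if_pos]
      exact ⟨ha.symm, fun h3 => hv (h3.1 hw)⟩
    · rw [if_neg ha, if_neg]
      exact fun h3 => ha h3.1.symm
  rw [Finset.sum_congr rfl h1, Finset.sum_congr rfl h1', Finset.sum_comm]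

variable {G} in
/-- `2 e(W) - 2 e(B) = 3 (|W| - |B|)`. -/
theorem sum_sd_sub (hG : G.IsRegularOfDegree 3) (S : Finset V) :
    (∑ v ∈ S, (sd G S v : ℤ)) - ∑ v ∈ Sᶜ, (sd G S v : ℤ) = 3 * imb S := by
  have h := sum_op_eq G S
  have h1 : ∀ A : Finset V, ((∑ v ∈ A, (op G S v).card : ℕ) : ℤ)
      = 3 * (A.card : ℤ) - ∑ v ∈ A, (sd G S v : ℤ) := by
    intro A
    rw [Nat.cast_sum]
    have : ∀ v ∈ A, (((op G S v).card : ℕ) : ℤ) = 3 - (sd G S v : ℤ) := by
      intro v _
      have := sd_add_op hG S v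
      omega
    rw [Finset.sum_congr rfl this, Finset.sum_sub_distrib, Finset.sum_const, nsmul_eq_mul]
    ring
  have h2 := h1 S
  have h3 := h1 Sᶜ
  rw [h] at h2
  unfold imb
  linarith

variable {G} in
/-- In a cubic graph the imbalance is even. -/
theorem imb_even (hG : G.IsRegularOfDegree 3) (S : Finset V) : ∃ j : ℤ, imb S = 2 * j := by
  have h1 : S.card + Sᶜ.card = Fintype.card V := Finset.card_add_card_compl S
  have h2 : Even (Fintype.card V) := by
    have h3 := G.sum_degrees_eq_twice_card_edges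
    have h4 : ∑ v, G.degree v = Fintype.card V * 3 := by
      rw [Finset.sum_congr rfl (fun v _ => hG v), Finset.sum_const, Finset.card_univ, smul_eq_mul]
    rw [h4] at h3
    have h5 : Even (Fintype.card V * 3) := ⟨G.edgeFinset.card, by omega⟩
    rcases Nat.even_mul.1 h5 with h6 | h6
    · exact h6
    · exact absurd h6 (by decide)
  obtain ⟨m, hm⟩ := h2
  refine ⟨(S.card : ℤ) - m, ?_⟩
  unfold imb
  omega

end Pool.Agent.Lib.Ando
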