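import Mathlib
import Pool.Agent.Lib.Ando.Basic

set_option autoImplicit false
set_option linter.unusedSectionVars false

/-!
# Ando.Trans: translation to the induced subgraph

For v in S the degree of v in `G.induce S` is `sd G S v` (the neighbours of v in S are exactly `sm G S v`, because v is in S).
So `Good4` gives `P4` for the induced graph, and the sums over the subtype are the sums over `S`
(`Finset.sum_coe_sort`, `Finset.sum_subtype`, `Finset.card_bij` with `Subtype.val`).
-/

namespace Pool.Agent.Lib.Ando

variable {V : Type*} [Fintype V] [DecidableEq V] (G : SimpleGraph V) [DecidableRel G.Adj]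

namespace TransAux

theorem map_nbr (S : Finset V) (v : (S : Set V)) :
    ((G.induce (S : Set V)).neighborFinset v).map (Function.Embedding.subtype _) = sm G S v.1 := by
  ext w
  have hv : v.1 ∈ S := v.2
  rw [Finset.mem_map, mem_sm]
  constructor
  · rintro ⟨x, hx, rfl⟩
    have hx' : G.Adj v.1 x.1 := by simpa using hx
    exact ⟨hx', ⟨fun _ => hv, fun _ => x.2⟩⟩
  · rintro ⟨h1, h2⟩
    have hw : w ∈ S := h2.2 hv
    exact ⟨⟨w, hw⟩, by simpa using h1, rfl⟩

end TransAux

open TransAux

theorem deg_induce (S : Finset V) (v : (S : Set V)) :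
    (G.induce (S : Set V)).degree v = sd G S v.1 := by
  unfold sd
  rw [← map_nbr G S v, Finset.card_map, SimpleGraph.card_neighborFinset_eq_degree]

namespace TransAux

theorem card_filter_nbr (S : Finset V) (v : (S : Set V)) :
    (((G.induce (S : Set V)).neighborFinset v).filter
      (fun y => (G.induce (S : Set V)).degree y = 2)).card
      = ((sm G S v.1).filter (fun w => sd G S w = 2)).card := by
  rw [← map_nbr G S v, Finset.filter_map, Finset.card_map]
  congr 1
  apply Finset.filter_congr
  intro y _
  rw [deg_induce]
  rfl

theorem sum_sub (S : Finset V) (f : V → ℕ) :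
    ∑ v : (S : Set V), f v.1 = ∑ v ∈ S, f v := by
  exact (Finset.sum_coe_sort S f)

end TransAux

theorem P4_induce (S : Finset V) (h : Good4 G S) : P4 (G.induce (S : Set V)) := by
  intro x
  refine ⟨?_, ?_⟩
  · rw [deg_induce]
    exact (h x.1).1
  · intro hx
    rw [deg_induce] at hx
    rw [card_filter_nbr]
    exact (h x.1).2 hx

theorem sum_deg_induce (S : Finset V) :
    ∑ v, (G.induce (S : Set V)).degree v = ∑ v ∈ S, sd G S v := by
  rw [← sum_sub S (fun v => sd G S v)]
  exact Finset.sum_congr rfl fun v _ => deg_induce G S v

theorem n2_induce (S : Finset V) :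
    (Finset.univ.filter (fun v => (G.induce (S : Set V)).degree v = 2)).card = n2 G S S := by
  unfold n2
  rw [Finset.card_filter, Finset.card_filter, ← sum_sub S (fun v => if sd G S v = 2 then 1 else 0)]
  refine Finset.sum_congr rfl fun v _ => ?_
  rw [deg_induce]

theorem q2_induce (S : Finset V) :
    ∑ v ∈ Finset.univ.filter (fun v => (G.induce (S : Set V)).degree v = 2),
        (((G.induce (S : Set V)).neighborFinset v).filter
          (fun w => (G.induce (S : Set V)).degree w = 2)).card = q2 G S S := by
  unfold q2
  rw [Finset.sum_filter, Finset.sum_filter, ← sum_sub S (fun v => if sd G S v = 2 then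
    ((sm G S v).filter (fun w => sd G S w = 2)).card else 0)]
  refine Finset.sum_congr rfl fun v _ => ?_
  rw [card_filter_nbr, deg_induce]

end Pool.Agent.Lib.Ando
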