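import Mathlib
import Pool.Agent.Lib.Ando.Trans
import Pool.Agent.Lib.Ando.Acyc
import Pool.Agent.Lib.Ando.Comp4
import Pool.Agent.Lib.Ando.IsoGen

set_option autoImplicit false
set_option linter.unusedSectionVars false

/-!
# Ando.GoodOf: a balanced `Good4` colouring with matching numbers is a Strong Ando colouring

Proof. Use S itself. imb S = 0 gives card S = card of the complement. P4 for both induced graphs: `P4_induce` for S and for the
complement (`sd_compl`, `sm_compl` give `Good4 G Sᶜ`). `iso_of_P4`: equal cardinalities (`Fintype.card_coe`), the sums of degrees are equal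
by `sum_deg_induce` and `sum_sd_sub` (imb S = 0), the other two numbers by hypothesis, with n2 G Sᶜ Sᶜ = n2 G S Sᶜ and
q2 G Sᶜ Sᶜ = q2 G S Sᶜ (`sd_compl`, `sm_compl`). Acyclic and components: `P4.isAcyclic`, `P4.comp_le`. The two degree statements: for v in S,
(S.filter (G.Adj v)) has the same elements as `sm G S v`, so the card is sd <= 2. Mind the instances (Fintype / DecidableRel of
the induced graph): avoid `convert` on whole goals; `SimpleGraph.degree` with different instances agree by `Subsingleton.elim` / `congr`.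

`good_of_level_zero`: for k = 0 take the level colouring S itself: imb S = 0; all sd <= 1, so Good4 holds and n2, q2 are 0.
-/

namespace Pool.Agent.Lib.Ando

variable {V : Type*} [Fintype V] [DecidableEq V] (G : SimpleGraph V) [DecidableRel G.Adj]

namespace GoodOfAux

theorem good4_compl {S : Finset V} (h : Good4 G S) : Good4 G Sᶜ := by
  intro v
  simp only [sd_compl, sm_compl]
  exact h v

theorem deg_le {S : Finset V} (h : Good4 G S) : ∀ v ∈ S, (S.filter (fun w => G.Adj v w)).card ≤ 2 := by
  intro v hv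
  have h1 : S.filter (fun w => G.Adj v w) = sm G S v := by
    ext w
    rw [Finset.mem_filter, mem_sm]
    constructor
    · rintro ⟨a, b⟩
      exact ⟨b, fun _ => hv, fun _ => a⟩
    · rintro ⟨a, b⟩
      exact ⟨b.2 hv, a⟩
  rw [h1]
  exact (h v).1

theorem n2_compl (S A : Finset V) : n2 G Sᶜ A = n2 G S A := by
  unfold n2
  simp only [sd_compl]

theorem q2_compl (S A : Finset V) : q2 G Sᶜ A = q2 G S A := by
  unfold q2
  simp only [sd_compl, sm_compl]

end GoodOfAux

open GoodOfAux

variable {G} in
theorem good_of (hG : G.IsRegularOfDegree 3) (S : Finset V) (h0 : imb S = 0) (h4 : Good4 G S)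
    (hn : n2 G S S = n2 G S Sᶜ) (hq : q2 G S S = q2 G S Sᶜ) : Good G := by
  have hc : S.card = Sᶜ.card := by
    unfold imb at h0
    omega
  have h4' := good4_compl G h4
  have p1 := P4_induce G S h4
  have p2 := P4_induce G Sᶜ h4'
  refine ⟨S, hc, ?_, P4.isAcyclic _ p1, P4.isAcyclic _ p2, deg_le G h4, deg_le G h4',
    P4.comp_le _ p1, P4.comp_le _ p2⟩
  refine iso_of_P4 _ _ p1 p2 ?_ ?_ ?_ ?_
  · have e : ∀ T : Finset V, Fintype.card ((T : Set V)) = T.card := fun T => by simp
    rw [e S, e Sᶜ]
    exact hc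
  · rw [sum_deg_induce, sum_deg_induce]
    have h5 := sum_sd_sub hG S
    rw [h0] at h5
    have h6 : ∑ v ∈ Sᶜ, sd G Sᶜ v = ∑ v ∈ Sᶜ, sd G S v := by
      simp only [sd_compl]
    rw [h6]
    have h7 : ((∑ v ∈ S, sd G S v : ℕ) : ℤ) = ((∑ v ∈ Sᶜ, sd G S v : ℕ) : ℤ) := by
      rw [Nat.cast_sum, Nat.cast_sum]
      linarith
    exact_mod_cast h7
  · rw [n2_induce, n2_induce, n2_compl]
    exact hn
  · rw [q2_induce, q2_induce, q2_compl]
    exact hq

variable {G} in
theorem good_of_level_zero (hG : G.IsRegularOfDegree 3) {S : Finset V} (h : Level G 0 S) :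
    Good G := by
  have h0 : imb S = 0 := by
    rw [h.imb_eq]; simp
  have hne : ∀ v, sd G S v ≠ 2 := fun v => by
    have := h.tf v
    omega
  have h4 : Good4 G S := fun v => ⟨by have := h.tf v; omega, fun h2 => absurd h2 (hne v)⟩
  have hf : ∀ A : Finset V, A.filter (fun v => sd G S v = 2) = ∅ := fun A =>
    Finset.filter_eq_empty_iff.2 fun v _ => hne v
  refine good_of hG S h0 h4 ?_ ?_
  · unfold n2
    rw [hf, hf]
  · unfold q2
    rw [hf, hf]

end Pool.Agent.Lib.Ando
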