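import Mathlib
import Pool.Agent.Lib.Ando.Basic

set_option autoImplicit false
set_option linter.unusedSectionVars false

/-!
# Ando.Union: exchanges in disjoint territories do not interact (any graph)

Let all sd G S v <= 1. `ter G S F` is F, together with its neighbours N(F), together with the monochromatic neighbours of vertices of N(F).

`ter_closed`: for v in the territory of F, sm (symmDiff S F) v is contained in the territory. If v is in F: it is contained in the
neighbours of v. If v is in N(F), not in F: by `sm_flip_not_mem` it is contained in sm S v (third part) and F. Otherwise v is in sm S w with w in N(F), and v is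
not in F and has no neighbour in F; so sm (symmDiff S F) v = sm S v (`sm_flip_not_mem`: sm S v and op S v do not meet F), which is {w} because sd S v <= 1 and w is in
sm S v; and w is in N(F).

`one_out`: for v outside F and without neighbour in F (in particular v outside the territory): sm is unchanged.

`union_in`: let s be a finite set of indices with pairwise disjoint territories, U = s.biUnion F. For i in s and v in ter (F i): v and the neighbours of v
are in U iff they are in F i (if a neighbour w of v, or v itself, is in F j then v is in ter (F j), so j = i by disjointness). So v in symmDiff S U iff v in symmDiff S (F i),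
the same for the neighbours of v, and sm (symmDiff S U) v = sm (symmDiff S (F i)) v.

`union_out`: v outside all territories has no neighbour in U and is not in U, so sm is unchanged, and v in symmDiff S U iff v in S.
-/

namespace Pool.Agent.Lib.Ando

variable {V : Type*} [Fintype V] [DecidableEq V] (G : SimpleGraph V) [DecidableRel G.Adj]

namespace UnionAux

variable {G} in
theorem mem_ter {S F : Finset V} {v : V} : v ∈ ter G S F ↔
    v ∈ F ∨ (∃ u ∈ F, G.Adj u v) ∨ ∃ w, (∃ u ∈ F, G.Adj u w) ∧ v ∈ sm G S w := by
  unfold ter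
  rw [Finset.mem_union, Finset.mem_union, Finset.mem_filter, Finset.mem_filter, or_assoc]
  simp only [Finset.mem_univ, true_and]

theorem flip_agree (S : Finset V) {F F' : Finset V} {v : V} (hv : v ∈ F ↔ v ∈ F')
    (hw : ∀ w, G.Adj v w → (w ∈ F ↔ w ∈ F')) :
    (v ∈ symmDiff S F ↔ v ∈ symmDiff S F') ∧ sm G (symmDiff S F) v = sm G (symmDiff S F') v := by
  have h1 : v ∈ symmDiff S F ↔ v ∈ symmDiff S F' := by
    rw [Finset.mem_symmDiff, Finset.mem_symmDiff, hv]
  refine ⟨h1, ?_⟩
  ext w
  rw [mem_sm, mem_sm]
  constructor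
  · rintro ⟨ha, h⟩
    refine ⟨ha, ?_⟩
    rw [← h1, ← h, Finset.mem_symmDiff, Finset.mem_symmDiff, hw w ha]
  · rintro ⟨ha, h⟩
    refine ⟨ha, ?_⟩
    rw [h1, ← h, Finset.mem_symmDiff, Finset.mem_symmDiff, hw w ha]

end UnionAux

open UnionAux

theorem ter_closed {S F : Finset V} (htf : ∀ v, sd G S v ≤ 1) {v : V} (hv : v ∈ ter G S F) :
    sm G (symmDiff S F) v ⊆ ter G S F := by
  intro y hy
  rw [mem_ter]
  by_cases hvF : v ∈ F
  · exact Or.inr (Or.inl ⟨v, hvF, (mem_sm.1 hy).1⟩)
  rw [sm_flip_not_mem G hvF, Finset.mem_union] at hy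
  rcases hy with hy | hy
  · have hy1 := (Finset.mem_sdiff.1 hy).1
    by_cases hN : ∃ u ∈ F, G.Adj u v
    · exact Or.inr (Or.inr ⟨v, hN, hy1⟩)
    · rcases mem_ter.1 hv with h | h | ⟨w, hw, h⟩
      · exact absurd h hvF
      · exact absurd h hN
      · have h1 := Finset.card_le_one.1 (htf v) y hy1 w (sm_symm h)
        subst h1
        exact Or.inr (Or.inl hw)
  · exact Or.inl (Finset.mem_inter.1 hy).2

theorem one_out {S F : Finset V} {v : V} (hv : v ∉ ter G S F) :
    sm G (symmDiff S F) v = sm G S v := by
  have h1 : v ∉ F := fun h => hv (mem_ter.2 (Or.inl h))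
  have h2 : ∀ w, G.Adj v w → w ∉ F := fun w ha h =>
    hv (mem_ter.2 (Or.inr (Or.inl ⟨w, h, ha.symm⟩)))
  have h3 := (flip_agree G S (F := F) (F' := ∅) (v := v) (by simp [h1])
    (fun w ha => by simp [h2 w ha])).2
  have h4 : symmDiff S (∅ : Finset V) = S := symmDiff_bot S
  rwa [h4] at h3

theorem union_in {I : Type*} [DecidableEq I] (S : Finset V) (s : Finset I) (F : I → Finset V)
    (hd : ∀ i ∈ s, ∀ j ∈ s, i ≠ j → Disjoint (ter G S (F i)) (ter G S (F j)))
    {i : I} (hi : i ∈ s) {v : V} (hv : v ∈ ter G S (F i)) :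
    (v ∈ symmDiff S (s.biUnion F) ↔ v ∈ symmDiff S (F i)) ∧
      sm G (symmDiff S (s.biUnion F)) v = sm G (symmDiff S (F i)) v := by
  have key : ∀ j ∈ s, v ∈ ter G S (F j) → j = i := by
    intro j hj h
    by_contra hne
    exact Finset.disjoint_left.1 (hd j hj i hi hne) h hv
  apply flip_agree
  · rw [Finset.mem_biUnion]
    constructor
    · rintro ⟨j, hj, h⟩
      have := key j hj (mem_ter.2 (Or.inl h))
      subst this
      exact h
    · exact fun h => ⟨i, hi, h⟩
  · intro w ha
    rw [Finset.mem_biUnion]
    constructor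
    · rintro ⟨j, hj, h⟩
      have := key j hj (mem_ter.2 (Or.inr (Or.inl ⟨w, h, ha.symm⟩)))
      subst this
      exact h
    · exact fun h => ⟨i, hi, h⟩

theorem union_out {I : Type*} [DecidableEq I] (S : Finset V) (s : Finset I) (F : I → Finset V)
    {v : V} (hv : ∀ i ∈ s, v ∉ ter G S (F i)) :
    (v ∈ symmDiff S (s.biUnion F) ↔ v ∈ S) ∧
      sm G (symmDiff S (s.biUnion F)) v = sm G S v := by
  have h1 : v ∉ s.biUnion F := by
    rw [Finset.mem_biUnion]
    rintro ⟨j, hj, h⟩
    exact hv j hj (mem_ter.2 (Or.inl h))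
  have h2 : ∀ w, G.Adj v w → w ∉ s.biUnion F := by
    intro w ha
    rw [Finset.mem_biUnion]
    rintro ⟨j, hj, h⟩
    exact hv j hj (mem_ter.2 (Or.inr (Or.inl ⟨w, h, ha.symm⟩)))
  have h3 := flip_agree G S (F := s.biUnion F) (F' := ∅) (v := v)
    (iff_of_false h1 (Finset.notMem_empty _))
    (fun w ha => iff_of_false (h2 w ha) (Finset.notMem_empty _))
  have h4 : symmDiff S (∅ : Finset V) = S := symmDiff_bot S
  rwa [h4] at h3

end Pool.Agent.Lib.Ando
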