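import Mathlib
import Pool.Agent.Lib.Ando.Union
import Pool.Agent.Lib.Ando.GoodOf

set_option autoImplicit false
set_option linter.unusedSectionVars false

/-!
# Ando.Assem: the assembly theorem (any cubic graph)

Let all sd G S v <= 1, imb S = 2 k, and let F i (i in s) be sets with pairwise disjoint territories and effects `Eff`. If the sum of the i-values is -k and the sums of
the white and of the black numbers agree, then T = symmDiff S (s.biUnion F) satisfies the hypotheses of `good_of`.

Proof. (1) Vertices v with sd T v >= 2 lie in exactly one territory ter (F i) (outside: `union_out`, sd T v = sd S v <= 1) and there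
sm T v = sm (symmDiff S (F i)) v (`union_in`), and for the members w of sm T v, which are again in ter (F i) by `ter_closed`, also
sd T w = sd (symmDiff S (F i)) w. So `Good4 G T` follows from the `good` fields.
(2) Likewise the vertices v with sd (symmDiff S (F i)) v = 2 lie in ter (F i) (`one_out`). So
{v in T : sd T v = 2} is the disjoint union over i of {v in symmDiff S (F i) : sd (symmDiff S (F i)) v = 2}; so n2 G T T = sum of the a i; the same for the complement
(v not in T iff v not in symmDiff S (F i)), and for q2. (`Finset.card_biUnion`, `Finset.sum_biUnion`.)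
(3) imb T = imb S + sum over i of 2 * (value i): the sets F i are pairwise disjoint (F i is contained in its territory), so iot S (s.biUnion F) = sum of iot S (F i), and
imb_flip (write it here directly: card of symmDiff) gives imb (symmDiff S (F i)) = imb S + 2 iot S (F i), so the value is iot S (F i). So imb T = 2k - 2k = 0.
(If F i = F j for i /= j, the disjointness of the territories forces F i to be empty; no problem: all statements are about the
indexed family, but in (2) use the index set and the disjointness of the territories.)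
-/

namespace Pool.Agent.Lib.Ando

variable {V : Type*} [Fintype V] [DecidableEq V] (G : SimpleGraph V) [DecidableRel G.Adj]

namespace AssemAux

theorem imb_eq' (S : Finset V) : imb S = 2 * (S.card : ℤ) - (Fintype.card V : ℤ) := by
  have h := Finset.card_add_card_compl S
  unfold imb
  omega

theorem imb_flip' (S F : Finset V) : imb (symmDiff S F) = imb S + 2 * iot S F := by
  have h1 : (symmDiff S F).card = (S \ F).card + (F \ S).card := by
    have h2 : symmDiff S F = (S \ F) ∪ (F \ S) := rfl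
    rw [h2, Finset.card_union_of_disjoint]
    rw [Finset.disjoint_left]
    intro x hx hx'
    rw [Finset.mem_sdiff] at hx hx'
    exact hx'.2 hx.1
  have h2 : (S \ F).card + (S ∩ F).card = S.card := Finset.card_sdiff_add_card_inter S F
  have h3 : (F ∩ S).card = (S ∩ F).card := by rw [Finset.inter_comm]
  rw [imb_eq', imb_eq', h1]
  unfold iot
  rw [h3]
  push_cast
  omega

section

variable {G} {S : Finset V} {I : Type*} [DecidableEq I] {s : Finset I} {F : I → Finset V}

theorem sub_ter (S F : Finset V) : F ⊆ ter G S F := by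
  intro x hx
  unfold ter
  rw [Finset.mem_union, Finset.mem_union]
  exact Or.inl (Or.inl hx)

theorem sd_in (hd : ∀ i ∈ s, ∀ j ∈ s, i ≠ j → Disjoint (ter G S (F i)) (ter G S (F j)))
    {i : I} (hi : i ∈ s) {v : V} (hv : v ∈ ter G S (F i)) :
    sd G (symmDiff S (s.biUnion F)) v = sd G (symmDiff S (F i)) v := by
  unfold sd
  rw [(union_in G S s F hd hi hv).2]

theorem sm2_in (htf : ∀ v, sd G S v ≤ 1)
    (hd : ∀ i ∈ s, ∀ j ∈ s, i ≠ j → Disjoint (ter G S (F i)) (ter G S (F j)))
    {i : I} (hi : i ∈ s) {v : V} (hv : v ∈ ter G S (F i)) :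
    (sm G (symmDiff S (s.biUnion F)) v).filter (fun w => sd G (symmDiff S (s.biUnion F)) w = 2) =
      (sm G (symmDiff S (F i)) v).filter (fun w => sd G (symmDiff S (F i)) w = 2) := by
  rw [(union_in G S s F hd hi hv).2]
  refine Finset.filter_congr fun w hw => ?_
  rw [sd_in hd hi (ter_closed G htf hv hw)]

theorem sd_out (htf : ∀ v, sd G S v ≤ 1) {v : V} (hv : ∀ i ∈ s, v ∉ ter G S (F i)) :
    sd G (symmDiff S (s.biUnion F)) v ≤ 1 := by
  have h := htf v
  unfold sd at h ⊢
  rw [(union_out G S s F hv).2]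
  exact h

theorem mem_of_two (htf : ∀ v, sd G S v ≤ 1) {F : Finset V} {v : V}
    (h : sd G (symmDiff S F) v = 2) : v ∈ ter G S F := by
  by_contra hv
  have h1 := htf v
  unfold sd at h h1
  rw [one_out G hv] at h
  omega

theorem filter_eq (htf : ∀ v, sd G S v ≤ 1)
    (hd : ∀ i ∈ s, ∀ j ∈ s, i ≠ j → Disjoint (ter G S (F i)) (ter G S (F j)))
    (A : Finset V) (B : I → Finset V) (hA : ∀ i ∈ s, ∀ v ∈ ter G S (F i), (v ∈ A ↔ v ∈ B i)) :
    A.filter (fun v => sd G (symmDiff S (s.biUnion F)) v = 2) =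
      s.biUnion (fun i => (B i).filter (fun v => sd G (symmDiff S (F i)) v = 2)) := by
  ext v
  rw [Finset.mem_filter, Finset.mem_biUnion]
  constructor
  · rintro ⟨hv, h2⟩
    by_cases h : ∀ i ∈ s, v ∉ ter G S (F i)
    · have := sd_out htf h
      omega
    · push Not at h
      obtain ⟨i, hi, hv'⟩ := h
      refine ⟨i, hi, ?_⟩
      rw [Finset.mem_filter]
      refine ⟨(hA i hi v hv').1 hv, ?_⟩
      rw [← sd_in hd hi hv']
      exact h2
  · rintro ⟨i, hi, h⟩
    rw [Finset.mem_filter] at h
    have hv' := mem_of_two htf h.2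
    refine ⟨(hA i hi v hv').2 h.1, ?_⟩
    rw [sd_in hd hi hv']
    exact h.2

theorem filter_disj (htf : ∀ v, sd G S v ≤ 1)
    (hd : ∀ i ∈ s, ∀ j ∈ s, i ≠ j → Disjoint (ter G S (F i)) (ter G S (F j)))
    (B : I → Finset V) {i j : I} (hi : i ∈ s) (hj : j ∈ s) (hij : i ≠ j) :
    Disjoint ((B i).filter (fun v => sd G (symmDiff S (F i)) v = 2))
      ((B j).filter (fun v => sd G (symmDiff S (F j)) v = 2)) := by
  rw [Finset.disjoint_left]
  intro v h1 h2
  rw [Finset.mem_filter] at h1 h2
  exact Finset.disjoint_left.1 (hd i hi j hj hij) (mem_of_two htf h1.2) (mem_of_two htf h2.2)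

theorem n2_sum (htf : ∀ v, sd G S v ≤ 1)
    (hd : ∀ i ∈ s, ∀ j ∈ s, i ≠ j → Disjoint (ter G S (F i)) (ter G S (F j)))
    (A : Finset V) (B : I → Finset V) (hA : ∀ i ∈ s, ∀ v ∈ ter G S (F i), (v ∈ A ↔ v ∈ B i)) :
    n2 G (symmDiff S (s.biUnion F)) A = ∑ i ∈ s, n2 G (symmDiff S (F i)) (B i) := by
  unfold n2
  rw [filter_eq htf hd A B hA]
  exact Finset.card_biUnion fun i hi j hj hij => filter_disj htf hd B hi hj hij

theorem q2_sum (htf : ∀ v, sd G S v ≤ 1)
    (hd : ∀ i ∈ s, ∀ j ∈ s, i ≠ j → Disjoint (ter G S (F i)) (ter G S (F j)))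
    (A : Finset V) (B : I → Finset V) (hA : ∀ i ∈ s, ∀ v ∈ ter G S (F i), (v ∈ A ↔ v ∈ B i)) :
    q2 G (symmDiff S (s.biUnion F)) A = ∑ i ∈ s, q2 G (symmDiff S (F i)) (B i) := by
  unfold q2
  rw [filter_eq htf hd A B hA, Finset.sum_biUnion fun i hi j hj hij => filter_disj htf hd B hi hj hij]
  refine Finset.sum_congr rfl fun i hi => ?_
  refine Finset.sum_congr rfl fun v hv => ?_
  rw [Finset.mem_filter] at hv
  rw [sm2_in htf hd hi (mem_of_two htf hv.2)]

theorem iot_sum (hd : ∀ i ∈ s, ∀ j ∈ s, i ≠ j → Disjoint (ter G S (F i)) (ter G S (F j))) :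
    iot S (s.biUnion F) = ∑ i ∈ s, iot S (F i) := by
  have hF : ∀ i ∈ s, ∀ j ∈ s, i ≠ j → Disjoint (F i) (F j) := fun i hi j hj hij =>
    (hd i hi j hj hij).mono (sub_ter S (F i)) (sub_ter S (F j))
  have h1 : ((s.biUnion F) \ S).card = ∑ i ∈ s, (F i \ S).card := by
    have e : (s.biUnion F) \ S = s.biUnion (fun i => F i \ S) := by
      ext x
      simp only [Finset.mem_sdiff, Finset.mem_biUnion]
      constructor
      · rintro ⟨⟨i, hi, hx⟩, hxs⟩
        exact ⟨i, hi, hx, hxs⟩
      · rintro ⟨i, hi, hx, hxs⟩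
        exact ⟨⟨i, hi, hx⟩, hxs⟩
    rw [e]
    exact Finset.card_biUnion fun i hi j hj hij =>
      (hF i hi j hj hij).mono Finset.sdiff_subset Finset.sdiff_subset
  have h2 : ((s.biUnion F) ∩ S).card = ∑ i ∈ s, (F i ∩ S).card := by
    have e : (s.biUnion F) ∩ S = s.biUnion (fun i => F i ∩ S) := by
      ext x
      simp only [Finset.mem_inter, Finset.mem_biUnion]
      constructor
      · rintro ⟨⟨i, hi, hx⟩, hxs⟩
        exact ⟨i, hi, hx, hxs⟩
      · rintro ⟨i, hi, hx, hxs⟩
        exact ⟨⟨i, hi, hx⟩, hxs⟩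
    rw [e]
    exact Finset.card_biUnion fun i hi j hj hij =>
      (hF i hi j hj hij).mono Finset.inter_subset_left Finset.inter_subset_left
  unfold iot
  rw [h1, h2]
  push_cast
  rw [Finset.sum_sub_distrib]

end

end AssemAux

variable {G} in
theorem assemble (hG : G.IsRegularOfDegree 3) {k : ℕ} {S : Finset V} (himb : imb S = 2 * k)
    (htf : ∀ v, sd G S v ≤ 1) {I : Type*} [DecidableEq I] (s : Finset I) (F : I → Finset V)
    (hd : ∀ i ∈ s, ∀ j ∈ s, i ≠ j → Disjoint (ter G S (F i)) (ter G S (F j)))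
    (c : I → ℤ) (a a' b b' : I → ℕ)
    (he : ∀ i ∈ s, Eff G S (F i) (c i) (a i) (a' i) (b i) (b' i))
    (hc : ∑ i ∈ s, c i = - (k : ℤ))
    (hab : ∑ i ∈ s, a i = ∑ i ∈ s, b i) (hab' : ∑ i ∈ s, a' i = ∑ i ∈ s, b' i) :
    Good G := by
  set T : Finset V := symmDiff S (s.biUnion F) with hT
  have hmem : ∀ i ∈ s, ∀ v ∈ ter G S (F i), (v ∈ T ↔ v ∈ symmDiff S (F i)) := fun i hi v hv =>
    (union_in G S s F hd hi hv).1
  have hmemc : ∀ i ∈ s, ∀ v ∈ ter G S (F i), (v ∈ Tᶜ ↔ v ∈ (symmDiff S (F i))ᶜ) := by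
    intro i hi v hv
    rw [Finset.mem_compl, Finset.mem_compl, hmem i hi v hv]
  refine good_of hG T ?_ ?_ ?_ ?_
  · have h1 : ∀ i ∈ s, iot S (F i) = c i := by
      intro i hi
      have h2 := (he i hi).imb_eq
      rw [AssemAux.imb_flip'] at h2
      omega
    rw [hT, AssemAux.imb_flip', AssemAux.iot_sum hd, Finset.sum_congr rfl h1, hc, himb]
    ring
  · intro v
    by_cases h : ∀ i ∈ s, v ∉ ter G S (F i)
    · have h1 := AssemAux.sd_out htf h
      rw [← hT] at h1
      exact ⟨by omega, fun h2 => by omega⟩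
    · push Not at h
      obtain ⟨i, hi, hv⟩ := h
      have h1 := (he i hi).good v
      have h2 := AssemAux.sd_in hd hi hv
      have h3 := AssemAux.sm2_in htf hd hi hv
      rw [← hT] at h2 h3
      rw [h2, h3]
      exact h1
  · rw [hT, AssemAux.n2_sum htf hd T (fun i => symmDiff S (F i)) hmem,
      AssemAux.n2_sum htf hd Tᶜ (fun i => (symmDiff S (F i))ᶜ) hmemc,
      Finset.sum_congr rfl fun i hi => (he i hi).nw, Finset.sum_congr rfl fun i hi => (he i hi).nb]
    exact hab
  · rw [hT, AssemAux.q2_sum htf hd T (fun i => symmDiff S (F i)) hmem,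
      AssemAux.q2_sum htf hd Tᶜ (fun i => (symmDiff S (F i))ᶜ) hmemc,
      Finset.sum_congr rfl fun i hi => (he i hi).qw, Finset.sum_congr rfl fun i hi => (he i hi).qb]
    exact hab'

end Pool.Agent.Lib.Ando
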