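import Mathlib
import Pool.Agent.Lib.Ando.Basic

set_option autoImplicit false
set_option linter.unusedSectionVars false

/-!
# Ando.Cost: the flip formulas (any cubic graph)

`mm_flip`: exchanging the colours on `F` changes `mm` (twice the number of monochromatic edges) by
`2 * cost`. `imb_flip`: it changes the imbalance by `2 * iot`.

Proof of `mm_flip`. Write `mm T = sum over ordered pairs (x, y) of [adj x y and same colour in T]`
(`sd` is a `card` of a filter; use `Finset.card_filter` / `Finset.sum_boole`).
For `T = symmDiff S F` the indicator of an ordered pair changes only if exactly one of `x, y` is in `F`.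
So mm T - mm S = sum over x in F, y not in F of 2 * ([adj, different] - [adj, same])
(the pairs with y in F, x not in F give the same by symmetry). And
sum over x in F, all y of ([adj, different] - [adj, same]) = sum over F of (3 - 2 sd) because the
degree is three (`sd_add_op`), and the part with y in F is
sum over x in F, y in F of (if adj then (if same then -1 else 1) else 0). So
mm T - mm S = 2 * cost S F.
(Alternatively by induction on `F` with `Finset.induction_on`, inserting one vertex, using
`sm_flip_mem`, `sm_flip_not_mem`.)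

Proof of `imb_flip`: card (symmDiff S F) = card S - card (F inter S) + card (F minus S), and
card of the complement = card V - card.
-/

namespace Pool.Agent.Lib.Ando

variable {V : Type*} [Fintype V] [DecidableEq V] (G : SimpleGraph V) [DecidableRel G.Adj]

namespace CostAux

variable {G} in
/-- the sign of an ordered pair -/
def sg (G : SimpleGraph V) [DecidableRel G.Adj] (S : Finset V) (x y : V) : ℤ :=
  if G.Adj x y then (if (x ∈ S ↔ y ∈ S) then (-1 : ℤ) else 1) else 0

theorem sg_comm (S : Finset V) (x y : V) : sg G S x y = sg G S y x := by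
  unfold sg
  simp only [G.adj_comm x y, iff_comm (a := x ∈ S) (b := y ∈ S)]

theorem sum_sg (hG : G.IsRegularOfDegree 3) (S : Finset V) (x : V) :
    ∑ y, sg G S x y = 3 - 2 * (sd G S x : ℤ) := by
  have h1 : ∑ y, sg G S x y = ((op G S x).card : ℤ) - ((sm G S x).card : ℤ) := by
    unfold op sm
    rw [← Finset.sum_boole, ← Finset.sum_boole, ← Finset.sum_sub_distrib]
    refine Finset.sum_congr rfl fun y _ => ?_
    unfold sg
    by_cases h : G.Adj x y <;> by_cases h2 : (x ∈ S ↔ y ∈ S)
    · simp [h, h2]
    · have h3 : ¬ (y ∈ S ↔ x ∈ S) := fun h4 => h2 h4.symm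
      simp [h, h2, h3]
    · simp [h]
    · simp [h]
  have h2 : (sm G S x).card + (op G S x).card = 3 := sd_add_op hG S x
  rw [h1]
  unfold sd
  have h3 : ((sm G S x).card : ℤ) + ((op G S x).card : ℤ) = 3 := by exact_mod_cast h2
  linarith

theorem mm_eq (T : Finset V) :
    mm G T = ∑ x, ∑ y, (if G.Adj x y ∧ (y ∈ T ↔ x ∈ T) then (1 : ℤ) else 0) := by
  unfold mm sd sm
  refine Finset.sum_congr rfl fun x _ => ?_
  rw [Finset.sum_boole]

theorem ind_diff (S F : Finset V) (x y : V) :
    (if G.Adj x y ∧ (y ∈ symmDiff S F ↔ x ∈ symmDiff S F) then (1 : ℤ) else 0) =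
      (if G.Adj x y ∧ (y ∈ S ↔ x ∈ S) then (1 : ℤ) else 0) +
        ((if x ∈ F then (sg G S x y - if y ∈ F then sg G S x y else 0) else 0) +
          (if y ∈ F then (sg G S y x - if x ∈ F then sg G S y x else 0) else 0)) := by
  rw [sg_comm G S y x]
  unfold sg
  simp only [Finset.mem_symmDiff]
  by_cases h1 : G.Adj x y <;> by_cases h2 : x ∈ F <;> by_cases h3 : y ∈ F <;>
    by_cases h4 : x ∈ S <;> by_cases h5 : y ∈ S <;> simp [h1, h2, h3, h4, h5]

end CostAux

open CostAux

variable {G} in
theorem mm_flip (hG : G.IsRegularOfDegree 3) (S F : Finset V) :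
    mm G (symmDiff S F) = mm G S + 2 * cost G S F := by
  have key : ∑ x, ∑ y, (if x ∈ F then (sg G S x y - if y ∈ F then sg G S x y else 0) else 0) =
      cost G S F := by
    have h1 : ∀ x, ∑ y, (if x ∈ F then (sg G S x y - if y ∈ F then sg G S x y else 0) else 0) =
        if x ∈ F then ((3 - 2 * (sd G S x : ℤ)) - ∑ y ∈ F, sg G S x y) else 0 := by
      intro x
      by_cases hx : x ∈ F
      · simp only [if_pos hx]
        rw [Finset.sum_sub_distrib, sum_sg G hG, Finset.sum_ite_mem, Finset.univ_inter]
      · simp only [if_neg hx, Finset.sum_const_zero]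
    simp only [h1]
    rw [Finset.sum_ite_mem, Finset.univ_inter, Finset.sum_sub_distrib]
    rfl
  have key2 : ∑ x, ∑ y, (if y ∈ F then (sg G S y x - if x ∈ F then sg G S y x else 0) else 0) =
      cost G S F := by
    rw [Finset.sum_comm]
    exact key
  rw [mm_eq, mm_eq]
  simp only [ind_diff, Finset.sum_add_distrib]
  rw [key, key2]
  ring

theorem imb_flip (S F : Finset V) : imb (symmDiff S F) = imb S + 2 * iot S F := by
  unfold imb iot
  have h1 : (symmDiff S F).card = (S \ F).card + (F \ S).card := by
    rw [symmDiff_def, Finset.sup_eq_union]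
    exact Finset.card_union_of_disjoint (disjoint_sdiff_sdiff)
  have h2 : (S \ F).card + (F ∩ S).card = S.card := by
    rw [Finset.inter_comm]
    exact Finset.card_sdiff_add_card_inter S F
  have h3 := Finset.card_add_card_compl (symmDiff S F)
  have h4 := Finset.card_add_card_compl S
  omega

end Pool.Agent.Lib.Ando
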