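import Mathlib
import Pool.Agent.Lib.Ando.Cost

set_option autoImplicit false
set_option linter.unusedSectionVars false

/-!
# Ando.LevelE: exchange inequalities for level colourings (any cubic graph)

`Level.cost_ge`: apply `opt` to T = symmDiff S F, with `mm_flip`, `imb_flip`, `imb S = 2 k`:
mm S + 2k <= mm S + 2 cost + |2k + 2 iot|, divide by two (|2 x| = 2 |x|).

`Level.exists_two`: otherwise all sd of T = symmDiff S F are <= 1, and mm T + |imb T| = mm S + |imb S|, so `low` gives
|imb S| <= |imb T|, that is 2k <= 2 |k + iot| < 2k, a contradiction.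

`Level.flip_compl`: T = complement of symmDiff S F has imb T = -(2k + 2 iot) = 2k, mm T = mm S, all sd <= 1;
so all four conditions hold for T because they hold for S (the right hand sides mm S + |imb S| agree).
-/

namespace Pool.Agent.Lib.Ando

variable {V : Type*} [Fintype V] [DecidableEq V] (G : SimpleGraph V) [DecidableRel G.Adj]

theorem LevelEAux.abs_two (x : ℤ) : |2 * x| = 2 * |x| := by
  rw [abs_mul, abs_of_pos (by norm_num : (0 : ℤ) < 2)]

variable {G} in
theorem LevelEAux.imb_abs {k : ℕ} {S : Finset V} (h : Level G k S) : |imb S| = 2 * (k : ℤ) := by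
  rw [h.imb_eq]
  exact abs_of_nonneg (by positivity)

variable {G} in
theorem LevelEAux.imb_T {k : ℕ} {S : Finset V} (h : Level G k S) (F : Finset V) :
    |imb (symmDiff S F)| = 2 * |(k : ℤ) + iot S F| := by
  rw [imb_flip, h.imb_eq, ← mul_add, LevelEAux.abs_two]

variable {G} in
theorem Level.cost_ge {k : ℕ} {S : Finset V} (h : Level G k S) (hG : G.IsRegularOfDegree 3)
    (F : Finset V) : (k : ℤ) - |(k : ℤ) + iot S F| ≤ cost G S F := by
  have h1 := h.opt (symmDiff S F)
  rw [LevelEAux.imb_abs h, LevelEAux.imb_T h, mm_flip hG] at h1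
  linarith

variable {G} in
theorem Level.exists_two {k : ℕ} {S : Finset V} (h : Level G k S) (hG : G.IsRegularOfDegree 3)
    (F : Finset V) (hc : cost G S F = (k : ℤ) - |(k : ℤ) + iot S F|)
    (hi : |(k : ℤ) + iot S F| < k) : ∃ v, 2 ≤ sd G (symmDiff S F) v := by
  by_contra hcon
  push Not at hcon
  have h1 := h.low (symmDiff S F) (fun v => Nat.lt_succ_iff.1 (hcon v)) (by
    rw [LevelEAux.imb_abs h, LevelEAux.imb_T h, mm_flip hG, hc]
    ring)
  rw [LevelEAux.imb_abs h, LevelEAux.imb_T h] at h1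
  linarith

variable {G} in
theorem Level.flip_compl {k : ℕ} {S : Finset V} (h : Level G k S) (hG : G.IsRegularOfDegree 3)
    (F : Finset V) (hi : iot S F = - 2 * (k : ℤ)) (hc : cost G S F = 0)
    (ht : ∀ v, sd G (symmDiff S F) v ≤ 1) : Level G k (symmDiff S F)ᶜ := by
  have e1 : imb (symmDiff S F)ᶜ = 2 * (k : ℤ) := by
    rw [imb_compl, imb_flip, h.imb_eq, hi]
    ring
  have e2 : mm G (symmDiff S F)ᶜ = mm G S := by
    rw [mm_compl, mm_flip hG, hc]
    ring
  have e3 : |imb (symmDiff S F)ᶜ| = |imb S| := by rw [e1, h.imb_eq]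
  refine ⟨e1, fun T => ?_, fun v => ?_, fun T hT hm => ?_⟩
  · rw [e2, e3]
    exact h.opt T
  · rw [sd_compl]
    exact ht v
  · rw [e2, e3] at hm
    rw [e3]
    exact h.low T hT hm

end Pool.Agent.Lib.Ando
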