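import Mathlib
import Pool.Agent.Lib.Ando.LevelE

set_option autoImplicit false
set_option linter.unusedSectionVars false

/-!
# Ando.Fact1: a vertex of L has at most one neighbour in U

Conventions: S = white vertices. Z / L = black vertices with sd = 0 / 1, O / U = white vertices with sd = 0 / 1. For v in L or U let v* be the member of sm S v. Every vertex of U has
sm S u = {u*} and op S u with two members (`sd_add_op`); a vertex of O or Z has op S with three members.
`Level.cost_ge`: cost S F >= k - |k + iot S F|; `Level.exists_two`: if equality holds and |k + iot| < k, some vertex has sd >= 2 after the exchange.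
To compute `cost S F` for an explicit F: F is an insert of different vertices, so expand the sums with `Finset.sum_insert`; the double sum counts each adjacent pair in F twice:
2 times (number of bichromatic pairs) - 2 times (number of monochromatic pairs). For an upper bound of the cost it is enough to know enough bichromatic pairs and that the other
pairs are not monochromatic edges (the terms of the double sum are then >= 0).

Proof. Let l in L and suppose u, u' in UN S l are different. F = {u, l, u'}. The edges u-l, l-u' are bichromatic, and u, u' are not adjacent (NoTri). sd = 1 for all three, so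
cost S F = 3 * 1 - 2 * 2 = -1, and iot S F = 1 - 2 = -1 (l is black, u, u' are white). `cost_ge`: -1 >= k - |k - 1| = 1. Contradiction.
-/

namespace Pool.Agent.Lib.Ando

variable {V : Type*} [Fintype V] [DecidableEq V] (G : SimpleGraph V) [DecidableRel G.Adj]

variable {G} in
theorem fact1 (hG : G.IsRegularOfDegree 3) (h3 : NoTri G) {k : ℕ} {S : Finset V}
    (hL : Level G k S) (hk : 1 ≤ k) {l : V} (hl : l ∉ S) (sl : sd G S l = 1) :
    (UN G S l).card ≤ 1 := by
  by_contra hcon
  push Not at hcon
  obtain ⟨u, hu, u', hu', hne⟩ := Finset.one_lt_card.1 hcon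
  simp only [UN, op, Finset.mem_filter, Finset.mem_univ, true_and] at hu hu'
  obtain ⟨⟨a1, c1⟩, s1⟩ := hu
  obtain ⟨⟨a2, c2⟩, s2⟩ := hu'
  have uS : u ∈ S := by tauto
  have uS' : u' ∈ S := by tauto
  have nlu : l ≠ u := a1.ne
  have nlu' : l ≠ u' := a2.ne
  have naj : ¬ G.Adj u u' := h3 u l u' a1.symm a2
  have naj' : ¬ G.Adj u' u := fun h => naj h.symm
  have hF : u ∉ ({l, u'} : Finset V) := by
    simp only [Finset.mem_insert, Finset.mem_singleton, not_or]
    exact ⟨nlu.symm, hne⟩
  have hF' : l ∉ ({u'} : Finset V) := by
    simp only [Finset.mem_singleton]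
    exact nlu'
  have hcost : cost G S {u, l, u'} = -1 := by
    unfold cost
    simp only [Finset.sum_insert hF, Finset.sum_insert hF', Finset.sum_singleton, s1, s2, sl,
      SimpleGraph.irrefl, a1, a1.symm, a2, a2.symm, naj, naj', hl, uS, uS', if_true, if_false]
    norm_num
  have hiot : iot S {u, l, u'} = -1 := by
    unfold iot
    have e1 : ({u, l, u'} : Finset V) \ S = {l} := by
      ext x
      simp only [Finset.mem_sdiff, Finset.mem_insert, Finset.mem_singleton]
      constructor
      · rintro ⟨h | h | h, hx⟩
        · exact absurd (h ▸ uS) hx
        · exact h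
        · exact absurd (h ▸ uS') hx
      · rintro rfl
        exact ⟨Or.inr (Or.inl rfl), hl⟩
    have e2 : ({u, l, u'} : Finset V) ∩ S = {u, u'} := by
      ext x
      simp only [Finset.mem_inter, Finset.mem_insert, Finset.mem_singleton]
      constructor
      · rintro ⟨h | h | h, hx⟩
        · exact Or.inl h
        · exact absurd (h ▸ hx) hl
        · exact Or.inr h
      · rintro (rfl | rfl)
        · exact ⟨Or.inl rfl, uS⟩
        · exact ⟨Or.inr (Or.inr rfl), uS'⟩
    rw [e1, e2, Finset.card_singleton, Finset.card_pair hne]
    norm_num
  have h := hL.cost_ge hG {u, l, u'}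
  rw [hcost, hiot] at h
  have hk' : (1 : ℤ) ≤ k := by exact_mod_cast hk
  rw [abs_of_nonneg (by linarith)] at h
  linarith

end Pool.Agent.Lib.Ando
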