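import Mathlib
import Pool.Agent.Lib.Ando.LevelE

set_option autoImplicit false
set_option linter.unusedSectionVars false

/-!
# Ando.Fact3: a vertex of Z with exactly two neighbours in U: they are not both sites

Conventions: S = white vertices. Z / L = black vertices with sd = 0 / 1, O / U = white vertices with sd = 0 / 1. For v in L or U let v* be the member of sm S v. Every vertex of U has
sm S u = {u*} and op S u with two members (`sd_add_op`); a vertex of O or Z has op S with three members.
`Level.cost_ge`: cost S F >= k - |k + iot S F|; `Level.exists_two`: if equality holds and |k + iot| < k, some vertex has sd >= 2 after the exchange.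
To compute `cost S F` for an explicit F: F is an insert of different vertices, so expand the sums with `Finset.sum_insert`; the double sum counts each adjacent pair in F twice:
2 times (number of bichromatic pairs) - 2 times (number of monochromatic pairs). For an upper bound of the cost it is enough to know enough bichromatic pairs and that the other
pairs are not monochromatic edges (the terms of the double sum are then >= 0).

Proof. Let UN S b = {u, v}, both sites, op S b = {u, v, o} with sd S o = 0 (o is white, not in UN; sd <= 1). op S u = {b, c}, op S v = {b, d}, sd c = sd d = 0. c /= d by NoSq (u c v b; b /= c). F = {u, b, v}: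
cost = (1 + 3 + 1) - 4 = 1 (u, v not adjacent by NoTri), iot = 1 - 2 = -1. So cost = k - |k - 1| = 1 and |k - 1| < k: `exists_two` gives x with sd T x >= 2, T = symmDiff S F.
But: sm T b = op S b minus F = {o}: sd 1. sm T u = {c} (op S u minus F; sm S u does not meet F), sm T v = {d}. For x not in F: sm T x = (sm S x minus F) union (op S x inter F).
x white: op S x inter F is contained in {b}; if b is in it then x is in op S b, x = o (x not in F), sm S o empty: sd T x = 1. Otherwise sd T x <= sd S x <= 1.
x black: op S x inter F is contained in {u, v}. If u is in it: x in op S u, x /= b (b in F), x = c; sm S c empty, and v is not adjacent to c (op S v = {b, d}, c /= d, c /= b), so sd T x = 1. The same for v, d. Otherwise sd T x <= 1. Contradiction.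
-/

namespace Pool.Agent.Lib.Ando

variable {V : Type*} [Fintype V] [DecidableEq V] (G : SimpleGraph V) [DecidableRel G.Adj]

namespace Fact3Aux

variable {G}

theorem le_one {s : Finset V} {a : V} (h : ∀ y ∈ s, y = a) : s.card ≤ 1 := by
  rw [Finset.card_le_one]
  intro x hx y hy
  rw [h x hx, h y hy]

theorem sm_empty {S : Finset V} {x : V} (h : sd G S x = 0) : sm G S x = ∅ :=
  Finset.card_eq_zero.1 h

/-- the other black neighbour of a site -/
theorem other {S : Finset V} (hG : G.IsRegularOfDegree 3) {u b : V} (hu : u ∈ sites G S)
    (hb : b ∈ op G S u) : ∃ c, c ≠ b ∧ c ∈ op G S u ∧ sd G S c = 0 ∧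
      ∀ y, y ∈ op G S u → y = b ∨ y = c := by
  unfold sites at hu
  rw [Finset.mem_filter] at hu
  obtain ⟨-, h1, h2, h3⟩ := hu
  have h4 : (op G S u).card = 2 := by
    have := sd_add_op hG S u
    omega
  rw [Finset.card_eq_two] at h4
  obtain ⟨p, q, hpq, h5⟩ := h4
  rw [h5] at hb
  simp only [Finset.mem_insert, Finset.mem_singleton] at hb
  rcases hb with rfl | rfl
  · refine ⟨q, hpq.symm, by rw [h5]; simp, h3 q (by rw [h5]; simp), ?_⟩
    intro y hy; rw [h5] at hy; simpa using hy
  · refine ⟨p, hpq, by rw [h5]; simp, h3 p (by rw [h5]; simp), ?_⟩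
    intro y hy; rw [h5] at hy
    simp only [Finset.mem_insert, Finset.mem_singleton] at hy
    exact hy.symm

end Fact3Aux

open Fact3Aux in
variable {G} in
theorem fact3 (hG : G.IsRegularOfDegree 3) (h3 : NoTri G) (h4 : NoSq G) {k : ℕ} {S : Finset V}
    (hL : Level G k S) (hk : 1 ≤ k) {b : V} (hb : b ∉ S) (sb : sd G S b = 0)
    (hc : (UN G S b).card = 2) : ∃ u ∈ UN G S b, u ∉ sites G S := by
  by_contra hcon
  push Not at hcon
  obtain ⟨u, v, huv, hUN⟩ := Finset.card_eq_two.1 hc
  have hu : u ∈ UN G S b := by rw [hUN]; simp
  have hv : v ∈ UN G S b := by rw [hUN]; simp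
  have hus := hcon u hu
  have hvs := hcon v hv
  have hub : u ∈ op G S b := (Finset.mem_filter.1 hu).1
  have hvb : v ∈ op G S b := (Finset.mem_filter.1 hv).1
  have su : sd G S u = 1 := (Finset.mem_filter.1 hu).2
  have sv : sd G S v = 1 := (Finset.mem_filter.1 hv).2
  have uS : u ∈ S := (Finset.mem_filter.1 hus).2.1
  have vS : v ∈ S := (Finset.mem_filter.1 hvs).2.1
  have Aub : G.Adj b u := (mem_op.1 hub).1
  have Avb : G.Adj b v := (mem_op.1 hvb).1
  have Nuv : ¬ G.Adj u v := h3 u b v Aub.symm Avb
  have Nvu : ¬ G.Adj v u := fun e => Nuv e.symm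
  obtain ⟨c, c1, c2, c3, c4⟩ := other hG hus (op_symm hub)
  obtain ⟨d, d1, d2, d3, d4⟩ := other hG hvs (op_symm hvb)
  have Auc : G.Adj u c := (mem_op.1 c2).1
  have Avd : G.Adj v d := (mem_op.1 d2).1
  have hcd : c ≠ d := by
    rintro rfl
    rcases h4 u c v b Auc Avd.symm Avb.symm Aub with h | h
    · exact huv h
    · exact c1 h
  have hbu : b ≠ u := Aub.ne
  have hbv : b ≠ v := Avb.ne
  -- the third neighbour of b
  have ho : ∃ o, ∀ y, y ∈ op G S b → y ≠ u → y ≠ v → y = o ∧ sd G S y = 0 := by
    have h5 : (op G S b \ UN G S b).card = 1 := by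
      have h6 := sd_add_op hG S b
      have h7 : UN G S b ⊆ op G S b := Finset.filter_subset _ _
      have h8 := Finset.card_sdiff_add_card_eq_card h7
      omega
    obtain ⟨o, ho⟩ := Finset.card_eq_one.1 h5
    refine ⟨o, fun y hy h1 h2 => ?_⟩
    have h9 : y ∉ UN G S b := by rw [hUN]; simp [h1, h2]
    have h10 : y ∈ op G S b \ UN G S b := Finset.mem_sdiff.2 ⟨hy, h9⟩
    refine ⟨?_, ?_⟩
    · rw [ho] at h10; exact Finset.mem_singleton.1 h10
    · have h11 := hL.tf y
      have h12 : sd G S y ≠ 1 := fun h => h9 (Finset.mem_filter.2 ⟨hy, h⟩)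
      omega
  obtain ⟨o, ho⟩ := ho
  have hiot : iot S {u, b, v} = -1 := by
    have e1 : ({u, b, v} : Finset V) \ S = {b} := by
      ext y
      simp only [Finset.mem_sdiff, Finset.mem_insert, Finset.mem_singleton]
      constructor
      · rintro ⟨rfl | rfl | rfl, h2⟩
        · exact absurd uS h2
        · rfl
        · exact absurd vS h2
      · rintro rfl
        exact ⟨Or.inr (Or.inl rfl), hb⟩
    have e2 : ({u, b, v} : Finset V) ∩ S = {u, v} := by
      ext y
      simp only [Finset.mem_inter, Finset.mem_insert, Finset.mem_singleton]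
      constructor
      · rintro ⟨rfl | rfl | rfl, h2⟩
        · exact Or.inl rfl
        · exact absurd h2 hb
        · exact Or.inr rfl
      · rintro (rfl | rfl)
        · exact ⟨Or.inl rfl, uS⟩
        · exact ⟨Or.inr (Or.inr rfl), vS⟩
    unfold iot
    rw [e1, e2, Finset.card_pair huv]
    simp
  have m1 : u ∉ ({b, v} : Finset V) := by simp [hbu.symm, huv]
  have m2 : b ∉ ({v} : Finset V) := by simp [hbv]
  have hcost : cost G S {u, b, v} = 1 := by
    unfold cost
    simp only [Finset.sum_insert m1, Finset.sum_insert m2, Finset.sum_singleton, su, sv, sb,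
      Aub, Avb, Aub.symm, Avb.symm, Nuv, Nvu, hb, uS, vS, SimpleGraph.irrefl, if_true, if_false]
    norm_num
  have habs : |(k : ℤ) + iot S {u, b, v}| = (k : ℤ) - 1 := by
    rw [hiot]
    have : (0 : ℤ) ≤ (k : ℤ) + -1 := by omega
    rw [abs_of_nonneg this]; ring
  obtain ⟨x, hx⟩ := hL.exists_two hG {u, b, v} (by rw [hcost, habs]; ring) (by rw [habs]; omega)
  have hF : ∀ y, y ∈ ({u, b, v} : Finset V) ↔ y = u ∨ y = b ∨ y = v := by
    intro y; simp only [Finset.mem_insert, Finset.mem_singleton]
  suffices hs : sd G (symmDiff S {u, b, v}) x ≤ 1 by omega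
  unfold sd
  by_cases hxF : x ∈ ({u, b, v} : Finset V)
  · rw [sm_flip_mem G hxF]
    rw [hF] at hxF
    rcases hxF with rfl | rfl | rfl
    · apply le_one (a := c)
      intro y hy
      simp only [Finset.mem_union, Finset.mem_sdiff, Finset.mem_inter, hF] at hy
      rcases hy with ⟨h1, h2⟩ | ⟨h1, h2⟩
      · rcases c4 y h1 with h | h
        · exact absurd (Or.inr (Or.inl h)) h2
        · exact h
      · rw [mem_sm] at h1
        rcases h2 with rfl | rfl | rfl
        · exact absurd h1.1 G.irrefl
        · exact absurd (h1.2.2 uS) hb
        · exact absurd h1.1 Nuv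
    · apply le_one (a := o)
      intro y hy
      simp only [Finset.mem_union, Finset.mem_sdiff, Finset.mem_inter, hF, sm_empty sb,
        Finset.notMem_empty, false_and, or_false] at hy
      exact (ho y hy.1 (fun h => hy.2 (Or.inl h)) (fun h => hy.2 (Or.inr (Or.inr h)))).1
    · apply le_one (a := d)
      intro y hy
      simp only [Finset.mem_union, Finset.mem_sdiff, Finset.mem_inter, hF] at hy
      rcases hy with ⟨h1, h2⟩ | ⟨h1, h2⟩
      · rcases d4 y h1 with h | h
        · exact absurd (Or.inr (Or.inl h)) h2
        · exact h
      · rw [mem_sm] at h1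
        rcases h2 with rfl | rfl | rfl
        · exact absurd h1.1 Nvu
        · exact absurd (h1.2.2 vS) hb
        · exact absurd h1.1 G.irrefl
  · rw [sm_flip_not_mem G hxF]
    rw [hF] at hxF
    have base : (∀ y ∈ op G S x, y ∉ ({u, b, v} : Finset V)) →
        ((sm G S x \ {u, b, v}) ∪ (op G S x ∩ {u, b, v})).card ≤ 1 := by
      intro h
      refine (Finset.card_le_card ?_).trans (hL.tf x)
      intro y hy
      rw [Finset.mem_union, Finset.mem_sdiff, Finset.mem_inter] at hy
      rcases hy with h1 | h1
      · exact h1.1
      · exact absurd h1.2 (h y h1.1)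
    by_cases hbx : b ∈ op G S x
    · have h5 := ho x (op_symm hbx) (fun h => hxF (Or.inl h)) (fun h => hxF (Or.inr (Or.inr h)))
      have hxS : x ∈ S := by
        have := (mem_op.1 hbx).2
        by_contra h
        exact this ⟨fun h' => absurd h' hb, fun h' => absurd h' h⟩
      rw [sm_empty h5.2]
      apply le_one (a := b)
      intro y hy
      simp only [Finset.mem_union, Finset.mem_sdiff, Finset.mem_inter, hF,
        Finset.notMem_empty, false_and, false_or] at hy
      rcases hy.2 with rfl | h | rfl
      · exact absurd ⟨fun _ => hxS, fun _ => uS⟩ (mem_op.1 hy.1).2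
      · exact h
      · exact absurd ⟨fun _ => hxS, fun _ => vS⟩ (mem_op.1 hy.1).2
    · by_cases hux : u ∈ op G S x
      · rcases c4 x (op_symm hux) with h | h
        · exact absurd (Or.inr (Or.inl h)) hxF
        · rw [h, sm_empty c3]
          apply le_one (a := u)
          intro y hy
          simp only [Finset.mem_union, Finset.mem_sdiff, Finset.mem_inter, hF,
            Finset.notMem_empty, false_and, false_or] at hy
          rcases hy.2 with h5 | h5 | h5
          · exact h5
          · rw [h5, ← h] at hy; exact absurd hy.1 hbx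
          · rw [h5] at hy
            rcases d4 c (op_symm hy.1) with h6 | h6
            · exact absurd h6 c1
            · exact absurd h6 hcd
      · by_cases hvx : v ∈ op G S x
        · rcases d4 x (op_symm hvx) with h | h
          · exact absurd (Or.inr (Or.inl h)) hxF
          · rw [h, sm_empty d3]
            apply le_one (a := v)
            intro y hy
            simp only [Finset.mem_union, Finset.mem_sdiff, Finset.mem_inter, hF,
              Finset.notMem_empty, false_and, false_or] at hy
            rcases hy.2 with h5 | h5 | h5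
            · rw [h5, ← h] at hy; exact absurd hy.1 hux
            · rw [h5, ← h] at hy; exact absurd hy.1 hbx
            · exact h5
        · apply base
          intro y hy hyF
          rw [hF] at hyF
          rcases hyF with rfl | rfl | rfl
          · exact hux hy
          · exact hbx hy
          · exact hvx hy

end Pool.Agent.Lib.Ando
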