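import Mathlib
import Pool.Agent.Lib.Ando.Fact1
import Pool.Agent.Lib.Ando.Fact3

set_option autoImplicit false
set_option linter.unusedSectionVars false

/-!
# Ando.Struct: local structure in Case A (no vertex of Z has three neighbours in U)

Conventions: S = white vertices. Z / L = black vertices with sd = 0 / 1, O / U = white vertices with sd = 0 / 1. For v in L or U let v* be the member of sm S v. Every vertex of U has
sm S u = {u*} and op S u with two members (`sd_add_op`); a vertex of O or Z has op S with three members.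
`Level.cost_ge`: cost S F >= k - |k + iot S F|; `Level.exists_two`: if equality holds and |k + iot| < k, some vertex has sd >= 2 after the exchange.
To compute `cost S F` for an explicit F: F is an insert of different vertices, so expand the sums with `Finset.sum_insert`; the double sum counts each adjacent pair in F twice:
2 times (number of bichromatic pairs) - 2 times (number of monochromatic pairs). For an upper bound of the cost it is enough to know enough bichromatic pairs and that the other
pairs are not monochromatic edges (the terms of the double sum are then >= 0).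

`site_unique`: u, v sites with b in both op S u and op S v. If u /= v then UN S b contains u, v and has card <= 2, so UN S b = {u, v}, and `fact3` says that one of them is not a site. Contradiction.
(b is black because u is white; sd S b = 0 because u is a site.)

`leaf_data`: op S u has two elements b, b' (sd S u = 1), both with sd = 0 (site). op S b has three elements u, o, o'; since UN S b has card 1 and contains u, the others have sd = 0
(sd <= 1 and /= 1). sm S u = {v}.

`TE_data`: op S w = {e, e2}; UN S e = {w, x} with x /= w; x is not a site (`fact3`: one of w, x is not a site, and w is one). The third member o of op S e has sd 0. x in U: op S x = {e, l}, l /= e; x not a site and sd S e = 0, so sd S l = 1.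
x is not in sm S w (NoTri: w, e, x). sm S w = {v}, sm S x = {x'}. x' /= w because x is not in sm S w (`sm_symm`). v /= x.

`zl_data`: for a vertex x of U that is not a site with a neighbour e in op S x, sd S e = 0: op S x = {e, l}, sd S l = 1, sm S l = {l'}, sm S x = {x'}.
-/

namespace Pool.Agent.Lib.Ando

variable {V : Type*} [Fintype V] [DecidableEq V] (G : SimpleGraph V) [DecidableRel G.Adj]

namespace StructAux

variable {G} in
theorem mem_sites {S : Finset V} {u : V} :
    u ∈ sites G S ↔ u ∈ S ∧ sd G S u = 1 ∧ ∀ b ∈ op G S u, sd G S b = 0 := by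
  unfold sites
  rw [Finset.mem_filter]
  exact ⟨fun h => h.2, fun h => ⟨Finset.mem_univ _, h⟩⟩

variable {G} in
theorem mem_UN {S : Finset V} {b u : V} :
    u ∈ UN G S b ↔ u ∈ op G S b ∧ sd G S u = 1 := by
  unfold UN
  rw [Finset.mem_filter]

variable {G} in
theorem op_black {S : Finset V} {u b : V} (hu : u ∈ S) (h : b ∈ op G S u) : b ∉ S := by
  rw [mem_op] at h
  intro hb
  exact h.2 ⟨fun _ => hu, fun _ => hb⟩

variable {G} in
theorem op_white {S : Finset V} {u b : V} (hu : b ∉ S) (h : u ∈ op G S b) : u ∈ S := by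
  rw [mem_op] at h
  by_contra hb
  exact h.2 ⟨fun h' => absurd h' hb, fun h' => absurd h' hu⟩

variable {G} in
theorem sd_one {S : Finset V} {v : V} (h : sd G S v = 1) : ∃ w, sm G S v = {w} := by
  unfold sd at h
  exact Finset.card_eq_one.1 h

/-- A finset of two elements, one of which is known. -/
theorem card_two {A : Finset V} {x : V} (h : A.card = 2) (hx : x ∈ A) :
    ∃ y, A = {x, y} ∧ x ≠ y := by
  obtain ⟨a, b, hab, rfl⟩ := Finset.card_eq_two.1 h
  rw [Finset.mem_insert, Finset.mem_singleton] at hx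
  rcases hx with rfl | rfl
  · exact ⟨b, rfl, hab⟩
  · exact ⟨a, Finset.pair_comm _ _, hab.symm⟩

/-- A finset of three elements, one of which is known. -/
theorem card_three {A : Finset V} {x : V} (h : A.card = 3) (hx : x ∈ A) :
    ∃ y z, A = {x, y, z} ∧ x ≠ y ∧ x ≠ z ∧ y ≠ z := by
  have h1 : (A.erase x).card = 2 := by
    rw [Finset.card_erase_of_mem hx, h]
  obtain ⟨y, z, hyz, hA⟩ := Finset.card_eq_two.1 h1
  have hy : y ∈ A.erase x := by rw [hA]; simp
  have hz : z ∈ A.erase x := by rw [hA]; simp
  refine ⟨y, z, ?_, ?_, ?_, hyz⟩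
  · rw [← Finset.insert_erase hx, hA]
  · exact (Finset.ne_of_mem_erase hy).symm
  · exact (Finset.ne_of_mem_erase hz).symm

/-- A finset of three elements, two of which are known. -/
theorem card_three' {A : Finset V} {x y : V} (h : A.card = 3) (hx : x ∈ A) (hy : y ∈ A)
    (hxy : x ≠ y) : ∃ z, A = {x, y, z} ∧ x ≠ z ∧ y ≠ z := by
  obtain ⟨a, b, hA, h1, h2, h3⟩ := card_three h hx
  rw [hA, Finset.mem_insert, Finset.mem_insert, Finset.mem_singleton] at hy
  rcases hy with hy | hy | hy
  · exact absurd hy.symm hxy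
  · subst hy
    exact ⟨b, hA, h2, h3⟩
  · subst hy
    refine ⟨a, ?_, h1, h3.symm⟩
    rw [hA]
    congr 1
    exact Finset.pair_comm _ _

end StructAux

open StructAux

variable {G} in
theorem site_unique (hG : G.IsRegularOfDegree 3) (h3 : NoTri G) (h4 : NoSq G) {k : ℕ} {S : Finset V}
    (hL : Level G k S) (hk : 1 ≤ k)
    (hA : ∀ b, b ∉ S → sd G S b = 0 → (UN G S b).card ≤ 2) {u v b : V}
    (hu : u ∈ sites G S) (hv : v ∈ sites G S) (h1 : b ∈ op G S u) (h2 : b ∈ op G S v) :
    u = v := by
  by_contra hne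
  have hu' := mem_sites.1 hu
  have hv' := mem_sites.1 hv
  have hb : b ∉ S := op_black hu'.1 h1
  have sb : sd G S b = 0 := hu'.2.2 b h1
  have hub : u ∈ UN G S b := mem_UN.2 ⟨op_symm h1, hu'.2.1⟩
  have hvb : v ∈ UN G S b := mem_UN.2 ⟨op_symm h2, hv'.2.1⟩
  have hsub : ({u, v} : Finset V) ⊆ UN G S b := by
    intro x hx
    rw [Finset.mem_insert, Finset.mem_singleton] at hx
    rcases hx with rfl | rfl
    · exact hub
    · exact hvb
  have hc2 : ({u, v} : Finset V).card = 2 := Finset.card_pair hne
  have hle := hA b hb sb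
  have heq : ({u, v} : Finset V) = UN G S b :=
    Finset.eq_of_subset_of_card_le hsub (by omega)
  have hcard : (UN G S b).card = 2 := by rw [← heq]; exact hc2
  obtain ⟨x, hx, hxs⟩ := fact3 hG h3 h4 hL hk hb sb hcard
  rw [← heq, Finset.mem_insert, Finset.mem_singleton] at hx
  rcases hx with rfl | rfl
  · exact hxs hu
  · exact hxs hv

variable {G} in
theorem leaf_data (hG : G.IsRegularOfDegree 3) {k : ℕ} {S : Finset V} (hL : Level G k S)
    {u b : V} (h : LeafE G S u b) :
    ∃ v b' o o', sm G S u = {v} ∧ op G S u = {b, b'} ∧ b ≠ b' ∧ sd G S b = 0 ∧ sd G S b' = 0 ∧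
      op G S b = {u, o, o'} ∧ u ≠ o ∧ u ≠ o' ∧ o ≠ o' ∧ sd G S o = 0 ∧ sd G S o' = 0 := by
  obtain ⟨hu, hb, hc⟩ := h
  have hu' := mem_sites.1 hu
  obtain ⟨v, hv⟩ := sd_one hu'.2.1
  have hcu : (op G S u).card = 2 := by
    have := sd_add_op hG S u
    rw [hu'.2.1] at this
    omega
  obtain ⟨b', hop, hbb⟩ := card_two hcu hb
  have sb : sd G S b = 0 := hu'.2.2 b hb
  have hb' : b' ∈ op G S u := by rw [hop]; simp
  have sb' : sd G S b' = 0 := hu'.2.2 b' hb'
  have hcb : (op G S b).card = 3 := by
    have := sd_add_op hG S b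
    omega
  obtain ⟨o, o', hob, huo, huo', hoo⟩ := card_three hcb (op_symm hb)
  have hbS : b ∉ S := op_black hu'.1 hb
  have huU : u ∈ UN G S b := mem_UN.2 ⟨op_symm hb, hu'.2.1⟩
  have key : ∀ x ∈ op G S b, x ≠ u → sd G S x = 0 := by
    intro x hx hxu
    by_contra hne
    have h1 := hL.tf x
    have hxU : x ∈ UN G S b := mem_UN.2 ⟨hx, by omega⟩
    obtain ⟨y, hy⟩ := Finset.card_eq_one.1 hc
    rw [hy, Finset.mem_singleton] at huU hxU
    exact hxu (hxU.trans huU.symm)
  refine ⟨v, b', o, o', hv, hop, hbb, sb, sb', hob, huo, huo', hoo, key o ?_ huo.symm,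
    key o' ?_ huo'.symm⟩
  · rw [hob]; simp
  · rw [hob]; simp

variable {G} in
theorem TE_data (hG : G.IsRegularOfDegree 3) (h3 : NoTri G) (h4 : NoSq G) {k : ℕ} {S : Finset V}
    (hL : Level G k S) (hk : 1 ≤ k) {w e : V} (h : TE G S w e) :
    ∃ v e2 x x' o l, sm G S w = {v} ∧ op G S w = {e, e2} ∧ e ≠ e2 ∧ sd G S e = 0 ∧
      sd G S e2 = 0 ∧ op G S e = {w, x, o} ∧ w ≠ x ∧ w ≠ o ∧ x ≠ o ∧ UN G S e = {w, x} ∧
      sd G S o = 0 ∧ sd G S x = 1 ∧ x ∉ sites G S ∧ sm G S x = {x'} ∧ op G S x = {e, l} ∧
      e ≠ l ∧ sd G S l = 1 ∧ x ∉ sm G S w ∧ x' ≠ w ∧ v ≠ x := by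
  obtain ⟨hw, he, hc⟩ := h
  have hw' := mem_sites.1 hw
  obtain ⟨v, hv⟩ := sd_one hw'.2.1
  have hcw : (op G S w).card = 2 := by
    have := sd_add_op hG S w
    rw [hw'.2.1] at this
    omega
  obtain ⟨e2, hop, hee⟩ := card_two hcw he
  have se : sd G S e = 0 := hw'.2.2 e he
  have he2 : e2 ∈ op G S w := by rw [hop]; simp
  have se2 : sd G S e2 = 0 := hw'.2.2 e2 he2
  have heS : e ∉ S := op_black hw'.1 he
  have hwU : w ∈ UN G S e := mem_UN.2 ⟨op_symm he, hw'.2.1⟩
  obtain ⟨x, hUN, hwx⟩ := card_two hc hwU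
  have hxU : x ∈ UN G S e := by rw [hUN]; simp
  have hxe := (mem_UN.1 hxU).1
  have sx := (mem_UN.1 hxU).2
  have hxns : x ∉ sites G S := by
    obtain ⟨y, hy, hys⟩ := fact3 hG h3 h4 hL hk heS se hc
    rw [hUN, Finset.mem_insert, Finset.mem_singleton] at hy
    rcases hy with rfl | rfl
    · exact absurd hw hys
    · exact hys
  have hce : (op G S e).card = 3 := by
    have := sd_add_op hG S e
    omega
  obtain ⟨o, hoe, hwo, hxo⟩ := card_three' hce (op_symm he) hxe hwx
  have ho : o ∈ op G S e := by rw [hoe]; simp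
  have so : sd G S o = 0 := by
    by_contra hne
    have h1 := hL.tf o
    have hoU : o ∈ UN G S e := mem_UN.2 ⟨ho, by omega⟩
    rw [hUN, Finset.mem_insert, Finset.mem_singleton] at hoU
    rcases hoU with h5 | h5
    · exact hwo h5.symm
    · exact hxo h5.symm
  obtain ⟨x', hx'⟩ := sd_one sx
  have hcx : (op G S x).card = 2 := by
    have := sd_add_op hG S x
    rw [sx] at this
    omega
  obtain ⟨l, hopx, hel⟩ := card_two hcx (op_symm hxe)
  have hxS : x ∈ S := op_white heS hxe
  have sl : sd G S l = 1 := by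
    by_contra hne
    have h1 := hL.tf l
    apply hxns
    rw [mem_sites]
    refine ⟨hxS, sx, ?_⟩
    intro b hb
    rw [hopx, Finset.mem_insert, Finset.mem_singleton] at hb
    rcases hb with rfl | rfl
    · exact se
    · omega
  have hxw : x ∉ sm G S w := by
    intro h5
    have a1 := (mem_sm.1 h5).1
    have a2 := (mem_op.1 he).1
    have a3 := (mem_op.1 hxe).1
    exact h3 w e x a2 a3 a1
  have hx'w : x' ≠ w := by
    intro h5
    apply hxw
    apply sm_symm
    rw [hx', h5]
    simp
  have hvx : v ≠ x := by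
    intro h5
    apply hxw
    rw [hv, h5]
    simp
  exact ⟨v, e2, x, x', o, l, hv, hop, hee, se, se2, hoe, hwx, hwo, hxo, hUN, so, sx, hxns, hx',
    hopx, hel, sl, hxw, hx'w, hvx⟩

variable {G} in
theorem zl_data (hG : G.IsRegularOfDegree 3) {k : ℕ} {S : Finset V} (hL : Level G k S)
    {x e : V} (hx : x ∈ S) (sx : sd G S x = 1) (hns : x ∉ sites G S) (he : e ∈ op G S x)
    (se : sd G S e = 0) :
    ∃ l x' l', op G S x = {e, l} ∧ e ≠ l ∧ sd G S l = 1 ∧ sm G S x = {x'} ∧ sm G S l = {l'} := by
  obtain ⟨x', hx'⟩ := sd_one sx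
  have hcx : (op G S x).card = 2 := by
    have := sd_add_op hG S x
    rw [sx] at this
    omega
  obtain ⟨l, hopx, hel⟩ := card_two hcx he
  have sl : sd G S l = 1 := by
    by_contra hne
    have h1 := hL.tf l
    apply hns
    rw [mem_sites]
    refine ⟨hx, sx, ?_⟩
    intro b hb
    rw [hopx, Finset.mem_insert, Finset.mem_singleton] at hb
    rcases hb with rfl | rfl
    · exact se
    · omega
  obtain ⟨l', hl'⟩ := sd_one sl
  exact ⟨l, x', l', hopx, hel, sl, hx', hl'⟩

end Pool.Agent.Lib.Ando
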