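import Mathlib
import Pool.Agent.Lib.Ando.Struct

set_option autoImplicit false
set_option linter.unusedSectionVars false

/-!
# Ando.Card: cardinalities of the conflict sets in Case A

Conventions: S = white vertices. Z / L = black vertices with sd = 0 / 1, O / U = white vertices with sd = 0 / 1. For v in L or U let v* be the member of sm S v. Every vertex of U has
sm S u = {u*} and op S u with two members (`sd_add_op`); a vertex of O or Z has op S with three members.
`Level.cost_ge`: cost S F >= k - |k + iot S F|; `Level.exists_two`: if equality holds and |k + iot| < k, some vertex has sd >= 2 after the exchange.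
To compute `cost S F` for an explicit F: F is an insert of different vertices, so expand the sums with `Finset.sum_insert`; the double sum counts each adjacent pair in F twice:
2 times (number of bichromatic pairs) - 2 times (number of monochromatic pairs). For an upper bound of the cost it is enough to know enough bichromatic pairs and that the other
pairs are not monochromatic edges (the terms of the double sum are then >= 0).

`stA_card`: for e in Z at most one site is adjacent to e (`site_unique`). (For the sets below all e that occur are black neighbours of white vertices; if sd S e /= 0 then no site is adjacent to e, by the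
definition of sites. So stA_card holds for every black e; for white e there is no site w with e in op S w, as w is white.) So state and prove it for every e.
`ks_card`: x in U. If x is a site: 1. Otherwise x has two black neighbours, at least one of which has sd /= 0, so the filter has at most one element, and stA_card.
`kLeaf_card`: {u}: 1; (sm S u).biUnion ks: sm S u = {v}, v in U: 1; op S b minus {u} = {o, o'}, each op S o minus {b} has two elements (op S o has three elements, b is one of them): 2 * 2 * 1. Total 6.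
`kT1_card`: 1 + 1 + (the filter is {o}: 1 * 2 * 1) + (UN S e minus {w} = {x}, sm S x = {x'}, ks x': 1) = 5.
`kT1L_card`: sm S w: 1; UN S e minus {w} = {x}: sm S x: 1; (op S w).biUnion UN minus {w}: op S w = {e, e2}, UN S e and UN S e2 have at most two elements and contain w: at most 2. Total 4.
`kL_card`: 1 + 1 + 1 (the filter is {l}, as op S x = {e, l} with sd S e = 0; sm S l = {l'}; UN S l' has at most one element by `fact1`).
-/

namespace Pool.Agent.Lib.Ando

variable {V : Type*} [Fintype V] [DecidableEq V] (G : SimpleGraph V) [DecidableRel G.Adj]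

open StructAux

namespace CardAux

variable {G} in
theorem mem_stA {S : Finset V} {e w : V} : w ∈ stA G S e ↔ w ∈ sites G S ∧ e ∈ op G S w := by
  unfold stA
  rw [Finset.mem_filter]

variable {G} in
theorem sm_white {S : Finset V} {u v : V} (hu : u ∈ S) (h : v ∈ sm G S u) : v ∈ S :=
  (mem_sm.1 h).2.2 hu

variable {G} in
theorem sm_black {S : Finset V} {u v : V} (hu : u ∉ S) (h : v ∈ sm G S u) : v ∉ S :=
  fun hv => hu ((mem_sm.1 h).2.1 hv)

variable {G} in
theorem sm_sd {k : ℕ} {S : Finset V} (hL : Level G k S) {u v : V} (h : v ∈ sm G S u) :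
    sd G S v = 1 := by
  have h1 : 1 ≤ sd G S v := by
    unfold sd
    exact Finset.card_pos.2 ⟨u, sm_symm h⟩
  have h2 := hL.tf v
  omega

theorem biU (A : Finset V) (f : V → Finset V) (m n : ℕ) (h1 : A.card ≤ m)
    (h2 : ∀ a ∈ A, (f a).card ≤ n) : (A.biUnion f).card ≤ m * n :=
  le_trans (Finset.card_biUnion_le_card_mul A f n h2) (Nat.mul_le_mul_right n h1)

theorem card_sdiff_singleton' (A : Finset V) {x : V} {n : ℕ} (h : A.card ≤ n + 1) (hx : x ∈ A) :
    (A \ {x}).card ≤ n := by
  rw [Finset.sdiff_singleton_eq_erase, Finset.card_erase_of_mem hx]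
  omega

end CardAux

open CardAux

variable {G} in
theorem stA_card (hG : G.IsRegularOfDegree 3) (h3 : NoTri G) (h4 : NoSq G) {k : ℕ} {S : Finset V}
    (hL : Level G k S) (hk : 1 ≤ k)
    (hA : ∀ b, b ∉ S → sd G S b = 0 → (UN G S b).card ≤ 2) (e : V) : (stA G S e).card ≤ 1 := by
  rw [Finset.card_le_one]
  intro a ha b hb
  rw [mem_stA] at ha hb
  exact site_unique hG h3 h4 hL hk hA ha.1 hb.1 ha.2 hb.2

variable {G} in
theorem ks_card (hG : G.IsRegularOfDegree 3) (h3 : NoTri G) (h4 : NoSq G) {k : ℕ} {S : Finset V}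
    (hL : Level G k S) (hk : 1 ≤ k)
    (hA : ∀ b, b ∉ S → sd G S b = 0 → (UN G S b).card ≤ 2) {x : V} (hx : x ∈ S) (sx : sd G S x = 1) : (ks G S x).card ≤ 1 := by
  unfold ks
  by_cases hs : x ∈ sites G S
  · rw [if_pos hs]
    simp
  · rw [if_neg hs]
    have hcx : (op G S x).card = 2 := by
      have := sd_add_op hG S x
      omega
    have hf : ((op G S x).filter (fun e => sd G S e = 0)).card ≤ 1 := by
      by_contra hne
      have h5 : (op G S x).filter (fun e => sd G S e = 0) = op G S x := by
        apply Finset.eq_of_subset_of_card_le (Finset.filter_subset _ _)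
        omega
      apply hs
      rw [mem_sites]
      refine ⟨hx, sx, ?_⟩
      intro b hb
      rw [← h5, Finset.mem_filter] at hb
      exact hb.2
    have h6 := biU ((op G S x).filter (fun e => sd G S e = 0)) (stA G S) 1 1 hf
      (fun e _ => stA_card hG h3 h4 hL hk hA e)
    simpa using h6

variable {G} in
theorem kLeaf_card (hG : G.IsRegularOfDegree 3) (h3 : NoTri G) (h4 : NoSq G) {k : ℕ} {S : Finset V}
    (hL : Level G k S) (hk : 1 ≤ k)
    (hA : ∀ b, b ∉ S → sd G S b = 0 → (UN G S b).card ≤ 2) {u b : V} (h : LeafE G S u b) : (kLeaf G S u b).card ≤ 6 := by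
  obtain ⟨v, b', o, o', hv, hop, hbb, sb, sb', hob, huo, huo', hoo, so, so'⟩ :=
    leaf_data hG hL h
  have hu := mem_sites.1 h.1
  have hvm : v ∈ sm G S u := by rw [hv]; simp
  have e1 : ((sm G S u).biUnion (ks G S)).card ≤ 1 := by
    rw [hv, Finset.singleton_biUnion]
    exact ks_card hG h3 h4 hL hk hA (sm_white hu.1 hvm) (sm_sd hL hvm)
  have e2 : (op G S b \ {u}).card ≤ 2 := by
    apply card_sdiff_singleton'
    · have := sd_add_op hG S b
      omega
    · exact op_symm h.2.1
  have e3 : ((op G S b \ {u}).biUnion (fun o => (op G S o \ {b}).biUnion (stA G S))).card ≤ 2 * 2 := by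
    apply biU _ _ _ _ e2
    intro a ha
    rw [Finset.mem_sdiff] at ha
    have e4 : (op G S a \ {b}).card ≤ 2 := by
      apply card_sdiff_singleton'
      · have := sd_add_op hG S a
        omega
      · exact op_symm ha.1
    have := biU (op G S a \ {b}) (stA G S) 2 1 e4 (fun e _ => stA_card hG h3 h4 hL hk hA e)
    simpa using this
  unfold kLeaf
  have c1 := Finset.card_union_le ({u} ∪ (sm G S u).biUnion (ks G S))
    ((op G S b \ {u}).biUnion (fun o => (op G S o \ {b}).biUnion (stA G S)))
  have c2 := Finset.card_union_le {u} ((sm G S u).biUnion (ks G S))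
  rw [Finset.card_singleton] at c2
  omega

variable {G} in
theorem kT1_card (hG : G.IsRegularOfDegree 3) (h3 : NoTri G) (h4 : NoSq G) {k : ℕ} {S : Finset V}
    (hL : Level G k S) (hk : 1 ≤ k)
    (hA : ∀ b, b ∉ S → sd G S b = 0 → (UN G S b).card ≤ 2) {w e : V} (h : TE G S w e) : (kT1 G S w e).card ≤ 5 := by
  obtain ⟨v, e2, x, x', o, l, hv, hop, hee, se, se2, hoe, hwx, hwo, hxo, hUN, so, sx, hxns, hx',
    hopx, hel, sl, hxw, hx'w, hvx⟩ := TE_data hG h3 h4 hL hk h
  have hw := mem_sites.1 h.1
  have heS : e ∉ S := op_black hw.1 h.2.1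
  have hvm : v ∈ sm G S w := by rw [hv]; simp
  have e1 : ((sm G S w).biUnion (ks G S)).card ≤ 1 := by
    rw [hv, Finset.singleton_biUnion]
    exact ks_card hG h3 h4 hL hk hA (sm_white hw.1 hvm) (sm_sd hL hvm)
  have f2 : ((op G S e).filter (fun o => sd G S o = 0)) ⊆ {o} := by
    intro y hy
    rw [Finset.mem_filter, hoe, Finset.mem_insert, Finset.mem_insert, Finset.mem_singleton] at hy
    rw [Finset.mem_singleton]
    obtain ⟨hy1, hy2⟩ := hy
    rcases hy1 with rfl | rfl | rfl
    · have := hw.2.1
      omega
    · omega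
    · rfl
  have f3 : ((op G S e).filter (fun o => sd G S o = 0)).card ≤ 1 := by
    have := Finset.card_le_card f2
    rwa [Finset.card_singleton] at this
  have e3 : (((op G S e).filter (fun o => sd G S o = 0)).biUnion
        (fun o => (op G S o \ {e}).biUnion (stA G S))).card ≤ 1 * 2 := by
    apply biU _ _ _ _ f3
    intro a ha
    rw [Finset.mem_filter] at ha
    have e4 : (op G S a \ {e}).card ≤ 2 := by
      apply card_sdiff_singleton'
      · have := sd_add_op hG S a
        omega
      · exact op_symm ha.1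
    have := biU (op G S a \ {e}) (stA G S) 2 1 e4 (fun e _ => stA_card hG h3 h4 hL hk hA e)
    simpa using this
  have hUN2 : UN G S e \ {w} = {x} := by
    rw [hUN]
    ext y
    simp only [Finset.mem_sdiff, Finset.mem_insert, Finset.mem_singleton]
    constructor
    · rintro ⟨h5 | h5, h6⟩
      · exact absurd h5 h6
      · exact h5
    · intro h5
      subst h5
      exact ⟨Or.inr rfl, hwx.symm⟩
  have hxe : x ∈ op G S e := by rw [hoe]; simp
  have hxS : x ∈ S := op_white heS hxe
  have hx'm : x' ∈ sm G S x := by rw [hx']; simp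
  have e5 : ((UN G S e \ {w}).biUnion (fun x => (sm G S x).biUnion (ks G S))).card ≤ 1 := by
    rw [hUN2, Finset.singleton_biUnion, hx', Finset.singleton_biUnion]
    exact ks_card hG h3 h4 hL hk hA (sm_white hxS hx'm) (sm_sd hL hx'm)
  unfold kT1
  have c1 := Finset.card_union_le ({w} ∪ (sm G S w).biUnion (ks G S)
    ∪ ((op G S e).filter (fun o => sd G S o = 0)).biUnion
        (fun o => (op G S o \ {e}).biUnion (stA G S)))
    ((UN G S e \ {w}).biUnion (fun x => (sm G S x).biUnion (ks G S)))
  have c2 := Finset.card_union_le ({w} ∪ (sm G S w).biUnion (ks G S))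
    (((op G S e).filter (fun o => sd G S o = 0)).biUnion
        (fun o => (op G S o \ {e}).biUnion (stA G S)))
  have c3 := Finset.card_union_le {w} ((sm G S w).biUnion (ks G S))
  rw [Finset.card_singleton] at c3
  omega

variable {G} in
theorem kT1L_card (hG : G.IsRegularOfDegree 3) (h3 : NoTri G) (h4 : NoSq G) {k : ℕ} {S : Finset V}
    (hL : Level G k S) (hk : 1 ≤ k)
    (hA : ∀ b, b ∉ S → sd G S b = 0 → (UN G S b).card ≤ 2) {w e : V} (h : TE G S w e) : (kT1L G S w e).card ≤ 4 := by
  obtain ⟨v, e2, x, x', o, l, hv, hop, hee, se, se2, hoe, hwx, hwo, hxo, hUN, so, sx, hxns, hx',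
    hopx, hel, sl, hxw, hx'w, hvx⟩ := TE_data hG h3 h4 hL hk h
  have hw := mem_sites.1 h.1
  have he2m : e2 ∈ op G S w := by rw [hop]; simp
  have he2S : e2 ∉ S := op_black hw.1 he2m
  have hwe : w ∈ UN G S e := mem_UN.2 ⟨op_symm h.2.1, hw.2.1⟩
  have hwe2 : w ∈ UN G S e2 := mem_UN.2 ⟨op_symm he2m, hw.2.1⟩
  have g1 : (UN G S e \ {w}).card ≤ 1 := card_sdiff_singleton' _ h.2.2.le hwe
  have g2 : (UN G S e2 \ {w}).card ≤ 1 := card_sdiff_singleton' _ (hA e2 he2S se2) hwe2
  have g3 : (sm G S w).card ≤ 1 := hL.tf w
  have g4 : ((UN G S e \ {w}).biUnion (sm G S)).card ≤ 1 * 1 :=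
    biU _ _ _ _ g1 (fun a _ => hL.tf a)
  have g5 : ((op G S w).biUnion (UN G S) \ {w}).card ≤ 2 := by
    have : (op G S w).biUnion (UN G S) \ {w} ⊆ (UN G S e \ {w}) ∪ (UN G S e2 \ {w}) := by
      intro y hy
      rw [Finset.mem_sdiff, Finset.mem_biUnion] at hy
      obtain ⟨⟨z, hz, hyz⟩, hyw⟩ := hy
      rw [hop, Finset.mem_insert, Finset.mem_singleton] at hz
      rw [Finset.mem_union, Finset.mem_sdiff, Finset.mem_sdiff]
      rcases hz with rfl | rfl
      · exact Or.inl ⟨hyz, hyw⟩
      · exact Or.inr ⟨hyz, hyw⟩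
    have h5 := Finset.card_le_card this
    have h6 := Finset.card_union_le (UN G S e \ {w}) (UN G S e2 \ {w})
    omega
  unfold kT1L
  have c1 := Finset.card_union_le (sm G S w ∪ (UN G S e \ {w}).biUnion (sm G S))
    ((op G S w).biUnion (UN G S) \ {w})
  have c2 := Finset.card_union_le (sm G S w) ((UN G S e \ {w}).biUnion (sm G S))
  omega

variable {G} in
theorem kL_card (hG : G.IsRegularOfDegree 3) (h3 : NoTri G) (h4 : NoSq G) {k : ℕ} {S : Finset V}
    (hL : Level G k S) (hk : 1 ≤ k)
    (hA : ∀ b, b ∉ S → sd G S b = 0 → (UN G S b).card ≤ 2) {x e : V} (hx : x ∈ S) (sx : sd G S x = 1) (hns : x ∉ sites G S)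
    (he : e ∈ op G S x) (se : sd G S e = 0) : (kL G S x).card ≤ 3 := by
  obtain ⟨l, x', l', hopx, hel, sl, hx', hl'⟩ := zl_data hG hL hx sx hns he se
  have g1 : ((op G S x).filter (fun l => sd G S l = 1)) ⊆ {l} := by
    intro y hy
    rw [Finset.mem_filter, hopx, Finset.mem_insert, Finset.mem_singleton] at hy
    rw [Finset.mem_singleton]
    obtain ⟨hy1, hy2⟩ := hy
    rcases hy1 with rfl | rfl
    · omega
    · rfl
  have g2 : ((op G S x).filter (fun l => sd G S l = 1)).card ≤ 1 := by
    have := Finset.card_le_card g1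
    rwa [Finset.card_singleton] at this
  have g3 : (((op G S x).filter (fun l => sd G S l = 1)).biUnion
      (fun l => (sm G S l).biUnion (UN G S))).card ≤ 1 * 1 := by
    apply biU _ _ _ _ g2
    intro a ha
    rw [Finset.mem_filter] at ha
    have haS : a ∉ S := op_black hx ha.1
    have := biU (sm G S a) (UN G S) 1 1 (hL.tf a) (fun c hc =>
      fact1 hG h3 hL hk (sm_black haS hc) (sm_sd hL hc))
    simpa using this
  have g4 : (sm G S x).card ≤ 1 := hL.tf x
  unfold kL
  have c1 := Finset.card_union_le ({x} ∪ sm G S x)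
    (((op G S x).filter (fun l => sd G S l = 1)).biUnion (fun l => (sm G S l).biUnion (UN G S)))
  have c2 := Finset.card_union_le {x} (sm G S x)
  rw [Finset.card_singleton] at c2
  omega

end Pool.Agent.Lib.Ando
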