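import Mathlib
import Pool.Agent.Lib.Ando.Basic

set_option autoImplicit false
set_option linter.unusedSectionVars false

/-!
# Ando.OpZZ: the operation ZZ (any graph)

General recipe. Let T = symmDiff S F. By `sm_flip_not_mem`, `sm_flip_mem`: for v not in F: sm T v = (sm S v minus F) union (op S v inter F); for v in F: sm T v = (op S v minus F)
union (sm S v inter F). A vertex v outside F and not adjacent to F has sm T v = sm S v, so sd T v <= 1. So only the vertices of F and
their neighbours must be looked at, and all of them are listed below. From this list: {v : sd T v = 2}, `Good4`, n2, q2; and imb T from `card` of symmDiff.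

F = {u}, u white, op S u = {c, d}, sd c = sd d = 0, sm S u = {v}. New values: u is black, sm T u = {c, d}, sd T u = 2. sm T c = {u}, sm T d = {u} (sm S c is
empty; u is the only member of F). sm T v = empty. So u is the only vertex with sd T = 2, it is black, and its two
monochromatic neighbours have sd T = 1. Numbers: i = -1, a = a' = 0, b = 1, b' = 0.
-/

namespace Pool.Agent.Lib.Ando

variable {V : Type*} [Fintype V] [DecidableEq V] (G : SimpleGraph V) [DecidableRel G.Adj]

namespace OpZZAux

/-- the three facts needed for one colour class -/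
def Cls (T A : Finset V) (a a' : ℕ) : Prop :=
  n2 G T A = a ∧ q2 G T A = a' ∧
    ∀ v ∈ A, sd G T v = 2 → ((sm G T v).filter (fun w => sd G T w = 2)).card ≤ 1

theorem sm_irrefl (T : Finset V) (v : V) : v ∉ sm G T v := by
  rw [mem_sm]
  exact fun h => G.irrefl h.1

theorem op_irrefl (T : Finset V) (v : V) : v ∉ op G T v := by
  rw [mem_op]
  exact fun h => G.irrefl h.1

theorem cls_none {T A : Finset V} (h : ∀ v ∈ A, sd G T v ≠ 2) : Cls G T A 0 0 := by
  have h1 : A.filter (fun v => sd G T v = 2) = ∅ := Finset.filter_eq_empty_iff.2 h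
  refine ⟨?_, ?_, fun v hv h2 => absurd h2 (h v hv)⟩
  · unfold n2
    rw [h1, Finset.card_empty]
  · unfold q2
    rw [h1, Finset.sum_empty]

theorem cls_one {T A : Finset V} (hA : ∀ v ∈ A, ∀ w ∈ sm G T v, w ∈ A) {x : V} (hx : x ∈ A)
    (hx2 : sd G T x = 2) (h : ∀ v ∈ A, sd G T v = 2 → v = x) : Cls G T A 1 0 := by
  have h1 : A.filter (fun v => sd G T v = 2) = {x} := by
    ext v
    rw [Finset.mem_filter, Finset.mem_singleton]
    exact ⟨fun hv => h v hv.1 hv.2, fun hv => by subst hv; exact ⟨hx, hx2⟩⟩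
  have h2 : (sm G T x).filter (fun w => sd G T w = 2) = ∅ := by
    rw [Finset.filter_eq_empty_iff]
    intro w hw hw2
    have := h w (hA x hx w hw) hw2
    subst this
    exact sm_irrefl G T w hw
  refine ⟨?_, ?_, fun v hv hv2 => ?_⟩
  · unfold n2
    rw [h1, Finset.card_singleton]
  · unfold q2
    rw [h1, Finset.sum_singleton, h2, Finset.card_empty]
  · rw [h v hv hv2, h2, Finset.card_empty]
    exact zero_le_one

theorem cls_two {T A : Finset V} (hA : ∀ v ∈ A, ∀ w ∈ sm G T v, w ∈ A) {x y : V} (hx : x ∈ A)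
    (hy : y ∈ sm G T x) (hx2 : sd G T x = 2) (hy2 : sd G T y = 2)
    (h : ∀ v ∈ A, sd G T v = 2 → v = x ∨ v = y) : Cls G T A 2 2 := by
  have hyA : y ∈ A := hA x hx y hy
  have hxy : x ≠ y := by
    rintro rfl
    exact sm_irrefl G T x hy
  have h1 : A.filter (fun v => sd G T v = 2) = {x, y} := by
    ext v
    rw [Finset.mem_filter, Finset.mem_insert, Finset.mem_singleton]
    refine ⟨fun hv => h v hv.1 hv.2, ?_⟩
    rintro (hv | hv)
    · subst hv; exact ⟨hx, hx2⟩
    · subst hv; exact ⟨hyA, hy2⟩
  have key : ∀ p q : V, p ∈ A → q ∈ sm G T p → sd G T q = 2 →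
      (∀ v ∈ A, sd G T v = 2 → v = p ∨ v = q) →
      (sm G T p).filter (fun w => sd G T w = 2) = {q} := by
    intro p q hp hq hq2 hh
    ext w
    rw [Finset.mem_filter, Finset.mem_singleton]
    constructor
    · rintro ⟨hw, hw2⟩
      rcases hh w (hA p hp w hw) hw2 with h3 | h3
      · subst h3
        exact absurd hw (sm_irrefl G T w)
      · exact h3
    · intro hw
      subst hw
      exact ⟨hq, hq2⟩
  have e1 := key x y hx hy hy2 h
  have e2 := key y x hyA (sm_symm hy) hx2 (fun v hv hv2 => (h v hv hv2).symm)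
  refine ⟨?_, ?_, fun v hv hv2 => ?_⟩
  · unfold n2
    rw [h1, Finset.card_pair hxy]
  · unfold q2
    rw [h1, Finset.sum_pair hxy, e1, e2, Finset.card_singleton, Finset.card_singleton]
  · rcases h v hv hv2 with h3 | h3
    · rw [h3, e1, Finset.card_singleton]
    · rw [h3, e2, Finset.card_singleton]

theorem closed_T (T : Finset V) : ∀ v ∈ T, ∀ w ∈ sm G T v, w ∈ T := by
  intro v hv w hw
  rw [mem_sm] at hw
  exact hw.2.2 hv

theorem closed_Tc (T : Finset V) : ∀ v ∈ Tᶜ, ∀ w ∈ sm G T v, w ∈ Tᶜ := by
  intro v hv w hw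
  rw [mem_sm] at hw
  rw [Finset.mem_compl] at hv ⊢
  exact fun h => hv (hw.2.1 h)

theorem imb_flip' (S F : Finset V) : imb (symmDiff S F) =
    imb S + 2 * (((F \ S).card : ℤ) - ((F ∩ S).card : ℤ)) := by
  have h1 : (symmDiff S F).card = (S \ F).card + (F \ S).card := by
    rw [symmDiff_def, Finset.sup_eq_union, Finset.card_union_of_disjoint]
    exact disjoint_sdiff_sdiff
  have h2 : (S \ F).card + (S ∩ F).card = S.card := Finset.card_sdiff_add_card_inter S F
  have h3 : (symmDiff S F).card + (symmDiff S F)ᶜ.card = Fintype.card V :=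
    Finset.card_add_card_compl _
  have h4 : S.card + Sᶜ.card = Fintype.card V := Finset.card_add_card_compl _
  have h5 : (F ∩ S).card = (S ∩ F).card := by rw [Finset.inter_comm]
  unfold imb
  omega

theorem mk_eff {S F : Finset V} {i : ℤ} {a a' b b' : ℕ}
    (hle : ∀ v, sd G (symmDiff S F) v ≤ 2)
    (hi : ((F \ S).card : ℤ) - ((F ∩ S).card : ℤ) = i)
    (hw : Cls G (symmDiff S F) (symmDiff S F) a a')
    (hb : Cls G (symmDiff S F) (symmDiff S F)ᶜ b b') : Eff G S F i a a' b b' := by
  refine ⟨fun v => ⟨hle v, fun h2 => ?_⟩, ?_, hw.1, hw.2.1, hb.1, hb.2.1⟩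
  · by_cases hv : v ∈ symmDiff S F
    · exact hw.2.2 v hv h2
    · exact hb.2.2 v (Finset.mem_compl.2 hv) h2
  · rw [imb_flip', hi]

theorem sd_not_mem {S F : Finset V} {v : V} (hv : v ∉ F) :
    sd G (symmDiff S F) v ≤ (sm G S v \ F).card + (op G S v ∩ F).card := by
  unfold sd
  rw [sm_flip_not_mem G hv]
  exact Finset.card_union_le _ _

theorem sd_mem {S F : Finset V} {v : V} (hv : v ∈ F) :
    sd G (symmDiff S F) v ≤ (op G S v \ F).card + (sm G S v ∩ F).card := by
  unfold sd
  rw [sm_flip_mem G hv]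
  exact Finset.card_union_le _ _

/-- a vertex outside `F` and not adjacent to `F` -/
theorem sd_far {S F : Finset V} (htf : ∀ v, sd G S v ≤ 1) {v : V} (hv : v ∉ F)
    (h : op G S v ∩ F = ∅) : sd G (symmDiff S F) v ≤ 1 := by
  have h1 := sd_not_mem (G := G) (S := S) hv
  rw [h, Finset.card_empty, add_zero] at h1
  exact h1.trans ((Finset.card_le_card Finset.sdiff_subset).trans (htf v))

/-- a vertex outside `F` without neighbours of its own colour -/
theorem sd_zero {S F : Finset V} {v : V} (hv : v ∉ F) (h0 : sd G S v = 0) {x : V}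
    (h : ∀ w ∈ op G S v, w ∈ F → w = x) : sd G (symmDiff S F) v ≤ 1 := by
  have h1 := sd_not_mem (G := G) (S := S) hv
  have h2 : sm G S v = ∅ := Finset.card_eq_zero.1 h0
  have h3 : op G S v ∩ F ⊆ {x} := by
    intro w hw
    rw [Finset.mem_inter] at hw
    exact Finset.mem_singleton.2 (h w hw.1 hw.2)
  have h4 := Finset.card_le_card h3
  rw [h2, Finset.empty_sdiff, Finset.card_empty, zero_add] at h1
  rw [Finset.card_singleton] at h4
  exact h1.trans h4

end OpZZAux

open OpZZAux in
theorem eff_zz {S : Finset V} (htf : ∀ v, sd G S v ≤ 1) {u c d : V} (hu : u ∈ S)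
    (hop : op G S u = {c, d}) (hcd : c ≠ d) (hc : sd G S c = 0)
    (hd : sd G S d = 0) : Eff G S {u} (-1) 0 0 1 0 := by
  have hout : ∀ v, v ≠ u → sd G (symmDiff S {u}) v ≤ 1 := by
    intro v hv
    have hvF : v ∉ ({u} : Finset V) := by simpa using hv
    by_cases huv : u ∈ op G S v
    · have h1 : v ∈ op G S u := op_symm huv
      rw [hop, Finset.mem_insert, Finset.mem_singleton] at h1
      have h0 : sd G S v = 0 := by
        rcases h1 with h1 | h1 <;> rw [h1] <;> assumption
      exact sd_zero G hvF h0 (x := u) (fun w _ hw => Finset.mem_singleton.1 hw)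
    · exact sd_far G htf hvF (by
        rw [Finset.eq_empty_iff_forall_notMem]
        intro w hw
        rw [Finset.mem_inter, Finset.mem_singleton] at hw
        exact huv (hw.2 ▸ hw.1))
  have hu2 : sd G (symmDiff S {u}) u = 2 := by
    unfold sd
    rw [sm_flip_mem G (Finset.mem_singleton_self u)]
    have e1 : op G S u \ {u} = {c, d} := by
      rw [Finset.sdiff_singleton_eq_erase, Finset.erase_eq_of_notMem (op_irrefl G S u), hop]
    have e2 : sm G S u ∩ {u} = ∅ := by
      rw [Finset.inter_singleton_of_notMem (sm_irrefl G S u)]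
    rw [e1, e2, Finset.union_empty, Finset.card_pair hcd]
  have huT : u ∈ (symmDiff S {u})ᶜ := by
    rw [Finset.mem_compl, Finset.mem_symmDiff]
    simp [hu]
  refine mk_eff G (fun v => ?_) ?_ (cls_none G fun v hv h2 => ?_)
    (cls_one G (closed_Tc G _) huT hu2 fun v _ h2 => ?_)
  · by_cases hv : v = u
    · rw [hv, hu2]
    · exact (hout v hv).trans (by norm_num)
  · rw [Finset.singleton_inter_of_mem hu, Finset.sdiff_eq_empty_iff_subset.2
      (Finset.singleton_subset_iff.2 hu)]
    simp
  · by_cases hvu : v = u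
    · rw [hvu] at hv
      exact (Finset.mem_compl.1 huT) hv
    · have := hout v hvu
      omega
  · by_contra hvu
    have := hout v hvu
    omega

end Pool.Agent.Lib.Ando
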