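import Mathlib
import Pool.Agent.Lib.Ando.Basic
import Pool.Agent.Lib.Ando.OpZZ

set_option autoImplicit false
set_option linter.unusedSectionVars false

/-!
# Ando.OpLeaf: the leaf operation (any graph)

General recipe. Let T = symmDiff S F. By `sm_flip_not_mem`, `sm_flip_mem`: for v not in F: sm T v = (sm S v minus F) union (op S v inter F); for v in F: sm T v = (op S v minus F)
union (sm S v inter F). A vertex v outside F and not adjacent to F has sm T v = sm S v, so sd T v <= 1. So only the vertices of F and
their neighbours must be looked at, and all of them are listed below. From this list: {v : sd T v = 2}, `Good4`, n2, q2; and imb T from `card` of symmDiff.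

F = {u, b}, u white, b black, op S u = {b, b'}, op S b = {u, o, o'}, sd b = sd b' = sd o = sd o' = 0. New values: b is white, sm T b = op S b minus F = {o, o'} (sm S b is empty), sd T b = 2.
u is black, sm T u = op S u minus F = {b'} (sm S u does not meet F: b is black). sm T b' = {u}. sm T o = {b} and sm T o' = {b} (u is not adjacent to o in the same
colour because sd o = 0; the vertex b is in op S o). A white neighbour v of u (sd v = 1, so v is not o, o'): sm T v = empty (v is not adjacent to b, because op S b = {u, o, o'}). So b is the only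
vertex with sd T = 2. Numbers: i = 0, a = 1, a' = 0, b = b' = 0.
-/

namespace Pool.Agent.Lib.Ando

variable {V : Type*} [Fintype V] [DecidableEq V] (G : SimpleGraph V) [DecidableRel G.Adj]

open OpZZAux in
theorem eff_leaf {S : Finset V} (htf : ∀ v, sd G S v ≤ 1) {u b b' o o' : V} (hu : u ∈ S)
    (hopu : op G S u = {b, b'}) (hbb : b ≠ b') (hb : sd G S b = 0) (hb' : sd G S b' = 0)
    (hopb : op G S b = {u, o, o'}) (huo : u ≠ o) (huo' : u ≠ o') (hoo : o ≠ o')
    (ho : sd G S o = 0) (ho' : sd G S o' = 0) : Eff G S {u, b} 0 1 0 0 0 := by
  have hbu : b ∈ op G S u := by rw [hopu]; simp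
  have hb'u : b' ∈ op G S u := by rw [hopu]; simp
  have hbS : b ∉ S := fun h => (mem_op.1 hbu).2 ⟨fun _ => hu, fun _ => h⟩
  have hb'S : b' ∉ S := fun h => (mem_op.1 hb'u).2 ⟨fun _ => hu, fun _ => h⟩
  have hub : u ≠ b := by rintro rfl; exact hbS hu
  have hub' : u ≠ b' := by rintro rfl; exact hb'S hu
  have hmem : ∀ w, w ∈ ({u, b} : Finset V) ↔ w = u ∨ w = b := by
    intro w
    rw [Finset.mem_insert, Finset.mem_singleton]
  have hoS : ∀ w, w ∈ op G S b → w ∈ S := by
    intro w hw
    by_contra hws
    exact (mem_op.1 hw).2 ⟨fun h => absurd h hws, fun h => absurd h hbS⟩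
  have hout : ∀ v, v ∉ ({u, b} : Finset V) → sd G (symmDiff S {u, b}) v ≤ 1 := by
    intro v hv
    have hv2 : v ≠ u ∧ v ≠ b := by
      rw [hmem] at hv
      push Not at hv
      exact hv
    by_cases huv : u ∈ op G S v
    · have h1 : v ∈ op G S u := op_symm huv
      rw [hopu, Finset.mem_insert, Finset.mem_singleton] at h1
      have h2 : v = b' := h1.resolve_left hv2.2
      rw [h2] at hv ⊢
      refine sd_zero G hv hb' (x := u) (fun w hw hwF => ?_)
      rcases (hmem w).1 hwF with h3 | h3
      · exact h3
      · exfalso
        rw [h3] at hw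
        exact (mem_op.1 hw).2 ⟨fun h => absurd h hbS, fun h => absurd h hb'S⟩
    · by_cases hbv : b ∈ op G S v
      · have h1 : v ∈ op G S b := op_symm hbv
        rw [hopb, Finset.mem_insert, Finset.mem_insert, Finset.mem_singleton] at h1
        have h0 : sd G S v = 0 := by
          rcases h1 with h1 | h1 | h1
          · exact absurd h1 hv2.1
          · rw [h1]; exact ho
          · rw [h1]; exact ho'
        refine sd_zero G hv h0 (x := b) (fun w hw hwF => ?_)
        rcases (hmem w).1 hwF with h3 | h3
        · rw [h3] at hw
          exact absurd hw huv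
        · exact h3
      · refine sd_far G htf hv ?_
        rw [Finset.eq_empty_iff_forall_notMem]
        intro w hw
        rw [Finset.mem_inter, hmem] at hw
        rcases hw.2 with h3 | h3
        · exact huv (h3 ▸ hw.1)
        · exact hbv (h3 ▸ hw.1)
  have hsu : sd G (symmDiff S {u, b}) u ≤ 1 := by
    have h1 := sd_mem G (S := S) (F := {u, b}) (v := u) (by simp)
    have e1 : op G S u \ {u, b} ⊆ {b'} := by
      intro w hw
      rw [Finset.mem_sdiff, hopu, hmem, Finset.mem_insert, Finset.mem_singleton] at hw
      rw [Finset.mem_singleton]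
      rcases hw.1 with h | h
      · exact absurd (Or.inr h) hw.2
      · exact h
    have e2 : sm G S u ∩ {u, b} = ∅ := by
      rw [Finset.eq_empty_iff_forall_notMem]
      intro w hw
      rw [Finset.mem_inter, hmem] at hw
      rcases hw.2 with h3 | h3
      · rw [h3] at hw
        exact sm_irrefl G S u hw.1
      · rw [h3] at hw
        exact hbS ((mem_sm.1 hw.1).2.2 hu)
    have h2 := Finset.card_le_card e1
    rw [Finset.card_singleton] at h2
    rw [e2, Finset.card_empty, add_zero] at h1
    exact h1.trans h2
  have hsb : sd G (symmDiff S {u, b}) b = 2 := by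
    unfold sd
    rw [sm_flip_mem G (by simp)]
    have e1 : op G S b \ {u, b} = {o, o'} := by
      ext w
      rw [Finset.mem_sdiff, hopb, hmem, Finset.mem_insert, Finset.mem_insert,
        Finset.mem_singleton]
      constructor
      · rintro ⟨h1 | h1, h2⟩
        · exact absurd (Or.inl h1) h2
        · exact h1
      · intro h1
        refine ⟨Or.inr h1, ?_⟩
        rintro (h2 | h2)
        · rcases h1 with h1 | h1
          · exact huo (h2.symm.trans h1)
          · exact huo' (h2.symm.trans h1)
        · have h3 : w ∈ op G S b := by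
            rw [hopb, Finset.mem_insert, Finset.mem_insert, Finset.mem_singleton]
            exact Or.inr h1
          rw [h2] at h3
          exact op_irrefl G S b h3
    have e2 : sm G S b = ∅ := Finset.card_eq_zero.1 hb
    rw [e1, e2, Finset.empty_inter, Finset.union_empty, Finset.card_pair hoo]
  have hbT : b ∈ symmDiff S {u, b} := by
    rw [Finset.mem_symmDiff]
    exact Or.inr ⟨by simp, hbS⟩
  have hne : ∀ v, v ≠ b → sd G (symmDiff S {u, b}) v ≤ 1 := by
    intro v hv
    by_cases hvu : v = u
    · rw [hvu]; exact hsu
    · refine hout v ?_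
      rw [hmem]
      push Not
      exact ⟨hvu, hv⟩
  refine mk_eff G (fun v => ?_) ?_
    (cls_one G (closed_T G _) hbT hsb fun v _ h2 => ?_) (cls_none G fun v hv h2 => ?_)
  · by_cases hv : v = b
    · rw [hv, hsb]
    · exact (hne v hv).trans (by norm_num)
  · have e1 : ({u, b} : Finset V) \ S = {b} := by
      ext w
      rw [Finset.mem_sdiff, hmem, Finset.mem_singleton]
      constructor
      · rintro ⟨h1 | h1, h2⟩
        · rw [h1] at h2; exact absurd hu h2
        · exact h1
      · intro h1
        rw [h1]
        exact ⟨Or.inr rfl, hbS⟩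
    have e2 : ({u, b} : Finset V) ∩ S = {u} := by
      ext w
      rw [Finset.mem_inter, hmem, Finset.mem_singleton]
      constructor
      · rintro ⟨h1 | h1, h2⟩
        · exact h1
        · rw [h1] at h2; exact absurd h2 hbS
      · intro h1
        rw [h1]
        exact ⟨Or.inl rfl, hu⟩
    rw [e1, e2, Finset.card_singleton, Finset.card_singleton]
    simp
  · by_contra hvb
    have := hne v hvb
    omega
  · by_cases hvb : v = b
    · rw [hvb] at hv
      exact (Finset.mem_compl.1 hv) hbT
    · have := hne v hvb
      omega

end Pool.Agent.Lib.Ando
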