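import Mathlib
import Pool.Agent.Lib.Ando.Basic
import Pool.Agent.Lib.Ando.OpZZ

set_option autoImplicit false
set_option linter.unusedSectionVars false

/-!
# Ando.OpZL: the operation ZL (any graph)

General recipe. Let T = symmDiff S F. By `sm_flip_not_mem`, `sm_flip_mem`: for v not in F: sm T v = (sm S v minus F) union (op S v inter F); for v in F: sm T v = (op S v minus F)
union (sm S v inter F). A vertex v outside F and not adjacent to F has sm T v = sm S v, so sd T v <= 1. So only the vertices of F and
their neighbours must be looked at, and all of them are listed below. From this list: {v : sd T v = 2}, `Good4`, n2, q2; and imb T from `card` of symmDiff.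

F = {u}, u white, op S u = {c, l}, sd c = 0, sd l = 1, sm S l = {l'}. New values: u is black, sm T u = {c, l}. sm T c = {u}. sm T l = {l', u} (l' is not u, since u is white and l' black).
sm T l' = {l} (l' is not adjacent to u: op S u = {c, l}, l' is black, l' is not l, and l' is not c because sd l' = 1: `sm_symm`). The
white neighbour of u, if any, has sm T = empty. So the vertices with sd T = 2 are u and l, both black, adjacent. Numbers: i = -1, a = a' = 0, b = 2, b' = 2.
-/

namespace Pool.Agent.Lib.Ando

variable {V : Type*} [Fintype V] [DecidableEq V] (G : SimpleGraph V) [DecidableRel G.Adj]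

open OpZZAux in
theorem eff_zl {S : Finset V} (htf : ∀ v, sd G S v ≤ 1) {u c l : V} (hu : u ∈ S)
    (hop : op G S u = {c, l}) (hc : sd G S c = 0) (hl : sd G S l = 1) :
    Eff G S {u} (-1) 0 0 2 2 := by
  have hcl : c ≠ l := by
    rintro rfl
    omega
  have hlu : l ∈ op G S u := by rw [hop]; simp
  have hlu2 : l ≠ u := by
    rintro rfl
    exact op_irrefl G S l hlu
  have hlS : l ∉ S := fun h => (mem_op.1 hlu).2 ⟨fun _ => hu, fun _ => h⟩
  have hout : ∀ v, v ≠ u → v ≠ l → sd G (symmDiff S {u}) v ≤ 1 := by
    intro v hv hvl
    have hvF : v ∉ ({u} : Finset V) := by simpa using hv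
    by_cases huv : u ∈ op G S v
    · have h1 : v ∈ op G S u := op_symm huv
      rw [hop, Finset.mem_insert, Finset.mem_singleton] at h1
      have h0 : sd G S v = 0 := by
        rcases h1 with h1 | h1
        · rw [h1]; exact hc
        · exact absurd h1 hvl
      exact sd_zero G hvF h0 (x := u) (fun w _ hw => Finset.mem_singleton.1 hw)
    · exact sd_far G htf hvF (by
        rw [Finset.eq_empty_iff_forall_notMem]
        intro w hw
        rw [Finset.mem_inter, Finset.mem_singleton] at hw
        exact huv (hw.2 ▸ hw.1))
  have hsu : sm G (symmDiff S {u}) u = {c, l} := by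
    rw [sm_flip_mem G (Finset.mem_singleton_self u)]
    have e1 : op G S u \ {u} = {c, l} := by
      rw [Finset.sdiff_singleton_eq_erase, Finset.erase_eq_of_notMem (op_irrefl G S u), hop]
    have e2 : sm G S u ∩ {u} = ∅ := by
      rw [Finset.inter_singleton_of_notMem (sm_irrefl G S u)]
    rw [e1, e2, Finset.union_empty]
  have hu2 : sd G (symmDiff S {u}) u = 2 := by
    unfold sd
    rw [hsu, Finset.card_pair hcl]
  have hul : u ∉ sm G S l := fun h => hlS ((mem_sm.1 h).2.1 hu)
  have hl2 : sd G (symmDiff S {u}) l = 2 := by
    have hlF : l ∉ ({u} : Finset V) := by simpa using hlu2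
    unfold sd
    rw [sm_flip_not_mem G hlF]
    have e1 : sm G S l \ {u} = sm G S l := by
      rw [Finset.sdiff_singleton_eq_erase, Finset.erase_eq_of_notMem hul]
    have e2 : op G S l ∩ {u} = {u} := Finset.inter_singleton_of_mem (op_symm hlu)
    rw [e1, e2, Finset.card_union_of_disjoint (Finset.disjoint_singleton_right.2 hul),
      Finset.card_singleton]
    unfold sd at hl
    rw [hl]
  have huT : u ∈ (symmDiff S {u})ᶜ := by
    rw [Finset.mem_compl, Finset.mem_symmDiff]
    simp [hu]
  have hlT : l ∉ symmDiff S {u} := by
    rw [Finset.mem_symmDiff]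
    simp [hlS, hlu2]
  refine mk_eff G (fun v => ?_) ?_ (cls_none G fun v hv h2 => ?_)
    (cls_two G (closed_Tc G _) huT (by rw [hsu]; simp) hu2 hl2 fun v _ h2 => ?_)
  · by_cases hv : v = u
    · rw [hv, hu2]
    · by_cases hvl : v = l
      · rw [hvl, hl2]
      · exact (hout v hv hvl).trans (by norm_num)
  · rw [Finset.singleton_inter_of_mem hu, Finset.sdiff_eq_empty_iff_subset.2
      (Finset.singleton_subset_iff.2 hu)]
    simp
  · by_cases hvu : v = u
    · rw [hvu] at hv
      exact (Finset.mem_compl.1 huT) hv
    · by_cases hvl : v = l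
      · rw [hvl] at hv
        exact hlT hv
      · have := hout v hvu hvl
        omega
  · by_contra hcon
    push Not at hcon
    have := hout v hcon.1 hcon.2
    omega

end Pool.Agent.Lib.Ando
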