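import Mathlib
import Pool.Agent.Lib.Ando.Struct

set_option autoImplicit false
set_option linter.unusedSectionVars false

/-!
# Ando.Ter: the territories in Case A

Conventions: S = white vertices. Z / L = black vertices with sd = 0 / 1, O / U = white vertices with sd = 0 / 1. For v in L or U let v* be the member of sm S v. Every vertex of U has
sm S u = {u*} and op S u with two members (`sd_add_op`); a vertex of O or Z has op S with three members.
`Level.cost_ge`: cost S F >= k - |k + iot S F|; `Level.exists_two`: if equality holds and |k + iot| < k, some vertex has sd >= 2 after the exchange.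
To compute `cost S F` for an explicit F: F is an insert of different vertices, so expand the sums with `Finset.sum_insert`; the double sum counts each adjacent pair in F twice:
2 times (number of bichromatic pairs) - 2 times (number of monochromatic pairs). For an upper bound of the cost it is enough to know enough bichromatic pairs and that the other
pairs are not monochromatic edges (the terms of the double sum are then >= 0).

`ter S F` = F, the neighbours of F, and sm S w for the neighbours w of F. The neighbours of v are sm S v union op S v (`sm_union_op`).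
`ter_leaf`: neighbours of u: v, b, b'; of b: u, o, o' (sm S b is empty). sm S v = {u}, sm S b, sm S b', sm S o, sm S o' are empty, sm S u = {v}.
`ter_T1`: neighbours of w: v, e, e2; of e: w, x, o. sm S v = {w}, sm S x = {x'}, sm S w = {v}, the others empty.
`ter_zz`: u a site: neighbours v, c, d; sm S v = {u}, sm S c, sm S d empty.
`ter_zl`: neighbours x', e, l; sm S x' = {x}, sm S e empty, sm S l = {l'}.
-/

namespace Pool.Agent.Lib.Ando

variable {V : Type*} [Fintype V] [DecidableEq V] (G : SimpleGraph V) [DecidableRel G.Adj]

namespace TerAux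

variable {G} in
theorem mem_ter {S F : Finset V} {t : V} :
    t ∈ ter G S F ↔ t ∈ F ∨ (∃ v ∈ F, t ∈ sm G S v ∪ op G S v) ∨
      ∃ v ∈ F, ∃ w ∈ sm G S v ∪ op G S v, t ∈ sm G S w := by
  have h : ∀ v w : V, w ∈ sm G S v ∪ op G S v ↔ G.Adj v w := by
    intro v w
    rw [sm_union_op, SimpleGraph.mem_neighborFinset]
  unfold ter
  rw [Finset.mem_union, Finset.mem_union, Finset.mem_filter, Finset.mem_filter, or_assoc]
  constructor
  · rintro (h1 | ⟨-, v, hv, h1⟩ | ⟨-, w, ⟨v, hv, h1⟩, h2⟩)
    · exact Or.inl h1
    · exact Or.inr (Or.inl ⟨v, hv, (h v t).2 h1⟩)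
    · exact Or.inr (Or.inr ⟨v, hv, w, (h v w).2 h1, h2⟩)
  · rintro (h1 | ⟨v, hv, h1⟩ | ⟨v, hv, w, h1, h2⟩)
    · exact Or.inl h1
    · exact Or.inr (Or.inl ⟨Finset.mem_univ _, v, hv, (h v t).1 h1⟩)
    · exact Or.inr (Or.inr ⟨Finset.mem_univ _, w, ⟨v, hv, (h v w).1 h1⟩, h2⟩)

variable {G} in
theorem sm_zero {S : Finset V} {v : V} (h : sd G S v = 0) : sm G S v = ∅ :=
  Finset.card_eq_zero.1 h

variable {G} in
theorem sm_back {S : Finset V} {u v : V} (h : sm G S u = {v}) (h1 : sd G S v ≤ 1) :
    sm G S v = {u} := by
  have h2 : u ∈ sm G S v := sm_symm (by rw [h]; exact Finset.mem_singleton_self v)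
  symm
  refine Finset.eq_of_subset_of_card_le (Finset.singleton_subset_iff.2 h2) ?_
  rw [Finset.card_singleton]
  exact h1

end TerAux

open TerAux

theorem ter_leaf {S : Finset V} {u b b' o o' v : V} (hv : sm G S u = {v})
    (hop : op G S u = {b, b'}) (sb : sd G S b = 0) (sb' : sd G S b' = 0)
    (hob : op G S b = {u, o, o'}) (so : sd G S o = 0) (so' : sd G S o' = 0)
    (hsv : sd G S v ≤ 1) :
    ter G S {u, b} = {u, v, b, b', o, o'} := by
  have e1 := sm_back hv hsv
  have e2 := sm_zero sb
  have e3 := sm_zero sb'
  have e4 := sm_zero so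
  have e5 := sm_zero so'
  ext t
  simp only [mem_ter, Finset.mem_insert, Finset.mem_singleton, exists_eq_or_imp, exists_eq_left,
    Finset.mem_union, or_and_right, exists_or, hv, hop, hob, e1, e2, e3, e4, e5,
    Finset.notMem_empty, false_or, or_false, exists_false]
  tauto

theorem ter_T1 {S : Finset V} {w e e2 x x' o v : V} (hv : sm G S w = {v})
    (hop : op G S w = {e, e2}) (se : sd G S e = 0) (se2 : sd G S e2 = 0)
    (hoe : op G S e = {w, x, o}) (so : sd G S o = 0) (hx : sm G S x = {x'})
    (hsv : sd G S v ≤ 1) :
    ter G S {w, e} = {w, v, e, e2, o, x, x'} := by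
  have e1 := sm_back hv hsv
  have a2 := sm_zero se
  have e3 := sm_zero se2
  have e4 := sm_zero so
  ext t
  simp only [mem_ter, Finset.mem_insert, Finset.mem_singleton, exists_eq_or_imp, exists_eq_left,
    Finset.mem_union, or_and_right, exists_or, hv, hop, hoe, e1, a2, e3, e4, hx,
    Finset.notMem_empty, false_or, or_false, exists_false]
  tauto

theorem ter_zz {S : Finset V} {u c d v : V} (hv : sm G S u = {v}) (hop : op G S u = {c, d})
    (sc : sd G S c = 0) (sd' : sd G S d = 0) (hsv : sd G S v ≤ 1) :
    ter G S {u} = {u, v, c, d} := by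
  have e1 := sm_back hv hsv
  have e2 := sm_zero sc
  have e3 := sm_zero sd'
  ext t
  simp only [mem_ter, Finset.mem_insert, Finset.mem_singleton, exists_eq_or_imp, exists_eq_left,
    Finset.mem_union, or_and_right, exists_or, hv, hop, e1, e2, e3,
    Finset.notMem_empty, false_or, or_false, exists_false]
  tauto

theorem ter_zl {S : Finset V} {x e l l' x' : V} (hx : sm G S x = {x'}) (hop : op G S x = {e, l})
    (se : sd G S e = 0) (hl : sm G S l = {l'}) (hsv : sd G S x' ≤ 1) :
    ter G S {x} = {x, x', e, l, l'} := by
  have e1 := sm_back hx hsv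
  have e2 := sm_zero se
  ext t
  simp only [mem_ter, Finset.mem_insert, Finset.mem_singleton, exists_eq_or_imp, exists_eq_left,
    Finset.mem_union, or_and_right, exists_or, hx, hop, e1, e2, hl,
    Finset.notMem_empty, false_or, or_false, exists_false]
  tauto

end Pool.Agent.Lib.Ando
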