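import Mathlib
import Pool.Agent.Lib.Ando.Ter
import Pool.Agent.Lib.Ando.Card

set_option autoImplicit false
set_option linter.unusedSectionVars false

/-!
# Ando.Conf1: conflicts with a leaf operation (Case A)

Conventions: S = white vertices. Z / L = black vertices with sd = 0 / 1, O / U = white vertices with sd = 0 / 1. For v in L or U let v* be the member of sm S v. Every vertex of U has
sm S u = {u*} and op S u with two members (`sd_add_op`); a vertex of O or Z has op S with three members.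
`Level.cost_ge`: cost S F >= k - |k + iot S F|; `Level.exists_two`: if equality holds and |k + iot| < k, some vertex has sd >= 2 after the exchange.
To compute `cost S F` for an explicit F: F is an insert of different vertices, so expand the sums with `Finset.sum_insert`; the double sum counts each adjacent pair in F twice:
2 times (number of bichromatic pairs) - 2 times (number of monochromatic pairs). For an upper bound of the cost it is enough to know enough bichromatic pairs and that the other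
pairs are not monochromatic edges (the terms of the double sum are then >= 0).

By `ter_leaf` (with `leaf_data`) T = ter {u, b} = {u, v, b, b', o, o'}: u in sites, v in U, b, b' in Z, o, o' in O. If the two territories have a common vertex, compare classes (white / black, sd 0 / 1):

`conf_leaf_leaf`: T' = {w, w*, e, e', p, p'}.
 U-part: {u, v} meets {w, w*}: w = u, or w = v (then v is a site and ks S v = {v}), or w* = u (then w = v), or w* = v (then w = u). All these w are in kLeaf.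
 Z-part: {b, b'} meets {e, e'}: then u and w are two sites adjacent to the same vertex: w = u (`site_unique`).
 O-part: o (or o') is p or p', i.e. in op S e: so e is in op S o. If e = b then w = u. Otherwise e is in op S o minus {b}, and w is in stA S e: w in kLeaf.

`conf_leaf_T1`: T' = ter {w, e} = {w, w*, e, e2, p, x, x*} (`ter_T1`, `TE_data`). As before for w, w*, e, e2, p (p in op S e). x in {u, v}: x is not a site, so x = v, and e in op S v, sd S e = 0, w in stA S e; so w in ks S v. x* in {u, v}: x* = u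
 gives x = v; x* = v gives x = u, impossible since x is not a site.

`conf_leaf_zl`: x in UN S e, x /= w: T' = ter {x} = {x, x*, e, l, l*} (`ter_zl`, `zl_data`; x not a site by `TE_data`: UN S e = {w, x}). x, x* as before; e in {b, b'}: w = u by `site_unique`. l, l* have sd 1 and are black: not in T.

`conf_zz_leaf`: T' = ter {w} = {w, w*, c, d} (`ter_zz`): w, w* in {u, v}: w = u or w = v. c or d in {b, b'}: w = u.
-/

namespace Pool.Agent.Lib.Ando

variable {V : Type*} [Fintype V] [DecidableEq V] (G : SimpleGraph V) [DecidableRel G.Adj]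

open StructAux CardAux

namespace Conf1Aux

variable {G} in
/-- The members of the territory of a leaf operation. -/
theorem mem_leaf (hG : G.IsRegularOfDegree 3) {k : ℕ} {S : Finset V} (hL : Level G k S)
    {u b y : V} (h : LeafE G S u b) (hy : y ∈ ter G S {u, b}) :
    (y ∈ S ∧ sd G S y = 1 ∧ (y = u ∨ y ∈ sm G S u)) ∨ (y ∉ S ∧ sd G S y = 0 ∧ y ∈ op G S u) ∨
      (y ∈ S ∧ sd G S y = 0 ∧ y ∈ op G S b \ {u}) := by
  obtain ⟨v, b', o, o', hv, hop, hbb, sb, sb', hob, huo, huo', hoo, so, so'⟩ := leaf_data hG hL h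
  have hu := mem_sites.1 h.1
  have hbS : b ∉ S := op_black hu.1 h.2.1
  rw [ter_leaf G hv hop sb sb' hob so so' (hL.tf v)] at hy
  simp only [Finset.mem_insert, Finset.mem_singleton] at hy
  have hvm : v ∈ sm G S u := by rw [hv]; simp
  have hbm : b' ∈ op G S u := by rw [hop]; simp
  have hom : o ∈ op G S b := by rw [hob]; simp
  have hom' : o' ∈ op G S b := by rw [hob]; simp
  rcases hy with rfl | rfl | rfl | rfl | rfl | rfl
  · exact Or.inl ⟨hu.1, hu.2.1, Or.inl rfl⟩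
  · exact Or.inl ⟨sm_white hu.1 hvm, sm_sd hL hvm, Or.inr hvm⟩
  · exact Or.inr (Or.inl ⟨hbS, sb, h.2.1⟩)
  · exact Or.inr (Or.inl ⟨op_black hu.1 hbm, sb', hbm⟩)
  · refine Or.inr (Or.inr ⟨op_white hbS hom, so, ?_⟩)
    rw [Finset.mem_sdiff, Finset.mem_singleton]
    exact ⟨hom, huo.symm⟩
  · refine Or.inr (Or.inr ⟨op_white hbS hom', so', ?_⟩)
    rw [Finset.mem_sdiff, Finset.mem_singleton]
    exact ⟨hom', huo'.symm⟩

variable {G} in
/-- The members of the territory of the operation T1. -/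
theorem mem_T1 (hG : G.IsRegularOfDegree 3) (h3 : NoTri G) (h4 : NoSq G) {k : ℕ} {S : Finset V}
    (hL : Level G k S) (hk : 1 ≤ k) {w e y : V} (h : TE G S w e) (hy : y ∈ ter G S {w, e}) :
    (y ∈ S ∧ sd G S y = 1 ∧ (y = w ∨ y ∈ sm G S w)) ∨
      (y ∈ S ∧ sd G S y = 1 ∧ ∃ x ∈ UN G S e, x ≠ w ∧ x ∉ sites G S ∧ (y = x ∨ y ∈ sm G S x)) ∨
      (y ∉ S ∧ sd G S y = 0 ∧ y ∈ op G S w) ∨
      (y ∈ S ∧ sd G S y = 0 ∧ y ∈ op G S e \ {w}) := by
  obtain ⟨v, e2, x, x', o, l, hv, hop, hee, se, se2, hoe, hwx, hwo, hxo, hUN, so, sx, hxns, hx',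
    hopx, hel, sl, hxw, hx'w, hvx⟩ := TE_data hG h3 h4 hL hk h
  have hw := mem_sites.1 h.1
  have heS : e ∉ S := op_black hw.1 h.2.1
  rw [ter_T1 G hv hop se se2 hoe so hx' (hL.tf v)] at hy
  simp only [Finset.mem_insert, Finset.mem_singleton] at hy
  have hvm : v ∈ sm G S w := by rw [hv]; simp
  have he2m : e2 ∈ op G S w := by rw [hop]; simp
  have hom : o ∈ op G S e := by rw [hoe]; simp
  have hxm : x ∈ op G S e := by rw [hoe]; simp
  have hxS : x ∈ S := op_white heS hxm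
  have hxm' : x' ∈ sm G S x := by rw [hx']; simp
  have hxU : x ∈ UN G S e := by rw [hUN]; simp
  rcases hy with rfl | rfl | rfl | rfl | rfl | rfl | rfl
  · exact Or.inl ⟨hw.1, hw.2.1, Or.inl rfl⟩
  · exact Or.inl ⟨sm_white hw.1 hvm, sm_sd hL hvm, Or.inr hvm⟩
  · exact Or.inr (Or.inr (Or.inl ⟨heS, se, h.2.1⟩))
  · exact Or.inr (Or.inr (Or.inl ⟨op_black hw.1 he2m, se2, he2m⟩))
  · refine Or.inr (Or.inr (Or.inr ⟨op_white heS hom, so, ?_⟩))
    rw [Finset.mem_sdiff, Finset.mem_singleton]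
    exact ⟨hom, hwo.symm⟩
  · exact Or.inr (Or.inl ⟨hxS, sx, y, hxU, hwx.symm, hxns, Or.inl rfl⟩)
  · exact Or.inr (Or.inl ⟨sm_white hxS hxm', sm_sd hL hxm', x, hxU, hwx.symm, hxns, Or.inr hxm'⟩)

variable {G} in
/-- The members of the territory of the operation ZL. -/
theorem mem_zl (hG : G.IsRegularOfDegree 3) {k : ℕ} {S : Finset V}
    (hL : Level G k S) {x e y : V} (hx : x ∈ S) (sx : sd G S x = 1) (hns : x ∉ sites G S)
    (he : e ∈ op G S x) (se : sd G S e = 0) (hy : y ∈ ter G S {x}) :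
    (y ∈ S ∧ sd G S y = 1 ∧ (y = x ∨ y ∈ sm G S x)) ∨
      (y ∉ S ∧ sd G S y = 0 ∧ y = e) ∨
      (y ∉ S ∧ sd G S y = 1 ∧ ∃ l ∈ op G S x, sd G S l = 1 ∧ (y = l ∨ y ∈ sm G S l)) := by
  obtain ⟨l, x', l', hop, hel, sl, hx', hl'⟩ := zl_data hG hL hx sx hns he se
  rw [ter_zl G hx' hop se hl' (hL.tf x')] at hy
  simp only [Finset.mem_insert, Finset.mem_singleton] at hy
  have hx'm : x' ∈ sm G S x := by rw [hx']; simp
  have hlm : l ∈ op G S x := by rw [hop]; simp
  have hlS : l ∉ S := op_black hx hlm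
  have hl'm : l' ∈ sm G S l := by rw [hl']; simp
  rcases hy with rfl | rfl | rfl | rfl | rfl
  · exact Or.inl ⟨hx, sx, Or.inl rfl⟩
  · exact Or.inl ⟨sm_white hx hx'm, sm_sd hL hx'm, Or.inr hx'm⟩
  · exact Or.inr (Or.inl ⟨op_black hx he, se, rfl⟩)
  · exact Or.inr (Or.inr ⟨hlS, sl, y, hlm, sl, Or.inl rfl⟩)
  · exact Or.inr (Or.inr ⟨sm_black hlS hl'm, sm_sd hL hl'm, l, hlm, sl, Or.inr hl'm⟩)

variable {G} in
/-- The members of the territory of the operation ZZ. -/
theorem mem_zz (hG : G.IsRegularOfDegree 3) {k : ℕ} {S : Finset V}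
    (hL : Level G k S) {u y : V} (hu : u ∈ sites G S) (hy : y ∈ ter G S {u}) :
    (y ∈ S ∧ sd G S y = 1 ∧ (y = u ∨ y ∈ sm G S u)) ∨
      (y ∉ S ∧ sd G S y = 0 ∧ y ∈ op G S u) := by
  have hu' := mem_sites.1 hu
  obtain ⟨v, hv⟩ := sd_one hu'.2.1
  have hcu : (op G S u).card = 2 := by
    have := sd_add_op hG S u
    omega
  obtain ⟨c, d, hcd, hop⟩ := Finset.card_eq_two.1 hcu
  have hc : c ∈ op G S u := by rw [hop]; simp
  have hd : d ∈ op G S u := by rw [hop]; simp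
  have hvm : v ∈ sm G S u := by rw [hv]; simp
  have sc := hu'.2.2 c hc
  have sd' := hu'.2.2 d hd
  rw [ter_zz G hv hop sc sd' (hL.tf v)] at hy
  simp only [Finset.mem_insert, Finset.mem_singleton] at hy
  rcases hy with rfl | rfl | rfl | rfl
  · exact Or.inl ⟨hu'.1, hu'.2.1, Or.inl rfl⟩
  · exact Or.inl ⟨sm_white hu'.1 hvm, sm_sd hL hvm, Or.inr hvm⟩
  · exact Or.inr ⟨op_black hu'.1 hc, sc, hc⟩
  · exact Or.inr ⟨op_black hu'.1 hd, sd', hd⟩

variable {G} in
theorem sm_eq {k : ℕ} {S : Finset V} (hL : Level G k S) {y u w : V}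
    (h1 : u ∈ sm G S y) (h2 : w ∈ sm G S y) : w = u := by
  have h := hL.tf y
  unfold sd at h
  exact Finset.card_le_one.1 h w h2 u h1

variable {G} in
/-- Two dimers with a common vertex. -/
theorem dimer {k : ℕ} {S : Finset V} (hL : Level G k S) {y u w : V}
    (h1 : y = u ∨ y ∈ sm G S u) (h2 : y = w ∨ y ∈ sm G S w) : w = u ∨ w ∈ sm G S u := by
  rcases h1 with rfl | h1
  · rcases h2 with rfl | h2
    · exact Or.inl rfl
    · exact Or.inr (sm_symm h2)
  · rcases h2 with rfl | h2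
    · exact Or.inr h1
    · exact Or.inl (sm_eq hL (sm_symm h1) (sm_symm h2))

variable {G} in
theorem kLeaf_self {S : Finset V} {u b : V} : u ∈ kLeaf G S u b := by
  unfold kLeaf
  simp

variable {G} in
theorem kLeaf_ks {S : Finset V} {u b w v : V} (h1 : v ∈ sm G S u) (h2 : w ∈ ks G S v) :
    w ∈ kLeaf G S u b := by
  unfold kLeaf
  rw [Finset.mem_union, Finset.mem_union, Finset.mem_biUnion]
  exact Or.inl (Or.inr ⟨v, h1, h2⟩)

variable {G} in
theorem ks_site {S : Finset V} {w : V} (hw : w ∈ sites G S) : w ∈ ks G S w := by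
  unfold ks
  rw [if_pos hw]
  simp

variable {G} in
theorem ks_nsite {S : Finset V} {x w e : V} (hx : x ∉ sites G S) (he : e ∈ op G S x)
    (se : sd G S e = 0) (hw : w ∈ sites G S) (hwe : e ∈ op G S w) : w ∈ ks G S x := by
  unfold ks
  rw [if_neg hx, Finset.mem_biUnion]
  refine ⟨e, ?_, ?_⟩
  · rw [Finset.mem_filter]
    exact ⟨he, se⟩
  · rw [mem_stA]
    exact ⟨hw, hwe⟩

variable {G} in
theorem kLeaf_site {S : Finset V} {u b w : V} (hw : w ∈ sites G S) (h : w = u ∨ w ∈ sm G S u) :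
    w ∈ kLeaf G S u b := by
  rcases h with rfl | h
  · exact kLeaf_self
  · exact kLeaf_ks h (ks_site hw)

variable {G} in
theorem kLeaf_far {S : Finset V} {u b w e o : V} (ho : o ∈ op G S b \ {u}) (heo : e ∈ op G S o)
    (heb : e ≠ b) (hw : w ∈ sites G S) (hwe : e ∈ op G S w) : w ∈ kLeaf G S u b := by
  unfold kLeaf
  rw [Finset.mem_union]
  refine Or.inr ?_
  rw [Finset.mem_biUnion]
  refine ⟨o, ho, ?_⟩
  rw [Finset.mem_biUnion]
  refine ⟨e, ?_, ?_⟩
  · rw [Finset.mem_sdiff, Finset.mem_singleton]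
    exact ⟨heo, heb⟩
  · rw [mem_stA]
    exact ⟨hw, hwe⟩

end Conf1Aux

open Conf1Aux

variable {G} in
theorem conf_leaf_leaf (hG : G.IsRegularOfDegree 3) (h3 : NoTri G) (h4 : NoSq G) {k : ℕ} {S : Finset V}
    (hL : Level G k S) (hk : 1 ≤ k)
    (hA : ∀ b, b ∉ S → sd G S b = 0 → (UN G S b).card ≤ 2) {u b w e : V} (hu : LeafE G S u b) (hw : LeafE G S w e)
    (hn : w ∉ kLeaf G S u b) : Disjoint (ter G S {u, b}) (ter G S {w, e}) := by
  rw [Finset.disjoint_left]
  intro y hy1 hy2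
  apply hn
  have hbu : b ∈ op G S u := hu.2.1
  have hew : e ∈ op G S w := hw.2.1
  rcases mem_leaf hG hL hu hy1 with ⟨c1, c2, c3⟩ | ⟨c1, c2, c3⟩ | ⟨c1, c2, c3⟩
  · rcases mem_leaf hG hL hw hy2 with ⟨d1, d2, d3⟩ | ⟨d1, d2, d3⟩ | ⟨d1, d2, d3⟩
    · exact kLeaf_site hw.1 (dimer hL c3 d3)
    · exact absurd c1 d1
    · omega
  · rcases mem_leaf hG hL hw hy2 with ⟨d1, d2, d3⟩ | ⟨d1, d2, d3⟩ | ⟨d1, d2, d3⟩
    · exact absurd d1 c1
    · exact kLeaf_site hw.1 (Or.inl (site_unique hG h3 h4 hL hk hA hw.1 hu.1 d3 c3))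
    · exact absurd d1 c1
  · rcases mem_leaf hG hL hw hy2 with ⟨d1, d2, d3⟩ | ⟨d1, d2, d3⟩ | ⟨d1, d2, d3⟩
    · omega
    · exact absurd c1 d1
    · have h5 := op_symm (Finset.mem_sdiff.1 d3).1
      by_cases heb : e = b
      · subst heb
        exact kLeaf_site hw.1 (Or.inl (site_unique hG h3 h4 hL hk hA hw.1 hu.1 hew hbu))
      · exact kLeaf_far c3 h5 heb hw.1 hew

variable {G} in
theorem conf_leaf_T1 (hG : G.IsRegularOfDegree 3) (h3 : NoTri G) (h4 : NoSq G) {k : ℕ} {S : Finset V}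
    (hL : Level G k S) (hk : 1 ≤ k)
    (hA : ∀ b, b ∉ S → sd G S b = 0 → (UN G S b).card ≤ 2) {u b w e : V} (hu : LeafE G S u b) (hw : TE G S w e)
    (hn : w ∉ kLeaf G S u b) : Disjoint (ter G S {u, b}) (ter G S {w, e}) := by
  rw [Finset.disjoint_left]
  intro y hy1 hy2
  apply hn
  have hbu : b ∈ op G S u := hu.2.1
  have hew : e ∈ op G S w := hw.2.1
  have se : sd G S e = 0 := (mem_sites.1 hw.1).2.2 e hew
  rcases mem_leaf hG hL hu hy1 with ⟨c1, c2, c3⟩ | ⟨c1, c2, c3⟩ | ⟨c1, c2, c3⟩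
  · rcases mem_T1 hG h3 h4 hL hk hw hy2 with
      ⟨d1, d2, d3⟩ | ⟨d1, d2, x, hx, hxw, hxs, d3⟩ | ⟨d1, d2, d3⟩ | ⟨d1, d2, d3⟩
    · exact kLeaf_site hw.1 (dimer hL c3 d3)
    · rcases dimer hL c3 d3 with h5 | h5
      · subst h5
        exact absurd hu.1 hxs
      · exact kLeaf_ks h5 (ks_nsite hxs (op_symm (mem_UN.1 hx).1) se hw.1 hew)
    · exact absurd c1 d1
    · omega
  · rcases mem_T1 hG h3 h4 hL hk hw hy2 with
      ⟨d1, d2, d3⟩ | ⟨d1, d2, x, hx, hxw, hxs, d3⟩ | ⟨d1, d2, d3⟩ | ⟨d1, d2, d3⟩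
    · exact absurd d1 c1
    · exact absurd d1 c1
    · exact kLeaf_site hw.1 (Or.inl (site_unique hG h3 h4 hL hk hA hw.1 hu.1 d3 c3))
    · exact absurd d1 c1
  · rcases mem_T1 hG h3 h4 hL hk hw hy2 with
      ⟨d1, d2, d3⟩ | ⟨d1, d2, x, hx, hxw, hxs, d3⟩ | ⟨d1, d2, d3⟩ | ⟨d1, d2, d3⟩
    · omega
    · omega
    · exact absurd c1 d1
    · have h5 := op_symm (Finset.mem_sdiff.1 d3).1
      by_cases heb : e = b
      · subst heb
        exact kLeaf_site hw.1 (Or.inl (site_unique hG h3 h4 hL hk hA hw.1 hu.1 hew hbu))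
      · exact kLeaf_far c3 h5 heb hw.1 hew

variable {G} in
theorem conf_leaf_zl (hG : G.IsRegularOfDegree 3) (h3 : NoTri G) (h4 : NoSq G) {k : ℕ} {S : Finset V}
    (hL : Level G k S) (hk : 1 ≤ k)
    (hA : ∀ b, b ∉ S → sd G S b = 0 → (UN G S b).card ≤ 2) {u b w e x : V} (hu : LeafE G S u b) (hw : TE G S w e)
    (hn : w ∉ kLeaf G S u b) (hx : x ∈ UN G S e) (hxw : x ≠ w) :
    Disjoint (ter G S {u, b}) (ter G S {x}) := by
  obtain ⟨v, e2, x1, x', o, l, hv, hop, hee, se, se2, hoe, hwx, hwo, hxo, hUN, so, sx, hxns, hx',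
    hopx, hel, sl, hxw', hx'w, hvx⟩ := TE_data hG h3 h4 hL hk hw
  have hxx : x = x1 := by
    rw [hUN, Finset.mem_insert, Finset.mem_singleton] at hx
    rcases hx with h5 | h5
    · exact absurd h5 hxw
    · exact h5
  subst hxx
  have hew : e ∈ op G S w := hw.2.1
  have heS : e ∉ S := op_black (mem_sites.1 hw.1).1 hew
  have hxe : x ∈ op G S e := (mem_UN.1 hx).1
  have hxS : x ∈ S := op_white heS hxe
  rw [Finset.disjoint_left]
  intro y hy1 hy2
  apply hn
  rcases mem_leaf hG hL hu hy1 with ⟨c1, c2, c3⟩ | ⟨c1, c2, c3⟩ | ⟨c1, c2, c3⟩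
  · rcases mem_zl hG hL hxS sx hxns (op_symm hxe) se hy2 with
      ⟨d1, d2, d3⟩ | ⟨d1, d2, d3⟩ | ⟨d1, d2, d3⟩
    · rcases dimer hL c3 d3 with h5 | h5
      · subst h5
        exact absurd hu.1 hxns
      · exact kLeaf_ks h5 (ks_nsite hxns (op_symm hxe) se hw.1 hew)
    · exact absurd c1 d1
    · exact absurd c1 d1
  · rcases mem_zl hG hL hxS sx hxns (op_symm hxe) se hy2 with
      ⟨d1, d2, d3⟩ | ⟨d1, d2, d3⟩ | ⟨d1, d2, d3⟩
    · exact absurd d1 c1
    · subst d3
      exact kLeaf_site hw.1 (Or.inl (site_unique hG h3 h4 hL hk hA hw.1 hu.1 hew c3))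
    · omega
  · rcases mem_zl hG hL hxS sx hxns (op_symm hxe) se hy2 with
      ⟨d1, d2, d3⟩ | ⟨d1, d2, d3⟩ | ⟨d1, d2, d3⟩
    · omega
    · exact absurd c1 d1
    · exact absurd c1 d1

variable {G} in
theorem conf_zz_leaf (hG : G.IsRegularOfDegree 3) (h3 : NoTri G) (h4 : NoSq G) {k : ℕ} {S : Finset V}
    (hL : Level G k S) (hk : 1 ≤ k)
    (hA : ∀ b, b ∉ S → sd G S b = 0 → (UN G S b).card ≤ 2) {u b w : V} (hu : LeafE G S u b) (hw : w ∈ sites G S)
    (h1 : w ≠ u) (h2 : w ∉ sm G S u) : Disjoint (ter G S {w}) (ter G S {u, b}) := by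
  rw [Finset.disjoint_left]
  intro y hy2 hy1
  rcases mem_leaf hG hL hu hy1 with ⟨c1, c2, c3⟩ | ⟨c1, c2, c3⟩ | ⟨c1, c2, c3⟩
  · rcases mem_zz hG hL hw hy2 with ⟨d1, d2, d3⟩ | ⟨d1, d2, d3⟩
    · rcases dimer hL c3 d3 with h5 | h5
      · exact h1 h5
      · exact h2 h5
    · exact absurd c1 d1
  · rcases mem_zz hG hL hw hy2 with ⟨d1, d2, d3⟩ | ⟨d1, d2, d3⟩
    · exact absurd d1 c1
    · exact h1 (site_unique hG h3 h4 hL hk hA hw hu.1 d3 c3)
  · rcases mem_zz hG hL hw hy2 with ⟨d1, d2, d3⟩ | ⟨d1, d2, d3⟩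
    · omega
    · exact absurd c1 d1

end Pool.Agent.Lib.Ando
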