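import Mathlib
import Pool.Agent.Lib.Ando.Fact1

set_option autoImplicit false
set_option linter.unusedSectionVars false

/-!
# Ando.Fact4: there are at least 6 k sites

Conventions: S = white vertices. Z / L = black vertices with sd = 0 / 1, O / U = white vertices with sd = 0 / 1. For v in L or U let v* be the member of sm S v. Every vertex of U has
sm S u = {u*} and op S u with two members (`sd_add_op`); a vertex of O or Z has op S with three members.
`Level.cost_ge`: cost S F >= k - |k + iot S F|; `Level.exists_two`: if equality holds and |k + iot| < k, some vertex has sd >= 2 after the exchange.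
To compute `cost S F` for an explicit F: F is an insert of different vertices, so expand the sums with `Finset.sum_insert`; the double sum counts each adjacent pair in F twice:
2 times (number of bichromatic pairs) - 2 times (number of monochromatic pairs). For an upper bound of the cost it is enough to know enough bichromatic pairs and that the other
pairs are not monochromatic edges (the terms of the double sum are then >= 0).

Proof. `sum_sd_sub`: (number of U) - (number of L) = 3 imb S = 6 k (all sd are 0 or 1, so the sum of sd over S is the number of U). A vertex u of U that is not a site has a neighbour l in op S u with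
sd S l /= 0, so l in L, and u is in UN S l. So the vertices of U that are not sites are in the union over l in L of UN S l, which has at most (number of L) members by `fact1`. So
number of sites >= (number of U) - (number of L) = 6 k.
-/

namespace Pool.Agent.Lib.Ando

variable {V : Type*} [Fintype V] [DecidableEq V] (G : SimpleGraph V) [DecidableRel G.Adj]

namespace Fact4Aux

variable {G}

theorem sum_eq {S : Finset V} (h : ∀ v, sd G S v ≤ 1) (A : Finset V) :
    ∑ v ∈ A, (sd G S v : ℤ) = ((A.filter (fun v => sd G S v = 1)).card : ℤ) := by
  rw [Finset.card_filter, Nat.cast_sum]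
  refine Finset.sum_congr rfl fun v _ => ?_
  have := h v
  split_ifs with h1
  · rw [h1]
  · have : sd G S v = 0 := by omega
    rw [this]

end Fact4Aux

open Fact4Aux in
variable {G} in
theorem fact4 (hG : G.IsRegularOfDegree 3) (h3 : NoTri G) {k : ℕ} {S : Finset V}
    (hL : Level G k S) (hk : 1 ≤ k) : 6 * k ≤ (sites G S).card := by
  have h1 := sum_sd_sub hG S
  rw [sum_eq hL.tf, sum_eq hL.tf, hL.imb_eq] at h1
  have h2 : S.filter (fun v => sd G S v = 1) ⊆
      sites G S ∪ (Sᶜ.filter (fun v => sd G S v = 1)).biUnion (UN G S) := by
    intro u hu
    rw [Finset.mem_filter] at hu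
    rw [Finset.mem_union]
    by_cases h : u ∈ sites G S
    · exact Or.inl h
    · right
      have h5 : ∃ l ∈ op G S u, sd G S l ≠ 0 := by
        by_contra hc
        push Not at hc
        exact h (Finset.mem_filter.2 ⟨Finset.mem_univ _, hu.1, hu.2, hc⟩)
      obtain ⟨l, hl, hl0⟩ := h5
      rw [Finset.mem_biUnion]
      refine ⟨l, ?_, ?_⟩
      · rw [Finset.mem_filter, Finset.mem_compl]
        constructor
        · intro hlS
          exact (mem_op.1 hl).2 ⟨fun _ => hu.1, fun _ => hlS⟩
        · have := hL.tf l
          omega
      · exact Finset.mem_filter.2 ⟨op_symm hl, hu.2⟩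
  have h3' := Finset.card_le_card h2
  have h4 := Finset.card_union_le (sites G S)
    ((Sᶜ.filter (fun v => sd G S v = 1)).biUnion (UN G S))
  have h5 : ((Sᶜ.filter (fun v => sd G S v = 1)).biUnion (UN G S)).card ≤
      (Sᶜ.filter (fun v => sd G S v = 1)).card := by
    refine Finset.card_biUnion_le.trans ?_
    rw [Finset.card_eq_sum_ones]
    refine Finset.sum_le_sum fun l hl => ?_
    rw [Finset.mem_filter, Finset.mem_compl] at hl
    exact fact1 hG h3 hL hk hl.1 hl.2
  omega

end Pool.Agent.Lib.Ando
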