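import Mathlib


set_option autoImplicit false
set_option linter.unusedSectionVars false

/-!
# Ando.Greedy: two greedy selection lemmas (Mathlib only)

`greedy_max`: choose Y subset of X with pairwise not r, of cardinality at most m, with largest cardinality. If card Y = m: done. Otherwise card Y < m, and for x in X: if no y in Y has r y x, then
x is in Y or insert x Y is a larger admissible set (r is symmetric), a contradiction; so if x is not in Y there is y in Y with r y x.

`greedy_cov`: induction on m: given Y' with m - 1 elements, the union of the sets K x (x in Y') has at most c (m - 1) < card X elements (c * m <= card X; if c = 0 and m >= 1 then X is not empty or ... note: for m >= 1 and an element x of X,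
x in K x gives c >= 1; if X is empty then c * m <= 0 and the hypothesis hne excludes m >= 1), so there is z in X outside; z is not in Y' because x in K x. Take Y = insert z Y'. For x in Y': z is not in K x.
-/

namespace Pool.Agent.Lib.Ando

variable {V : Type*} [Fintype V] [DecidableEq V] (G : SimpleGraph V) [DecidableRel G.Adj]

omit [Fintype V] in
theorem greedy_max (X : Finset V) (r : V → V → Prop) (hr : ∀ x y, r x y → r y x) (m : ℕ) :
    ∃ Y ⊆ X, (∀ x ∈ Y, ∀ y ∈ Y, x ≠ y → ¬ r x y) ∧
      (Y.card = m ∨ (Y.card < m ∧ ∀ x ∈ X, x ∉ Y → ∃ y ∈ Y, r y x)) := by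
  classical
  set A : Finset (Finset V) := X.powerset.filter
    (fun Y => (∀ x ∈ Y, ∀ y ∈ Y, x ≠ y → ¬ r x y) ∧ Y.card ≤ m) with hA
  have hne : A.Nonempty := ⟨∅, by simp [hA]⟩
  obtain ⟨Y, hY, hmax⟩ := Finset.exists_max_image A Finset.card hne
  have hY' : Y ⊆ X ∧ (∀ x ∈ Y, ∀ y ∈ Y, x ≠ y → ¬ r x y) ∧ Y.card ≤ m := by
    rw [hA, Finset.mem_filter, Finset.mem_powerset] at hY
    exact hY
  obtain ⟨h1, h2, h3⟩ := hY'
  refine ⟨Y, h1, h2, ?_⟩
  rcases eq_or_lt_of_le h3 with h | h
  · exact Or.inl h
  · refine Or.inr ⟨h, ?_⟩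
    intro x hx hxY
    by_contra hcon
    have hcon' : ∀ y ∈ Y, ¬ r y x := fun y hy hr' => hcon ⟨y, hy, hr'⟩
    have hins : insert x Y ∈ A := by
      rw [hA, Finset.mem_filter, Finset.mem_powerset]
      refine ⟨Finset.insert_subset hx h1, ?_, ?_⟩
      · intro a ha b hb hab
        rw [Finset.mem_insert] at ha hb
        rcases ha with rfl | ha
        · rcases hb with rfl | hb
          · exact absurd rfl hab
          · exact fun hh => hcon' b hb (hr _ _ hh)
        · rcases hb with rfl | hb
          · exact hcon' a ha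
          · exact h2 a ha b hb hab
      · rw [Finset.card_insert_of_notMem hxY]
        exact h
    have := hmax _ hins
    rw [Finset.card_insert_of_notMem hxY] at this
    omega

omit [Fintype V] in
theorem greedy_cov (X : Finset V) (K : V → Finset V) (c m : ℕ) (hc : 1 ≤ c)
    (hK : ∀ x ∈ X, (K x).card ≤ c) (hx : ∀ x ∈ X, x ∈ K x) (hm : c * m ≤ X.card) :
    ∃ Y ⊆ X, Y.card = m ∧ ∀ x ∈ Y, ∀ y ∈ Y, x ≠ y → (y ∉ K x ∨ x ∉ K y) := by
  induction m with
  | zero => exact ⟨∅, by simp, by simp, by simp⟩
  | succ m ih =>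
    obtain ⟨Y, hYX, hYc, hY⟩ := ih (le_trans (Nat.mul_le_mul_left c (Nat.le_succ m)) hm)
    have hU : (Y.biUnion K).card ≤ c * m := by
      calc (Y.biUnion K).card ≤ ∑ x ∈ Y, (K x).card := Finset.card_biUnion_le
        _ ≤ ∑ _x ∈ Y, c := Finset.sum_le_sum fun x hx' => hK x (hYX hx')
        _ = c * m := by rw [Finset.sum_const, hYc, smul_eq_mul, mul_comm]
    have hlt : (Y.biUnion K).card < X.card := by
      have : c * (m + 1) = c * m + c := by ring
      omega
    obtain ⟨z, hzX, hzU⟩ := Finset.exists_mem_notMem_of_card_lt_card hlt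
    have hz : ∀ y ∈ Y, z ∉ K y := fun y hy hh => hzU (Finset.mem_biUnion.2 ⟨y, hy, hh⟩)
    have hzY : z ∉ Y := fun hh => hz z hh (hx z hzX)
    refine ⟨insert z Y, Finset.insert_subset hzX hYX, ?_, ?_⟩
    · rw [Finset.card_insert_of_notMem hzY, hYc]
    · intro x hx' y hy' hxy
      rw [Finset.mem_insert] at hx' hy'
      rcases hx' with rfl | hx'
      · rcases hy' with rfl | hy'
        · exact absurd rfl hxy
        · exact Or.inr (hz y hy')
      · rcases hy' with rfl | hy'
        · exact Or.inl (hz x hx')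
        · exact hY x hx' y hy' hxy

end Pool.Agent.Lib.Ando
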