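import Mathlib
import Pool.Agent.Lib.Ando.Conf1
import Pool.Agent.Lib.Ando.Greedy
import Pool.Agent.Lib.Ando.Fact4

/-!
# Ando.Pack1: step 1 of the packing (Case A)

Conventions: S = white vertices. Z / L = black vertices with sd = 0 / 1, O / U = white vertices with sd = 0 / 1. For v in L or U let v* be the member of sm S v. Every vertex of U has
sm S u = {u*} and op S u with two members (`sd_add_op`); a vertex of O or Z has op S with three members.
`Level.cost_ge`: cost S F >= k - |k + iot S F|; `Level.exists_two`: if equality holds and |k + iot| < k, some vertex has sd >= 2 after the exchange.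
To compute `cost S F` for an explicit F: F is an insert of different vertices, so expand the sums with `Finset.sum_insert`; the double sum counts each adjacent pair in F twice:
2 times (number of bichromatic pairs) - 2 times (number of monochromatic pairs). For an upper bound of the cost it is enough to know enough bichromatic pairs and that the other
pairs are not monochromatic edges (the terms of the double sum are then >= 0).

Call a site leafy if it has a leaf end; choose le with LeafE S u (le u) for the leafy sites u (X = set of leafy sites). Apply `greedy_max` to X with r u w := not Disjoint (ter {u, le u}) (ter {w, le w}) and m = k.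
If card B = k take N empty, y = 0. Otherwise card B < k; let N = (sites minus X) minus the union over u in B of kLeaf S u (le u). Every w in X is in this union: w in B: w in {w}, part of kLeaf S w (le w); w not in B: there is u in B with r u w, so w in kLeaf S u (le u)
(contrapositive of `conf_leaf_leaf`). So sites is contained in N union the big union, 6k <= card N + 6 card B (`fact4`, `kLeaf_card`), so with y = k - card B: 6 y <= card N. A site w in N has no leaf end, so for e in op S w: UN S e contains w (e in op S w, sd S w = 1), card <= 2, /= 1: card = 2,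
i.e. TE S w e. The disjointness from the leaf operations: `conf_leaf_T1`, `conf_leaf_zl`.
-/

set_option autoImplicit false
set_option linter.unusedSectionVars false

namespace Pool.Agent.Lib.Ando

variable {V : Type*} [Fintype V] [DecidableEq V] (G : SimpleGraph V) [DecidableRel G.Adj]

variable {G} in
theorem pack1 (hG : G.IsRegularOfDegree 3) (h3 : NoTri G) (h4 : NoSq G) {k : ℕ} {S : Finset V}
    (hL : Level G k S) (hk : 1 ≤ k)
    (hA : ∀ b, b ∉ S → sd G S b = 0 → (UN G S b).card ≤ 2) :
    ∃ (le : V → V) (B N : Finset V) (y : ℕ),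
      (∀ u ∈ B, LeafE G S u (le u)) ∧
      (∀ u ∈ B, ∀ w ∈ B, u ≠ w → Disjoint (ter G S {u, le u}) (ter G S {w, le w})) ∧
      B.card + y = k ∧ 6 * y ≤ N.card ∧
      (∀ w ∈ N, w ∈ sites G S ∧ ∀ e ∈ op G S w, TE G S w e) ∧
      (∀ u ∈ B, ∀ w ∈ N, ∀ e ∈ op G S w, Disjoint (ter G S {u, le u}) (ter G S {w, e}) ∧
        ∀ x ∈ UN G S e, x ≠ w → Disjoint (ter G S {u, le u}) (ter G S {x})) := by
  classical
  set le : V → V := fun u => if h : ∃ b, LeafE G S u b then h.choose else u with hle
  have hle' : ∀ u, (∃ b, LeafE G S u b) → LeafE G S u (le u) := by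
    intro u h
    simp only [hle]
    rw [dif_pos h]
    exact h.choose_spec
  set X : Finset V := (sites G S).filter (fun u => ∃ b, LeafE G S u b) with hX
  set r : V → V → Prop := fun u w => ¬ Disjoint (ter G S {u, le u}) (ter G S {w, le w}) with hr
  obtain ⟨B, hBX, hB1, hB2⟩ := greedy_max X r (fun x y h h' => h h'.symm) k
  have hBleaf : ∀ u ∈ B, LeafE G S u (le u) := by
    intro u hu
    have := hBX hu
    rw [hX, Finset.mem_filter] at this
    exact hle' u this.2
  have hBd : ∀ u ∈ B, ∀ w ∈ B, u ≠ w → Disjoint (ter G S {u, le u}) (ter G S {w, le w}) := by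
    intro u hu w hw huw
    exact not_not.1 (hB1 u hu w hw huw)
  rcases hB2 with hB2 | ⟨hB2, hB3⟩
  · exact ⟨le, B, ∅, 0, hBleaf, hBd, by rw [hB2, add_zero], by simp, by simp, by simp⟩
  · set N : Finset V := (sites G S \ X) \ B.biUnion (fun u => kLeaf G S u (le u)) with hN
    have hXc : X ⊆ B.biUnion (fun u => kLeaf G S u (le u)) := by
      intro w hw
      rw [Finset.mem_biUnion]
      by_cases hwB : w ∈ B
      · refine ⟨w, hwB, ?_⟩
        unfold kLeaf
        simp
      · obtain ⟨u, hu, hru⟩ := hB3 w hw hwB
        refine ⟨u, hu, ?_⟩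
        by_contra hcon
        have hwl : LeafE G S w (le w) := by
          rw [hX, Finset.mem_filter] at hw
          exact hle' w hw.2
        exact hru (conf_leaf_leaf hG h3 h4 hL hk hA (hBleaf u hu) hwl hcon)
    have hcov : sites G S ⊆ N ∪ B.biUnion (fun u => kLeaf G S u (le u)) := by
      intro w hw
      rw [Finset.mem_union]
      by_cases h1 : w ∈ B.biUnion (fun u => kLeaf G S u (le u))
      · exact Or.inr h1
      · left
        rw [hN, Finset.mem_sdiff, Finset.mem_sdiff]
        exact ⟨⟨hw, fun h => h1 (hXc h)⟩, h1⟩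
    have hcard : (B.biUnion (fun u => kLeaf G S u (le u))).card ≤ B.card * 6 :=
      Finset.card_biUnion_le_card_mul _ _ _ (fun u hu => kLeaf_card hG h3 h4 hL hk hA (hBleaf u hu))
    have h6 := fact4 hG h3 hL hk
    have h7 := (Finset.card_le_card hcov).trans (Finset.card_union_le _ _)
    have hNmem : ∀ w ∈ N, w ∈ sites G S ∧ (¬ ∃ b, LeafE G S w b) ∧ ∀ u ∈ B, w ∉ kLeaf G S u (le u) := by
      intro w hw
      rw [hN, Finset.mem_sdiff, Finset.mem_sdiff, hX, Finset.mem_filter, Finset.mem_biUnion] at hw
      refine ⟨hw.1.1, fun h => hw.1.2 ⟨hw.1.1, h⟩, fun u hu h => hw.2 ⟨u, hu, h⟩⟩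
    have hTE : ∀ w ∈ N, ∀ e ∈ op G S w, TE G S w e := by
      intro w hw e he
      obtain ⟨h1, h2, _⟩ := hNmem w hw
      refine ⟨h1, he, ?_⟩
      have hs : w ∈ S ∧ sd G S w = 1 ∧ ∀ b ∈ op G S w, sd G S b = 0 := by
        unfold sites at h1
        simpa using h1
      have heS : e ∉ S := by
        have := mem_op.1 he
        intro h
        exact this.2 ⟨fun _ => hs.1, fun _ => h⟩
      have hle2 := hA e heS (hs.2.2 e he)
      have hmem : w ∈ UN G S e := by
        unfold UN
        rw [Finset.mem_filter]
        exact ⟨op_symm he, hs.2.1⟩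
      have hpos : 0 < (UN G S e).card := Finset.card_pos.2 ⟨w, hmem⟩
      have hne : (UN G S e).card ≠ 1 := fun h => h2 ⟨e, h1, he, h⟩
      omega
    refine ⟨le, B, N, k - B.card, hBleaf, hBd, by omega, by omega, fun w hw => ⟨(hNmem w hw).1, hTE w hw⟩, ?_⟩
    intro u hu w hw e he
    refine ⟨conf_leaf_T1 hG h3 h4 hL hk hA (hBleaf u hu) (hTE w hw e he) ((hNmem w hw).2.2 u hu), fun x hx hxw => ?_⟩
    exact conf_leaf_zl hG h3 h4 hL hk hA (hBleaf u hu) (hTE w hw e he) ((hNmem w hw).2.2 u hu) hx hxw

end Pool.Agent.Lib.Ando
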