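import Mathlib
import Pool.Agent.Lib.Ando.Ter
import Pool.Agent.Lib.Ando.Card

set_option autoImplicit false
set_option linter.unusedSectionVars false

/-!
# Ando.Conf2: conflicts between operations T1 and with ZL operations (Case A)

Conventions: S = white vertices. Z / L = black vertices with sd = 0 / 1, O / U = white vertices with sd = 0 / 1. For v in L or U let v* be the member of sm S v. Every vertex of U has
sm S u = {u*} and op S u with two members (`sd_add_op`); a vertex of O or Z has op S with three members.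
`Level.cost_ge`: cost S F >= k - |k + iot S F|; `Level.exists_two`: if equality holds and |k + iot| < k, some vertex has sd >= 2 after the exchange.
To compute `cost S F` for an explicit F: F is an insert of different vertices, so expand the sums with `Finset.sum_insert`; the double sum counts each adjacent pair in F twice:
2 times (number of bichromatic pairs) - 2 times (number of monochromatic pairs). For an upper bound of the cost it is enough to know enough bichromatic pairs and that the other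
pairs are not monochromatic edges (the terms of the double sum are then >= 0).

ter {w, e} = {w, v, e, e2, o, x, x'} (`ter_T1`, `TE_data`): w a site, v, x, x' in U, x not a site, e, e2 in Z, o in O.

`conf_T1_T1`: second territory {w1, v1, f, f2, p, y, y'}. Cases:
 w1 in {w, v, x, x'}: w1 = w; w1 = v: a site, ks S v = {v}; w1 = x no (x not a site); w1 = x': a site, in the last part of kT1. v1 in {w, v, x, x'}: v1 = w gives w1 = v; v1 = v gives w1 = w; v1 = x gives w1 = x'; v1 = x' gives w1 = x, no.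
 f or f2 in {e, e2}: w1 = w by `site_unique`. p = o: f in op S o; f = e gives w1 = w; otherwise f in op S o minus {e}, w1 in stA S f.
 y in {w, v, x, x'}: y = w no; y = v: v is not a site, f in op S v with sd S f = 0, so w1 in stA S f and in ks S v; y = x: e and f are both black neighbours of x with sd 0, op S x = {e, l} with sd S l = 1, so f = e, w1 = w; y = x': not a site, w1 in ks S x'.
 y' in {w, v, x, x'}: y' = w gives y = v; y' = v gives y = w, no; y' = x gives y = x'; y' = x' gives y = x.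

`conf_T1_zl`: territory of y: {y, y', f, l1, l1'} (`ter_zl`), where y in UN S f, y /= w1, TE w1 f, y not a site. y in {w, v, x, x'}: y = v in sm S w; y = x in UN S e minus {w}, so in the last part (e in op S w); y = x' in the second part. y' in {..}: y' = w gives y = v;
 y' = v gives y = w, no; y' = x gives y = x'; y' = x' gives y = x. f in {e, e2}: f in op S w, y in UN S f, y /= w (y not a site), so y in the last part of kT1L. l1, l1' are black with sd 1 (l1' too: `sm_symm`), not in the first territory.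

`conf_zl_zl`: x, y both such vertices; territories {x, x', e, l, l'} and {y, y', f, m, m'}. y in {x, x'} or y' in {x, x'}: y = x or y in sm S x (y' = x gives y = x'; y' = x' gives y = x). f = e: x and y are both in UN S e, different from the site w (the same site by `site_unique`), and card UN S e = 2, so x = y.
 m = l: x and y in UN S l, so x = y by `fact1`. m = l': y in UN S l', l' in sm S l, l in op S x with sd 1: y in kL. m' = l: then m = l'. m' = l': then m = l.
-/

namespace Pool.Agent.Lib.Ando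

variable {V : Type*} [Fintype V] [DecidableEq V] (G : SimpleGraph V) [DecidableRel G.Adj]

namespace Conf2Aux

variable {G}

theorem mem_sites {S : Finset V} {u : V} :
    u ∈ sites G S ↔ u ∈ S ∧ sd G S u = 1 ∧ ∀ b ∈ op G S u, sd G S b = 0 := by
  simp [sites]

theorem mem_UN {S : Finset V} {b u : V} : u ∈ UN G S b ↔ u ∈ op G S b ∧ sd G S u = 1 := by
  simp [UN]

theorem mem_stA {S : Finset V} {e u : V} : u ∈ stA G S e ↔ u ∈ sites G S ∧ e ∈ op G S u := by
  simp [stA]

theorem op_col {S : Finset V} {v w : V} (h : w ∈ op G S v) (hv : v ∈ S) : w ∉ S := by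
  have := (mem_op.1 h).2
  tauto

theorem op_col' {S : Finset V} {v w : V} (h : w ∈ op G S v) (hv : v ∉ S) : w ∈ S := by
  have := (mem_op.1 h).2
  tauto

theorem sm_col {S : Finset V} {v w : V} (h : w ∈ sm G S v) (hv : v ∈ S) : w ∈ S := by
  have := (mem_sm.1 h).2
  tauto

theorem sm_col' {S : Finset V} {v w : V} (h : w ∈ sm G S v) (hv : v ∉ S) : w ∉ S := by
  have := (mem_sm.1 h).2
  tauto

theorem sm_uniq {k : ℕ} {S : Finset V} (hL : Level G k S) {v a b : V} (ha : a ∈ sm G S v)
    (hb : b ∈ sm G S v) : a = b :=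
  Finset.card_le_one.1 (hL.tf v) a ha b hb

theorem sd_sm {k : ℕ} {S : Finset V} (hL : Level G k S) {v w : V} (h : w ∈ sm G S v) :
    sd G S w = 1 :=
  le_antisymm (hL.tf w) (Finset.card_pos.2 ⟨v, sm_symm h⟩)

theorem ks_not (hG : G.IsRegularOfDegree 3) (h3 : NoTri G) (h4 : NoSq G) {k : ℕ} {S : Finset V}
    (hL : Level G k S) (hk : 1 ≤ k)
    (hA : ∀ b, b ∉ S → sd G S b = 0 → (UN G S b).card ≤ 2) {w1 z : V} (h1 : w1 ∈ sites G S)
    (hz : w1 ∉ ks G S z) : w1 ≠ z ∧ ∀ g ∈ op G S z, g ∉ op G S w1 := by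
  by_cases hs : z ∈ sites G S
  · have h2 : w1 ≠ z := by
      intro h
      apply hz
      unfold ks
      rw [if_pos hs]
      exact Finset.mem_singleton.2 h
    refine ⟨h2, fun g hg hg1 => ?_⟩
    exact h2 (site_unique hG h3 h4 hL hk hA h1 hs hg1 hg)
  · refine ⟨fun h => hs (h ▸ h1), fun g hg hg1 => ?_⟩
    apply hz
    unfold ks
    rw [if_neg hs]
    refine Finset.mem_biUnion.2 ⟨g, Finset.mem_filter.2 ⟨hg, (mem_sites.1 h1).2.2 g hg1⟩, ?_⟩
    exact mem_stA.2 ⟨h1, hg1⟩

/-- The data of the territory of the operation T1 at `(w, e)`. -/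
structure TD (G : SimpleGraph V) [DecidableRel G.Adj] (S : Finset V) (w e v e2 x x' o : V) : Prop where
  ter : ter G S {w, e} = {w, v, e, e2, o, x, x'}
  site : w ∈ sites G S
  smw : sm G S w = {v}
  opw : op G S w = {e, e2}
  se : sd G S e = 0
  se2 : sd G S e2 = 0
  UNe : UN G S e = {w, x}
  wx : w ≠ x
  so : sd G S o = 0
  oe : o ∈ op G S e
  nsx : x ∉ sites G S
  sx : sd G S x = 1
  smx : sm G S x = {x'}
  opx : ∀ g ∈ op G S x, g = e ∨ sd G S g = 1
  wS : w ∈ S
  eS : e ∉ S
  e2S : e2 ∉ S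
  col : ∀ z ∈ ({w, v, x, x', o} : Finset V), z ∈ S
  clo : ∀ z ∈ ({w, v, x, x', o} : Finset V), ∀ z' ∈ sm G S z, z' ∈ ({w, v, x, x', o} : Finset V)

theorem exists_TD (hG : G.IsRegularOfDegree 3) (h3 : NoTri G) (h4 : NoSq G) {k : ℕ} {S : Finset V}
    (hL : Level G k S) (hk : 1 ≤ k) {w e : V} (h : TE G S w e) :
    ∃ v e2 x x' o, TD G S w e v e2 x x' o := by
  obtain ⟨v, e2, x, x', o, l, hv, hop, hee, se, se2, hoe, hwx, hwo, hxo, hUN, so, sx, nsx, hx', hopx,
    hel, sl, hxw, hx'w, hvx⟩ := TE_data hG h3 h4 hL hk h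
  have hws := mem_sites.1 h.1
  have wS : w ∈ S := hws.1
  have eS : e ∉ S := op_col h.2.1 wS
  have e2S : e2 ∉ S := op_col (by rw [hop]; simp : e2 ∈ op G S w) wS
  have oe : o ∈ op G S e := by rw [hoe]; simp
  have xe : x ∈ op G S e := by rw [hoe]; simp
  have oS : o ∈ S := op_col' oe eS
  have xS : x ∈ S := op_col' xe eS
  have vw : v ∈ sm G S w := by rw [hv]; simp
  have x'x : x' ∈ sm G S x := by rw [hx']; simp
  have vS : v ∈ S := sm_col vw wS
  have x'S : x' ∈ S := sm_col x'x xS
  refine ⟨v, e2, x, x', o, ⟨ter_T1 G hv hop se se2 hoe so hx' (hL.tf v), h.1, hv, hop, se, se2, hUN,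
    hwx, so, oe, nsx, sx, hx', ?_, wS, eS, e2S, ?_, ?_⟩⟩
  · intro g hg
    rw [hopx, Finset.mem_insert, Finset.mem_singleton] at hg
    rcases hg with hg | hg
    · exact Or.inl hg
    · rw [hg]
      exact Or.inr sl
  · intro z hz
    simp only [Finset.mem_insert, Finset.mem_singleton] at hz
    rcases hz with hz | hz | hz | hz | hz <;> rw [hz] <;> assumption
  · intro z hz z' hz'
    simp only [Finset.mem_insert, Finset.mem_singleton] at hz
    rcases hz with hz | hz | hz | hz | hz
    · rw [hz, hv, Finset.mem_singleton] at hz'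
      simp [hz']
    · rw [hz] at hz'
      have := sm_uniq hL hz' (sm_symm vw)
      simp [this]
    · rw [hz, hx', Finset.mem_singleton] at hz'
      simp [hz']
    · rw [hz] at hz'
      have := sm_uniq hL hz' (sm_symm x'x)
      simp [this]
    · rw [hz] at hz'
      have h0 : sm G S o = ∅ := Finset.card_eq_zero.1 so
      rw [h0] at hz'
      simp at hz'

theorem TD.split {S : Finset V} {w e v e2 x x' o : V} (h : TD G S w e v e2 x x' o) {q : V}
    (hq : q ∈ Pool.Agent.Lib.Ando.ter G S {w, e}) : q ∈ ({w, v, x, x', o} : Finset V) ∨ q ∈ op G S w := by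
  rw [h.ter] at hq
  rw [h.opw]
  simp only [Finset.mem_insert, Finset.mem_singleton] at hq ⊢
  tauto

theorem TD.keyT {S : Finset V} {w e v e2 x x' o : V} (h : TD G S w e v e2 x x' o)
    (hG : G.IsRegularOfDegree 3) (h3 : NoTri G) (h4 : NoSq G) {k : ℕ}
    (hL : Level G k S) (hk : 1 ≤ k)
    (hA : ∀ b, b ∉ S → sd G S b = 0 → (UN G S b).card ≤ 2) {w1 : V} (h1 : w1 ∈ sites G S)
    (hn : w1 ∉ kT1 G S w e) :
    ∀ z ∈ ({w, v, x, x', o} : Finset V), w1 ≠ z ∧ ∀ g ∈ op G S z, g ∉ op G S w1 := by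
  unfold kT1 at hn
  rw [Finset.mem_union, Finset.mem_union, Finset.mem_union] at hn
  push Not at hn
  obtain ⟨⟨⟨n1, n2⟩, n3⟩, n4⟩ := hn
  have kw : w1 ≠ w ∧ ∀ g ∈ op G S w, g ∉ op G S w1 := by
    have h2 : w1 ≠ w := fun h => n1 (Finset.mem_singleton.2 h)
    refine ⟨h2, fun g hg hg1 => h2 ?_⟩
    exact site_unique hG h3 h4 hL hk hA h1 h.site hg1 hg
  have ee : e ∉ op G S w1 := kw.2 e (by rw [h.opw]; simp)
  have h1' := mem_sites.1 h1
  intro z hz
  simp only [Finset.mem_insert, Finset.mem_singleton] at hz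
  rcases hz with hz | hz | hz | hz | hz
  · rw [hz]
    exact kw
  · rw [hz]
    apply ks_not hG h3 h4 hL hk hA h1
    intro h5
    apply n2
    exact Finset.mem_biUnion.2 ⟨v, by rw [h.smw]; simp, h5⟩
  · rw [hz]
    refine ⟨fun h5 => h.nsx (h5 ▸ h1), fun g hg hg1 => ?_⟩
    rcases h.opx g hg with h6 | h6
    · rw [h6] at hg1
      exact ee hg1
    · have := h1'.2.2 g hg1
      omega
  · rw [hz]
    apply ks_not hG h3 h4 hL hk hA h1
    intro h5
    apply n4
    refine Finset.mem_biUnion.2 ⟨x, ?_, Finset.mem_biUnion.2 ⟨x', by rw [h.smx]; simp, h5⟩⟩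
    rw [h.UNe, Finset.mem_sdiff]
    refine ⟨by simp, ?_⟩
    rw [Finset.mem_singleton]
    exact h.wx.symm
  · rw [hz]
    refine ⟨fun h5 => ?_, fun g hg hg1 => ?_⟩
    · have h6 := h.so
      rw [← h5] at h6
      omega
    · by_cases hge : g = e
      · rw [hge] at hg1
        exact ee hg1
      · apply n3
        refine Finset.mem_biUnion.2 ⟨o, Finset.mem_filter.2 ⟨h.oe, h.so⟩, Finset.mem_biUnion.2
          ⟨g, ?_, mem_stA.2 ⟨h1, hg1⟩⟩⟩
        rw [Finset.mem_sdiff, Finset.mem_singleton]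
        exact ⟨hg, hge⟩

theorem site_no {S : Finset V} {w e v e2 x x' o y : V} (h : TD G S w e v e2 x x' o)
    (hy : y ∈ UN G S e) (hyw : y ≠ w) : y = x := by
  rw [h.UNe, Finset.mem_insert, Finset.mem_singleton] at hy
  rcases hy with hy | hy
  · exact absurd hy hyw
  · exact hy

end Conf2Aux

open Conf2Aux

variable {G} in
theorem conf_T1_T1 (hG : G.IsRegularOfDegree 3) (h3 : NoTri G) (h4 : NoSq G) {k : ℕ} {S : Finset V}
    (hL : Level G k S) (hk : 1 ≤ k)
    (hA : ∀ b, b ∉ S → sd G S b = 0 → (UN G S b).card ≤ 2) {w e w1 f : V} (hw : TE G S w e) (hw1 : TE G S w1 f)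
    (hn : w1 ∉ kT1 G S w e) : Disjoint (ter G S {w, e}) (ter G S {w1, f}) := by
  obtain ⟨v, e2, x, x', o, D⟩ := exists_TD hG h3 h4 hL hk hw
  obtain ⟨v1, f2, y, y', p, D1⟩ := exists_TD hG h3 h4 hL hk hw1
  have K := D.keyT hG h3 h4 hL hk hA D1.site hn
  have w1W : w1 ∉ ({w, v, x, x', o} : Finset V) := fun h => (K w1 h).1 rfl
  have f1 : f ∈ op G S w1 := by rw [D1.opw]; simp
  have f21 : f2 ∈ op G S w1 := by rw [D1.opw]; simp
  have key : ∀ q, f ∈ op G S q → q ∉ ({w, v, x, x', o} : Finset V) := fun q hq h => (K q h).2 f hq f1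
  have py : p ∉ ({w, v, x, x', o} : Finset V) := key p (op_symm D1.oe)
  have yf : y ∈ op G S f := by
    have : y ∈ UN G S f := by rw [D1.UNe]; simp
    exact (mem_UN.1 this).1
  have yW : y ∉ ({w, v, x, x', o} : Finset V) := key y (op_symm yf)
  have v1W : v1 ∉ ({w, v, x, x', o} : Finset V) := fun h =>
    w1W (D.clo v1 h w1 (sm_symm (by rw [D1.smw]; simp)))
  have y'W : y' ∉ ({w, v, x, x', o} : Finset V) := fun h =>
    yW (D.clo y' h y (sm_symm (by rw [D1.smx]; simp)))
  have hB : ∀ q ∈ op G S w, q ∉ S := fun q hq => op_col hq D.wS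
  rw [Finset.disjoint_left]
  intro q hq hq1
  have c1 : ∀ z ∈ ({w1, v1, y, y', p} : Finset V), z ∉ ({w, v, x, x', o} : Finset V) := by
    intro z hz
    simp only [Finset.mem_insert, Finset.mem_singleton] at hz
    rcases hz with hz | hz | hz | hz | hz <;> rw [hz] <;> assumption
  rcases D.split hq with h | h
  · rcases D1.split hq1 with h' | h'
    · exact c1 q h' h
    · exact op_col h' D1.wS (D.col q h)
  · rcases D1.split hq1 with h' | h'
    · exact op_col h D.wS (D1.col q h')
    · exact (K w (by simp)).2 q h h'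


variable {G} in
theorem conf_T1_zl (hG : G.IsRegularOfDegree 3) (h3 : NoTri G) (h4 : NoSq G) {k : ℕ} {S : Finset V}
    (hL : Level G k S) (hk : 1 ≤ k)
    (hA : ∀ b, b ∉ S → sd G S b = 0 → (UN G S b).card ≤ 2) {w e w1 f y : V} (hw : TE G S w e) (hw1 : TE G S w1 f)
    (hy : y ∈ UN G S f) (hyw : y ≠ w1) (hn : y ∉ kT1L G S w e) :
    Disjoint (ter G S {w, e}) (ter G S {y}) := by
  obtain ⟨v, e2, x, x', o, D⟩ := exists_TD hG h3 h4 hL hk hw
  obtain ⟨v1, f2, y0, y0', p, D1⟩ := exists_TD hG h3 h4 hL hk hw1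
  have hy0 : y = y0 := site_no D1 hy hyw
  have nsy : y ∉ sites G S := by rw [hy0]; exact D1.nsx
  have sy : sd G S y = 1 := (mem_UN.1 hy).2
  have yf : y ∈ op G S f := (mem_UN.1 hy).1
  have yS : y ∈ S := op_col' yf D1.eS
  obtain ⟨l1, y', l1', hopy, hfl, sl1, hy', hl1'⟩ := zl_data hG hL yS sy nsy (op_symm yf) D1.se
  rw [ter_zl G hy' hopy D1.se hl1' (hL.tf y')]
  unfold kT1L at hn
  rw [Finset.mem_union, Finset.mem_union] at hn
  push Not at hn
  obtain ⟨⟨n1, n2⟩, n3⟩ := hn
  have yw : y ≠ w := fun h => nsy (h ▸ D.site)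
  have fw : f ∉ op G S w := by
    intro h
    apply n3
    rw [Finset.mem_sdiff, Finset.mem_singleton]
    exact ⟨Finset.mem_biUnion.2 ⟨f, h, hy⟩, yw⟩
  have yW : y ∉ ({w, v, x, x', o} : Finset V) := by
    intro h
    simp only [Finset.mem_insert, Finset.mem_singleton] at h
    rcases h with h | h | h | h | h
    · exact yw h
    · apply n1
      rw [D.smw, h]
      simp
    · apply n3
      rw [Finset.mem_sdiff, Finset.mem_singleton]
      refine ⟨Finset.mem_biUnion.2 ⟨e, by rw [D.opw]; simp, ?_⟩, yw⟩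
      rw [D.UNe, h]
      simp
    · apply n2
      refine Finset.mem_biUnion.2 ⟨x, ?_, ?_⟩
      · rw [D.UNe, Finset.mem_sdiff, Finset.mem_singleton]
        exact ⟨by simp, D.wx.symm⟩
      · rw [D.smx, h]
        simp
    · have := D.so
      rw [← h] at this
      omega
  have yy : y' ∈ sm G S y := by rw [hy']; simp
  have y'W : y' ∉ ({w, v, x, x', o} : Finset V) := fun h => yW (D.clo y' h y (sm_symm yy))
  have y'S : y' ∈ S := sm_col yy yS
  have l1y : l1 ∈ op G S y := by rw [hopy]; simp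
  have l1S : l1 ∉ S := op_col l1y yS
  have ll : l1' ∈ sm G S l1 := by rw [hl1']; simp
  have l1'S : l1' ∉ S := sm_col' ll l1S
  have sl1' : sd G S l1' = 1 := sd_sm hL ll
  have s0 : ∀ q ∈ op G S w, sd G S q = 0 := fun q hq => (mem_sites.1 D.site).2.2 q hq
  rw [Finset.disjoint_left]
  intro q hq hq1
  simp only [Finset.mem_insert, Finset.mem_singleton] at hq1
  rcases D.split hq with h | h
  · have qS := D.col q h
    rcases hq1 with hq1 | hq1 | hq1 | hq1 | hq1 <;> rw [hq1] at h qS
    · exact yW h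
    · exact y'W h
    · exact D1.eS qS
    · exact l1S qS
    · exact l1'S qS
  · have qS := op_col h D.wS
    have sq := s0 q h
    rcases hq1 with hq1 | hq1 | hq1 | hq1 | hq1 <;> rw [hq1] at h qS sq
    · exact qS yS
    · exact qS y'S
    · exact fw h
    · omega
    · omega


variable {G} in
theorem conf_zl_zl (hG : G.IsRegularOfDegree 3) (h3 : NoTri G) (h4 : NoSq G) {k : ℕ} {S : Finset V}
    (hL : Level G k S) (hk : 1 ≤ k)
    (hA : ∀ b, b ∉ S → sd G S b = 0 → (UN G S b).card ≤ 2) {w e x w1 f y : V} (hw : TE G S w e) (hx : x ∈ UN G S e) (hxw : x ≠ w)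
    (hw1 : TE G S w1 f) (hy : y ∈ UN G S f) (hyw : y ≠ w1) (hn : y ∉ kL G S x) :
    Disjoint (ter G S {x}) (ter G S {y}) := by
  obtain ⟨v, e2, x0, x0', o, D⟩ := exists_TD hG h3 h4 hL hk hw
  obtain ⟨v1, f2, y0, y0', p, D1⟩ := exists_TD hG h3 h4 hL hk hw1
  have hx0 : x = x0 := site_no D hx hxw
  have hy0 : y = y0 := site_no D1 hy hyw
  have nsx : x ∉ sites G S := by rw [hx0]; exact D.nsx
  have nsy : y ∉ sites G S := by rw [hy0]; exact D1.nsx
  have sx : sd G S x = 1 := (mem_UN.1 hx).2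
  have xe : x ∈ op G S e := (mem_UN.1 hx).1
  have xS : x ∈ S := op_col' xe D.eS
  have sy : sd G S y = 1 := (mem_UN.1 hy).2
  have yf : y ∈ op G S f := (mem_UN.1 hy).1
  have yS : y ∈ S := op_col' yf D1.eS
  obtain ⟨l, x', l', hopx, hel, sl, hx', hl'⟩ := zl_data hG hL xS sx nsx (op_symm xe) D.se
  obtain ⟨m, y', m', hopy, hfm, sm1, hy', hm'⟩ := zl_data hG hL yS sy nsy (op_symm yf) D1.se
  rw [ter_zl G hx' hopx D.se hl' (hL.tf x'), ter_zl G hy' hopy D1.se hm' (hL.tf y')]
  unfold kL at hn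
  rw [Finset.mem_union, Finset.mem_union, Finset.mem_singleton] at hn
  push Not at hn
  obtain ⟨⟨n1, n2⟩, n3⟩ := hn
  have xx : x' ∈ sm G S x := by rw [hx']; simp
  have yy : y' ∈ sm G S y := by rw [hy']; simp
  have x'S : x' ∈ S := sm_col xx xS
  have y'S : y' ∈ S := sm_col yy yS
  have lx : l ∈ op G S x := by rw [hopx]; simp
  have my : m ∈ op G S y := by rw [hopy]; simp
  have lS : l ∉ S := op_col lx xS
  have mS : m ∉ S := op_col my yS
  have ll : l' ∈ sm G S l := by rw [hl']; simp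
  have mm : m' ∈ sm G S m := by rw [hm']; simp
  have l'S : l' ∉ S := sm_col' ll lS
  have m'S : m' ∉ S := sm_col' mm mS
  have sl' : sd G S l' = 1 := sd_sm hL ll
  have sm' : sd G S m' = 1 := sd_sm hL mm
  have se := D.se
  have sf := D1.se
  have eS := D.eS
  have fS := D1.eS
  have yx' : y ≠ x' := by
    intro h
    apply n2
    rw [h]
    exact xx
  have y'x : y' ≠ x := by
    intro h
    rw [h] at yy
    exact n2 (sm_symm yy)
  have y'x' : y' ≠ x' := by
    intro h
    rw [h] at yy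
    exact n1 (sm_uniq hL (sm_symm yy) (sm_symm xx))
  have fe : f ≠ e := by
    intro h
    rw [h, D.UNe, Finset.mem_insert, Finset.mem_singleton] at hy
    rcases hy with hy | hy
    · exact nsy (hy ▸ D.site)
    · exact n1 (hy.trans hx0.symm)
  have ml : m ≠ l := by
    intro h
    rw [h] at my
    have h1 : x ∈ UN G S l := mem_UN.2 ⟨op_symm lx, sx⟩
    have h2 : y ∈ UN G S l := mem_UN.2 ⟨op_symm my, sy⟩
    exact n1 (Finset.card_le_one.1 (fact1 hG h3 hL hk lS sl) y h2 x h1)
  have ml' : m ≠ l' := by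
    intro h
    rw [h] at my
    apply n3
    refine Finset.mem_biUnion.2 ⟨l, Finset.mem_filter.2 ⟨lx, sl⟩, Finset.mem_biUnion.2 ⟨l', ll, ?_⟩⟩
    exact mem_UN.2 ⟨op_symm my, sy⟩
  have m'l : m' ≠ l := by
    intro h
    rw [h] at mm
    exact ml' (sm_uniq hL (sm_symm mm) ll)
  have m'l' : m' ≠ l' := by
    intro h
    rw [h] at mm
    exact ml (sm_uniq hL (sm_symm mm) (sm_symm ll))
  rw [Finset.disjoint_left]
  intro q hq hq1
  simp only [Finset.mem_insert, Finset.mem_singleton] at hq hq1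
  have bw : ∀ a b : V, a ∈ S → b ∉ S → a ≠ b := fun a b ha hb h => hb (h ▸ ha)
  have sdn : ∀ a b : V, sd G S a = 0 → sd G S b = 1 → a ≠ b := by
    intro a b ha hb h
    rw [h] at ha
    omega
  rcases hq with hq | hq | hq | hq | hq <;> rcases hq1 with hq1 | hq1 | hq1 | hq1 | hq1 <;>
    rw [hq] at hq1
  · exact n1 hq1.symm
  · exact y'x hq1.symm
  · exact bw _ _ xS fS hq1
  · exact bw _ _ xS mS hq1
  · exact bw _ _ xS m'S hq1
  · exact yx' hq1.symm
  · exact y'x' hq1.symm
  · exact bw _ _ x'S fS hq1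
  · exact bw _ _ x'S mS hq1
  · exact bw _ _ x'S m'S hq1
  · exact bw _ _ yS eS hq1.symm
  · exact bw _ _ y'S eS hq1.symm
  · exact fe hq1.symm
  · exact sdn _ _ se sm1 hq1
  · exact sdn _ _ se sm' hq1
  · exact bw _ _ yS lS hq1.symm
  · exact bw _ _ y'S lS hq1.symm
  · exact sdn _ _ sf sl hq1.symm
  · exact ml hq1.symm
  · exact m'l hq1.symm
  · exact bw _ _ yS l'S hq1.symm
  · exact bw _ _ y'S l'S hq1.symm
  · exact sdn _ _ sf sl' hq1.symm
  · exact ml' hq1.symm
  · exact m'l' hq1.symm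


end Pool.Agent.Lib.Ando
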