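import Mathlib
import Pool.Agent.Lib.Ando.Conf2
import Pool.Agent.Lib.Ando.Greedy

set_option autoImplicit false
set_option linter.unusedSectionVars false

/-!
# Ando.Pack2: steps 2 and 3 of the packing (Case A)

Conventions: S = white vertices. Z / L = black vertices with sd = 0 / 1, O / U = white vertices with sd = 0 / 1. For v in L or U let v* be the member of sm S v. Every vertex of U has
sm S u = {u*} and op S u with two members (`sd_add_op`); a vertex of O or Z has op S with three members.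
`Level.cost_ge`: cost S F >= k - |k + iot S F|; `Level.exists_two`: if equality holds and |k + iot| < k, some vertex has sd >= 2 after the exchange.
To compute `cost S F` for an explicit F: F is an insert of different vertices, so expand the sums with `Finset.sum_insert`; the double sum counts each adjacent pair in F twice:
2 times (number of bichromatic pairs) - 2 times (number of monochromatic pairs). For an upper bound of the cost it is enough to know enough bichromatic pairs and that the other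
pairs are not monochromatic edges (the terms of the double sum are then >= 0).

Choose te with te w in op S w for w in N (op S w has two elements, N consists of sites). 
T: `greedy_cov` on N with K w = kT1 S w (te w), c = 5, m = y (5 y <= 6 y <= card N): T subset N, card y, and for w /= w' in T: w' not in K w or w not in K w', so the territories are disjoint (`conf_T1_T1`, symmetric).
Y: let A = union over w in N of ((op S w).biUnion (UN S) minus {w}). A has 2 card N elements: for w in N and e in op S w, UN S e minus {w} has exactly one element x, which is not a site, and x determines e (the only black neighbour of x with sd = 0, see `TE_data`: op S x = {e, l}, sd S l = 1)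
and then w (`site_unique`); so all these 2 card N vertices are different (`Finset.card_biUnion`, or an injection from pairs). Let A' = A minus the union over w in T of kT1L S w (te w): card A' >= 12 y - 4 y = 8 y >= 3 y. `greedy_cov` on A' with K x = kL S x, c = 3, m = y. Disjointness: `conf_zl_zl`, and from T: `conf_T1_zl`.
-/

namespace Pool.Agent.Lib.Ando

variable {V : Type*} [Fintype V] [DecidableEq V] (G : SimpleGraph V) [DecidableRel G.Adj]

namespace Pack2Aux

/-- Data of a member of `UN S e` different from the site `w`. -/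
theorem other_data (hG : G.IsRegularOfDegree 3) (h3 : NoTri G) (h4 : NoSq G) {k : ℕ} {S : Finset V}
    (hL : Level G k S) (hk : 1 ≤ k) {w e x : V} (h : TE G S w e) (hx : x ∈ UN G S e)
    (hxw : x ≠ w) :
    x ∈ S ∧ sd G S x = 1 ∧ x ∉ sites G S ∧ e ∈ op G S x ∧ sd G S e = 0 ∧
      ∀ f ∈ op G S x, sd G S f = 0 → f = e := by
  obtain ⟨v, e2, x0, x', o, l, _, _, _, h4', _, _, _, _, _, h10, _, h12, h13, _, h15, _, h17, _⟩ :=
    TE_data hG h3 h4 hL hk h
  have hx0 : x = x0 := by
    rw [h10, Finset.mem_insert, Finset.mem_singleton] at hx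
    rcases hx with hx | hx
    · exact absurd hx hxw
    · exact hx
  subst hx0
  have hwS : w ∈ S := by
    have := h.1
    simp only [sites, Finset.mem_filter, Finset.mem_univ, true_and] at this
    exact this.1
  have he : e ∉ S := by
    have h1 := (mem_op.1 h.2.1).2
    intro h2
    exact h1 ⟨fun _ => hwS, fun _ => h2⟩
  have hxe : x ∈ op G S e := (Finset.mem_filter.1 hx).1
  have hxS : x ∈ S := by
    have h1 := (mem_op.1 hxe).2
    by_contra h2
    exact h1 ⟨fun h => absurd h h2, fun h => absurd h he⟩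
  refine ⟨hxS, h12, h13, op_symm hxe, h4', fun f hf hf0 => ?_⟩
  rw [h15, Finset.mem_insert, Finset.mem_singleton] at hf
  rcases hf with hf | hf
  · exact hf
  · rw [hf, h17] at hf0
    exact absurd hf0 (by norm_num)

/-- The vertices of type ZL belonging to the site `w`. -/
def Bw (S : Finset V) (w : V) : Finset V := (op G S w).biUnion (UN G S) \ {w}

theorem mem_Bw {S : Finset V} {w x : V} :
    x ∈ Bw G S w ↔ (∃ e ∈ op G S w, x ∈ UN G S e) ∧ x ≠ w := by
  unfold Bw
  rw [Finset.mem_sdiff, Finset.mem_biUnion, Finset.mem_singleton]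

theorem two_le_Bw (hG : G.IsRegularOfDegree 3) (h3 : NoTri G) (h4 : NoSq G) {k : ℕ}
    {S : Finset V} (hL : Level G k S) (hk : 1 ≤ k) {w : V} (hw : w ∈ sites G S)
    (hN : ∀ e ∈ op G S w, TE G S w e) : 2 ≤ (Bw G S w).card := by
  have hsd : sd G S w = 1 := by
    simp only [sites, Finset.mem_filter, Finset.mem_univ, true_and] at hw
    exact hw.2.1
  have hcard : (op G S w).card = 2 := by
    have := sd_add_op hG S w
    omega
  obtain ⟨e, f, hef, hop⟩ := Finset.card_eq_two.1 hcard
  have he : e ∈ op G S w := by rw [hop]; simp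
  have hf : f ∈ op G S w := by rw [hop]; simp
  have hex : ∀ e ∈ op G S w, ∃ x, x ∈ UN G S e ∧ x ≠ w := by
    intro e he
    obtain ⟨v, e2, x0, x', o, l, _, _, _, _, _, _, h7, _, _, h10, _⟩ :=
      TE_data hG h3 h4 hL hk (hN e he)
    exact ⟨x0, by rw [h10]; simp, h7.symm⟩
  obtain ⟨x, hx, hxw⟩ := hex e he
  obtain ⟨y, hy, hyw⟩ := hex f hf
  have hxy : x ≠ y := by
    intro h
    subst h
    have h1 := other_data G hG h3 h4 hL hk (hN e he) hx hxw
    have h2 := other_data G hG h3 h4 hL hk (hN f hf) hy hyw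
    exact hef (h1.2.2.2.2.2 f h2.2.2.2.1 h2.2.2.2.2.1).symm
  rw [← Finset.card_pair hxy]
  apply Finset.card_le_card
  intro z hz
  rw [Finset.mem_insert, Finset.mem_singleton] at hz
  rw [mem_Bw]
  rcases hz with rfl | rfl
  · exact ⟨⟨e, he, hx⟩, hxw⟩
  · exact ⟨⟨f, hf, hy⟩, hyw⟩

end Pack2Aux

variable {G} in
theorem pack2 (hG : G.IsRegularOfDegree 3) (h3 : NoTri G) (h4 : NoSq G) {k : ℕ} {S : Finset V}
    (hL : Level G k S) (hk : 1 ≤ k)
    (hA : ∀ b, b ∉ S → sd G S b = 0 → (UN G S b).card ≤ 2) (N : Finset V) (y : ℕ) (hy : 6 * y ≤ N.card)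
    (hN : ∀ w ∈ N, w ∈ sites G S ∧ ∀ e ∈ op G S w, TE G S w e) :
    ∃ (te : V → V) (T Y : Finset V), T ⊆ N ∧ T.card = y ∧ Y.card = y ∧
      (∀ w ∈ T, te w ∈ op G S w) ∧
      (∀ w ∈ T, ∀ w' ∈ T, w ≠ w' → Disjoint (ter G S {w, te w}) (ter G S {w', te w'})) ∧
      (∀ x ∈ Y, ∃ w ∈ N, ∃ e ∈ op G S w, x ∈ UN G S e ∧ x ≠ w) ∧
      (∀ x ∈ Y, ∀ x' ∈ Y, x ≠ x' → Disjoint (ter G S {x}) (ter G S {x'})) ∧
      (∀ w ∈ T, ∀ x ∈ Y, Disjoint (ter G S {w, te w}) (ter G S {x})) := by
  classical
  -- the choice of `te`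
  have hsd : ∀ w ∈ N, sd G S w = 1 := by
    intro w hw
    have := (hN w hw).1
    simp only [sites, Finset.mem_filter, Finset.mem_univ, true_and] at this
    exact this.2.1
  have hne : ∀ w ∈ N, (op G S w).Nonempty := by
    intro w hw
    rw [← Finset.card_pos]
    have := sd_add_op hG S w
    have := hsd w hw
    omega
  let te : V → V := fun w => if h : (op G S w).Nonempty then h.choose else w
  have hte : ∀ w ∈ N, te w ∈ op G S w := by
    intro w hw
    have h : te w = (hne w hw).choose := dif_pos (hne w hw)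
    rw [h]
    exact (hne w hw).choose_spec
  have hTE : ∀ w ∈ N, TE G S w (te w) := fun w hw => (hN w hw).2 _ (hte w hw)
  -- the set `T`
  obtain ⟨T, hTN, hTc, hT⟩ := greedy_cov N (fun w => kT1 G S w (te w)) 5 y (by norm_num)
    (fun w hw => kT1_card hG h3 h4 hL hk hA (hTE w hw))
    (fun w _ => by simp [kT1]) (by omega)
  -- the set `A`
  have hBdisj : ∀ w ∈ N, ∀ w' ∈ N, w ≠ w' → Disjoint (Pack2Aux.Bw G S w) (Pack2Aux.Bw G S w') := by
    intro w hw w' hw' hww
    rw [Finset.disjoint_left]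
    intro z hz hz'
    obtain ⟨⟨e, he, hze⟩, hzw⟩ := (Pack2Aux.mem_Bw G).1 hz
    obtain ⟨⟨f, hf, hzf⟩, hzw'⟩ := (Pack2Aux.mem_Bw G).1 hz'
    have h1 := Pack2Aux.other_data G hG h3 h4 hL hk ((hN w hw).2 e he) hze hzw
    have h2 := Pack2Aux.other_data G hG h3 h4 hL hk ((hN w' hw').2 f hf) hzf hzw'
    have hfe : f = e := h1.2.2.2.2.2 f h2.2.2.2.1 h2.2.2.2.2.1
    subst hfe
    exact hww (site_unique hG h3 h4 hL hk hA (hN w hw).1 (hN w' hw').1 he hf)
  set A : Finset V := N.biUnion (Pack2Aux.Bw G S) with hAdef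
  have hAcard : 2 * N.card ≤ A.card := by
    rw [hAdef, Finset.card_biUnion hBdisj, mul_comm, ← smul_eq_mul]
    exact Finset.card_nsmul_le_sum _ _ _ fun w hw =>
      Pack2Aux.two_le_Bw G hG h3 h4 hL hk (hN w hw).1 (hN w hw).2
  have hmemA : ∀ x ∈ A, ∃ w ∈ N, ∃ e ∈ op G S w, x ∈ UN G S e ∧ x ≠ w := by
    intro x hx
    rw [hAdef, Finset.mem_biUnion] at hx
    obtain ⟨w, hw, hx⟩ := hx
    obtain ⟨⟨e, he, hxe⟩, hxw⟩ := (Pack2Aux.mem_Bw G).1 hx
    exact ⟨w, hw, e, he, hxe, hxw⟩
  set U : Finset V := T.biUnion (fun w => kT1L G S w (te w)) with hU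
  have hUcard : U.card ≤ y * 4 := by
    rw [hU, ← hTc]
    exact Finset.card_biUnion_le_card_mul _ _ _ fun w hw =>
      kT1L_card hG h3 h4 hL hk hA (hTE w (hTN hw))
  have hA'card : 3 * y ≤ (A \ U).card := by
    have := Finset.le_card_sdiff U A
    omega
  obtain ⟨Y, hYA, hYc, hY⟩ := greedy_cov (A \ U) (fun x => kL G S x) 3 y (by norm_num)
    (fun x hx => by
      obtain ⟨w, hw, e, he, hxe, hxw⟩ := hmemA x (Finset.mem_sdiff.1 hx).1
      have h1 := Pack2Aux.other_data G hG h3 h4 hL hk ((hN w hw).2 e he) hxe hxw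
      exact kL_card hG h3 h4 hL hk hA h1.1 h1.2.1 h1.2.2.1 h1.2.2.2.1 h1.2.2.2.2.1)
    (fun x _ => by simp [kL]) hA'card
  have hYmem : ∀ x ∈ Y, ∃ w ∈ N, ∃ e ∈ op G S w, x ∈ UN G S e ∧ x ≠ w := fun x hx =>
    hmemA x (Finset.mem_sdiff.1 (hYA hx)).1
  refine ⟨te, T, Y, hTN, hTc, hYc, fun w hw => hte w (hTN hw), ?_, hYmem, ?_, ?_⟩
  · intro w hw w' hw' hww
    rcases hT w hw w' hw' hww with h | h
    · exact conf_T1_T1 hG h3 h4 hL hk hA (hTE w (hTN hw)) (hTE w' (hTN hw')) h
    · exact (conf_T1_T1 hG h3 h4 hL hk hA (hTE w' (hTN hw')) (hTE w (hTN hw)) h).symm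
  · intro x hx x' hx' hxx
    obtain ⟨w, hw, e, he, hxe, hxw⟩ := hYmem x hx
    obtain ⟨w', hw', e', he', hxe', hxw'⟩ := hYmem x' hx'
    rcases hY x hx x' hx' hxx with h | h
    · exact conf_zl_zl hG h3 h4 hL hk hA ((hN w hw).2 e he) hxe hxw ((hN w' hw').2 e' he') hxe'
        hxw' h
    · exact (conf_zl_zl hG h3 h4 hL hk hA ((hN w' hw').2 e' he') hxe' hxw' ((hN w hw).2 e he)
        hxe hxw h).symm
  · intro w hw x hx
    obtain ⟨w', hw', e', he', hxe', hxw'⟩ := hYmem x hx
    refine conf_T1_zl hG h3 h4 hL hk hA (hTE w (hTN hw)) ((hN w' hw').2 e' he') hxe' hxw' ?_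
    intro hcon
    exact (Finset.mem_sdiff.1 (hYA hx)).2 (Finset.mem_biUnion.2 ⟨w, hw, hcon⟩)

end Pool.Agent.Lib.Ando
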