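import Mathlib
import Pool.Agent.Lib.Ando.Ter
import Pool.Agent.Lib.Ando.Card

set_option autoImplicit false
set_option linter.unusedSectionVars false

/-!
# Ando.Conf3: conflicts with ZZ operations (Case A)

Conventions: S = white vertices. Z / L = black vertices with sd = 0 / 1, O / U = white vertices with sd = 0 / 1. For v in L or U let v* be the member of sm S v. Every vertex of U has
sm S u = {u*} and op S u with two members (`sd_add_op`); a vertex of O or Z has op S with three members.
`Level.cost_ge`: cost S F >= k - |k + iot S F|; `Level.exists_two`: if equality holds and |k + iot| < k, some vertex has sd >= 2 after the exchange.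
To compute `cost S F` for an explicit F: F is an insert of different vertices, so expand the sums with `Finset.sum_insert`; the double sum counts each adjacent pair in F twice:
2 times (number of bichromatic pairs) - 2 times (number of monochromatic pairs). For an upper bound of the cost it is enough to know enough bichromatic pairs and that the other
pairs are not monochromatic edges (the terms of the double sum are then >= 0).

ter {u} = {u, u*, c, d} for a site u (`ter_zz`).
`conf_zz_T1`: ter {w, e} = {w, v, e, e2, o, x, x'}. u in {w, v, x, x'}: u = w or v excluded, u = x no (not a site), u = x' excluded. u* in {..}: u* = w gives u = v; u* = v gives u = w; u* = x gives u = x'; u* = x' gives u = x, no. c, d in {e, e2}: u = w.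
`conf_zz_zl`: ter {x} = {x, x', e, l, l'}: u = x no; u = x' excluded; u* = x gives u = x'; u* = x' gives u = x, no; c or d = e: u in stA S e, excluded; c, d have sd 0, l, l' have sd 1.
`conf_zz_zz`: {u, u*, c, d}, {w, w*, c', d'}: u, u* in {w, w*}: u = w or u = w*; c, d in {c', d'}: u = w.
-/

namespace Pool.Agent.Lib.Ando

variable {V : Type*} [Fintype V] [DecidableEq V] (G : SimpleGraph V) [DecidableRel G.Adj]

namespace Conf3Aux

variable {G}

theorem sm_color {S : Finset V} {v w : V} (h : w ∈ sm G S v) : w ∈ S ↔ v ∈ S := (mem_sm.1 h).2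

theorem sm_single {S : Finset V} {v a b : V} (hv : sd G S v ≤ 1) (ha : a ∈ sm G S v)
    (hb : b ∈ sm G S v) : a = b :=
  Finset.card_le_one.1 hv a ha b hb

theorem site_data (hG : G.IsRegularOfDegree 3) {S : Finset V} {u : V} (hu : u ∈ sites G S) :
    ∃ v c d, sm G S u = {v} ∧ op G S u = {c, d} ∧ sd G S c = 0 ∧ sd G S d = 0 ∧ u ∈ S ∧ v ∈ S ∧
      c ∉ S ∧ d ∉ S ∧ sd G S u = 1 ∧ u ∈ sm G S v ∧ c ∈ op G S u ∧ d ∈ op G S u := by
  have h := StructAux.mem_sites.1 hu
  obtain ⟨v, hv⟩ := StructAux.sd_one h.2.1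
  have h4 : (op G S u).card = 2 := by
    have := sd_add_op hG S u
    have := h.2.1
    omega
  obtain ⟨c, d, -, hcd⟩ := Finset.card_eq_two.1 h4
  have hc : c ∈ op G S u := by rw [hcd]; simp
  have hd : d ∈ op G S u := by rw [hcd]; simp
  have hvm : v ∈ sm G S u := by rw [hv]; simp
  exact ⟨v, c, d, hv, hcd, h.2.2 c hc, h.2.2 d hd, h.1, (sm_color hvm).2 h.1,
    StructAux.op_black h.1 hc, StructAux.op_black h.1 hd, h.2.1, sm_symm hvm, hc, hd⟩

end Conf3Aux

open Conf3Aux

variable {G} in
theorem conf_zz_T1 (hG : G.IsRegularOfDegree 3) (h3 : NoTri G) (h4 : NoSq G) {k : ℕ} {S : Finset V}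
    (hL : Level G k S) (hk : 1 ≤ k)
    (hA : ∀ b, b ∉ S → sd G S b = 0 → (UN G S b).card ≤ 2) {u w e : V} (hu : u ∈ sites G S) (hw : TE G S w e) (h1 : u ≠ w)
    (h2 : u ∉ sm G S w) (h5 : u ∉ (UN G S e \ {w}).biUnion (sm G S)) :
    Disjoint (ter G S {u}) (ter G S {w, e}) := by
  obtain ⟨u', c, d, a1, a2, a3, a4, a5, a6, a7, a8, a9, a10, a11, a12⟩ := site_data hG hu
  obtain ⟨v, e2, x, x', o, l, b1, b2, b3, b4, b5, b6, b7, b8, b9, b10, b11, b12, b13, b14, b15,
    b16, b17, b18, b19, b20⟩ := TE_data hG h3 h4 hL hk hw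
  rw [ter_zz G a1 a2 a3 a4 (hL.tf u'), ter_T1 G b1 b2 b4 b5 b6 b11 b14 (hL.tf v)]
  have hwS : w ∈ S := (StructAux.mem_sites.1 hw.1).1
  have hvm : v ∈ sm G S w := by rw [b1]; simp
  have hvS : v ∈ S := (sm_color hvm).2 hwS
  have heS : e ∉ S := StructAux.op_black hwS hw.2.1
  have he2m : e2 ∈ op G S w := by rw [b2]; simp
  have he2S : e2 ∉ S := StructAux.op_black hwS he2m
  have hoS : o ∈ S := StructAux.op_white heS (by rw [b6]; simp)
  have hxS : x ∈ S := StructAux.op_white heS (by rw [b6]; simp)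
  have hx'm : x' ∈ sm G S x := by rw [b14]; simp
  have hx'S : x' ∈ S := (sm_color hx'm).2 hxS
  have hxU : x ∈ UN G S e \ {w} := by
    rw [b10]
    simp [b7.symm]
  have hux' : u ≠ x' := by
    rintro rfl
    exact h5 (Finset.mem_biUnion.2 ⟨x, hxU, hx'm⟩)
  have hux : u ≠ x := by
    rintro rfl
    exact b13 hu
  have huu' : u' ∈ sm G S u := by rw [a1]; simp
  -- black neighbours
  have hblack : ∀ y, y ∈ op G S u → y ≠ e ∧ y ≠ e2 := by
    intro y hy
    constructor
    · rintro rfl
      exact h1 (site_unique hG h3 h4 hL hk hA hu hw.1 hy hw.2.1)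
    · rintro rfl
      exact h1 (site_unique hG h3 h4 hL hk hA hu hw.1 hy he2m)
  have key : ∀ y, y ∉ S → y ∈ op G S u →
      ¬ (y = w ∨ y = v ∨ y = e ∨ y = e2 ∨ y = o ∨ y = x ∨ y = x') := by
    rintro y hyS hy (rfl | rfl | rfl | rfl | rfl | rfl | rfl)
    · exact hyS hwS
    · exact hyS hvS
    · exact (hblack _ hy).1 rfl
    · exact (hblack _ hy).2 rfl
    · exact hyS hoS
    · exact hyS hxS
    · exact hyS hx'S
  rw [Finset.disjoint_left]
  intro y hy1 hy2
  simp only [Finset.mem_insert, Finset.mem_singleton] at hy1 hy2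
  rcases hy1 with rfl | rfl | rfl | rfl
  · rcases hy2 with h | h | h | h | h | h | h
    · exact h1 h
    · apply h2; rw [h]; exact hvm
    · apply heS; rw [← h]; exact a5
    · apply he2S; rw [← h]; exact a5
    · rw [h, b11] at a9
      exact absurd a9 (by norm_num)
    · exact hux h
    · exact hux' h
  · rcases hy2 with h | h | h | h | h | h | h
    · apply h2; rw [← h]; exact a10
    · rw [h] at a10
      exact h1 (sm_single (hL.tf v) a10 (sm_symm hvm))
    · apply heS; rw [← h]; exact a6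
    · apply he2S; rw [← h]; exact a6
    · rw [h] at a10
      have : sm G S o = ∅ := Finset.card_eq_zero.1 b11
      rw [this] at a10
      exact absurd a10 (Finset.notMem_empty _)
    · rw [h] at a10
      exact hux' (sm_single (hL.tf x) a10 hx'm)
    · rw [h] at a10
      exact hux (sm_single (hL.tf x') a10 (sm_symm hx'm))
  · exact key _ a7 a11 hy2
  · exact key _ a8 a12 hy2

variable {G} in
theorem conf_zz_zl (hG : G.IsRegularOfDegree 3) (h3 : NoTri G) (h4 : NoSq G) {k : ℕ} {S : Finset V}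
    (hL : Level G k S) (hk : 1 ≤ k)
    (hA : ∀ b, b ∉ S → sd G S b = 0 → (UN G S b).card ≤ 2) {u w e x : V} (hu : u ∈ sites G S) (hw : TE G S w e)
    (hx : x ∈ UN G S e) (hxw : x ≠ w) (h1 : u ∉ sm G S x) (h2 : u ∉ stA G S e) :
    Disjoint (ter G S {u}) (ter G S {x}) := by
  obtain ⟨u', c, d, a1, a2, a3, a4, a5, a6, a7, a8, a9, a10, a11, a12⟩ := site_data hG hu
  obtain ⟨v, e2, x0, x0', o, l0, b1, b2, b3, b4, b5, b6, b7, b8, b9, b10, b11, b12, b13, b14, b15,
    b16, b17, b18, b19, b20⟩ := TE_data hG h3 h4 hL hk hw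
  have hxx : x = x0 := by
    rw [b10, Finset.mem_insert, Finset.mem_singleton] at hx
    exact hx.resolve_left hxw
  rw [← hxx] at b13 b12
  have hwS : w ∈ S := (StructAux.mem_sites.1 hw.1).1
  have heS : e ∉ S := StructAux.op_black hwS hw.2.1
  have hxe := (StructAux.mem_UN.1 hx).1
  have hxS : x ∈ S := StructAux.op_white heS hxe
  obtain ⟨l, x', l', c1, c2, c3, c4, c5⟩ := zl_data hG hL hxS b12 b13 (op_symm hxe) b4
  rw [ter_zz G a1 a2 a3 a4 (hL.tf u'), ter_zl G c4 c1 b4 c5 (hL.tf x')]
  have hx'm : x' ∈ sm G S x := by rw [c4]; simp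
  have hx'S : x' ∈ S := (sm_color hx'm).2 hxS
  have hlm : l ∈ op G S x := by rw [c1]; simp
  have hlS : l ∉ S := StructAux.op_black hxS hlm
  have hl'm : l' ∈ sm G S l := by rw [c5]; simp
  have hl'S : l' ∉ S := fun h => hlS ((sm_color hl'm).1 h)
  have hux : u ≠ x := by
    rintro rfl
    exact b13 hu
  have hux' : u ≠ x' := by
    rintro rfl
    exact h1 hx'm
  have key : ∀ y, y ∉ S → sd G S y = 0 → y ∈ op G S u →
      ¬ (y = x ∨ y = x' ∨ y = e ∨ y = l ∨ y = l') := by
    rintro y hyS hy0 hy (rfl | rfl | rfl | rfl | rfl)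
    · exact hyS hxS
    · exact hyS hx'S
    · exact h2 (Finset.mem_filter.2 ⟨hu, hy⟩)
    · rw [c3] at hy0
      exact absurd hy0 (by norm_num)
    · have h6 : sm G S y = ∅ := Finset.card_eq_zero.1 hy0
      have h7 := sm_symm hl'm
      rw [h6] at h7
      exact absurd h7 (Finset.notMem_empty _)
  rw [Finset.disjoint_left]
  intro y hy1 hy2
  simp only [Finset.mem_insert, Finset.mem_singleton] at hy1 hy2
  rcases hy1 with rfl | rfl | rfl | rfl
  · rcases hy2 with h | h | h | h | h
    · exact hux h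
    · exact hux' h
    · apply heS; rw [← h]; exact a5
    · apply hlS; rw [← h]; exact a5
    · apply hl'S; rw [← h]; exact a5
  · rcases hy2 with h | h | h | h | h
    · rw [h] at a10
      exact h1 a10
    · rw [h] at a10
      exact hux (sm_single (hL.tf x') a10 (sm_symm hx'm))
    · apply heS; rw [← h]; exact a6
    · apply hlS; rw [← h]; exact a6
    · apply hl'S; rw [← h]; exact a6
  · exact key _ a7 a3 a11 hy2
  · exact key _ a8 a4 a12 hy2

variable {G} in
theorem conf_zz_zz (hG : G.IsRegularOfDegree 3) (h3 : NoTri G) (h4 : NoSq G) {k : ℕ} {S : Finset V}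
    (hL : Level G k S) (hk : 1 ≤ k)
    (hA : ∀ b, b ∉ S → sd G S b = 0 → (UN G S b).card ≤ 2) {u w : V} (hu : u ∈ sites G S) (hw : w ∈ sites G S) (h1 : u ≠ w)
    (h2 : u ∉ sm G S w) : Disjoint (ter G S {u}) (ter G S {w}) := by
  obtain ⟨u', c, d, a1, a2, a3, a4, a5, a6, a7, a8, a9, a10, a11, a12⟩ := site_data hG hu
  obtain ⟨w', c', d', b1, b2, b3, b4, b5, b6, b7, b8, b9, b10, b11, b12⟩ := site_data hG hw
  rw [ter_zz G a1 a2 a3 a4 (hL.tf u'), ter_zz G b1 b2 b3 b4 (hL.tf w')]
  have hw'm : w' ∈ sm G S w := by rw [b1]; simp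
  have key : ∀ y, y ∉ S → y ∈ op G S u → ¬ (y = w ∨ y = w' ∨ y = c' ∨ y = d') := by
    rintro y hyS hy (rfl | rfl | rfl | rfl)
    · exact hyS b5
    · exact hyS b6
    · exact h1 (site_unique hG h3 h4 hL hk hA hu hw hy b11)
    · exact h1 (site_unique hG h3 h4 hL hk hA hu hw hy b12)
  rw [Finset.disjoint_left]
  intro y hy1 hy2
  simp only [Finset.mem_insert, Finset.mem_singleton] at hy1 hy2
  rcases hy1 with rfl | rfl | rfl | rfl
  · rcases hy2 with h | h | h | h
    · exact h1 h
    · apply h2; rw [h]; exact hw'm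
    · apply b7; rw [← h]; exact a5
    · apply b8; rw [← h]; exact a5
  · rcases hy2 with h | h | h | h
    · apply h2; rw [← h]; exact a10
    · rw [h] at a10
      exact h1 (sm_single (hL.tf w') a10 b10)
    · apply b7; rw [← h]; exact a6
    · apply b8; rw [← h]; exact a6
  · exact key _ a7 a11 hy2
  · exact key _ a8 a12 hy2

end Pool.Agent.Lib.Ando
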