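import Mathlib
import Pool.Agent.Lib.Ando.Conf1
import Pool.Agent.Lib.Ando.Conf3
import Pool.Agent.Lib.Ando.Greedy
import Pool.Agent.Lib.Ando.Fact4

set_option autoImplicit false
set_option linter.unusedSectionVars false

/-!
# Ando.Pack3: step 4 of the packing (Case A)

Conventions: S = white vertices. Z / L = black vertices with sd = 0 / 1, O / U = white vertices with sd = 0 / 1. For v in L or U let v* be the member of sm S v. Every vertex of U has
sm S u = {u*} and op S u with two members (`sd_add_op`); a vertex of O or Z has op S with three members.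
`Level.cost_ge`: cost S F >= k - |k + iot S F|; `Level.exists_two`: if equality holds and |k + iot| < k, some vertex has sd >= 2 after the exchange.
To compute `cost S F` for an explicit F: F is an insert of different vertices, so expand the sums with `Finset.sum_insert`; the double sum counts each adjacent pair in F twice:
2 times (number of bichromatic pairs) - 2 times (number of monochromatic pairs). For an upper bound of the cost it is enough to know enough bichromatic pairs and that the other
pairs are not monochromatic edges (the terms of the double sum are then >= 0).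

Forbidden sites: for u in B: {u} union sm S u (2); for w in T (card y): {w} union sm S w union (UN S (te w) minus {w}).biUnion sm (3: UN S (te w) minus {w} is one vertex); for x in Y (card y), with its pair (w, e): sm S x union stA S e (2; `stA_card`). Together at most 2 beta + 3 y + 2 y. 
There are at least 6 k = 6 beta + 6 y sites (`fact4`), so at least 4 beta + y >= 2 beta allowed ones. `greedy_cov` on the allowed sites with K u = {u} union sm S u (c = 2), m = beta. Disjointness: `conf_zz_zz` (symmetric), `conf_zz_leaf`, `conf_zz_T1`, `conf_zz_zl`.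
-/

namespace Pool.Agent.Lib.Ando

variable {V : Type*} [Fintype V] [DecidableEq V] (G : SimpleGraph V) [DecidableRel G.Adj]

variable {G} in
theorem pack3 (hG : G.IsRegularOfDegree 3) (h3 : NoTri G) (h4 : NoSq G) {k : ℕ} {S : Finset V}
    (hL : Level G k S) (hk : 1 ≤ k)
    (hA : ∀ b, b ∉ S → sd G S b = 0 → (UN G S b).card ≤ 2) (le te : V → V) (B T Y : Finset V)
    (hB : ∀ u ∈ B, LeafE G S u (le u)) (hT : ∀ w ∈ T, TE G S w (te w))
    (hY : ∀ x ∈ Y, ∃ w e, TE G S w e ∧ x ∈ UN G S e ∧ x ≠ w)
    (hTY : T.card = Y.card) (hk2 : B.card + T.card = k) :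
    ∃ Q ⊆ sites G S, Q.card = B.card ∧
      (∀ u ∈ Q, ∀ w ∈ Q, u ≠ w → Disjoint (ter G S {u}) (ter G S {w})) ∧
      (∀ u ∈ Q, ∀ w ∈ B, Disjoint (ter G S {u}) (ter G S {w, le w})) ∧
      (∀ u ∈ Q, ∀ w ∈ T, Disjoint (ter G S {u}) (ter G S {w, te w})) ∧
      (∀ u ∈ Q, ∀ x ∈ Y, Disjoint (ter G S {u}) (ter G S {x})) := by
  have hf4 := fact4 hG h3 hL hk
  have hne : Nonempty V := by
    have : 0 < (sites G S).card := by omega
    obtain ⟨u, -⟩ := Finset.card_pos.1 this
    exact ⟨u⟩
  choose! wY eY hY1 hY2 hY3 using hY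
  set F1 : Finset V := B.biUnion (fun u => {u} ∪ sm G S u) with hF1
  set F2 : Finset V := T.biUnion (fun w => ({w} ∪ sm G S w) ∪
    (UN G S (te w) \ {w}).biUnion (sm G S)) with hF2
  set F3 : Finset V := Y.biUnion (fun x => sm G S x ∪ stA G S (eY x)) with hF3
  have hK2 : ∀ u : V, ({u} ∪ sm G S u).card ≤ 2 := by
    intro u
    have h1 := Finset.card_union_le {u} (sm G S u)
    have h2 := hL.tf u
    unfold sd at h2
    rw [Finset.card_singleton] at h1
    omega
  have c1 : F1.card ≤ B.card * 2 := Finset.card_biUnion_le_card_mul _ _ _ (fun u _ => hK2 u)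
  have c2 : F2.card ≤ T.card * 3 := by
    refine Finset.card_biUnion_le_card_mul _ _ _ (fun w hw => ?_)
    have h1 := Finset.card_union_le ({w} ∪ sm G S w) ((UN G S (te w) \ {w}).biUnion (sm G S))
    have h2 := hK2 w
    have h5 : ((UN G S (te w) \ {w}).biUnion (sm G S)).card ≤ 1 := by
      obtain ⟨v, e2, x, x', o, l, -, -, -, -, -, -, -, -, -, hUN, -⟩ :=
        TE_data hG h3 h4 hL hk (hT w hw)
      have h6 : (UN G S (te w) \ {w}).card ≤ 1 := by
        have h7 : UN G S (te w) \ {w} ⊆ {x} := by
          rw [hUN]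
          intro z hz
          simp only [Finset.mem_sdiff, Finset.mem_insert, Finset.mem_singleton] at hz ⊢
          tauto
        have := Finset.card_le_card h7
        simpa using this
      have h8 := Finset.card_biUnion_le_card_mul (UN G S (te w) \ {w}) (sm G S) 1
        (fun z _ => hL.tf z)
      omega
    omega
  have c3 : F3.card ≤ Y.card * 2 := by
    refine Finset.card_biUnion_le_card_mul _ _ _ (fun x hx => ?_)
    have h1 := Finset.card_union_le (sm G S x) (stA G S (eY x))
    have h2 := hL.tf x
    unfold sd at h2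
    have h5 := stA_card hG h3 h4 hL hk hA (eY x)
    omega
  have hcard : 2 * B.card ≤ (sites G S \ (F1 ∪ F2 ∪ F3)).card := by
    have h1 := Finset.le_card_sdiff (F1 ∪ F2 ∪ F3) (sites G S)
    have h2 := Finset.card_union_le (F1 ∪ F2) F3
    have h5 := Finset.card_union_le F1 F2
    omega
  obtain ⟨Q, hQ, hQc, hQd⟩ := greedy_cov (sites G S \ (F1 ∪ F2 ∪ F3)) (fun u => {u} ∪ sm G S u) 2
    B.card (by norm_num) (fun u _ => hK2 u) (fun u _ => by simp) hcard
  have hQs : Q ⊆ sites G S := fun u hu => (Finset.mem_sdiff.1 (hQ hu)).1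
  have hQn : ∀ u ∈ Q, u ∉ F1 ∧ u ∉ F2 ∧ u ∉ F3 := by
    intro u hu
    have := (Finset.mem_sdiff.1 (hQ hu)).2
    simp only [Finset.mem_union, not_or] at this
    exact ⟨this.1.1, this.1.2, this.2⟩
  refine ⟨Q, hQs, hQc, ?_, ?_, ?_, ?_⟩
  · intro u hu w hw huw
    rcases hQd u hu w hw huw with h | h
    · simp only [Finset.mem_union, Finset.mem_singleton, not_or] at h
      exact (conf_zz_zz hG h3 h4 hL hk hA (hQs hw) (hQs hu) huw.symm h.2).symm
    · simp only [Finset.mem_union, Finset.mem_singleton, not_or] at h
      exact conf_zz_zz hG h3 h4 hL hk hA (hQs hu) (hQs hw) huw h.2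
  · intro u hu w hw
    have h := (hQn u hu).1
    simp only [hF1, Finset.mem_biUnion, Finset.mem_union, Finset.mem_singleton, not_exists,
      not_and, not_or] at h
    exact conf_zz_leaf hG h3 h4 hL hk hA (hB w hw) (hQs hu) (h w hw).1 (h w hw).2
  · intro u hu w hw
    have h := (hQn u hu).2.1
    rw [hF2, Finset.mem_biUnion] at h
    push Not at h
    have h' := h w hw
    rw [Finset.mem_union, Finset.mem_union, Finset.mem_singleton] at h'
    push Not at h'
    exact conf_zz_T1 hG h3 h4 hL hk hA (hQs hu) (hT w hw) h'.1.1 h'.1.2 h'.2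
  · intro u hu x hx
    have h := (hQn u hu).2.2
    rw [hF3, Finset.mem_biUnion] at h
    push Not at h
    have h' := h x hx
    rw [Finset.mem_union] at h'
    push Not at h'
    exact conf_zz_zl hG h3 h4 hL hk hA (hQs hu) (hY1 x hx) (hY2 x hx) (hY3 x hx) h'.1 h'.2

end Pool.Agent.Lib.Ando
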