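import Mathlib
import Pool.Agent.Lib.Ando.Pack1
import Pool.Agent.Lib.Ando.Pack2
import Pool.Agent.Lib.Ando.Pack3
import Pool.Agent.Lib.Ando.Assem
import Pool.Agent.Lib.Ando.OpZZ
import Pool.Agent.Lib.Ando.OpZL
import Pool.Agent.Lib.Ando.OpLeaf
import Pool.Agent.Lib.Ando.OpT1

set_option autoImplicit false
set_option linter.unusedSectionVars false

/-!
# Ando.CaseA: Case A of the theorem

Conventions: S = white vertices. Z / L = black vertices with sd = 0 / 1, O / U = white vertices with sd = 0 / 1. For v in L or U let v* be the member of sm S v. Every vertex of U has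
sm S u = {u*} and op S u with two members (`sd_add_op`); a vertex of O or Z has op S with three members.
`Level.cost_ge`: cost S F >= k - |k + iot S F|; `Level.exists_two`: if equality holds and |k + iot| < k, some vertex has sd >= 2 after the exchange.
To compute `cost S F` for an explicit F: F is an insert of different vertices, so expand the sums with `Finset.sum_insert`; the double sum counts each adjacent pair in F twice:
2 times (number of bichromatic pairs) - 2 times (number of monochromatic pairs). For an upper bound of the cost it is enough to know enough bichromatic pairs and that the other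
pairs are not monochromatic edges (the terms of the double sum are then >= 0).

`pack1` gives le, B, N, y; `pack2` (applied to N, y) gives te, T, Y; `pack3` gives Q. (TE S w (te w) for w in T: T is contained in N and te w is in op S w.) Apply `assemble` with the index type (V ⊕ V) ⊕ (V ⊕ V), s = (B.disjSum T).disjSum (Q.disjSum Y) and
F (inl (inl u)) = {u, le u}, F (inl (inr w)) = {w, te w}, F (inr (inl u)) = {u}, F (inr (inr x)) = {x}.
Effects: (0; 1, 0, 0, 0) for B (`eff_leaf`, `leaf_data`), (0; 2, 2, 0, 0) for T (`eff_T1`, `TE_data`), (-1; 0, 0, 1, 0) for Q (`eff_zz`), (-1; 0, 0, 2, 2) for Y (`eff_zl`, `zl_data`; the members of Y are not sites by `TE_data`).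
The sum of the c: -(card Q + card Y) = -k. Sum of a = card B + 2 card T, sum of b = card Q + 2 card Y; sum of a' = 2 card T, sum of b' = 2 card Y. (`Finset.sum_disjSum`; `himb` is `hL.imb_eq`, `htf` is `hL.tf`.)
Pairwise disjointness of the territories: nine cases, symmetric ones by `Disjoint.symm`; B with T and B with Y from the last part of `pack1`.
-/

namespace Pool.Agent.Lib.Ando

variable {V : Type*} [Fintype V] [DecidableEq V] (G : SimpleGraph V) [DecidableRel G.Adj]

variable {G} in
theorem caseA (hG : G.IsRegularOfDegree 3) (h3 : NoTri G) (h4 : NoSq G) {k : ℕ} {S : Finset V}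
    (hL : Level G k S) (hk : 1 ≤ k)
    (hA : ∀ b, b ∉ S → sd G S b = 0 → (UN G S b).card ≤ 2) : Good G := by
  obtain ⟨le, B, N, y, hB, hBB, hBy, hyN, hN, hBN⟩ := pack1 hG h3 h4 hL hk hA
  obtain ⟨te, T, Y, hTN, hTc, hYc, hte, hTT, hY, hYY, hTY⟩ := pack2 hG h3 h4 hL hk hA N y hyN hN
  have hT : ∀ w ∈ T, TE G S w (te w) := fun w hw => (hN w (hTN hw)).2 _ (hte w hw)
  have hY' : ∀ x ∈ Y, ∃ w e, TE G S w e ∧ x ∈ UN G S e ∧ x ≠ w := by
    intro x hx
    obtain ⟨w, hw, e, he, hxe, hxw⟩ := hY x hx
    exact ⟨w, e, (hN w hw).2 e he, hxe, hxw⟩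
  obtain ⟨Q, hQs, hQc, hQQ, hQB, hQT, hQY⟩ := pack3 hG h3 h4 hL hk hA le te B T Y hB hT hY'
    (by rw [hTc, hYc]) (by rw [hTc]; exact hBy)
  have hBT : ∀ u ∈ B, ∀ w ∈ T, Disjoint (ter G S {u, le u}) (ter G S {w, te w}) :=
    fun u hu w hw => (hBN u hu w (hTN hw) _ (hte w hw)).1
  have hBY : ∀ u ∈ B, ∀ x ∈ Y, Disjoint (ter G S {u, le u}) (ter G S {x}) := by
    intro u hu x hx
    obtain ⟨w, hw, e, he, hxe, hxw⟩ := hY x hx
    exact (hBN u hu w hw e he).2 x hxe hxw
  -- the effects
  have eB : ∀ u ∈ B, Eff G S {u, le u} 0 1 0 0 0 := by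
    intro u hu
    have hl := hB u hu
    obtain ⟨v, b', o, o', -, hopu, hbb, hb, hb', hopb, huo, huo', hoo, ho, ho'⟩ :=
      leaf_data hG hL hl
    have huS : u ∈ S := (Finset.mem_filter.1 hl.1).2.1
    exact eff_leaf G hL.tf huS hopu hbb hb hb' hopb huo huo' hoo ho ho'
  have eT : ∀ w ∈ T, Eff G S {w, te w} 0 2 2 0 0 := by
    intro w hw
    have hl := hT w hw
    obtain ⟨v, e2, x, x', o, l, -, hopw, hee, he, he2, hope, hwx, hwo, hxo, -, ho, hx, -, -, -, -,
      -, hxs, -, -⟩ := TE_data hG h3 h4 hL hk hl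
    have hwS : w ∈ S := (Finset.mem_filter.1 hl.1).2.1
    exact eff_T1 G hL.tf hwS hopw hee he he2 hope hwx hwo hxo hx hxs ho
  have eQ : ∀ u ∈ Q, Eff G S {u} (-1) 0 0 1 0 := by
    intro u hu
    have hs := (Finset.mem_filter.1 (hQs hu)).2
    have hcard : (op G S u).card = 2 := by
      have := sd_add_op hG S u
      have h5 := hs.2.1
      omega
    obtain ⟨c, d, hcd, hop⟩ := Finset.card_eq_two.1 hcard
    exact eff_zz G hL.tf hs.1 hop hcd (hs.2.2 c (by rw [hop]; simp)) (hs.2.2 d (by rw [hop]; simp))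
  have eY : ∀ x ∈ Y, Eff G S {x} (-1) 0 0 2 2 := by
    intro x hx
    obtain ⟨w, e, hTE, hxe, hxw⟩ := hY' x hx
    obtain ⟨v, e2, x0, x', o, l, -, -, -, he, -, -, -, -, -, hUN, -, hx0, hns, -, hop, -, hl,
      -, -, -⟩ := TE_data hG h3 h4 hL hk hTE
    rw [hUN] at hxe
    simp only [Finset.mem_insert, Finset.mem_singleton] at hxe
    rcases hxe with hxe | hxe
    · exact absurd hxe hxw
    subst hxe
    have hxS : x ∈ S := by
      have h5 : x ∈ UN G S e := by rw [hUN]; simp
      have h6 : x ∈ op G S e := (Finset.mem_filter.1 h5).1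
      have h7 : w ∈ op G S e := by
        have h8 : w ∈ UN G S e := by rw [hUN]; simp
        exact (Finset.mem_filter.1 h8).1
      have hwS : w ∈ S := (Finset.mem_filter.1 hTE.1).2.1
      have heS : e ∉ S := fun hm => (mem_op.1 h7).2 ⟨fun _ => hm, fun _ => hwS⟩
      by_contra hc
      exact (mem_op.1 h6).2 ⟨fun hm => absurd hm hc, fun hm => absurd hm heS⟩
    exact eff_zl G hL.tf hxS hop he hl
  refine assemble hG hL.imb_eq hL.tf (I := (V ⊕ V) ⊕ (V ⊕ V))
    ((B.disjSum T).disjSum (Q.disjSum Y))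
    (Sum.elim (Sum.elim (fun u => {u, le u}) (fun w => {w, te w}))
      (Sum.elim (fun u => {u}) (fun x => {x})))
    ?_
    (Sum.elim (Sum.elim (fun _ => 0) (fun _ => 0)) (Sum.elim (fun _ => -1) (fun _ => -1)))
    (Sum.elim (Sum.elim (fun _ => 1) (fun _ => 2)) (Sum.elim (fun _ => 0) (fun _ => 0)))
    (Sum.elim (Sum.elim (fun _ => 0) (fun _ => 2)) (Sum.elim (fun _ => 0) (fun _ => 0)))
    (Sum.elim (Sum.elim (fun _ => 0) (fun _ => 0)) (Sum.elim (fun _ => 1) (fun _ => 2)))
    (Sum.elim (Sum.elim (fun _ => 0) (fun _ => 0)) (Sum.elim (fun _ => 0) (fun _ => 2)))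
    ?_ ?_ ?_ ?_
  · rintro ((u | w) | (u | x)) hi ((u' | w') | (u' | x')) hj hij <;>
      simp only [Finset.inl_mem_disjSum, Finset.inr_mem_disjSum] at hi hj <;>
      simp only [Sum.elim_inl, Sum.elim_inr]
    · exact hBB u hi u' hj (fun e => hij (by rw [e]))
    · exact hBT u hi w' hj
    · exact (hQB u' hj u hi).symm
    · exact hBY u hi x' hj
    · exact (hBT u' hj w hi).symm
    · exact hTT w hi w' hj (fun e => hij (by rw [e]))
    · exact (hQT u' hj w hi).symm
    · exact hTY w hi x' hj
    · exact hQB u hi u' hj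
    · exact hQT u hi w' hj
    · exact hQQ u hi u' hj (fun e => hij (by rw [e]))
    · exact hQY u hi x' hj
    · exact (hBY u' hj x hi).symm
    · exact (hTY w' hj x hi).symm
    · exact (hQY u' hj x hi).symm
    · exact hYY x hi x' hj (fun e => hij (by rw [e]))
  · rintro ((u | w) | (u | x)) hi <;>
      simp only [Finset.inl_mem_disjSum, Finset.inr_mem_disjSum] at hi <;>
      simp only [Sum.elim_inl, Sum.elim_inr]
    · exact eB u hi
    · exact eT w hi
    · exact eQ u hi
    · exact eY x hi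
  · simp only [Finset.sum_disjSum, Sum.elim_inl, Sum.elim_inr, Finset.sum_const, nsmul_eq_mul]
    rw [hQc, hYc, ← hBy]
    push_cast
    ring
  · simp only [Finset.sum_disjSum, Sum.elim_inl, Sum.elim_inr, Finset.sum_const, smul_eq_mul]
    rw [hQc, hYc, hTc]
    ring
  · simp only [Finset.sum_disjSum, Sum.elim_inl, Sum.elim_inr, Finset.sum_const, smul_eq_mul]
    rw [hYc, hTc]
    ring

end Pool.Agent.Lib.Ando
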