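import Mathlib
import Pool.Agent.Lib.Ando.Basic
import Pool.Agent.Lib.Ando.GoodOf

set_option autoImplicit false
set_option linter.unusedSectionVars false

/-!
# Ando.DiaWt: signed weights of a colouring

The numeric form `GoodC` of the conclusion, expressed by three signed sums, for the reductions of
diamonds and ladders.
-/

namespace Pool.Agent.Lib.Ando

variable {V : Type*} [Fintype V] [DecidableEq V] (G : SimpleGraph V) [DecidableRel G.Adj]

/-- Numeric form of the conclusion: a balanced `Good4` colouring with matching numbers. -/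
def GoodC : Prop :=
  ∃ S : Finset V, imb S = 0 ∧ Good4 G S ∧ n2 G S S = n2 G S Sᶜ ∧ q2 G S S = q2 G S Sᶜ

variable {G} in
theorem GoodC.good (hG : G.IsRegularOfDegree 3) (h : GoodC G) : Good G := by
  obtain ⟨S, h0, h4, hn, hq⟩ := h
  exact good_of hG S h0 h4 hn hq

end Pool.Agent.Lib.Ando

namespace Pool.Agent.Lib.Ando.Dia

variable {V : Type*} [Fintype V] [DecidableEq V] (G : SimpleGraph V) [DecidableRel G.Adj]

/-- The sign of the colour. -/
def sg (S : Finset V) (v : V) : ℤ := if v ∈ S then 1 else -1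

/-- The number of neighbours of the same colour which have monochromatic degree two. -/
def qd (S : Finset V) (v : V) : ℕ := ((sm G S v).filter (fun w => sd G S w = 2)).card

/-- signed indicator of monochromatic degree two -/
def w1 (S : Finset V) (v : V) : ℤ := if sd G S v = 2 then sg S v else 0

/-- signed number of ordered pairs -/
def w2 (S : Finset V) (v : V) : ℤ := if sd G S v = 2 then sg S v * (qd G S v : ℤ) else 0

/-- A colouring with vanishing signed sums. -/
structure Bal (S : Finset V) : Prop where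
  good : Good4 G S
  s0 : ∑ v, sg S v = 0
  s1 : ∑ v, w1 G S v = 0
  s2 : ∑ v, w2 G S v = 0

theorem sum_sg_mul (S : Finset V) (f : V → ℤ) :
    ∑ v, sg S v * f v = ∑ v ∈ S, f v - ∑ v ∈ Sᶜ, f v := by
  rw [← Finset.sum_add_sum_compl S, sub_eq_add_neg, ← Finset.sum_neg_distrib]
  congr 1
  · refine Finset.sum_congr rfl fun v hv => ?_
    simp [sg, hv]
  · refine Finset.sum_congr rfl fun v hv => ?_
    rw [Finset.mem_compl] at hv
    simp [sg, hv]

theorem sum_sg (S : Finset V) : ∑ v, sg S v = imb S := by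
  have := sum_sg_mul S (fun _ => (1 : ℤ))
  simpa [imb] using this

theorem sum_w1 (S : Finset V) : ∑ v, w1 G S v = (n2 G S S : ℤ) - n2 G S Sᶜ := by
  have h := sum_sg_mul S (fun v => if sd G S v = 2 then (1 : ℤ) else 0)
  have h1 : ∑ v, w1 G S v = ∑ v, sg S v * (if sd G S v = 2 then (1 : ℤ) else 0) := by
    refine Finset.sum_congr rfl fun v _ => ?_
    unfold w1
    split_ifs <;> simp
  rw [h1, h]
  unfold n2
  rw [Finset.card_filter, Finset.card_filter]
  push_cast
  rfl

theorem sum_w2 (S : Finset V) : ∑ v, w2 G S v = (q2 G S S : ℤ) - q2 G S Sᶜ := by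
  have h := sum_sg_mul S (fun v => if sd G S v = 2 then (qd G S v : ℤ) else 0)
  have h1 : ∑ v, w2 G S v = ∑ v, sg S v * (if sd G S v = 2 then (qd G S v : ℤ) else 0) := by
    refine Finset.sum_congr rfl fun v _ => ?_
    unfold w2
    split_ifs <;> simp
  rw [h1, h]
  unfold q2 qd
  rw [Finset.sum_filter, Finset.sum_filter]
  push_cast
  rfl

variable {G} in
theorem goodC_of_bal {S : Finset V} (h : Bal G S) : GoodC G := by
  refine ⟨S, ?_, h.good, ?_, ?_⟩
  · rw [← sum_sg]; exact h.s0
  · have := h.s1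
    rw [sum_w1] at this
    omega
  · have := h.s2
    rw [sum_w2] at this
    omega

variable {G} in
theorem exists_bal (h : GoodC G) : ∃ S : Finset V, Bal G S := by
  obtain ⟨S, h0, h4, hn, hq⟩ := h
  refine ⟨S, h4, ?_, ?_, ?_⟩
  · rw [sum_sg]; exact h0
  · rw [sum_w1, hn]; ring
  · rw [sum_w2, hq]; ring

theorem sg_compl (S : Finset V) (v : V) : sg Sᶜ v = - sg S v := by
  unfold sg
  by_cases h : v ∈ S <;> simp [h]

theorem qd_compl (S : Finset V) (v : V) : qd G Sᶜ v = qd G S v := by
  unfold qd
  simp only [sd_compl, sm_compl]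

variable {G} in
theorem Bal.compl {S : Finset V} (h : Bal G S) : Bal G Sᶜ := by
  refine ⟨GoodOfAux.good4_compl G h.good, ?_, ?_, ?_⟩
  · simp only [sg_compl, Finset.sum_neg_distrib, h.s0, neg_zero]
  · have : ∀ v, w1 G Sᶜ v = - w1 G S v := by
      intro v
      unfold w1
      rw [sd_compl, sg_compl]
      split_ifs <;> simp
    simp only [this, Finset.sum_neg_distrib, h.s1, neg_zero]
  · have : ∀ v, w2 G Sᶜ v = - w2 G S v := by
      intro v
      unfold w2
      rw [sd_compl, sg_compl, qd_compl]
      split_ifs <;> simp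
    simp only [this, Finset.sum_neg_distrib, h.s2, neg_zero]

/-- `WLOG` a given vertex is black. -/
theorem exists_bal_black {G : SimpleGraph V} [DecidableRel G.Adj] (h : GoodC G) (x : V) :
    ∃ S : Finset V, Bal G S ∧ x ∉ S := by
  obtain ⟨S, hS⟩ := exists_bal h
  by_cases hx : x ∈ S
  · exact ⟨Sᶜ, hS.compl, by simp [hx]⟩
  · exact ⟨S, hS, hx⟩

theorem sum_split (K : Finset V) (f : V → ℤ) :
    ∑ v, f v = ∑ v : {v // v ∉ K}, f v + ∑ v ∈ K, f v := by
  rw [← Finset.sum_add_sum_compl K f, add_comm]
  congr 1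
  exact Finset.sum_subtype Kᶜ (by simp) f

end Pool.Agent.Lib.Ando.Dia
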