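import Mathlib
import Pool.Agent.Lib.Ando.DiaWt

set_option autoImplicit false
set_option linter.unusedSectionVars false

/-!
# Ando.DiaLad: ladders ending in a diamond

`Lad G n X Y x0 y0 K`: the set `K` consists of a diamond and `n` rungs; it is attached to the
outer vertices `X` (by `x0`) and `Y` (by `y0`), which may be equal.
-/

namespace Pool.Agent.Lib.Ando.Dia

variable {V : Type*} [Fintype V] [DecidableEq V] (G : SimpleGraph V) [DecidableRel G.Adj]

/-- The neighbours of the same colour inside `K`. -/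
def kn (K T : Finset V) (v : V) : Finset V := K.filter (fun w => G.Adj v w ∧ (w ∈ T ↔ v ∈ T))

/-- Their number. -/
def kd (K T : Finset V) (v : V) : ℕ := (kn G K T v).card

/-- A diamond with `n` rungs attached to `X` and `Y`. -/
def Lad (G : SimpleGraph V) : ℕ → V → V → V → V → Finset V → Prop
  | 0, X, Y, a, d, K => X ∉ K ∧ Y ∉ K ∧ G.Adj X a ∧ G.Adj Y d ∧
      ∃ b c, a ≠ d ∧ ¬ G.Adj a d ∧ G.Adj a b ∧ G.Adj a c ∧ G.Adj b c ∧ G.Adj b d ∧ G.Adj c d ∧
        K = {a, b, c, d}
  | n + 1, X, Y, r, s, K => X ∉ K ∧ Y ∉ K ∧ G.Adj X r ∧ G.Adj Y s ∧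
      ∃ r' s' K', Lad G n r s r' s' K' ∧ r ≠ s ∧ G.Adj r s ∧ K = insert r (insert s K')

variable {G} in
theorem mem_kn {K T : Finset V} {v w : V} :
    w ∈ kn G K T v ↔ w ∈ K ∧ G.Adj v w ∧ (w ∈ T ↔ v ∈ T) := by
  unfold kn
  rw [Finset.mem_filter]

variable {G} in
theorem Lad.core {n : ℕ} {X Y x0 y0 : V} {K : Finset V} (h : Lad G n X Y x0 y0 K) :
    X ∉ K ∧ Y ∉ K ∧ G.Adj X x0 ∧ G.Adj Y y0 ∧ x0 ∈ K ∧ y0 ∈ K ∧ x0 ≠ y0 := by
  cases n with
  | zero =>
    obtain ⟨h1, h2, h3, h4, b, c, h5, -, -, -, -, -, -, rfl⟩ := h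
    exact ⟨h1, h2, h3, h4, by simp, by simp, h5⟩
  | succ n =>
    obtain ⟨h1, h2, h3, h4, r', s', K', -, h5, -, rfl⟩ := h
    exact ⟨h1, h2, h3, h4, by simp, by simp, h5⟩

variable {G} in
/-- In a cubic graph three different neighbours are all neighbours. -/
theorem nbr3 (hG : G.IsRegularOfDegree 3) {v p q r : V} (hp : G.Adj v p) (hq : G.Adj v q)
    (hr : G.Adj v r) (hpq : p ≠ q) (hpr : p ≠ r) (hqr : q ≠ r) {w : V} (hw : G.Adj v w) :
    w = p ∨ w = q ∨ w = r := by
  have h1 : ({p, q, r} : Finset V) ⊆ G.neighborFinset v := by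
    intro x hx
    simp only [Finset.mem_insert, Finset.mem_singleton] at hx
    rw [SimpleGraph.mem_neighborFinset]
    rcases hx with rfl | rfl | rfl <;> assumption
  have h2 : ({p, q, r} : Finset V) = G.neighborFinset v := by
    apply Finset.eq_of_subset_of_card_le h1
    rw [SimpleGraph.card_neighborFinset_eq_degree, hG v, Finset.card_eq_three.2
      ⟨p, q, r, hpq, hpr, hqr, rfl⟩]
  have h3 : w ∈ ({p, q, r} : Finset V) := by
    rw [h2, SimpleGraph.mem_neighborFinset]
    exact hw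
  simpa using h3

variable {G} in
theorem Lad.out (hG : G.IsRegularOfDegree 3) :
    ∀ {n : ℕ} {X Y x0 y0 : V} {K : Finset V}, Lad G n X Y x0 y0 K →
      ∀ v ∈ K, ∀ w, w ∉ K → G.Adj v w → (v = x0 ∧ w = X) ∨ (v = y0 ∧ w = Y) := by
  intro n
  induction n with
  | zero =>
    intro X Y a d K h
    obtain ⟨h1, h2, h3, h4, b, c, had, hnad, hab, hac, hbc, hbd, hcd, rfl⟩ := h
    intro v hv w hw hvw
    simp only [Finset.mem_insert, Finset.mem_singleton, not_or] at h1 h2 hv hw
    obtain ⟨wa, wb, wc, wd⟩ := hw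
    rcases hv with rfl | rfl | rfl | rfl
    · left
      rcases nbr3 hG h3.symm hab hac h1.2.1 h1.2.2.1 hbc.ne hvw with h | h | h
      · exact ⟨rfl, h⟩
      · exact absurd h wb
      · exact absurd h wc
    · rcases nbr3 hG hab.symm hbc hbd hac.ne had hcd.ne hvw with h | h | h
      · exact absurd h wa
      · exact absurd h wc
      · exact absurd h wd
    · rcases nbr3 hG hac.symm hbc.symm hcd hab.ne had hbd.ne hvw with h | h | h
      · exact absurd h wa
      · exact absurd h wb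
      · exact absurd h wd
    · right
      rcases nbr3 hG h4.symm hbd.symm hcd.symm h2.2.1 h2.2.2.1 hbc.ne hvw with h | h | h
      · exact ⟨rfl, h⟩
      · exact absurd h wb
      · exact absurd h wc
  | succ n ih =>
    intro X Y r s K h
    obtain ⟨h1, h2, h3, h4, r', s', K', hL, hrs, hadj, rfl⟩ := h
    intro v hv w hw hvw
    obtain ⟨c1, c2, c3, c4, c5, c6, c7⟩ := hL.core
    simp only [Finset.mem_insert, not_or] at h1 h2 hv hw
    rcases hv with rfl | rfl | hv
    · left
      have e1 : X ≠ r' := fun h => h1.2.2 (h ▸ c5)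
      have e2 : s ≠ r' := fun h => c2 (h ▸ c5)
      rcases nbr3 hG h3.symm hadj c3 h1.2.1 e1 e2 hvw with h | h | h
      · exact ⟨rfl, h⟩
      · exact absurd h hw.2.1
      · exact absurd (h ▸ c5) hw.2.2
    · right
      have e1 : Y ≠ s' := fun h => h2.2.2 (h ▸ c6)
      have e2 : r ≠ s' := fun h => c1 (h ▸ c6)
      rcases nbr3 hG h4.symm hadj.symm c4 h2.1 e1 e2 hvw with h | h | h
      · exact ⟨rfl, h⟩
      · exact absurd h hw.1
      · exact absurd (h ▸ c6) hw.2.2
    · rcases ih hL v hv w hw.2.2 hvw with ⟨-, h⟩ | ⟨-, h⟩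
      · exact absurd h hw.1
      · exact absurd h hw.2.1

variable {G} in
theorem Lad.card : ∀ {n : ℕ} {X Y x0 y0 : V} {K : Finset V}, Lad G n X Y x0 y0 K →
    K.card = 2 * n + 4 := by
  intro n
  induction n with
  | zero =>
    intro X Y a d K h
    obtain ⟨h1, h2, h3, h4, b, c, had, hnad, hab, hac, hbc, hbd, hcd, rfl⟩ := h
    rw [Finset.card_insert_of_notMem, Finset.card_insert_of_notMem, Finset.card_insert_of_notMem,
      Finset.card_singleton]
    · simpa using hcd.ne
    · simpa using ⟨hbc.ne, hbd.ne⟩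
    · simpa using ⟨hab.ne, hac.ne, had⟩
  | succ n ih =>
    intro X Y r s K h
    obtain ⟨h1, h2, h3, h4, r', s', K', hL, hrs, hadj, rfl⟩ := h
    obtain ⟨c1, c2, -⟩ := hL.core
    rw [Finset.card_insert_of_notMem, Finset.card_insert_of_notMem c2, ih hL]
    · ring
    · simpa using ⟨hrs, c1⟩

variable {G} in
theorem Lad.symm : ∀ {n : ℕ} {X Y x0 y0 : V} {K : Finset V}, Lad G n X Y x0 y0 K →
    Lad G n Y X y0 x0 K := by
  intro n
  induction n with
  | zero =>
    intro X Y a d K h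
    obtain ⟨h1, h2, h3, h4, b, c, had, hnad, hab, hac, hbc, hbd, hcd, rfl⟩ := h
    refine ⟨h2, h1, h4, h3, b, c, had.symm, fun h => hnad h.symm, hbd.symm, hcd.symm, hbc,
      hab.symm, hac.symm, ?_⟩
    ext x
    simp only [Finset.mem_insert, Finset.mem_singleton]
    tauto
  | succ n ih =>
    intro X Y r s K h
    obtain ⟨h1, h2, h3, h4, r', s', K', hL, hrs, hadj, rfl⟩ := h
    exact ⟨h2, h1, h4, h3, s', r', K', ih hL, hrs.symm, hadj.symm, Finset.insert_comm _ _ _⟩

/-- The behaviour of `kn` when a rung is added on top of a ladder. -/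
theorem kn_stack (hG : G.IsRegularOfDegree 3) {n : ℕ} {r s r' s' : V} {K' T : Finset V}
    (hL : Lad G n r s r' s' K') (hrs : r ≠ s) (hadj : G.Adj r s) :
    (∀ v ∈ K', v ≠ r' → v ≠ s' → kn G (insert r (insert s K')) T v = kn G K' T v) ∧
    (kn G (insert r (insert s K')) T r' =
      if (r ∈ T ↔ r' ∈ T) then insert r (kn G K' T r') else kn G K' T r') ∧
    (kn G (insert r (insert s K')) T s' =
      if (s ∈ T ↔ s' ∈ T) then insert s (kn G K' T s') else kn G K' T s') ∧
    (kn G (insert r (insert s K')) T r =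
      (if (s ∈ T ↔ r ∈ T) then {s} else ∅) ∪ (if (r' ∈ T ↔ r ∈ T) then {r'} else ∅)) ∧
    (kn G (insert r (insert s K')) T s =
      (if (r ∈ T ↔ s ∈ T) then {r} else ∅) ∪ (if (s' ∈ T ↔ s ∈ T) then {s'} else ∅)) := by
  obtain ⟨c1, c2, c3, c4, c5, c6, c7⟩ := hL.core
  have ho := hL.out hG
  refine ⟨?_, ?_, ?_, ?_, ?_⟩
  · intro v hv h1 h2
    ext w
    rw [mem_kn, mem_kn, Finset.mem_insert, Finset.mem_insert]
    constructor
    · rintro ⟨hw, h3, h4⟩
      refine ⟨?_, h3, h4⟩
      by_contra hw'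
      rcases ho v hv w hw' h3 with ⟨h, -⟩ | ⟨h, -⟩
      · exact h1 h
      · exact h2 h
    · rintro ⟨hw, h3, h4⟩
      exact ⟨Or.inr (Or.inr hw), h3, h4⟩
  · have key : ∀ w, w ∉ K' → G.Adj r' w → w = r := by
      intro w hw h
      rcases ho r' c5 w hw h with ⟨-, h⟩ | ⟨h, -⟩
      · exact h
      · exact absurd h c7
    split_ifs with hc
    · ext w
      rw [mem_kn, Finset.mem_insert, Finset.mem_insert, Finset.mem_insert, mem_kn]
      constructor
      · rintro ⟨hw, h3, h4⟩
        by_cases hw' : w ∈ K'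
        · exact Or.inr ⟨hw', h3, h4⟩
        · exact Or.inl (key w hw' h3)
      · rintro (rfl | ⟨hw, h3, h4⟩)
        · exact ⟨Or.inl rfl, c3.symm, hc⟩
        · exact ⟨Or.inr (Or.inr hw), h3, h4⟩
    · ext w
      rw [mem_kn, Finset.mem_insert, Finset.mem_insert, mem_kn]
      constructor
      · rintro ⟨hw, h3, h4⟩
        by_cases hw' : w ∈ K'
        · exact ⟨hw', h3, h4⟩
        · have := key w hw' h3
          subst this
          exact absurd h4 hc
      · rintro ⟨hw, h3, h4⟩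
        exact ⟨Or.inr (Or.inr hw), h3, h4⟩
  · have key : ∀ w, w ∉ K' → G.Adj s' w → w = s := by
      intro w hw h
      rcases ho s' c6 w hw h with ⟨h, -⟩ | ⟨-, h⟩
      · exact absurd h.symm c7
      · exact h
    split_ifs with hc
    · ext w
      rw [mem_kn, Finset.mem_insert, Finset.mem_insert, Finset.mem_insert, mem_kn]
      constructor
      · rintro ⟨hw, h3, h4⟩
        by_cases hw' : w ∈ K'
        · exact Or.inr ⟨hw', h3, h4⟩
        · exact Or.inl (key w hw' h3)
      · rintro (rfl | ⟨hw, h3, h4⟩)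
        · exact ⟨Or.inr (Or.inl rfl), c4.symm, hc⟩
        · exact ⟨Or.inr (Or.inr hw), h3, h4⟩
    · ext w
      rw [mem_kn, Finset.mem_insert, Finset.mem_insert, mem_kn]
      constructor
      · rintro ⟨hw, h3, h4⟩
        by_cases hw' : w ∈ K'
        · exact ⟨hw', h3, h4⟩
        · have := key w hw' h3
          subst this
          exact absurd h4 hc
      · rintro ⟨hw, h3, h4⟩
        exact ⟨Or.inr (Or.inr hw), h3, h4⟩
  · ext w
    rw [mem_kn, Finset.mem_insert, Finset.mem_insert, Finset.mem_union]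
    have e1 : w ∈ (if (s ∈ T ↔ r ∈ T) then ({s} : Finset V) else ∅) ↔
        w = s ∧ (w ∈ T ↔ r ∈ T) := by
      split_ifs with hc
      · rw [Finset.mem_singleton]
        exact ⟨fun h => ⟨h, h ▸ hc⟩, fun h => h.1⟩
      · simp only [Finset.notMem_empty, false_iff]
        rintro ⟨rfl, h⟩
        exact hc h
    have e2 : w ∈ (if (r' ∈ T ↔ r ∈ T) then ({r'} : Finset V) else ∅) ↔
        w = r' ∧ (w ∈ T ↔ r ∈ T) := by
      split_ifs with hc
      · rw [Finset.mem_singleton]
        exact ⟨fun h => ⟨h, h ▸ hc⟩, fun h => h.1⟩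
      · simp only [Finset.notMem_empty, false_iff]
        rintro ⟨rfl, h⟩
        exact hc h
    rw [e1, e2]
    constructor
    · rintro ⟨hw, h3, h4⟩
      rcases hw with rfl | rfl | hw
      · exact absurd h3 (G.loopless.irrefl _)
      · exact Or.inl ⟨rfl, h4⟩
      · right
        refine ⟨?_, h4⟩
        rcases ho w hw r c1 h3.symm with ⟨h, -⟩ | ⟨-, h⟩
        · exact h
        · exact absurd h hrs
    · rintro (⟨rfl, h⟩ | ⟨rfl, h⟩)
      · exact ⟨Or.inr (Or.inl rfl), hadj, h⟩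
      · exact ⟨Or.inr (Or.inr c5), c3, h⟩
  · ext w
    rw [mem_kn, Finset.mem_insert, Finset.mem_insert, Finset.mem_union]
    have e1 : w ∈ (if (r ∈ T ↔ s ∈ T) then ({r} : Finset V) else ∅) ↔
        w = r ∧ (w ∈ T ↔ s ∈ T) := by
      split_ifs with hc
      · rw [Finset.mem_singleton]
        exact ⟨fun h => ⟨h, h ▸ hc⟩, fun h => h.1⟩
      · simp only [Finset.notMem_empty, false_iff]
        rintro ⟨rfl, h⟩
        exact hc h
    have e2 : w ∈ (if (s' ∈ T ↔ s ∈ T) then ({s'} : Finset V) else ∅) ↔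
        w = s' ∧ (w ∈ T ↔ s ∈ T) := by
      split_ifs with hc
      · rw [Finset.mem_singleton]
        exact ⟨fun h => ⟨h, h ▸ hc⟩, fun h => h.1⟩
      · simp only [Finset.notMem_empty, false_iff]
        rintro ⟨rfl, h⟩
        exact hc h
    rw [e1, e2]
    constructor
    · rintro ⟨hw, h3, h4⟩
      rcases hw with rfl | rfl | hw
      · exact Or.inl ⟨rfl, h4⟩
      · exact absurd h3 (G.loopless.irrefl _)
      · right
        refine ⟨?_, h4⟩
        rcases ho w hw s c2 h3.symm with ⟨-, h⟩ | ⟨h, -⟩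
        · exact absurd h.symm hrs
        · exact h
    · rintro (⟨rfl, h⟩ | ⟨rfl, h⟩)
      · exact ⟨Or.inl rfl, hadj.symm, h⟩
      · exact ⟨Or.inr (Or.inr c6), c4, h⟩

end Pool.Agent.Lib.Ando.Dia
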