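import Mathlib
import Pool.Agent.Lib.Ando.DiaLad

set_option autoImplicit false
set_option linter.unusedSectionVars false
set_option linter.unusedSimpArgs false

/-!
# Ando.DiaPat: colour patterns on a ladder
-/

namespace Pool.Agent.Lib.Ando.Dia

variable {V : Type*} [Fintype V] [DecidableEq V] (G : SimpleGraph V) [DecidableRel G.Adj]

theorem kn_congr {K T T2 : Finset V} (h : ∀ w ∈ K, (w ∈ T ↔ w ∈ T2)) {v : V} (hv : v ∈ K) :
    kn G K T v = kn G K T2 v := by
  ext w
  rw [mem_kn, mem_kn]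
  constructor
  · rintro ⟨h1, h2, h3⟩
    exact ⟨h1, h2, by rw [← h w h1, ← h v hv]; exact h3⟩
  · rintro ⟨h1, h2, h3⟩
    exact ⟨h1, h2, by rw [h w h1, h v hv]; exact h3⟩

theorem kn_flip (K T : Finset V) {v : V} (hv : v ∈ K) : kn G K (K \ T) v = kn G K T v := by
  ext w
  rw [mem_kn, mem_kn, Finset.mem_sdiff, Finset.mem_sdiff]
  constructor
  · rintro ⟨h1, h2, h3⟩
    exact ⟨h1, h2, by tauto⟩
  · rintro ⟨h1, h2, h3⟩
    exact ⟨h1, h2, by tauto⟩

theorem kd_flip (K T : Finset V) {v : V} (hv : v ∈ K) : kd G K (K \ T) v = kd G K T v := by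
  unfold kd
  rw [kn_flip G K T hv]

theorem card_flip {K T : Finset V} (h : T ⊆ K) : (K \ T).card + T.card = K.card :=
  Finset.card_sdiff_add_card_eq_card h

/-- The diamond: neighbours of the same colour. -/
theorem kn_dia {a b c d : V} (T : Finset V) (had : a ≠ d) (hnad : ¬ G.Adj a d) (hab : G.Adj a b)
    (hac : G.Adj a c) (hbc : G.Adj b c) (hbd : G.Adj b d) (hcd : G.Adj c d) :
    (kn G {a, b, c, d} T a = (if (b ∈ T ↔ a ∈ T) then {b} else ∅) ∪
      (if (c ∈ T ↔ a ∈ T) then {c} else ∅)) ∧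
    (kn G {a, b, c, d} T d = (if (b ∈ T ↔ d ∈ T) then {b} else ∅) ∪
      (if (c ∈ T ↔ d ∈ T) then {c} else ∅)) ∧
    (kn G {a, b, c, d} T b = (if (a ∈ T ↔ b ∈ T) then {a} else ∅) ∪
      (if (c ∈ T ↔ b ∈ T) then {c} else ∅) ∪ (if (d ∈ T ↔ b ∈ T) then {d} else ∅)) ∧
    (kn G {a, b, c, d} T c = (if (a ∈ T ↔ c ∈ T) then {a} else ∅) ∪
      (if (b ∈ T ↔ c ∈ T) then {b} else ∅) ∪ (if (d ∈ T ↔ c ∈ T) then {d} else ∅)) := by
  have key : ∀ (x w : V) (P : Prop) [Decidable P], w ∈ (if P then ({x} : Finset V) else ∅) ↔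
      w = x ∧ P := by
    intro x w P _
    split_ifs with hc <;> simp [hc]
  have i1 := hab.ne
  have i2 := hac.ne
  have i3 := hbc.ne
  have i4 := hbd.ne
  have i5 := hcd.ne
  have j1 := hab.symm
  have j2 := hac.symm
  have j3 := hbc.symm
  have j4 := hbd.symm
  have j5 := hcd.symm
  have j6 : ¬ G.Adj d a := fun h => hnad h.symm
  have irr : ∀ v, ¬ G.Adj v v := fun v => G.loopless.irrefl v
  refine ⟨?_, ?_, ?_, ?_⟩
  · ext w
    rw [mem_kn, Finset.mem_union, key, key]
    simp only [Finset.mem_insert, Finset.mem_singleton]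
    constructor
    · rintro ⟨rfl | rfl | rfl | rfl, h1, h2⟩
      · exact absurd h1 (irr _)
      · exact Or.inl ⟨rfl, h2⟩
      · exact Or.inr ⟨rfl, h2⟩
      · exact absurd h1 hnad
    · rintro (⟨rfl, h⟩ | ⟨rfl, h⟩)
      · exact ⟨by tauto, hab, h⟩
      · exact ⟨by tauto, hac, h⟩
  · ext w
    rw [mem_kn, Finset.mem_union, key, key]
    simp only [Finset.mem_insert, Finset.mem_singleton]
    constructor
    · rintro ⟨rfl | rfl | rfl | rfl, h1, h2⟩
      · exact absurd h1 j6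
      · exact Or.inl ⟨rfl, h2⟩
      · exact Or.inr ⟨rfl, h2⟩
      · exact absurd h1 (irr _)
    · rintro (⟨rfl, h⟩ | ⟨rfl, h⟩)
      · exact ⟨by tauto, j4, h⟩
      · exact ⟨by tauto, j5, h⟩
  · ext w
    rw [mem_kn, Finset.mem_union, Finset.mem_union, key, key, key]
    simp only [Finset.mem_insert, Finset.mem_singleton]
    constructor
    · rintro ⟨rfl | rfl | rfl | rfl, h1, h2⟩
      · exact Or.inl (Or.inl ⟨rfl, h2⟩)
      · exact absurd h1 (irr _)
      · exact Or.inl (Or.inr ⟨rfl, h2⟩)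
      · exact Or.inr ⟨rfl, h2⟩
    · rintro ((⟨rfl, h⟩ | ⟨rfl, h⟩) | ⟨rfl, h⟩)
      · exact ⟨by tauto, j1, h⟩
      · exact ⟨by tauto, hbc, h⟩
      · exact ⟨by tauto, hbd, h⟩
  · ext w
    rw [mem_kn, Finset.mem_union, Finset.mem_union, key, key, key]
    simp only [Finset.mem_insert, Finset.mem_singleton]
    constructor
    · rintro ⟨rfl | rfl | rfl | rfl, h1, h2⟩
      · exact Or.inl (Or.inl ⟨rfl, h2⟩)
      · exact Or.inl (Or.inr ⟨rfl, h2⟩)
      · exact absurd h1 (irr _)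
      · exact Or.inr ⟨rfl, h2⟩
    · rintro ((⟨rfl, h⟩ | ⟨rfl, h⟩) | ⟨rfl, h⟩)
      · exact ⟨by tauto, j2, h⟩
      · exact ⟨by tauto, j3, h⟩
      · exact ⟨by tauto, hcd, h⟩

/-- Choose the colours of a new rung. -/
theorem ext_T {r s : V} {K' T' : Finset V} (hr : r ∉ K') (hs : s ∉ K') (hrs : r ≠ s)
    (hT : T' ⊆ K') (P Q : Bool) : ∃ T ⊆ insert r (insert s K'), (r ∈ T ↔ P = true) ∧
      (s ∈ T ↔ Q = true) ∧ (∀ w ∈ K', (w ∈ T ↔ w ∈ T')) ∧
      T.card = T'.card + (if P then 1 else 0) + (if Q then 1 else 0) := by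
  have hr' : r ∉ T' := fun h => hr (hT h)
  have hs' : s ∉ T' := fun h => hs (hT h)
  cases P <;> cases Q
  · refine ⟨T', fun x hx => ?_, by simpa using hr', by simpa using hs', fun w _ => Iff.rfl,
      by simp⟩
    simp [hT hx]
  · refine ⟨insert s T', fun x hx => ?_, by simp [hrs, hr'], by simp, fun w hw => ?_, ?_⟩
    · rw [Finset.mem_insert] at hx
      rcases hx with rfl | hx
      · simp
      · simp [hT hx]
    · rw [Finset.mem_insert]
      constructor
      · rintro (rfl | h)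
        · exact absurd hw hs
        · exact h
      · exact Or.inr
    · rw [Finset.card_insert_of_notMem hs']; simp
  · refine ⟨insert r T', fun x hx => ?_, by simp, by simp [hrs.symm, hs'], fun w hw => ?_, ?_⟩
    · rw [Finset.mem_insert] at hx
      rcases hx with rfl | hx
      · simp
      · simp [hT hx]
    · rw [Finset.mem_insert]
      constructor
      · rintro (rfl | h)
        · exact absurd hw hr
        · exact h
      · exact Or.inr
    · rw [Finset.card_insert_of_notMem hr']; simp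
  · have hr2 : r ∉ insert s T' := by simp [hrs, hr']
    refine ⟨insert r (insert s T'), fun x hx => ?_, by simp, by simp, fun w hw => ?_, ?_⟩
    · rw [Finset.mem_insert, Finset.mem_insert] at hx
      rcases hx with rfl | rfl | hx
      · simp
      · simp
      · simp [hT hx]
    · rw [Finset.mem_insert, Finset.mem_insert]
      constructor
      · rintro (rfl | rfl | h)
        · exact absurd hw hr
        · exact absurd hw hs
        · exact h
      · exact fun h => Or.inr (Or.inr h)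
    · rw [Finset.card_insert_of_notMem hr2, Finset.card_insert_of_notMem hs']; simp

variable {G} in
/-- Pattern A: entries of different colours, everything of degree at most one; with at least one
rung the entries are isolated. -/
theorem Lad.patA (hG : G.IsRegularOfDegree 3) : ∀ {n : ℕ} {X Y x0 y0 : V} {K : Finset V},
    Lad G n X Y x0 y0 K → ∃ T ⊆ K, 2 * T.card = K.card ∧ x0 ∈ T ∧ y0 ∉ T ∧
      (∀ v ∈ K, kd G K T v ≤ 1) ∧ (1 ≤ n → kd G K T x0 = 0 ∧ kd G K T y0 = 0) := by
  intro n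
  induction n with
  | zero =>
    intro X Y a d K h
    have hcard := h.card
    obtain ⟨h1, h2, h3, h4, b, c, had, hnad, hab, hac, hbc, hbd, hcd, rfl⟩ := h
    have i1 := hab.ne
    have i2 := hac.ne
    have i3 := hbc.ne
    have i4 := hbd.ne
    have i5 := hcd.ne
    refine ⟨{a, b}, ?_, ?_, by simp, ?_, ?_, fun h => absurd h (by norm_num)⟩
    · intro x; simp only [Finset.mem_insert, Finset.mem_singleton]; tauto
    · rw [hcard, Finset.card_pair i1]
    · simp only [Finset.mem_insert, Finset.mem_singleton, not_or]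
      exact ⟨had.symm, i4.symm⟩
    · obtain ⟨k1, k2, k3, k4⟩ := kn_dia G {a, b} had hnad hab hac hbc hbd hcd
      intro v hv
      simp only [Finset.mem_insert, Finset.mem_singleton] at hv
      unfold kd
      rcases hv with rfl | rfl | rfl | rfl
      · rw [k1]; simp [i2.symm, i3.symm]
      · rw [k3]; simp [i2.symm, i3.symm, had.symm, i4.symm]
      · rw [k4]; simp [i2.symm, i3.symm, had.symm, i4.symm]
      · rw [k2]; simp [i2.symm, i3.symm, had.symm, i4.symm]
  | succ n ih =>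
    intro X Y r s K h
    have hcard := h.card
    obtain ⟨h1, h2, h3, h4, r', s', K', hL, hrs, hadj, rfl⟩ := h
    obtain ⟨c1, c2, c3, c4, c5, c6, c7⟩ := hL.core
    have hcard' := hL.card
    obtain ⟨T', hT', t1, t2, t3, t4, -⟩ := ih hL
    have hf := card_flip hT'
    obtain ⟨T, hT, u1, u2, u5, u6⟩ := ext_T c1 c2 hrs (Finset.sdiff_subset (s := K') (t := T'))
      true false
    have u3 : r' ∉ T := by rw [u5 r' c5, Finset.mem_sdiff]; tauto
    have u4 : s' ∈ T := by rw [u5 s' c6, Finset.mem_sdiff]; tauto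
    have hcg : ∀ v ∈ K', kn G K' T v = kn G K' T' v := fun v hv => by
      rw [← kn_flip G K' T' hv]
      exact kn_congr G u5 hv
    obtain ⟨k1, k2, k3, k4, k5⟩ := kn_stack G hG (T := T) hL hrs hadj
    simp only [iff_true, Bool.false_eq_true, iff_false] at u1 u2
    simp only [u1, u2, u3, u4, hcg r' c5, hcg s' c6, iff_false, not_true_eq_false,
      if_false, iff_true, Finset.empty_union] at k2 k3 k4 k5
    refine ⟨T, hT, ?_, u1, u2, ?_, ?_⟩
    · simp only [if_true, Bool.false_eq_true, if_false] at u6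
      omega
    · intro v hv
      rw [Finset.mem_insert, Finset.mem_insert] at hv
      unfold kd
      rcases hv with rfl | rfl | hv
      · rw [k4]; simp
      · rw [k5]; simp
      · by_cases hv1 : v = r'
        · subst hv1; rw [k2]; exact t4 _ hv
        · by_cases hv2 : v = s'
          · subst hv2; rw [k3]; exact t4 _ hv
          · rw [k1 v hv hv1 hv2, hcg v hv]; exact t4 _ hv
    · intro _
      unfold kd
      rw [k4, k5]
      simp

variable {G} in
/-- Two rungs `(r, s)`, `(r2, s2)` above a ladder with pattern `T'`, with prescribed colours. -/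
theorem two_rungs (hG : G.IsRegularOfDegree 3) {n : ℕ} {r s r1 s1 r2 s2 : V} {K' T' : Finset V}
    (hL1 : Lad G n r1 s1 r2 s2 K') (h11 : r1 ≠ s1) (ha1 : G.Adj r1 s1)
    (hL0 : Lad G (n + 1) r s r1 s1 (insert r1 (insert s1 K'))) (h00 : r ≠ s) (ha0 : G.Adj r s)
    (hT' : T' ⊆ K') (p q p1 q1 : Bool)
    (hp : ¬ (p1 = true ↔ r2 ∈ T')) (hq : ¬ (q1 = true ↔ s2 ∈ T')) :
    ∃ T ⊆ insert r (insert s (insert r1 (insert s1 K'))),
      (r ∈ T ↔ p = true) ∧ (s ∈ T ↔ q = true) ∧ (r1 ∈ T ↔ p1 = true) ∧ (s1 ∈ T ↔ q1 = true) ∧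
      (∀ w ∈ K', (w ∈ T ↔ w ∈ T')) ∧
      T.card = T'.card + (if p then 1 else 0) + (if q then 1 else 0) + (if p1 then 1 else 0)
        + (if q1 then 1 else 0) ∧
      (∀ v ∈ K', kn G (insert r (insert s (insert r1 (insert s1 K')))) T v = kn G K' T' v) ∧
      kn G (insert r (insert s (insert r1 (insert s1 K')))) T r =
        (if q = p then {s} else ∅) ∪ (if p1 = p then {r1} else ∅) ∧
      kn G (insert r (insert s (insert r1 (insert s1 K')))) T s =
        (if p = q then {r} else ∅) ∪ (if q1 = q then {s1} else ∅) ∧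
      kn G (insert r (insert s (insert r1 (insert s1 K')))) T r1 =
        (if p = p1 then {r} else ∅) ∪ (if q1 = p1 then {s1} else ∅) ∧
      kn G (insert r (insert s (insert r1 (insert s1 K')))) T s1 =
        (if q = q1 then {s} else ∅) ∪ (if p1 = q1 then {r1} else ∅) := by
  obtain ⟨c1, c2, c3, c4, c5, c6, c7⟩ := hL1.core
  obtain ⟨d1, d2, d3, d4, d5, d6, d7⟩ := hL0.core
  obtain ⟨T1, hT1, a1, a2, a3, a4⟩ := ext_T c1 c2 h11 hT' p1 q1
  obtain ⟨T, hT, b1, b2, b3, b4⟩ := ext_T d1 d2 h00 hT1 p q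
  have m1 : r1 ∈ insert r1 (insert s1 K') := by simp
  have m2 : s1 ∈ insert r1 (insert s1 K') := by simp
  have mK : ∀ w ∈ K', w ∈ insert r1 (insert s1 K') := fun w hw => by simp [hw]
  have f1 : r1 ∈ T ↔ p1 = true := by rw [b3 r1 m1, a1]
  have f2 : s1 ∈ T ↔ q1 = true := by rw [b3 s1 m2, a2]
  have f3 : ∀ w ∈ K', (w ∈ T ↔ w ∈ T') := fun w hw => by rw [b3 w (mK w hw), a3 w hw]
  obtain ⟨k1, k2, k3, k4, k5⟩ := kn_stack G hG (T := T) hL0 h00 ha0
  obtain ⟨l1, l2, l3, l4, l5⟩ := kn_stack G hG (T := T) hL1 h11 ha1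
  have g2 : ¬ (r1 ∈ T ↔ r2 ∈ T) := by rw [f1, f3 r2 c5]; exact hp
  have g3 : ¬ (s1 ∈ T ↔ s2 ∈ T) := by rw [f2, f3 s2 c6]; exact hq
  have g4 : ¬ (r2 ∈ T ↔ r1 ∈ T) := fun h => g2 h.symm
  have g5 : ¬ (s2 ∈ T ↔ s1 ∈ T) := fun h => g3 h.symm
  rw [if_neg g2] at l2
  rw [if_neg g3] at l3
  rw [if_neg g4, Finset.union_empty] at l4
  rw [if_neg g5, Finset.union_empty] at l5
  have hcg : ∀ v ∈ K', kn G K' T v = kn G K' T' v := fun v hv => kn_congr G f3 hv
  have n1 : ∀ v ∈ K', v ≠ r1 := fun v hv h => c1 (h ▸ hv)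
  have n2 : ∀ v ∈ K', v ≠ s1 := fun v hv h => c2 (h ▸ hv)
  have bb : ∀ x y : Bool, ((x = true) ↔ (y = true)) ↔ x = y := by decide
  refine ⟨T, hT, b1, b2, f1, f2, f3, by rw [b4, a4]; ring, ?_, ?_, ?_, ?_, ?_⟩
  · intro v hv
    rw [k1 v (mK v hv) (n1 v hv) (n2 v hv), ← hcg v hv]
    by_cases hv1 : v = r2
    · subst hv1; exact l2
    · by_cases hv2 : v = s2
      · subst hv2; exact l3
      · exact l1 v hv hv1 hv2
  · rw [k4]
    simp only [b1, b2, f1, bb]
  · rw [k5]
    simp only [b1, b2, f2, bb]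
  · rw [k2, l4]
    simp only [b1, f1, f2, bb]
    split_ifs <;> first | exact Finset.insert_eq _ _ | simp
  · rw [k3, l5]
    simp only [b2, f1, f2, bb]
    split_ifs <;> first | exact Finset.insert_eq _ _ | simp

variable {G} in
/-- Pattern B for a bare diamond: both entries black and isolated. -/
theorem Lad.patB0 {X Y x0 y0 : V} {K : Finset V}
    (h : Lad G 0 X Y x0 y0 K) : ∃ T ⊆ K, 2 * T.card = K.card ∧ x0 ∉ T ∧ y0 ∉ T ∧
      (∀ v ∈ K, kd G K T v ≤ 1) ∧ kd G K T x0 = 0 ∧ kd G K T y0 = 0 := by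
  have hcard := h.card
  obtain ⟨h1, h2, h3, h4, b, c, had, hnad, hab, hac, hbc, hbd, hcd, rfl⟩ := h
  have i1 := hab.ne
  have i2 := hac.ne
  have i3 := hbc.ne
  have i4 := hbd.ne
  have i5 := hcd.ne
  have ma : x0 ∉ ({b, c} : Finset V) := by simp [i1, i2]
  have md : y0 ∉ ({b, c} : Finset V) := by simp [i4.symm, i5.symm]
  have mb : b ∈ ({b, c} : Finset V) := by simp
  have mc : c ∈ ({b, c} : Finset V) := by simp
  obtain ⟨k1, k2, k3, k4⟩ := kn_dia G {b, c} had hnad hab hac hbc hbd hcd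
  simp only [ma, md, mb, mc, iff_false, not_true_eq_false, if_false, iff_true, if_true,
    Finset.empty_union, Finset.union_empty] at k1 k2 k3 k4
  refine ⟨{b, c}, ?_, ?_, ma, md, ?_, ?_, ?_⟩
  · intro x; simp only [Finset.mem_insert, Finset.mem_singleton]; tauto
  · rw [hcard, Finset.card_pair i3]
  · intro v hv
    rw [Finset.mem_insert, Finset.mem_insert, Finset.mem_insert, Finset.mem_singleton] at hv
    unfold kd
    rcases hv with h | h | h | h
    · rw [h, k1]; simp
    · rw [h, k3]; simp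
    · rw [h, k4]; simp
    · rw [h, k2]; simp
  · unfold kd
    rw [k1]; simp
  · unfold kd
    rw [k2]; simp

variable {G} in
/-- Pattern C: `x0` white, `y0` black of degree one, everything of degree at most one. -/
theorem Lad.patC (hG : G.IsRegularOfDegree 3) : ∀ {n : ℕ} {X Y x0 y0 : V} {K : Finset V},
    Lad G n X Y x0 y0 K → ∃ T ⊆ K, 2 * T.card = K.card ∧ x0 ∈ T ∧ y0 ∉ T ∧
      (∀ v ∈ K, kd G K T v ≤ 1) ∧ kd G K T y0 = 1 := by
  intro n X Y x0 y0 K h
  have hcard := h.card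
  rcases n with _ | _ | n
  · obtain ⟨h1, h2, h3, h4, b, c, had, hnad, hab, hac, hbc, hbd, hcd, rfl⟩ := h
    have i1 := hab.ne
    have i2 := hac.ne
    have i3 := hbc.ne
    have i4 := hbd.ne
    have i5 := hcd.ne
    have ma : x0 ∈ ({x0, b} : Finset V) := by simp
    have md : y0 ∉ ({x0, b} : Finset V) := by simp [i4.symm, had.symm]
    have mb : b ∈ ({x0, b} : Finset V) := by simp
    have mc : c ∉ ({x0, b} : Finset V) := by simp [i2.symm, i3.symm]
    obtain ⟨k1, k2, k3, k4⟩ := kn_dia G {x0, b} had hnad hab hac hbc hbd hcd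
    simp only [ma, md, mb, mc, iff_false, not_true_eq_false, if_false, iff_true, if_true,
      Finset.empty_union, Finset.union_empty, not_false_eq_true] at k1 k2 k3 k4
    refine ⟨{x0, b}, ?_, ?_, ma, md, ?_, ?_⟩
    · intro x; simp only [Finset.mem_insert, Finset.mem_singleton]; tauto
    · rw [hcard, Finset.card_pair i1]
    · intro v hv
      rw [Finset.mem_insert, Finset.mem_insert, Finset.mem_insert, Finset.mem_singleton] at hv
      unfold kd
      rcases hv with h | h | h | h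
      · rw [h, k1]; simp
      · rw [h, k3]; simp
      · rw [h, k4]; simp
      · rw [h, k2]; simp
    · unfold kd
      rw [k2]; simp
  · obtain ⟨h1, h2, h3, h4, a, d, K', hL, hrs, hadj, rfl⟩ := h
    obtain ⟨c1, c2, c3, c4, c5, c6, c7⟩ := hL.core
    have hcard' := hL.card
    obtain ⟨T', hT', t1, t2, t3, t4, t5, t6⟩ := hL.patB0
    obtain ⟨T, hT, u1, u2, u5, u6⟩ := ext_T c1 c2 hrs hT' true false
    have u3 : a ∉ T := by rw [u5 a c5]; exact t2
    have u4 : d ∉ T := by rw [u5 d c6]; exact t3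
    have hcg : ∀ v ∈ K', kn G K' T v = kn G K' T' v := fun v hv => kn_congr G u5 hv
    obtain ⟨k1, k2, k3, k4, k5⟩ := kn_stack G hG (T := T) hL hrs hadj
    simp only [iff_true, Bool.false_eq_true, iff_false] at u1 u2
    simp only [u1, u2, u3, u4, hcg a c5, hcg d c6, iff_false, not_true_eq_false,
      if_false, iff_true, Finset.empty_union, not_false_eq_true, if_true] at k2 k3 k4 k5
    unfold kd at t5 t6
    rw [Finset.card_eq_zero] at t5 t6
    rw [t5] at k2
    rw [t6] at k3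
    refine ⟨T, hT, ?_, u1, u2, ?_, ?_⟩
    · simp only [if_true, Bool.false_eq_true, if_false] at u6
      rw [hcard, u6]
      rw [hcard'] at t1
      have h7 : 2 * T'.card = 4 := t1
      have h7 : T'.card = 2 := by omega
      rw [h7]
    · intro v hv
      rw [Finset.mem_insert, Finset.mem_insert] at hv
      unfold kd
      rcases hv with rfl | rfl | hv
      · rw [k4]; simp
      · rw [k5]; simp
      · by_cases hv1 : v = a
        · subst hv1; rw [k2]; simp
        · by_cases hv2 : v = d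
          · subst hv2; rw [k3]; simp
          · rw [k1 v hv hv1 hv2, hcg v hv]; exact t4 _ hv
    · unfold kd
      rw [k5]; simp
  · obtain ⟨h1, h2, h3, h4, r1, s1, K1, hL0, h00, ha0, rfl⟩ := h
    have hL0' := hL0
    obtain ⟨g1, g2, g3, g4, r2, s2, K', hL1, h11, ha1, rfl⟩ := hL0'
    have hcard' := hL1.card
    obtain ⟨c1, c2, c3, c4, c5, c6, c7⟩ := hL1.core
    obtain ⟨T', hT', t1, t2, t3, t4, -⟩ := hL1.patA hG
    have hf := card_flip hT'
    obtain ⟨T, hT, b1, b2, f1, f2, f3, e, k0, k1, k2, k3, k4⟩ := two_rungs hG hL1 h11 ha1 hL0 h00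
      ha0 (Finset.sdiff_subset (s := K') (t := T')) true false true false
      (by simp [t2]) (by simp [t3, c6])
    simp only [Bool.false_eq_true, Bool.true_eq_false, if_true, if_false, Finset.empty_union,
      Finset.union_empty, iff_true, iff_false] at b1 b2 f1 f2 e k1 k2 k3 k4
    refine ⟨T, hT, by omega, b1, b2, ?_, ?_⟩
    · intro v hv
      rw [Finset.mem_insert, Finset.mem_insert, Finset.mem_insert, Finset.mem_insert] at hv
      unfold kd
      rcases hv with rfl | rfl | rfl | rfl | hv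
      · rw [k1]; simp
      · rw [k2]; simp
      · rw [k3]; simp
      · rw [k4]; simp
      · rw [k0 v hv, kn_flip G K' T' hv]; exact t4 v hv
    · unfold kd
      rw [k2]; simp

variable {G} in
/-- Pattern D: both entries white, one white vertex of degree two, two more white vertices. -/
theorem Lad.patD (hG : G.IsRegularOfDegree 3) {n : ℕ} {X Y x0 y0 : V} {K : Finset V}
    (h : Lad G (n + 2) X Y x0 y0 K) : ∃ T ⊆ K, 2 * T.card = K.card + 2 ∧ x0 ∈ T ∧ y0 ∈ T ∧
      ∃ v0 ∈ K, v0 ∈ T ∧ kd G K T v0 = 2 ∧ (∀ w ∈ kn G K T v0, kd G K T w ≤ 1) ∧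
        (∀ v ∈ K, v ≠ v0 → kd G K T v ≤ 1) := by
  have hcard := h.card
  obtain ⟨h1, h2, h3, h4, r1, s1, K1, hL0, h00, ha0, rfl⟩ := h
  have hL0' := hL0
  obtain ⟨g1, g2, g3, g4, r2, s2, K', hL1, h11, ha1, rfl⟩ := hL0'
  have hcard' := hL1.card
  obtain ⟨c1, c2, c3, c4, c5, c6, c7⟩ := hL1.core
  obtain ⟨d1, d2, d3, d4, d5, d6, d7⟩ := hL0.core
  obtain ⟨T', hT', t1, t2, t3, t4, -⟩ := hL1.patA hG
  obtain ⟨T, hT, b1, b2, f1, f2, f3, e, k0, k1, k2, k3, k4⟩ := two_rungs hG hL1 h11 ha1 hL0 h00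
    ha0 hT' true true false true (by simp [t2]) (by simp [t3])
  simp only [Bool.false_eq_true, Bool.true_eq_false, if_true, if_false, Finset.empty_union,
    Finset.union_empty, iff_true, iff_false] at b1 b2 f1 f2 e k1 k2 k3 k4
  have hn : x0 ≠ s1 := fun h => d1 (h ▸ d6)
  have main : ∀ v ∈ insert x0 (insert y0 (insert r1 (insert s1 K'))), v ≠ y0 →
      kd G (insert x0 (insert y0 (insert r1 (insert s1 K')))) T v ≤ 1 := by
    intro v hv hne
    rw [Finset.mem_insert, Finset.mem_insert, Finset.mem_insert, Finset.mem_insert] at hv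
    unfold kd
    rcases hv with rfl | rfl | rfl | rfl | hv
    · rw [k1]; simp
    · exact absurd rfl hne
    · rw [k3]; simp
    · rw [k4]; simp
    · rw [k0 v hv]; exact t4 v hv
  refine ⟨T, hT, by omega, b1, b2, y0, by simp, b2, ?_, ?_, main⟩
  · unfold kd
    rw [k2, ← Finset.insert_eq, Finset.card_pair hn]
  · intro w hw
    rw [k2, ← Finset.insert_eq, Finset.mem_insert, Finset.mem_singleton] at hw
    have e1 : y0 ≠ s1 := fun h => d2 (h ▸ d6)
    rcases hw with rfl | rfl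
    · exact main _ (by simp) h00
    · exact main _ (by simp) e1.symm

variable {G} in
/-- A bare diamond with white entries. -/
theorem Lad.patE0 {X Y x0 y0 : V} {K : Finset V}
    (h : Lad G 0 X Y x0 y0 K) : ∃ T ⊆ K, 2 * T.card = K.card ∧ x0 ∈ T ∧ y0 ∈ T ∧
      (∀ v ∈ K, kd G K T v ≤ 1) ∧ kd G K T x0 = 0 ∧ kd G K T y0 = 0 := by
  obtain ⟨T, hT, h1, h2, h3, h4, h5, h6⟩ := h.patB0
  obtain ⟨-, -, -, -, c5, c6, -⟩ := h.core
  have hf := card_flip hT
  refine ⟨K \ T, Finset.sdiff_subset, by omega, by simp [c5, h2], by simp [c6, h3], ?_, ?_, ?_⟩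
  · intro v hv
    rw [kd_flip G K T hv]
    exact h4 v hv
  · rw [kd_flip G K T c5]
    exact h5
  · rw [kd_flip G K T c6]
    exact h6

/-- Pattern E: both entries white, balanced, and the vertices of degree two are none, or one white
and one black vertex. -/
def PE (K : Finset V) (x0 y0 : V) : Prop :=
  ∃ T ⊆ K, 2 * T.card = K.card ∧ x0 ∈ T ∧ y0 ∈ T ∧ ((∀ v ∈ K, kd G K T v ≤ 1) ∨
    ∃ v0 ∈ K, ∃ v1 ∈ K, v0 ∈ T ∧ v1 ∉ T ∧ kd G K T v0 = 2 ∧ kd G K T v1 = 2 ∧
      (∀ w ∈ kn G K T v0, kd G K T w ≤ 1) ∧ (∀ w ∈ kn G K T v1, kd G K T w ≤ 1) ∧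
      (∀ v ∈ K, v ≠ v0 → v ≠ v1 → kd G K T v ≤ 1))

variable {G} in
/-- two rungs above a diamond, used for pattern E with three rungs -/
theorem Lad.patG2 (hG : G.IsRegularOfDegree 3) {X Y x0 y0 : V} {K : Finset V}
    (h : Lad G 2 X Y x0 y0 K) : ∃ T ⊆ K, 2 * T.card + 2 = K.card ∧ x0 ∈ T ∧ y0 ∉ T ∧
      kd G K T x0 = 0 ∧ ∃ v1 ∈ K, v1 ∉ T ∧ v1 ≠ x0 ∧ v1 ≠ y0 ∧ kd G K T v1 = 2 ∧
        (∀ w ∈ kn G K T v1, w ≠ x0 ∧ kd G K T w ≤ 1) ∧
        (∀ v ∈ K, v ≠ v1 → kd G K T v ≤ 1) := by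
  obtain ⟨h1, h2, h3, h4, r, s, K1, hL, hrs, hadj, rfl⟩ := h
  have hL' := hL
  obtain ⟨g1, g2, g3, g4, a, d, K', hD, hrs', hadj', rfl⟩ := hL'
  have hcD : K'.card = 4 := hD.card
  obtain ⟨c1, c2, c3, c4, c5, c6, c7⟩ := hD.core
  obtain ⟨d1, d2, d3, d4, d5, d6, d7⟩ := hL.core
  obtain ⟨T', hT', t1, t2, t3, t4, t5, t6⟩ := hD.patE0
  obtain ⟨T1, hT1, u1, u2, u5, u6⟩ := ext_T c1 c2 hrs' hT' false false
  obtain ⟨T, hT, b1, b2, b5, b6⟩ := ext_T d1 d2 hrs hT1 true false
  have mr : r ∈ insert r (insert s K') := by simp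
  have ms : s ∈ insert r (insert s K') := by simp
  have mK : ∀ w ∈ K', w ∈ insert r (insert s K') := fun w hw => by simp [hw]
  simp only [iff_true, Bool.false_eq_true, iff_false, if_true, if_false] at u1 u2 u6 b1 b2 b6
  have f1 : r ∉ T := by rw [b5 r mr]; exact u1
  have f2 : s ∉ T := by rw [b5 s ms]; exact u2
  have f3 : ∀ w ∈ K', (w ∈ T ↔ w ∈ T') := fun w hw => by rw [b5 w (mK w hw), u5 w hw]
  have f4 : a ∈ T := by rw [f3 a c5]; exact t2
  have f5 : d ∈ T := by rw [f3 d c6]; exact t3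
  have hcg : ∀ v ∈ K', kn G K' T v = kn G K' T' v := fun v hv => kn_congr G f3 hv
  obtain ⟨k1, k2, k3, k4, k5⟩ := kn_stack G hG (T := T) hL hrs hadj
  obtain ⟨l1, l2, l3, l4, l5⟩ := kn_stack G hG (T := T) hD hrs' hadj'
  simp only [b1, b2, f1, f2, f4, f5, iff_false, not_true_eq_false, if_false, iff_true,
    Finset.empty_union, not_false_eq_true, if_true, Finset.union_empty] at k2 k3 k4 k5 l2 l3 l4 l5
  rw [hcg a c5] at l2
  rw [hcg d c6] at l3
  rw [l4] at k2
  rw [l5] at k3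
  have n1 : ∀ v ∈ K', v ≠ r := fun v hv h => c1 (h ▸ hv)
  have n2 : ∀ v ∈ K', v ≠ s := fun v hv h => c2 (h ▸ hv)
  have ey : y0 ≠ r := fun h => d2 (h ▸ mr)
  have main : ∀ v ∈ insert x0 (insert y0 (insert r (insert s K'))), v ≠ s →
      kd G (insert x0 (insert y0 (insert r (insert s K')))) T v ≤ 1 := by
    intro v hv hne
    rw [Finset.mem_insert, Finset.mem_insert, Finset.mem_insert, Finset.mem_insert] at hv
    unfold kd
    rcases hv with rfl | rfl | rfl | rfl | hv
    · rw [k4]; simp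
    · rw [k5]; simp
    · rw [k2]; simp
    · exact absurd rfl hne
    · rw [k1 v (mK v hv) (n1 v hv) (n2 v hv)]
      by_cases hv1 : v = a
      · subst hv1; rw [l2]; exact t4 _ hv
      · by_cases hv2 : v = d
        · subst hv2; rw [l3]; exact t4 _ hv
        · rw [l1 v hv hv1 hv2, hcg v hv]; exact t4 _ hv
  have hcard : (insert x0 (insert y0 (insert r (insert s K')))).card = K'.card + 4 := by
    rw [Finset.card_insert_of_notMem, Finset.card_insert_of_notMem d2,
      Finset.card_insert_of_notMem, Finset.card_insert_of_notMem c2]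
    · simpa using ⟨hrs', c1⟩
    · rw [Finset.mem_insert, not_or]
      exact ⟨hrs, d1⟩
  refine ⟨T, hT, by omega, b1, b2, ?_, s, by simp, f2, fun h => d1 (h ▸ ms), fun h => d2 (h ▸ ms),
    ?_, ?_, main⟩
  · unfold kd
    rw [k4]; simp
  · unfold kd
    rw [k3, Finset.card_insert_of_notMem (by simpa using ey), Finset.card_singleton]
  · intro w hw
    rw [k3, Finset.mem_insert, Finset.mem_singleton] at hw
    rcases hw with rfl | rfl
    · exact ⟨hrs.symm, main _ (by simp) (fun h => d2 (h ▸ ms))⟩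
    · exact ⟨fun h => d1 (h ▸ mr), main _ (by simp) hrs'⟩

variable {G} in
theorem Lad.patE_aux (hG : G.IsRegularOfDegree 3) : ∀ n : ℕ,
    (∀ {X Y x0 y0 : V} {K : Finset V}, Lad G (n + 2) X Y x0 y0 K → PE G K x0 y0) ∧
    (∀ {X Y x0 y0 : V} {K : Finset V}, Lad G (n + 3) X Y x0 y0 K → PE G K x0 y0) := by
  have step : ∀ {n : ℕ} {X Y x0 y0 : V} {K : Finset V}, Lad G (n + 2) X Y x0 y0 K →
      (∀ {X Y x0 y0 : V} {K : Finset V}, Lad G n X Y x0 y0 K → PE G K x0 y0) → PE G K x0 y0 := by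
    intro n X Y x0 y0 K h ih
    have hcard := h.card
    obtain ⟨h1, h2, h3, h4, r1, s1, K1, hL0, h00, ha0, rfl⟩ := h
    have hL0' := hL0
    obtain ⟨g1, g2, g3, g4, r2, s2, K', hL1, h11, ha1, rfl⟩ := hL0'
    have hcard' := hL1.card
    obtain ⟨c1, c2, c3, c4, c5, c6, c7⟩ := hL1.core
    obtain ⟨T', hT', t1, t2, t3, t4⟩ := ih hL1
    obtain ⟨T, hT, b1, b2, f1, f2, f3, e, k0, k1, k2, k3, k4⟩ := two_rungs hG hL1 h11 ha1 hL0 h00
      ha0 hT' true true false false (by simp [t2]) (by simp [t3])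
    simp only [Bool.false_eq_true, Bool.true_eq_false, if_true, if_false, Finset.empty_union,
      Finset.union_empty, iff_true, iff_false] at b1 b2 f1 f2 e k1 k2 k3 k4
    have mem : ∀ v ∈ K', v ∈ insert x0 (insert y0 (insert r1 (insert s1 K'))) :=
      fun v hv => by simp [hv]
    have main : ∀ v ∈ insert x0 (insert y0 (insert r1 (insert s1 K'))), v ∉ K' →
        kd G (insert x0 (insert y0 (insert r1 (insert s1 K')))) T v ≤ 1 := by
      intro v hv hne
      rw [Finset.mem_insert, Finset.mem_insert, Finset.mem_insert, Finset.mem_insert] at hv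
      unfold kd
      rcases hv with rfl | rfl | rfl | rfl | hv
      · rw [k1]; simp
      · rw [k2]; simp
      · rw [k3]; simp
      · rw [k4]; simp
      · exact absurd hv hne
    have hkd : ∀ v ∈ K', kd G (insert x0 (insert y0 (insert r1 (insert s1 K')))) T v =
        kd G K' T' v := fun v hv => by unfold kd; rw [k0 v hv]
    refine ⟨T, hT, by omega, b1, b2, ?_⟩
    rcases t4 with t4 | ⟨v0, m0, v1, m1, a0, a1, e0, e1, w0, w1, al⟩
    · left
      intro v hv
      by_cases hv' : v ∈ K'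
      · rw [hkd v hv']; exact t4 v hv'
      · exact main v hv hv'
    · right
      refine ⟨v0, mem v0 m0, v1, mem v1 m1, (f3 v0 m0).2 a0, fun h => a1 ((f3 v1 m1).1 h),
        by rw [hkd v0 m0]; exact e0, by rw [hkd v1 m1]; exact e1, ?_, ?_, ?_⟩
      · intro w hw
        rw [k0 v0 m0] at hw
        rw [hkd w (mem_kn.1 hw).1]
        exact w0 w hw
      · intro w hw
        rw [k0 v1 m1] at hw
        rw [hkd w (mem_kn.1 hw).1]
        exact w1 w hw
      · intro v hv n0 n1
        by_cases hv' : v ∈ K'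
        · rw [hkd v hv']; exact al v hv' n0 n1
        · exact main v hv hv'
  have base2 : ∀ {X Y x0 y0 : V} {K : Finset V}, Lad G 2 X Y x0 y0 K → PE G K x0 y0 := by
    intro X Y x0 y0 K h
    refine step (n := 0) h ?_
    intro X Y x0 y0 K h
    obtain ⟨T, hT, e1, e2, e3, e4, -, -⟩ := h.patE0
    exact ⟨T, hT, e1, e2, e3, Or.inl e4⟩
  have base3 : ∀ {X Y x0 y0 : V} {K : Finset V}, Lad G 3 X Y x0 y0 K → PE G K x0 y0 := by
    intro X Y x0 y0 K h
    have hcard : K.card = 10 := h.card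
    obtain ⟨h1, h2, h3, h4, r, s, K', hL, hrs, hadj, rfl⟩ := h
    obtain ⟨c1, c2, c3, c4, c5, c6, c7⟩ := hL.core
    have hcard' : K'.card = 8 := hL.card
    obtain ⟨T', hT', t1, t2, t3, t4, v1, m1, t5, t6, t7, t8, t9, t10⟩ := hL.patG2 hG
    obtain ⟨T, hT, u1, u2, u5, u6⟩ := ext_T c1 c2 hrs hT' true true
    have u3 : r ∈ T := by rw [u5 r c5]; exact t2
    have u4 : s ∉ T := by rw [u5 s c6]; exact t3
    have hcg : ∀ v ∈ K', kn G K' T v = kn G K' T' v := fun v hv => kn_congr G u5 hv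
    obtain ⟨k1, k2, k3, k4, k5⟩ := kn_stack G hG (T := T) hL hrs hadj
    simp only [iff_true, Bool.false_eq_true, iff_false, if_true, if_false] at u1 u2 u6
    simp only [u1, u2, u3, u4, hcg r c5, hcg s c6, iff_false, not_true_eq_false,
      if_false, iff_true, Finset.empty_union, Finset.union_empty, not_false_eq_true,
      if_true] at k2 k3 k4 k5
    unfold kd at t4
    rw [Finset.card_eq_zero] at t4
    rw [t4] at k2
    have mem : ∀ v ∈ K', v ∈ insert x0 (insert y0 K') := fun v hv => by simp [hv]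
    have hkn : ∀ v ∈ K', v ≠ r → kn G (insert x0 (insert y0 K')) T v = kn G K' T' v := by
      intro v hv hne
      by_cases hv2 : v = s
      · subst hv2; exact k3
      · rw [k1 v hv hne hv2, hcg v hv]
    have hkd : ∀ v ∈ K', v ≠ r → kd G (insert x0 (insert y0 K')) T v = kd G K' T' v :=
      fun v hv hne => by unfold kd; rw [hkn v hv hne]
    have hkr : kd G (insert x0 (insert y0 K')) T r = 1 := by
      unfold kd; rw [k2]; simp
    have hky : kd G (insert x0 (insert y0 K')) T y0 = 1 := by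
      unfold kd; rw [k5]; simp
    have hy0 : y0 ≠ r := fun h => c2 (h ▸ c5)
    refine ⟨T, hT, by omega, u1, u2, Or.inr ⟨x0, by simp, v1, mem v1 m1, u1, ?_, ?_, ?_, ?_, ?_,
      ?_⟩⟩
    · rw [u5 v1 m1]; exact t5
    · unfold kd
      rw [k4, ← Finset.insert_eq, Finset.card_pair hy0]
    · rw [hkd v1 m1 t6]; exact t8
    · intro w hw
      rw [k4, ← Finset.insert_eq, Finset.mem_insert, Finset.mem_singleton] at hw
      rcases hw with rfl | rfl
      · rw [hky]
      · rw [hkr]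
    · intro w hw
      rw [hkn v1 m1 t6] at hw
      have hw' := t9 w hw
      rw [hkd w (mem_kn.1 hw).1 hw'.1]
      exact hw'.2
    · intro v hv n0 n1
      rw [Finset.mem_insert, Finset.mem_insert] at hv
      rcases hv with rfl | rfl | hv
      · exact absurd rfl n0
      · rw [hky]
      · by_cases hv1 : v = r
        · subst hv1; rw [hkr]
        · rw [hkd v hv hv1]; exact t10 v hv n1
  intro n
  induction n using Nat.twoStepInduction with
  | zero => exact ⟨base2, base3⟩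
  | one =>
    refine ⟨base3, ?_⟩
    intro X Y x0 y0 K h
    exact step (n := 2) h base2
  | more n ih1 ih2 =>
    refine ⟨?_, ?_⟩
    · intro X Y x0 y0 K h
      exact step (n := n + 2) h ih1.1
    · intro X Y x0 y0 K h
      exact step (n := n + 3) h ih1.2

variable {G} in
theorem Lad.patE (hG : G.IsRegularOfDegree 3) {n : ℕ} {X Y x0 y0 : V} {K : Finset V}
    (h : Lad G (n + 2) X Y x0 y0 K) : PE G K x0 y0 := (Lad.patE_aux hG n).1 h

end Pool.Agent.Lib.Ando.Dia
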