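import Mathlib
import Pool.Agent.Lib.Ando.DiaPat

set_option autoImplicit false
set_option linter.unusedSectionVars false
set_option linter.unusedSimpArgs false

/-!
# Ando.DiaTrans: transfer of balanced colourings, and the reduction R1

`Attach G K X Y x0 y0`: the set `K` is joined to its complement exactly by the edges `X x0`
and `Y y0`. `rg G K X Y`: delete `K` and add the edge `X Y`.
-/

namespace Pool.Agent.Lib.Ando.Dia

variable {V : Type*} [Fintype V] [DecidableEq V] (G : SimpleGraph V) [DecidableRel G.Adj]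

theorem good4_iff (S : Finset V) :
    Good4 G S ↔ ∀ v, sd G S v ≤ 2 ∧ (sd G S v = 2 → qd G S v ≤ 1) := Iff.rfl

/-- General transfer of a balanced colouring from a smaller graph. -/
theorem bal_transfer {W : Type*} [Fintype W] [DecidableEq W] (G' : SimpleGraph W)
    [DecidableRel G'.Adj] (K : Finset V) (e : {v // v ∉ K} → W) (he : Function.Injective e)
    (D : Finset W) (hD : ∀ w, w ∈ D ↔ ∀ v, e v ≠ w) (Ex : Finset {v // v ∉ K}) (S : Finset V)
    (S' : Finset W) (hB : Bal G' S')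
    (h1 : ∀ v : {v // v ∉ K}, ((v : V) ∈ S ↔ e v ∈ S'))
    (h2 : ∀ v : {v // v ∉ K}, v ∉ Ex → sd G S v = sd G' S' (e v) ∧
      (sd G' S' (e v) = 2 → qd G S v = qd G' S' (e v)))
    (h3 : ∀ v ∈ Ex, sd G S v ≤ 1)
    (h4 : ∀ v ∈ K, sd G S v ≤ 2 ∧ (sd G S v = 2 → qd G S v ≤ 1))
    (s0 : ∑ v ∈ K, sg S v = ∑ w ∈ D, sg S' w)
    (s1 : ∑ v ∈ K, w1 G S v = ∑ v ∈ Ex, w1 G' S' (e v) + ∑ w ∈ D, w1 G' S' w)
    (s2 : ∑ v ∈ K, w2 G S v = ∑ v ∈ Ex, w2 G' S' (e v) + ∑ w ∈ D, w2 G' S' w) :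
    Bal G S := by
  have hsum : ∀ f : W → ℤ, ∑ w, f w = ∑ v, f (e v) + ∑ w ∈ D, f w := by
    intro f
    rw [← Finset.sum_add_sum_compl Dᶜ f, compl_compl]
    congr 1
    rw [← Finset.sum_image (g := e) (fun x _ y _ h => he h)]
    apply Finset.sum_congr _ fun _ _ => rfl
    ext w
    rw [Finset.mem_compl, hD, Finset.mem_image]
    push Not
    simp
  have hsg : ∀ v : {v // v ∉ K}, sg S v = sg S' (e v) := by
    intro v
    unfold sg
    by_cases h : e v ∈ S'
    · rw [if_pos h, if_pos ((h1 v).2 h)]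
    · rw [if_neg h, if_neg (fun h' => h ((h1 v).1 h'))]
  have hw1 : ∀ v : {v // v ∉ K}, v ∉ Ex → w1 G S v = w1 G' S' (e v) := by
    intro v hv
    unfold w1
    rw [(h2 v hv).1, hsg]
  have hw2 : ∀ v : {v // v ∉ K}, v ∉ Ex → w2 G S v = w2 G' S' (e v) := by
    intro v hv
    unfold w2
    rw [(h2 v hv).1, hsg]
    split_ifs with h
    · rw [(h2 v hv).2 h]
    · rfl
  have hx1 : ∀ v ∈ Ex, w1 G S v = 0 := by
    intro v hv
    unfold w1
    rw [if_neg]
    have := h3 v hv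
    omega
  have hx2 : ∀ v ∈ Ex, w2 G S v = 0 := by
    intro v hv
    unfold w2
    rw [if_neg]
    have := h3 v hv
    omega
  have hsum2 : ∀ (f : {v // v ∉ K} → ℤ) (g : W → ℤ), (∀ v ∉ Ex, f v = g (e v)) →
      (∀ v ∈ Ex, f v = 0) → ∑ v, f v = ∑ v, g (e v) - ∑ v ∈ Ex, g (e v) := by
    intro f g hf hf0
    rw [← Finset.sum_add_sum_compl Ex f, ← Finset.sum_add_sum_compl Ex (fun v => g (e v)),
      Finset.sum_eq_zero hf0]
    have : ∑ v ∈ Exᶜ, f v = ∑ v ∈ Exᶜ, g (e v) :=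
      Finset.sum_congr rfl fun v hv => hf v (Finset.mem_compl.1 hv)
    rw [this]
    ring
  refine ⟨?_, ?_, ?_, ?_⟩
  · rw [good4_iff]
    intro v
    by_cases hv : v ∈ K
    · exact h4 v hv
    · by_cases hx : (⟨v, hv⟩ : {v // v ∉ K}) ∈ Ex
      · have := h3 _ hx
        simp only at this
        exact ⟨by omega, fun h => by omega⟩
      · have h5 := h2 _ hx
        simp only at h5
        have h6 := (good4_iff G' S').1 hB.good (e ⟨v, hv⟩)
        rw [← h5.1] at h6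
        refine ⟨h6.1, fun h => ?_⟩
        rw [h5.2 (by rw [← h5.1]; exact h)]
        exact h6.2 h
  · rw [sum_split K, Finset.sum_congr rfl fun v _ => hsg v, s0, ← hsum]
    exact hB.s0
  · rw [sum_split K, hsum2 (fun v => w1 G S v) (w1 G' S') hw1 hx1, s1]
    have := hsum (w1 G' S')
    rw [hB.s1] at this
    linarith
  · rw [sum_split K, hsum2 (fun v => w2 G S v) (w2 G' S') hw2 hx2, s2]
    have := hsum (w2 G' S')
    rw [hB.s2] at this
    linarith

/-- `K` is joined to the rest exactly by two edges. -/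
structure Attach (K : Finset V) (X Y x0 y0 : V) : Prop where
  hX : X ∉ K
  hY : Y ∉ K
  aX : G.Adj X x0
  aY : G.Adj Y y0
  mx : x0 ∈ K
  my : y0 ∈ K
  ne : x0 ≠ y0
  out : ∀ v ∈ K, ∀ w, w ∉ K → G.Adj v w → (v = x0 ∧ w = X) ∨ (v = y0 ∧ w = Y)

variable {G} in
theorem Lad.attach (hG : G.IsRegularOfDegree 3) {n : ℕ} {X Y x0 y0 : V} {K : Finset V}
    (h : Lad G n X Y x0 y0 K) : Attach G K X Y x0 y0 := by
  obtain ⟨h1, h2, h3, h4, h5, h6, h7⟩ := h.core
  exact ⟨h1, h2, h3, h4, h5, h6, h7, h.out hG⟩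

variable {G} in
theorem Attach.symm {K : Finset V} {X Y x0 y0 : V} (h : Attach G K X Y x0 y0) :
    Attach G K Y X y0 x0 :=
  ⟨h.hY, h.hX, h.aY, h.aX, h.my, h.mx, h.ne.symm, fun v hv w hw hvw => (h.out v hv w hw hvw).symm⟩

/-- Delete `K` and join `X` to `Y`. -/
def rg (G : SimpleGraph V) (K : Finset V) (X Y : V) : SimpleGraph {v // v ∉ K} where
  Adj v w := v ≠ w ∧ (G.Adj v w ∨ ((v : V) = X ∧ (w : V) = Y) ∨ ((v : V) = Y ∧ (w : V) = X))
  symm := ⟨by
    rintro v w ⟨h, h1 | h1 | h1⟩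
    · exact ⟨h.symm, Or.inl h1.symm⟩
    · exact ⟨h.symm, Or.inr (Or.inr ⟨h1.2, h1.1⟩)⟩
    · exact ⟨h.symm, Or.inr (Or.inl ⟨h1.2, h1.1⟩)⟩⟩
  loopless := ⟨fun v h => h.1 rfl⟩

instance (K : Finset V) (X Y : V) : DecidableRel (rg G K X Y).Adj := fun v w => by
  unfold rg
  infer_instance

theorem rg_comm (K : Finset V) (X Y : V) : rg G K X Y = rg G K Y X := by
  ext v w
  unfold rg
  simp only
  tauto

/-- The inclusion of the complement of `K`. -/
abbrev sub (K : Finset V) : {v // v ∉ K} ↪ V := Function.Embedding.subtype _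

section glue

variable {G} {K : Finset V} {X Y x0 y0 : V}

theorem rg_nbr (hA : Attach G K X Y x0 y0) (v : {v // v ∉ K}) (h1 : (v : V) ≠ X)
    (h2 : (v : V) ≠ Y) :
    ((rg G K X Y).neighborFinset v).map (sub K) = G.neighborFinset v := by
  ext w
  simp only [Finset.mem_map, SimpleGraph.mem_neighborFinset]
  constructor
  · rintro ⟨w', ⟨-, h | h | h⟩, rfl⟩
    · exact h
    · exact absurd h.1 h1
    · exact absurd h.1 h2
  · intro h
    have hw : w ∉ K := by
      intro hw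
      rcases hA.out w hw v v.2 h.symm with h | h
      · exact h1 h.2
      · exact h2 h.2
    exact ⟨⟨w, hw⟩, ⟨fun e => h.ne (congrArg Subtype.val e), Or.inl h⟩, rfl⟩

theorem rg_nbrX (hA : Attach G K X Y x0 y0) (hXY : X ≠ Y) :
    ((rg G K X Y).neighborFinset ⟨X, hA.hX⟩).map (sub K)
      = insert Y ((G.neighborFinset X).erase x0) := by
  ext w
  rw [Finset.mem_insert, Finset.mem_erase, SimpleGraph.mem_neighborFinset, Finset.mem_map]
  constructor
  · rintro ⟨w', hw, rfl⟩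
    rw [SimpleGraph.mem_neighborFinset] at hw
    obtain ⟨-, h | h | h⟩ := hw
    · right
      exact ⟨fun e => w'.2 (by simpa using (show (w' : V) ∈ K from by
        have : (w' : V) = x0 := e
        rw [this]; exact hA.mx)), h⟩
    · exact Or.inl h.2
    · exact absurd h.1 hXY
  · rintro (rfl | ⟨h1, h2⟩)
    · refine ⟨⟨w, hA.hY⟩, ?_, rfl⟩
      rw [SimpleGraph.mem_neighborFinset]
      exact ⟨fun e => hXY (congrArg Subtype.val e), Or.inr (Or.inl ⟨rfl, rfl⟩)⟩
    · have hw : w ∉ K := by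
        intro hw
        rcases hA.out w hw X hA.hX h2.symm with h | h
        · exact h1 h.1
        · exact hXY h.2
      refine ⟨⟨w, hw⟩, ?_, rfl⟩
      rw [SimpleGraph.mem_neighborFinset]
      exact ⟨fun e => h2.ne (congrArg Subtype.val e), Or.inl h2⟩

theorem rg_degree_comm (v : {v // v ∉ K}) :
    (rg G K X Y).degree v = (rg G K Y X).degree v := by
  rw [← SimpleGraph.card_neighborFinset_eq_degree, ← SimpleGraph.card_neighborFinset_eq_degree]
  congr 1
  ext w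
  rw [SimpleGraph.mem_neighborFinset, SimpleGraph.mem_neighborFinset, rg_comm]

theorem rg_regular (hG : G.IsRegularOfDegree 3) (hA : Attach G K X Y x0 y0) (hXY : X ≠ Y)
    (hn : ¬ G.Adj X Y) : (rg G K X Y).IsRegularOfDegree 3 := by
  have keyX : ∀ (X Y x0 y0 : V) (hA : Attach G K X Y x0 y0), X ≠ Y → ¬ G.Adj X Y →
      (rg G K X Y).degree ⟨X, hA.hX⟩ = 3 := by
    intro X Y x0 y0 hA hXY hn
    rw [← SimpleGraph.card_neighborFinset_eq_degree, ← Finset.card_map (sub K),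
      rg_nbrX hA hXY, Finset.card_insert_of_notMem, Finset.card_erase_of_mem,
      SimpleGraph.card_neighborFinset_eq_degree, hG X]
    · rw [SimpleGraph.mem_neighborFinset]; exact hA.aX
    · rw [Finset.mem_erase, SimpleGraph.mem_neighborFinset, not_and]
      exact fun _ => hn
  intro v
  by_cases h1 : (v : V) = X
  · obtain ⟨v, hv⟩ := v
    simp only at h1
    subst h1
    exact keyX _ _ _ _ hA hXY hn
  · by_cases h2 : (v : V) = Y
    · obtain ⟨v, hv⟩ := v
      simp only at h2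
      subst h2
      rw [rg_degree_comm]
      exact keyX _ _ _ _ hA.symm hXY.symm (fun h => hn h.symm)
    · rw [← SimpleGraph.card_neighborFinset_eq_degree, ← Finset.card_map (sub K),
        rg_nbr hA v h1 h2, SimpleGraph.card_neighborFinset_eq_degree, hG]

variable {S T : Finset V} {S' : Finset {v // v ∉ K}}

theorem glue_out (hA : Attach G K X Y x0 y0) (hS : ∀ v : {v // v ∉ K}, ((v : V) ∈ S ↔ v ∈ S'))
    (v : {v // v ∉ K}) (h1 : (v : V) ≠ X) (h2 : (v : V) ≠ Y) :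
    sm G S v = (sm (rg G K X Y) S' v).map (sub K) := by
  have h := rg_nbr hA v h1 h2
  ext w
  rw [mem_sm, Finset.mem_map]
  constructor
  · rintro ⟨h3, h4⟩
    have h5 : w ∈ ((rg G K X Y).neighborFinset v).map (sub K) := by
      rw [h, SimpleGraph.mem_neighborFinset]; exact h3
    rw [Finset.mem_map] at h5
    obtain ⟨w', h6, rfl⟩ := h5
    rw [SimpleGraph.mem_neighborFinset] at h6
    exact ⟨w', mem_sm.2 ⟨h6, by rw [← hS w', ← hS v]; exact h4⟩, rfl⟩
  · rintro ⟨w', h3, rfl⟩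
    rw [mem_sm] at h3
    have h5 : ((sub K) w') ∈ G.neighborFinset v := by
      rw [← h, Finset.mem_map]
      exact ⟨w', by rw [SimpleGraph.mem_neighborFinset]; exact h3.1, rfl⟩
    rw [SimpleGraph.mem_neighborFinset] at h5
    exact ⟨h5, by
      have := h3.2
      rw [← hS w', ← hS v] at this
      exact this⟩

theorem glue_X (hA : Attach G K X Y x0 y0) (hXY : X ≠ Y) (hn : ¬ G.Adj X Y)
    (hS : ∀ v : {v // v ∉ K}, ((v : V) ∈ S ↔ v ∈ S')) :
    sm G S X = ((sm (rg G K X Y) S' ⟨X, hA.hX⟩).map (sub K)).erase Y ∪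
      (if (x0 ∈ S ↔ X ∈ S) then {x0} else ∅) := by
  have h := rg_nbrX hA hXY
  have hx0 : x0 ≠ Y := fun e => hA.hY (e ▸ hA.mx)
  have e1 : ∀ w, w ∈ (if (x0 ∈ S ↔ X ∈ S) then ({x0} : Finset V) else ∅) ↔
      w = x0 ∧ (w ∈ S ↔ X ∈ S) := by
    intro w
    split_ifs with hc
    · rw [Finset.mem_singleton]
      exact ⟨fun h => ⟨h, h ▸ hc⟩, fun h => h.1⟩
    · simp only [Finset.notMem_empty, false_iff]
      rintro ⟨rfl, hh⟩
      exact hc hh
  ext w
  rw [mem_sm, Finset.mem_union, e1, Finset.mem_erase, Finset.mem_map]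
  constructor
  · rintro ⟨h3, h4⟩
    by_cases hw : w = x0
    · exact Or.inr ⟨hw, h4⟩
    · left
      have hwY : w ≠ Y := fun e => hn (e ▸ h3)
      have h5 : w ∈ ((rg G K X Y).neighborFinset ⟨X, hA.hX⟩).map (sub K) := by
        rw [h, Finset.mem_insert, Finset.mem_erase, SimpleGraph.mem_neighborFinset]
        exact Or.inr ⟨hw, h3⟩
      rw [Finset.mem_map] at h5
      obtain ⟨w', h6, rfl⟩ := h5
      rw [SimpleGraph.mem_neighborFinset] at h6
      exact ⟨hwY, w', mem_sm.2 ⟨h6, by rw [← hS w', ← hS ⟨X, hA.hX⟩]; exact h4⟩, rfl⟩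
  · rintro (⟨h1, w', h3, rfl⟩ | ⟨rfl, h4⟩)
    · rw [mem_sm] at h3
      have h5 : ((sub K) w') ∈ insert Y ((G.neighborFinset X).erase x0) := by
        rw [← h, Finset.mem_map]
        exact ⟨w', by rw [SimpleGraph.mem_neighborFinset]; exact h3.1, rfl⟩
      rw [Finset.mem_insert, Finset.mem_erase, SimpleGraph.mem_neighborFinset] at h5
      rcases h5 with h5 | h5
      · exact absurd h5 h1
      · refine ⟨h5.2, ?_⟩
        have := h3.2
        rw [← hS w', ← hS ⟨X, hA.hX⟩] at this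
        exact this
    · exact ⟨hA.aX, h4⟩

theorem glue_K (hA : Attach G K X Y x0 y0) (hT : ∀ v ∈ K, (v ∈ S ↔ v ∈ T)) {v : V} (hv : v ∈ K)
    (h1 : v ≠ x0) (h2 : v ≠ y0) : sm G S v = kn G K T v := by
  ext w
  rw [mem_sm, mem_kn]
  constructor
  · rintro ⟨h3, h4⟩
    have hw : w ∈ K := by
      by_contra hw
      rcases hA.out v hv w hw h3 with h | h
      · exact h1 h.1
      · exact h2 h.1
    exact ⟨hw, h3, by rw [← hT w hw, ← hT v hv]; exact h4⟩
  · rintro ⟨h3, h4, h5⟩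
    exact ⟨h4, by rw [hT w h3, hT v hv]; exact h5⟩

theorem glue_x0 (hA : Attach G K X Y x0 y0) (hT : ∀ v ∈ K, (v ∈ S ↔ v ∈ T)) :
    sm G S x0 = kn G K T x0 ∪ (if (X ∈ S ↔ x0 ∈ S) then {X} else ∅) := by
  have e1 : ∀ w, w ∈ (if (X ∈ S ↔ x0 ∈ S) then ({X} : Finset V) else ∅) ↔
      w = X ∧ (w ∈ S ↔ x0 ∈ S) := by
    intro w
    split_ifs with hc
    · rw [Finset.mem_singleton]
      exact ⟨fun h => ⟨h, h ▸ hc⟩, fun h => h.1⟩
    · simp only [Finset.notMem_empty, false_iff]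
      rintro ⟨rfl, h⟩
      exact hc h
  ext w
  rw [mem_sm, Finset.mem_union, mem_kn, e1]
  constructor
  · rintro ⟨h3, h4⟩
    by_cases hw : w ∈ K
    · left
      exact ⟨hw, h3, by rw [← hT w hw, ← hT x0 hA.mx]; exact h4⟩
    · right
      rcases hA.out x0 hA.mx w hw h3 with h | h
      · exact ⟨h.2, h4⟩
      · exact absurd h.1 hA.ne
  · rintro (⟨h3, h4, h5⟩ | ⟨rfl, h4⟩)
    · exact ⟨h4, by rw [hT w h3, hT x0 hA.mx]; exact h5⟩
    · exact ⟨hA.aX.symm, h4⟩

/-- Combine a colouring outside `K` with one on `K`. -/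
theorem exists_glue (S' : Finset {v // v ∉ K}) (hTK : T ⊆ K) : ∃ S : Finset V,
    (∀ v : {v // v ∉ K}, ((v : V) ∈ S ↔ v ∈ S')) ∧ (∀ v ∈ K, (v ∈ S ↔ v ∈ T)) := by
  refine ⟨S'.map (sub K) ∪ T, ?_, ?_⟩
  · intro v
    rw [Finset.mem_union, Finset.mem_map]
    constructor
    · rintro (⟨w, hw, e⟩ | h)
      · have : w = v := Subtype.ext e
        rw [← this]; exact hw
      · exact absurd (hTK h) v.2
    · intro h
      exact Or.inl ⟨v, h, rfl⟩
  · intro v hv
    rw [Finset.mem_union, Finset.mem_map]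
    constructor
    · rintro (⟨w, hw, e⟩ | h)
      · exact absurd hv (by rw [← e]; exact w.2)
      · exact h
    · exact Or.inr

theorem sum_sg_K (hT : ∀ v ∈ K, (v ∈ S ↔ v ∈ T)) (hTK : T ⊆ K) :
    ∑ v ∈ K, sg S v = 2 * (T.card : ℤ) - K.card := by
  have h1 : ∑ v ∈ K, sg S v = ∑ v ∈ K, (if v ∈ T then (2 : ℤ) else 0) - ∑ v ∈ K, 1 := by
    rw [← Finset.sum_sub_distrib]
    refine Finset.sum_congr rfl fun v hv => ?_
    unfold sg
    by_cases h : v ∈ T
    · rw [if_pos ((hT v hv).2 h), if_pos h]; norm_num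
    · rw [if_neg (fun h' => h ((hT v hv).1 h')), if_neg h]; norm_num
  rw [h1, ← Finset.sum_filter, Finset.sum_const, Finset.sum_const]
  have : K.filter (fun v => v ∈ T) = T := by
    ext v
    rw [Finset.mem_filter]
    exact ⟨fun h => h.2, fun h => ⟨hTK h, h⟩⟩
  rw [this]
  simp
  ring

end glue

end Pool.Agent.Lib.Ando.Dia
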