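import Mathlib
import Pool.Agent.Lib.Ando.DiaTrans

set_option autoImplicit false
set_option linter.unusedSectionVars false
set_option linter.unusedSimpArgs false

/-!
# Ando.DiaR1: the reduction R1

A ladder ending in a diamond, attached to two different non-adjacent vertices `X`, `Y`, can be
replaced by the edge `X Y`.
-/

namespace Pool.Agent.Lib.Ando.Dia

variable {V : Type*} [Fintype V] [DecidableEq V] {G : SimpleGraph V} [DecidableRel G.Adj]

theorem sd_of_map {W : Type*} [Fintype W] [DecidableEq W] {G' : SimpleGraph W}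
    [DecidableRel G'.Adj] (f : W ↪ V) {S : Finset V} {S' : Finset W} {v : V} {w : W}
    (h : sm G S v = (sm G' S' w).map f) : sd G S v = sd G' S' w := by
  unfold sd
  rw [h, Finset.card_map]

theorem qd_of_map {W : Type*} [Fintype W] [DecidableEq W] {G' : SimpleGraph W}
    [DecidableRel G'.Adj] (f : W ↪ V) {S : Finset V} {S' : Finset W} {v : V} {w : W}
    (h : sm G S v = (sm G' S' w).map f)
    (h2 : ∀ x ∈ sm G' S' w, (sd G S (f x) = 2 ↔ sd G' S' x = 2)) :
    qd G S v = qd G' S' w := by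
  unfold qd
  rw [h, Finset.filter_map, Finset.card_map]
  congr 1
  apply Finset.filter_congr
  intro x hx
  exact h2 x hx

/-- a sum over `K` with at most one non-zero term -/
theorem sum_K_single {K : Finset V} {f : V → ℤ} {a : V} (ha : a ∈ K)
    (h : ∀ v ∈ K, v ≠ a → f v = 0) : ∑ v ∈ K, f v = f a := by
  rw [Finset.sum_eq_single a]
  · exact fun b hb hne => h b hb hne
  · exact fun h' => absurd ha h'

theorem w1_zero {S : Finset V} {v : V} (h : sd G S v ≤ 1) : w1 G S v = 0 := by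
  unfold w1
  rw [if_neg (by omega)]

theorem w2_zero {S : Finset V} {v : V} (h : sd G S v ≤ 1) : w2 G S v = 0 := by
  unfold w2
  rw [if_neg (by omega)]

section

variable {K : Finset V} {X Y x0 y0 : V}

/-- The case of different colours. -/
theorem R1diff (hA : Attach G K X Y x0 y0) (hXY : X ≠ Y) (hn : ¬ G.Adj X Y)
    {S' : Finset {v // v ∉ K}} (hB : Bal (rg G K X Y) S')
    (hX' : (⟨X, hA.hX⟩ : {v // v ∉ K}) ∉ S') (hY' : (⟨Y, hA.hY⟩ : {v // v ∉ K}) ∈ S')
    {T : Finset V} (hTK : T ⊆ K) (hbal : 2 * T.card = K.card) (hx : x0 ∈ T) (hy : y0 ∉ T)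
    (hle : ∀ v ∈ K, kd G K T v ≤ 1) : GoodC G := by
  obtain ⟨S, hS, hT⟩ := exists_glue S' hTK
  have XS : X ∉ S := fun h => hX' ((hS ⟨X, hA.hX⟩).1 h)
  have YS : Y ∈ S := (hS ⟨Y, hA.hY⟩).2 hY'
  have xS : x0 ∈ S := (hT x0 hA.mx).2 hx
  have yS : y0 ∉ S := fun h => hy ((hT y0 hA.my).1 h)
  have hsm : ∀ v : {v // v ∉ K}, sm G S v = (sm (rg G K X Y) S' v).map (sub K) := by
    intro v
    by_cases h1 : (v : V) = X
    · obtain ⟨v, hv⟩ := v
      simp only at h1
      subst h1
      have h3 := glue_X hA hXY hn hS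
      rw [if_neg (by tauto), Finset.union_empty, Finset.erase_eq_of_notMem] at h3
      · exact h3
      · rw [Finset.mem_map]
        rintro ⟨w, hw, e⟩
        rw [mem_sm] at hw
        have : w = ⟨Y, hA.hY⟩ := Subtype.ext e
        rw [this] at hw
        tauto
    · by_cases h2 : (v : V) = Y
      · obtain ⟨v, hv⟩ := v
        simp only at h2
        subst h2
        have h3 := glue_X hA.symm hXY.symm (fun h => hn h.symm) hS
        rw [if_neg (by tauto), Finset.union_empty, Finset.erase_eq_of_notMem] at h3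
        · rw [h3]
          congr 1
          ext w
          rw [mem_sm, mem_sm, rg_comm]
        · rw [Finset.mem_map]
          rintro ⟨w, hw, e⟩
          rw [mem_sm] at hw
          have : w = ⟨X, hA.hX⟩ := Subtype.ext e
          rw [this] at hw
          tauto
      · exact glue_out hA hS v h1 h2
  have hsd : ∀ v : {v // v ∉ K}, sd G S v = sd (rg G K X Y) S' v :=
    fun v => sd_of_map (sub K) (hsm v)
  have hK : ∀ v ∈ K, sd G S v ≤ 1 := by
    intro v hv
    by_cases h1 : v = x0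
    · subst h1
      unfold sd
      rw [glue_x0 hA hT, if_neg (by tauto), Finset.union_empty]
      exact hle v hv
    · by_cases h2 : v = y0
      · subst h2
        unfold sd
        rw [glue_x0 hA.symm hT, if_neg (by tauto), Finset.union_empty]
        exact hle v hv
      · unfold sd
        rw [glue_K hA hT hv h1 h2]
        exact hle v hv
  refine goodC_of_bal (S := S) (bal_transfer G (rg G K X Y) K id Function.injective_id ∅ ?_ ∅ S S'
    hB hS ?_ ?_ ?_ ?_ ?_ ?_)
  · intro w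
    simp
  · intro v _
    refine ⟨hsd v, fun _ => ?_⟩
    exact qd_of_map (sub K) (hsm v) (fun x _ => by
      have := hsd x
      change sd G S x = 2 ↔ _
      rw [this])
  · simp
  · intro v hv
    have := hK v hv
    exact ⟨by omega, fun h => by omega⟩
  · rw [sum_sg_K hT hTK, Finset.sum_empty]
    have : (2 * T.card : ℤ) = K.card := by exact_mod_cast hbal
    linarith
  · rw [Finset.sum_empty, Finset.sum_empty, add_zero]
    exact Finset.sum_eq_zero fun v hv => w1_zero (hK v hv)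
  · rw [Finset.sum_empty, Finset.sum_empty, add_zero]
    exact Finset.sum_eq_zero fun v hv => w2_zero (hK v hv)

/-- The case of equal colours (both black). -/
theorem R1same (hA : Attach G K X Y x0 y0) (hXY : X ≠ Y) (hn : ¬ G.Adj X Y)
    {S' : Finset {v // v ∉ K}} (hB : Bal (rg G K X Y) S')
    (hX' : (⟨X, hA.hX⟩ : {v // v ∉ K}) ∉ S') (hY' : (⟨Y, hA.hY⟩ : {v // v ∉ K}) ∉ S')
    {T : Finset V} (hTK : T ⊆ K) (hbal : 2 * T.card = K.card) (hy : y0 ∉ T)
    (hle : ∀ v ∈ K, kd G K T v ≤ 1)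
    (hk : kd G K T y0 + 1 = sd (rg G K X Y) S' ⟨X, hA.hX⟩)
    (hx : x0 ∈ T ∨ (x0 ∉ T ∧ kd G K T x0 = 0 ∧ sd (rg G K X Y) S' ⟨X, hA.hX⟩ = 1))
    (h22 : sd (rg G K X Y) S' ⟨X, hA.hX⟩ = 2 → sd (rg G K X Y) S' ⟨Y, hA.hY⟩ = 2) :
    GoodC G := by
  obtain ⟨S, hS, hT⟩ := exists_glue S' hTK
  have XS : X ∉ S := fun h => hX' ((hS ⟨X, hA.hX⟩).1 h)
  have YS : Y ∉ S := fun h => hY' ((hS ⟨Y, hA.hY⟩).1 h)
  have yS : y0 ∉ S := fun h => hy ((hT y0 hA.my).1 h)
  have adjXY : (rg G K X Y).Adj ⟨X, hA.hX⟩ ⟨Y, hA.hY⟩ :=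
    ⟨fun e => hXY (congrArg Subtype.val e), Or.inr (Or.inl ⟨rfl, rfl⟩)⟩
  have YX : (⟨Y, hA.hY⟩ : {v // v ∉ K}) ∈ sm (rg G K X Y) S' ⟨X, hA.hX⟩ :=
    mem_sm.2 ⟨adjXY, by tauto⟩
  have XY : (⟨X, hA.hX⟩ : {v // v ∉ K}) ∈ sm (rg G K X Y) S' ⟨Y, hA.hY⟩ := sm_symm YX
  have hg4 := (good4_iff (rg G K X Y) S').1 hB.good
  have hXne : (x0 : V) ≠ Y := fun e => hA.hY (e ▸ hA.mx)
  -- the vertex X
  have smX := glue_X hA hXY hn hS
  have cX : (((sm (rg G K X Y) S' ⟨X, hA.hX⟩).map (sub K)).erase Y).card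
      = sd (rg G K X Y) S' ⟨X, hA.hX⟩ - 1 := by
    rw [Finset.card_erase_of_mem, Finset.card_map]
    · rfl
    · exact Finset.mem_map.2 ⟨_, YX, rfl⟩
  have sdX2 := (hg4 ⟨X, hA.hX⟩).1
  have sdX : sd G S X ≤ 1 := by
    unfold sd
    rw [smX]
    rcases hx with hx | ⟨hx, -, h1⟩
    · have : x0 ∈ S := (hT x0 hA.mx).2 hx
      rw [if_neg (by tauto), Finset.union_empty, cX]
      omega
    · refine (Finset.card_union_le _ _).trans ?_
      rw [cX, h1]
      split_ifs <;> simp
  -- the vertex Y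
  have smY := glue_X hA.symm hXY.symm (fun h => hn h.symm) hS
  have ecomm : sm (rg G K Y X) S' ⟨Y, hA.hY⟩ = sm (rg G K X Y) S' ⟨Y, hA.hY⟩ := by
    ext w
    rw [mem_sm, mem_sm, rg_comm]
  rw [if_pos (by tauto), ecomm] at smY
  have y0n : y0 ∉ ((sm (rg G K X Y) S' ⟨Y, hA.hY⟩).map (sub K)).erase X := by
    intro h
    rw [Finset.mem_erase, Finset.mem_map] at h
    obtain ⟨-, w, -, e⟩ := h
    exact w.2 (by rw [show (w : V) = y0 from e]; exact hA.my)
  have sdY : sd G S Y = sd (rg G K X Y) S' ⟨Y, hA.hY⟩ := by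
    unfold sd
    rw [smY, Finset.card_union_of_disjoint (by simpa using y0n), Finset.card_erase_of_mem,
      Finset.card_map, Finset.card_singleton]
    · have : 0 < (sm (rg G K X Y) S' ⟨Y, hA.hY⟩).card := Finset.card_pos.2 ⟨_, XY⟩
      omega
    · exact Finset.mem_map.2 ⟨_, XY, rfl⟩
  -- the vertices of K
  have smy := glue_x0 hA.symm hT
  rw [if_pos (by tauto)] at smy
  have Yn : Y ∉ kn G K T y0 := fun h => hA.hY (mem_kn.1 h).1
  have sdy : sd G S y0 = sd (rg G K X Y) S' ⟨X, hA.hX⟩ := by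
    unfold sd
    rw [smy, Finset.card_union_of_disjoint (by simpa using Yn), Finset.card_singleton]
    exact hk
  have hK : ∀ v ∈ K, v ≠ y0 → sd G S v ≤ 1 := by
    intro v hv h2
    by_cases h1 : v = x0
    · subst h1
      unfold sd
      rw [glue_x0 hA hT]
      rcases hx with hx | ⟨hx, h3, -⟩
      · have : v ∈ S := (hT v hA.mx).2 hx
        rw [if_neg (by tauto), Finset.union_empty]
        exact hle v hv
      · refine (Finset.card_union_le _ _).trans ?_
        unfold kd at h3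
        rw [h3]
        split_ifs <;> simp
    · unfold sd
      rw [glue_K hA hT hv h1 h2]
      exact hle v hv
  have hsd : ∀ v : {v // v ∉ K}, (v : V) ≠ X → sd G S v = sd (rg G K X Y) S' v := by
    intro v h1
    by_cases h2 : (v : V) = Y
    · obtain ⟨v, hv⟩ := v
      simp only at h2
      subst h2
      exact sdY
    · exact sd_of_map (sub K) (glue_out hA hS v h1 h2)
  have sdX0 : (sd G S X = 2 ↔ False) := by
    constructor
    · intro h; omega
    · exact False.elim
  -- numbers of neighbours of degree two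
  have hqY : qd G S Y = qd (rg G K X Y) S' ⟨Y, hA.hY⟩ := by
    unfold qd
    rw [smY, Finset.filter_union, Finset.card_union_of_disjoint]
    · have e1 : (sm (rg G K X Y) S' ⟨Y, hA.hY⟩) =
          insert ⟨X, hA.hX⟩ ((sm (rg G K X Y) S' ⟨Y, hA.hY⟩).erase ⟨X, hA.hX⟩) :=
        (Finset.insert_erase XY).symm
      have e2 : (((sm (rg G K X Y) S' ⟨Y, hA.hY⟩).map (sub K)).erase X)
          = ((sm (rg G K X Y) S' ⟨Y, hA.hY⟩).erase ⟨X, hA.hX⟩).map (sub K) := by
        rw [Finset.map_erase]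
        rfl
      have e3 : ((((sm (rg G K X Y) S' ⟨Y, hA.hY⟩).erase ⟨X, hA.hX⟩).map (sub K)).filter
          (fun w => sd G S w = 2)).card = (((sm (rg G K X Y) S' ⟨Y, hA.hY⟩).erase
          ⟨X, hA.hX⟩).filter (fun w => sd (rg G K X Y) S' w = 2)).card := by
        rw [Finset.filter_map, Finset.card_map]
        congr 1
        apply Finset.filter_congr
        intro x hx
        have hxX : (x : V) ≠ X := fun e => (Finset.mem_erase.1 hx).1 (Subtype.ext e)
        change sd G S x = 2 ↔ _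
        rw [hsd x hxX]
      rw [e2, e3]
      conv_rhs => rw [e1]
      rw [Finset.filter_insert, Finset.filter_singleton]
      by_cases h : sd (rg G K X Y) S' ⟨X, hA.hX⟩ = 2
      · rw [if_pos h, if_pos (by rw [sdy]; exact h), Finset.card_insert_of_notMem,
          Finset.card_singleton]
        simp
      · rw [if_neg h, if_neg (by rw [sdy]; exact h)]
        simp
    · apply Finset.disjoint_filter_filter
      simpa using y0n
  have key : ∀ v : {v // v ∉ K}, (v : V) ≠ X → sd (rg G K X Y) S' v = 2 →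
      qd G S v = qd (rg G K X Y) S' v := by
    intro v h1 h3
    by_cases h2 : (v : V) = Y
    · obtain ⟨v, hv⟩ := v
      simp only at h2
      subst h2
      exact hqY
    · refine qd_of_map (sub K) (glue_out hA hS v h1 h2) ?_
      intro x hx
      by_cases hxX : (x : V) = X
      · exfalso
        have ex : x = ⟨X, hA.hX⟩ := Subtype.ext hxX
        rw [ex] at hx
        have hv := sm_symm hx
        have hvY : v ≠ ⟨Y, hA.hY⟩ := fun e => h2 (congrArg Subtype.val e)
        have h5 : 1 < (sm (rg G K X Y) S' ⟨X, hA.hX⟩).card :=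
          Finset.one_lt_card.2 ⟨v, hv, _, YX, hvY⟩
        have h6 : sd (rg G K X Y) S' ⟨X, hA.hX⟩ = 2 := by
          unfold sd at sdX2 ⊢
          omega
        have h7 := h22 h6
        have h8 := (hg4 ⟨X, hA.hX⟩).2 h6
        have h9 : 1 < qd (rg G K X Y) S' ⟨X, hA.hX⟩ :=
          Finset.one_lt_card.2 ⟨v, Finset.mem_filter.2 ⟨hv, h3⟩, _,
            Finset.mem_filter.2 ⟨YX, h7⟩, hvY⟩
        omega
      · change sd G S x = 2 ↔ _
        rw [hsd x hxX]
  -- the vertex y0 when its degree is two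
  have hqy : sd (rg G K X Y) S' ⟨X, hA.hX⟩ = 2 → qd G S y0 = 1 ∧
      qd (rg G K X Y) S' ⟨X, hA.hX⟩ = 1 := by
    intro h
    have h7 := h22 h
    constructor
    · unfold qd
      rw [smy, Finset.filter_union, Finset.card_union_of_disjoint]
      · rw [Finset.filter_singleton, if_pos (by rw [sdY]; exact h7), Finset.card_singleton,
          Finset.card_eq_zero.2, zero_add]
        apply Finset.filter_eq_empty_iff.2
        intro w hw
        have hwK := (mem_kn.1 hw).1
        have hwy : w ≠ y0 := (mem_kn.1 hw).2.1.ne'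
        have := hK w hwK hwy
        omega
      · apply Finset.disjoint_filter_filter
        simpa using Yn
    · have h8 := (hg4 ⟨X, hA.hX⟩).2 h
      have h9 : 0 < qd (rg G K X Y) S' ⟨X, hA.hX⟩ :=
        Finset.card_pos.2 ⟨_, Finset.mem_filter.2 ⟨YX, h7⟩⟩
      omega
  refine goodC_of_bal (S := S) (bal_transfer G (rg G K X Y) K id Function.injective_id ∅ ?_
    {⟨X, hA.hX⟩} S S' hB hS ?_ ?_ ?_ ?_ ?_ ?_)
  · intro w
    simp
  · intro v hv
    rw [Finset.mem_singleton] at hv
    have hvX : (v : V) ≠ X := fun e => hv (Subtype.ext e)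
    exact ⟨hsd v hvX, key v hvX⟩
  · intro v hv
    rw [Finset.mem_singleton] at hv
    rw [hv]
    exact sdX
  · intro v hv
    by_cases h2 : v = y0
    · subst h2
      rw [sdy]
      exact ⟨sdX2, fun h => (hqy h).1.le⟩
    · have := hK v hv h2
      exact ⟨by omega, fun h => by omega⟩
  · rw [sum_sg_K hT hTK, Finset.sum_empty]
    have : (2 * T.card : ℤ) = K.card := by exact_mod_cast hbal
    linarith
  · rw [Finset.sum_empty, add_zero, Finset.sum_singleton,
      sum_K_single hA.my (fun v hv h2 => w1_zero (hK v hv h2))]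
    unfold w1 sg
    rw [sdy, if_neg yS]
    simp only [id, if_neg hX']
  · rw [Finset.sum_empty, add_zero, Finset.sum_singleton,
      sum_K_single hA.my (fun v hv h2 => w2_zero (hK v hv h2))]
    unfold w2 sg
    rw [sdy, if_neg yS]
    simp only [id, if_neg hX']
    split_ifs with h
    · rw [(hqy h).1, (hqy h).2]
    · rfl

end

/-- R1. -/
theorem Lad.R1 (hG : G.IsRegularOfDegree 3) {n : ℕ} {X Y x0 y0 : V} {K : Finset V}
    (h : Lad G n X Y x0 y0 K) (hXY : X ≠ Y) (hn : ¬ G.Adj X Y) (hg : GoodC (rg G K X Y)) :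
    GoodC G := by
  have hA := h.attach hG
  obtain ⟨S', hB, hX'⟩ := exists_bal_black hg ⟨X, hA.hX⟩
  by_cases hY' : (⟨Y, hA.hY⟩ : {v // v ∉ K}) ∈ S'
  · obtain ⟨T, hTK, t1, t2, t3, t4, -⟩ := h.patA hG
    exact R1diff hA hXY hn hB hX' hY' hTK t1 t2 t3 t4
  · have adjXY : (rg G K X Y).Adj ⟨X, hA.hX⟩ ⟨Y, hA.hY⟩ :=
      ⟨fun e => hXY (congrArg Subtype.val e), Or.inr (Or.inl ⟨rfl, rfl⟩)⟩
    have YX : (⟨Y, hA.hY⟩ : {v // v ∉ K}) ∈ sm (rg G K X Y) S' ⟨X, hA.hX⟩ :=
      mem_sm.2 ⟨adjXY, by tauto⟩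
    have XY : (⟨X, hA.hX⟩ : {v // v ∉ K}) ∈ sm (rg G K X Y) S' ⟨Y, hA.hY⟩ := sm_symm YX
    have hg4 := (good4_iff (rg G K X Y) S').1 hB.good
    have p1 : 0 < sd (rg G K X Y) S' ⟨X, hA.hX⟩ := Finset.card_pos.2 ⟨_, YX⟩
    have p2 : 0 < sd (rg G K X Y) S' ⟨Y, hA.hY⟩ := Finset.card_pos.2 ⟨_, XY⟩
    have q1 := (hg4 ⟨X, hA.hX⟩).1
    have q2 := (hg4 ⟨Y, hA.hY⟩).1
    have one : ∀ {X Y x0 y0 : V} (h : Lad G n X Y x0 y0 K) (hA : Attach G K X Y x0 y0)
        (hXY : X ≠ Y) (hn : ¬ G.Adj X Y) {S' : Finset {v // v ∉ K}} (hB : Bal (rg G K X Y) S')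
        (hX' : (⟨X, hA.hX⟩ : {v // v ∉ K}) ∉ S') (hY' : (⟨Y, hA.hY⟩ : {v // v ∉ K}) ∉ S')
        (h1 : sd (rg G K X Y) S' ⟨X, hA.hX⟩ = 1), GoodC G := by
      intro X Y x0 y0 h hA hXY hn S' hB hX' hY' h1
      rcases n with _ | n
      · obtain ⟨T, hTK, t1, t2, t3, t4, t5, t6⟩ := h.patB0
        exact R1same hA hXY hn hB hX' hY' hTK t1 t3 t4 (by rw [t6, h1]) (Or.inr ⟨t2, t5, h1⟩)
          (fun h => by omega)
      · obtain ⟨T, hTK, t1, t2, t3, t4, t5⟩ := h.patA hG
        exact R1same hA hXY hn hB hX' hY' hTK t1 t3 t4 (by rw [(t5 (by omega)).2, h1])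
          (Or.inl t2) (fun h => by omega)
    by_cases h1 : sd (rg G K X Y) S' ⟨X, hA.hX⟩ = 1
    · exact one h hA hXY hn hB hX' hY' h1
    · by_cases h2 : sd (rg G K X Y) S' ⟨Y, hA.hY⟩ = 1
      · have hB' : Bal (rg G K Y X) S' := by
          have e := rg_comm G K X Y
          refine ⟨?_, hB.s0, ?_, ?_⟩
          · have := hB.good
            revert this
            unfold Good4 sd sm
            simp only [e]
            exact id
          · have := hB.s1
            revert this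
            unfold w1 sd sm
            simp only [e]
            exact id
          · have := hB.s2
            revert this
            unfold w2 qd sd sm
            simp only [e]
            exact id
        have e2 : sd (rg G K Y X) S' ⟨Y, hA.hY⟩ = 1 := by
          rw [← h2]
          unfold sd sm
          simp only [rg_comm G K X Y]
        exact one h.symm hA.symm hXY.symm (fun h => hn h.symm) hB' hY' hX' e2
      · obtain ⟨T, hTK, t1, t2, t3, t4, t5⟩ := h.patC hG
        exact R1same hA hXY hn hB hX' hY' hTK t1 t3 t4 (by rw [t5]; omega) (Or.inl t2)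
          (fun _ => by omega)

end Pool.Agent.Lib.Ando.Dia
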