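import Mathlib
import Pool.Agent.Lib.Ando.DiaR1

set_option autoImplicit false
set_option linter.unusedSectionVars false
set_option linter.unusedSimpArgs false

/-!
# Ando.DiaR2: the reduction R2

A ladder with at least two rungs ending in a diamond, attached on both sides to the same vertex
`x`, can be replaced by a bare diamond.
-/

namespace Pool.Agent.Lib.Ando.Dia

variable {V : Type*} [Fintype V] [DecidableEq V] {G : SimpleGraph V} [DecidableRel G.Adj]

/-- adjacency in the diamond `0; 1, 2; 3` -/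
def dia (i j : Fin 4) : Bool := decide (i ≠ j ∧ ¬ (i = 0 ∧ j = 3) ∧ ¬ (i = 3 ∧ j = 0))

theorem dia_symm : ∀ i j : Fin 4, dia i j = true → dia j i = true := by decide
theorem dia_irrefl : ∀ i : Fin 4, ¬ dia i i = true := by decide

/-- Replace `K` by a diamond attached to `x`. -/
def rd (G : SimpleGraph V) (K : Finset V) (x : V) : SimpleGraph ({v // v ∉ K} ⊕ Fin 4) where
  Adj p q := match p, q with
    | .inl v, .inl w => G.Adj v w
    | .inl v, .inr i => (v : V) = x ∧ (i = 0 ∨ i = 3)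
    | .inr i, .inl v => (v : V) = x ∧ (i = 0 ∨ i = 3)
    | .inr i, .inr j => dia i j = true
  symm := ⟨by
    rintro (v | i) (w | j) h
    · exact h.symm
    · exact h
    · exact h
    · exact dia_symm i j h⟩
  loopless := ⟨by
    rintro (v | i) h
    · exact h.ne rfl
    · exact dia_irrefl i h⟩

instance (K : Finset V) (x : V) : DecidableRel (rd G K x).Adj := by
  rintro (v | i) (w | j)
  · exact inferInstanceAs (Decidable (G.Adj v w))
  · exact inferInstanceAs (Decidable ((v : V) = x ∧ (j = 0 ∨ j = 3)))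
  · exact inferInstanceAs (Decidable ((w : V) = x ∧ (i = 0 ∨ i = 3)))
  · exact inferInstanceAs (Decidable (dia i j = true))

/-- the embedding of the diamond -/
abbrev eR (K : Finset V) : Fin 4 ↪ {v // v ∉ K} ⊕ Fin 4 := Function.Embedding.inr

/-- the embedding of the rest -/
abbrev eL (K : Finset V) : {v // v ∉ K} ↪ {v // v ∉ K} ⊕ Fin 4 := Function.Embedding.inl

section

variable {K : Finset V} {x x0 y0 : V}

theorem rd_ll (v w : {v // v ∉ K}) : (rd G K x).Adj (.inl v) (.inl w) ↔ G.Adj v w := Iff.rfl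
theorem rd_lr (v : {v // v ∉ K}) (i : Fin 4) :
    (rd G K x).Adj (.inl v) (.inr i) ↔ (v : V) = x ∧ (i = 0 ∨ i = 3) := Iff.rfl
theorem rd_rl (v : {v // v ∉ K}) (i : Fin 4) :
    (rd G K x).Adj (.inr i) (.inl v) ↔ (v : V) = x ∧ (i = 0 ∨ i = 3) := Iff.rfl
theorem rd_rr (i j : Fin 4) :
    (rd G K x).Adj (.inr i) (.inr j) ↔ dia i j = true := Iff.rfl

theorem rd_regular (hG : G.IsRegularOfDegree 3) (hA : Attach G K x x x0 y0) :
    (rd G K x).IsRegularOfDegree 3 := by
  have hnK : ∀ v : {v // v ∉ K}, (G.neighborFinset v) \ K =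
      (Finset.univ.filter (fun w : {v // v ∉ K} => G.Adj v w)).map (sub K) := by
    intro v
    ext w
    rw [Finset.mem_sdiff, SimpleGraph.mem_neighborFinset, Finset.mem_map]
    constructor
    · rintro ⟨h1, h2⟩
      exact ⟨⟨w, h2⟩, by simpa using h1, rfl⟩
    · rintro ⟨w', h1, rfl⟩
      exact ⟨by simpa using h1, w'.2⟩
  rintro (v | i)
  · have h1 : (rd G K x).neighborFinset (.inl v) =
        ((Finset.univ.filter (fun w : {v // v ∉ K} => G.Adj v w)).map (eL K)) ∪
          (if (v : V) = x then {Sum.inr 0, Sum.inr 3} else ∅) := by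
      ext p
      rw [SimpleGraph.mem_neighborFinset, Finset.mem_union, Finset.mem_map]
      rcases p with w | j
      · rw [rd_ll]
        constructor
        · intro h
          exact Or.inl ⟨w, by simpa using h, rfl⟩
        · rintro (⟨w', h, e⟩ | h)
          · have : w' = w := Sum.inl_injective e
            rw [← this]; simpa using h
          · split_ifs at h <;> simp at h
      · rw [rd_lr]
        constructor
        · rintro ⟨h1, h2⟩
          right
          rw [if_pos h1]
          rcases h2 with rfl | rfl <;> simp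
        · rintro (⟨w', h, e⟩ | h)
          · exact absurd e (by simp)
          · split_ifs at h with hc
            · refine ⟨hc, ?_⟩
              simpa using h
            · simp at h
    rw [← SimpleGraph.card_neighborFinset_eq_degree, h1, Finset.card_union_of_disjoint,
      Finset.card_map, ← Finset.card_map (sub K), ← hnK]
    · by_cases hv : (v : V) = x
      · rw [if_pos hv]
        have h2 : (G.neighborFinset v) \ K = ((G.neighborFinset v).erase x0).erase y0 := by
          ext w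
          rw [Finset.mem_sdiff, Finset.mem_erase, Finset.mem_erase, SimpleGraph.mem_neighborFinset]
          constructor
          · rintro ⟨h3, h4⟩
            exact ⟨fun e => h4 (e ▸ hA.my), fun e => h4 (e ▸ hA.mx), h3⟩
          · rintro ⟨h3, h4, h5⟩
            refine ⟨h5, fun hw => ?_⟩
            rcases hA.out w hw v v.2 h5.symm with h | h
            · exact h4 h.1
            · exact h3 h.1
        rw [h2, Finset.card_erase_of_mem, Finset.card_erase_of_mem,
          SimpleGraph.card_neighborFinset_eq_degree, hG]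
        · simp
        · rw [SimpleGraph.mem_neighborFinset, hv]; exact hA.aX
        · rw [Finset.mem_erase, SimpleGraph.mem_neighborFinset, hv]
          exact ⟨hA.ne.symm, hA.aY⟩
      · rw [if_neg hv]
        have h2 : (G.neighborFinset v) \ K = G.neighborFinset v := by
          apply Finset.sdiff_eq_self_of_disjoint
          rw [Finset.disjoint_left]
          intro w h3 h4
          rw [SimpleGraph.mem_neighborFinset] at h3
          rcases hA.out w h4 v v.2 h3.symm with h | h
          · exact hv h.2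
          · exact hv h.2
        rw [h2, SimpleGraph.card_neighborFinset_eq_degree, hG]
        simp
    · rw [Finset.disjoint_left]
      intro p hp
      rw [Finset.mem_map] at hp
      obtain ⟨w, -, rfl⟩ := hp
      split_ifs <;> simp
  · have h1 : (rd G K x).neighborFinset (.inr i) =
        ((Finset.univ.filter (fun j => dia i j = true)).map (eR K)) ∪
          (if i = 0 ∨ i = 3 then {Sum.inl ⟨x, hA.hX⟩} else ∅) := by
      ext p
      rw [SimpleGraph.mem_neighborFinset, Finset.mem_union, Finset.mem_map]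
      rcases p with w | j
      · rw [rd_rl]
        constructor
        · rintro ⟨h1, h2⟩
          right
          rw [if_pos h2, Finset.mem_singleton]
          congr 1
          exact Subtype.ext h1
        · rintro (⟨w', h, e⟩ | h)
          · exact absurd e (by simp)
          · split_ifs at h with hc
            · rw [Finset.mem_singleton] at h
              have := Sum.inl_injective h
              exact ⟨by rw [this], hc⟩
            · simp at h
      · rw [rd_rr]
        constructor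
        · intro h
          exact Or.inl ⟨j, by simpa using h, rfl⟩
        · rintro (⟨j', h, e⟩ | h)
          · have : j' = j := Sum.inr_injective e
            rw [← this]; simpa using h
          · split_ifs at h <;> simp at h
    rw [← SimpleGraph.card_neighborFinset_eq_degree, h1, Finset.card_union_of_disjoint,
      Finset.card_map]
    · revert i
      intro i _
      fin_cases i <;> simp [dia] <;> decide
    · rw [Finset.disjoint_left]
      intro p hp
      rw [Finset.mem_map] at hp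
      obtain ⟨w, -, rfl⟩ := hp
      split_ifs <;> simp

/-- neighbours of the same colour outside `K` -/
def mS (G : SimpleGraph V) [DecidableRel G.Adj] (K : Finset V)
    (S' : Finset ({v // v ∉ K} ⊕ Fin 4)) (v : {v // v ∉ K}) : Finset {v // v ∉ K} :=
  Finset.univ.filter (fun w => G.Adj v w ∧ (Sum.inl w ∈ S' ↔ Sum.inl v ∈ S'))

theorem mem_mS {S' : Finset ({v // v ∉ K} ⊕ Fin 4)} {v w : {v // v ∉ K}} :
    w ∈ mS G K S' v ↔ G.Adj v w ∧ (Sum.inl w ∈ S' ↔ Sum.inl v ∈ S') := by
  simp [mS]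

/-- colours of the diamond -/
def cc (S' : Finset ({v // v ∉ K} ⊕ Fin 4)) (i : Fin 4) : Bool := decide (Sum.inr i ∈ S')

theorem cc_true {S' : Finset ({v // v ∉ K} ⊕ Fin 4)} {i : Fin 4} :
    cc S' i = true ↔ Sum.inr i ∈ S' := by simp [cc]

theorem cc_eq {S' : Finset ({v // v ∉ K} ⊕ Fin 4)} {i j : Fin 4} :
    cc S' i = cc S' j ↔ (Sum.inr i ∈ S' ↔ Sum.inr j ∈ S') := by
  rw [← cc_true, ← cc_true]
  cases cc S' i <;> cases cc S' j <;> simp

variable {S' : Finset ({v // v ∉ K} ⊕ Fin 4)}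

theorem rd_sm_v (v : {v // v ∉ K}) (hv : (v : V) ≠ x) :
    sm (rd G K x) S' (.inl v) = (mS G K S' v).map (eL K) := by
  ext p
  rw [mem_sm, Finset.mem_map]
  rcases p with w | j
  · rw [rd_ll]
    constructor
    · intro h
      exact ⟨w, mem_mS.2 h, rfl⟩
    · rintro ⟨w', h, e⟩
      have : w' = w := Sum.inl_injective e
      rw [← this]; exact mem_mS.1 h
  · rw [rd_lr]
    constructor
    · rintro ⟨⟨h, -⟩, -⟩
      exact absurd h hv
    · rintro ⟨w', h, e⟩
      exact absurd e (by simp)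

theorem rd_sm_x (hA : Attach G K x x x0 y0) (hx : Sum.inl ⟨x, hA.hX⟩ ∉ S') :
    sm (rd G K x) S' (.inl ⟨x, hA.hX⟩) = (mS G K S' ⟨x, hA.hX⟩).map (eL K) ∪
      (Finset.univ.filter (fun i : Fin 4 => (i = 0 ∨ i = 3) ∧ cc S' i = false)).map (eR K) := by
  ext p
  rw [mem_sm, Finset.mem_union, Finset.mem_map, Finset.mem_map]
  rcases p with w | j
  · rw [rd_ll]
    constructor
    · intro h
      exact Or.inl ⟨w, mem_mS.2 h, rfl⟩
    · rintro (⟨w', h, e⟩ | ⟨j, h, e⟩)
      · have : w' = w := Sum.inl_injective e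
        rw [← this]; exact mem_mS.1 h
      · exact absurd e (by simp)
  · rw [rd_lr]
    constructor
    · rintro ⟨⟨-, h⟩, h2⟩
      right
      refine ⟨j, ?_, rfl⟩
      rw [Finset.mem_filter]
      refine ⟨Finset.mem_univ _, h, ?_⟩
      have : ¬ cc S' j = true := fun h3 => hx (h2.1 (cc_true.1 h3))
      simpa using this
    · rintro (⟨w', h, e⟩ | ⟨j', h, e⟩)
      · exact absurd e (by simp)
      · have e' : j' = j := Sum.inr_injective e
        rw [e', Finset.mem_filter] at h
        refine ⟨⟨rfl, h.2.1⟩, ?_⟩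
        have : ¬ Sum.inr j ∈ S' := fun h3 => by
          have := cc_true.2 h3
          rw [h.2.2] at this
          exact absurd this (by simp)
        tauto

theorem rd_sm_r (hA : Attach G K x x x0 y0) (hx : Sum.inl ⟨x, hA.hX⟩ ∉ S') (i : Fin 4) :
    sm (rd G K x) S' (.inr i) =
      (Finset.univ.filter (fun j => dia i j = true ∧ cc S' j = cc S' i)).map (eR K) ∪
      (if (i = 0 ∨ i = 3) ∧ cc S' i = false then {Sum.inl ⟨x, hA.hX⟩} else ∅) := by
  ext p
  rw [mem_sm, Finset.mem_union, Finset.mem_map]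
  rcases p with w | j
  · rw [rd_rl]
    constructor
    · rintro ⟨⟨h1, h2⟩, h3⟩
      right
      have e : w = ⟨x, hA.hX⟩ := Subtype.ext h1
      rw [e] at h3
      have : ¬ cc S' i = true := fun h4 => hx (h3.2 (cc_true.1 h4))
      rw [if_pos ⟨h2, by simpa using this⟩, Finset.mem_singleton, e]
    · rintro (⟨w', h, e⟩ | h)
      · exact absurd e (by simp)
      · split_ifs at h with hc
        · rw [Finset.mem_singleton] at h
          have e := Sum.inl_injective h
          refine ⟨⟨by rw [e], hc.1⟩, ?_⟩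
          rw [e]
          have : ¬ Sum.inr i ∈ S' := fun h3 => by
            have := cc_true.2 h3
            rw [hc.2] at this
            exact absurd this (by simp)
          tauto
        · simp at h
  · rw [rd_rr]
    constructor
    · rintro ⟨h1, h2⟩
      left
      refine ⟨j, ?_, rfl⟩
      rw [Finset.mem_filter]
      exact ⟨Finset.mem_univ _, h1, cc_eq.2 h2⟩
    · rintro (⟨j', h, e⟩ | h)
      · have e' : j' = j := Sum.inr_injective e
        rw [e', Finset.mem_filter] at h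
        exact ⟨h.2.1, cc_eq.1 h.2.2⟩
      · split_ifs at h <;> simp at h

end

/-- The number of neighbours of the same colour in the diamond, the outer neighbour being black. -/
def sc (c : Fin 4 → Bool) (i : Fin 4) : ℕ :=
  (Finset.univ.filter (fun j => dia i j = true ∧ c j = c i)).card +
    (if (i = 0 ∨ i = 3) ∧ c i = false then 1 else 0)

/-- Neighbours inside the diamond of degree two. -/
def qc (c : Fin 4 → Bool) (i : Fin 4) : ℕ :=
  (Finset.univ.filter (fun j => (dia i j = true ∧ c j = c i) ∧ sc c j = 2)).card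

/-- The number of neighbours of the outer vertex. -/
def nx (c : Fin 4 → Bool) : ℕ :=
  (Finset.univ.filter (fun i : Fin 4 => (i = 0 ∨ i = 3) ∧ c i = false)).card

/-- those of degree two -/
def nq (c : Fin 4 → Bool) : ℕ :=
  (Finset.univ.filter (fun i : Fin 4 => ((i = 0 ∨ i = 3) ∧ c i = false) ∧ sc c i = 2)).card

def sgc (b : Bool) : ℤ := if b then 1 else -1

theorem classify : ∀ c : Fin 4 → Bool, (∀ i, sc c i ≤ 2) → (∀ i, sc c i = 2 → qc c i ≤ 1) →
    (nx c = 0 ∧ ∑ i, sgc (c i) = 0 ∧ ∀ i, sc c i ≤ 1) ∨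
    (nx c = 0 ∧ ∑ i, sgc (c i) = 2 ∧ (∑ i, if sc c i = 2 then sgc (c i) else 0) = 1 ∧
      ∀ i, sc c i = 2 → qc c i = 0 ∧ ¬ ((i = 0 ∨ i = 3) ∧ c i = false)) ∨
    (nx c = 1 ∧ ∑ i, sgc (c i) = 0 ∧ (∑ i, if sc c i = 2 then sgc (c i) else 0) = -1 ∧
      nq c = 1 ∧ ∀ i, sc c i = 2 → qc c i = 0 ∧ ((i = 0 ∨ i = 3) ∧ c i = false)) ∨
    (nx c = 2 ∧ ∑ i, sgc (c i) = 0 ∧ ∀ i, sc c i ≤ 1) := by
  decide +kernel

section

variable {K : Finset V} {x x0 y0 : V} {S' : Finset ({v // v ∉ K} ⊕ Fin 4)} {S T : Finset V}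

theorem rdg_v (hA : Attach G K x x x0 y0)
    (hS : ∀ v : {v // v ∉ K}, ((v : V) ∈ S ↔ Sum.inl v ∈ S')) (v : {v // v ∉ K})
    (hv : (v : V) ≠ x) : sm G S v = (mS G K S' v).map (sub K) := by
  ext w
  rw [mem_sm, Finset.mem_map]
  constructor
  · rintro ⟨h3, h4⟩
    have hw : w ∉ K := by
      intro hw
      rcases hA.out w hw v v.2 h3.symm with h | h
      · exact hv h.2
      · exact hv h.2
    exact ⟨⟨w, hw⟩, mem_mS.2 ⟨h3, by rw [← hS, ← hS]; exact h4⟩, rfl⟩
  · rintro ⟨w', h3, rfl⟩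
    rw [mem_mS, ← hS, ← hS] at h3
    exact h3

theorem rdg_x (hA : Attach G K x x x0 y0)
    (hS : ∀ v : {v // v ∉ K}, ((v : V) ∈ S ↔ Sum.inl v ∈ S')) :
    sm G S x = (mS G K S' ⟨x, hA.hX⟩).map (sub K) ∪
      ((if (x0 ∈ S ↔ x ∈ S) then {x0} else ∅) ∪ (if (y0 ∈ S ↔ x ∈ S) then {y0} else ∅)) := by
  have e1 : ∀ y w : V, w ∈ (if (y ∈ S ↔ x ∈ S) then ({y} : Finset V) else ∅) ↔
      w = y ∧ (w ∈ S ↔ x ∈ S) := by
    intro y w
    split_ifs with hc
    · rw [Finset.mem_singleton]
      exact ⟨fun h => ⟨h, h ▸ hc⟩, fun h => h.1⟩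
    · simp only [Finset.notMem_empty, false_iff]
      rintro ⟨rfl, h⟩
      exact hc h
  ext w
  rw [mem_sm, Finset.mem_union, Finset.mem_union, e1, e1, Finset.mem_map]
  constructor
  · rintro ⟨h3, h4⟩
    by_cases hw : w ∈ K
    · right
      rcases hA.out w hw x hA.hX h3.symm with h | h
      · exact Or.inl ⟨h.1, h4⟩
      · exact Or.inr ⟨h.1, h4⟩
    · left
      refine ⟨⟨w, hw⟩, mem_mS.2 ⟨h3, ?_⟩, rfl⟩
      rw [← hS, ← hS]
      exact h4
  · rintro (⟨w', h3, rfl⟩ | ⟨rfl, h4⟩ | ⟨rfl, h4⟩)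
    · rw [mem_mS, ← hS, ← hS] at h3
      exact h3
    · exact ⟨hA.aX, h4⟩
    · exact ⟨hA.aY, h4⟩

theorem sd_r (hA : Attach G K x x x0 y0) (hx : Sum.inl ⟨x, hA.hX⟩ ∉ S') (i : Fin 4) :
    sd (rd G K x) S' (.inr i) = sc (cc S') i := by
  unfold sd sc
  rw [rd_sm_r hA hx, Finset.card_union_of_disjoint, Finset.card_map]
  · congr 1
    split_ifs <;> simp
  · rw [Finset.disjoint_left]
    intro p hp
    rw [Finset.mem_map] at hp
    obtain ⟨w, -, rfl⟩ := hp
    split_ifs <;> simp

theorem qd_r (hA : Attach G K x x x0 y0) (hx : Sum.inl ⟨x, hA.hX⟩ ∉ S') (i : Fin 4) :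
    qd (rd G K x) S' (.inr i) = qc (cc S') i +
      (if ((i = 0 ∨ i = 3) ∧ cc S' i = false) ∧ sd (rd G K x) S' (.inl ⟨x, hA.hX⟩) = 2
        then 1 else 0) := by
  unfold qd qc
  rw [rd_sm_r hA hx, Finset.filter_union, Finset.card_union_of_disjoint, Finset.filter_map,
    Finset.card_map, Finset.filter_filter]
  · congr 1
    · congr 1
      apply Finset.filter_congr
      intro j _
      change _ ∧ sd (rd G K x) S' (.inr j) = 2 ↔ _
      rw [sd_r hA hx]
    · by_cases h : (i = 0 ∨ i = 3) ∧ cc S' i = false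
      · rw [if_pos h, Finset.filter_singleton]
        by_cases h2 : sd (rd G K x) S' (.inl ⟨x, hA.hX⟩) = 2
        · rw [if_pos h2, if_pos ⟨h, h2⟩]; rfl
        · rw [if_neg h2, if_neg (by tauto)]; rfl
      · rw [if_neg h, if_neg (by tauto)]; rfl
  · apply Finset.disjoint_filter_filter
    rw [Finset.disjoint_left]
    intro p hp
    rw [Finset.mem_map] at hp
    obtain ⟨w, -, rfl⟩ := hp
    split_ifs <;> simp

theorem sd_x (hA : Attach G K x x x0 y0) (hx : Sum.inl ⟨x, hA.hX⟩ ∉ S') :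
    sd (rd G K x) S' (.inl ⟨x, hA.hX⟩) = (mS G K S' ⟨x, hA.hX⟩).card + nx (cc S') := by
  unfold sd nx
  rw [rd_sm_x hA hx, Finset.card_union_of_disjoint, Finset.card_map, Finset.card_map]
  rw [Finset.disjoint_left]
  intro p hp
  rw [Finset.mem_map] at hp
  obtain ⟨w, -, rfl⟩ := hp
  simp

theorem qd_x (hA : Attach G K x x x0 y0) (hx : Sum.inl ⟨x, hA.hX⟩ ∉ S') :
    qd (rd G K x) S' (.inl ⟨x, hA.hX⟩) =
      ((mS G K S' ⟨x, hA.hX⟩).filter (fun w => sd (rd G K x) S' (.inl w) = 2)).card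
        + nq (cc S') := by
  unfold qd nq
  rw [rd_sm_x hA hx, Finset.filter_union, Finset.card_union_of_disjoint, Finset.filter_map,
    Finset.filter_map, Finset.card_map, Finset.card_map, Finset.filter_filter]
  · congr 1
    congr 1
    apply Finset.filter_congr
    intro j _
    change _ ∧ sd (rd G K x) S' (.inr j) = 2 ↔ _
    rw [sd_r hA hx]
  · apply Finset.disjoint_filter_filter
    rw [Finset.disjoint_left]
    intro p hp
    rw [Finset.mem_map] at hp
    obtain ⟨w, -, rfl⟩ := hp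
    simp

theorem sg_r (i : Fin 4) : sg S' (Sum.inr i) = sgc (cc S' i) := by
  unfold sg sgc
  by_cases h : Sum.inr i ∈ S'
  · rw [if_pos h, if_pos (cc_true.2 h)]
  · rw [if_neg h, if_neg (fun h' => h (cc_true.1 h'))]

theorem sum_D (f : ({v // v ∉ K} ⊕ Fin 4) → ℤ) :
    ∑ w ∈ Finset.univ.map (eR K), f w = ∑ i, f (Sum.inr i) := by
  rw [Finset.sum_map]
  rfl

theorem mem_D (w : {v // v ∉ K} ⊕ Fin 4) :
    w ∈ Finset.univ.map (eR K) ↔ ∀ v : {v // v ∉ K}, Sum.inl v ≠ w := by
  rw [Finset.mem_map]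
  constructor
  · rintro ⟨i, -, rfl⟩ v h
    exact absurd h (by simp)
  · intro h
    rcases w with w | i
    · exact absurd rfl (h w)
    · exact ⟨i, Finset.mem_univ _, rfl⟩

theorem exists_glue2 (S' : Finset ({v // v ∉ K} ⊕ Fin 4)) (hTK : T ⊆ K) : ∃ S : Finset V,
    (∀ v : {v // v ∉ K}, ((v : V) ∈ S ↔ Sum.inl v ∈ S')) ∧ (∀ v ∈ K, (v ∈ S ↔ v ∈ T)) := by
  obtain ⟨S, h1, h2⟩ := exists_glue (Finset.univ.filter (fun v => Sum.inl v ∈ S')) hTK
  exact ⟨S, fun v => by rw [h1 v]; simp, h2⟩

/-- Finishing without attachment. -/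
theorem R2fin1 (hA : Attach G K x x x0 y0) (hx : Sum.inl ⟨x, hA.hX⟩ ∉ S')
    (hB : Bal (rd G K x) S') (hTK : T ⊆ K) (h0 : x0 ∈ T) (h1 : y0 ∈ T)
    (hn : nx (cc S') = 0) (hs : 2 * (T.card : ℤ) - K.card = ∑ i, sgc (cc S' i))
    (hk : ∀ v ∈ K, kd G K T v ≤ 2 ∧ (kd G K T v = 2 → ∀ w ∈ kn G K T v, kd G K T w ≤ 1))
    (hw : ∑ v ∈ K, (if kd G K T v = 2 then sg T v else 0) =
      ∑ i, if sc (cc S') i = 2 then sgc (cc S' i) else 0)
    (hq : ∀ i, sc (cc S') i = 2 →
      qc (cc S') i = 0 ∧ ¬ ((i = 0 ∨ i = 3) ∧ cc S' i = false)) : GoodC G := by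
  obtain ⟨S, hS, hT⟩ := exists_glue2 S' hTK
  have xS : x ∉ S := fun h => hx ((hS ⟨x, hA.hX⟩).1 h)
  have aS : x0 ∈ S := (hT x0 hA.mx).2 h0
  have bS : y0 ∈ S := (hT y0 hA.my).2 h1
  have hnx : nq (cc S') = 0 := by
    unfold nx at hn
    unfold nq
    rw [Finset.card_eq_zero] at hn ⊢
    rw [Finset.filter_eq_empty_iff] at hn ⊢
    intro i hi h
    exact hn hi h.1
  have hsm : ∀ v ∈ K, sm G S v = kn G K T v := by
    intro v hv
    by_cases e1 : v = x0
    · subst e1
      rw [glue_x0 hA hT, if_neg (by tauto), Finset.union_empty]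
    · by_cases e2 : v = y0
      · subst e2
        rw [glue_x0 hA.symm hT, if_neg (by tauto), Finset.union_empty]
      · exact glue_K hA hT hv e1 e2
  have hsdK : ∀ v ∈ K, sd G S v = kd G K T v := fun v hv => by
    unfold sd kd; rw [hsm v hv]
  have hqdK : ∀ v ∈ K, sd G S v = 2 → qd G S v = 0 := by
    intro v hv h
    unfold qd
    rw [hsm v hv, Finset.card_eq_zero, Finset.filter_eq_empty_iff]
    intro w hw
    rw [hsdK w (mem_kn.1 hw).1]
    have := (hk v hv).2 (by rw [← hsdK v hv]; exact h) w hw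
    omega
  have hsgK : ∀ v ∈ K, sg S v = sg T v := by
    intro v hv
    unfold sg
    by_cases h : v ∈ T
    · rw [if_pos h, if_pos ((hT v hv).2 h)]
    · rw [if_neg h, if_neg (fun h' => h ((hT v hv).1 h'))]
  have smx : sm G S x = (mS G K S' ⟨x, hA.hX⟩).map (sub K) := by
    rw [rdg_x hA hS, if_neg (by tauto), if_neg (by tauto), Finset.empty_union,
      Finset.union_empty]
  have hsmall : ∀ v : {v // v ∉ K}, sm G S v = (mS G K S' v).map (sub K) := by
    intro v
    by_cases h : (v : V) = x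
    · obtain ⟨v, hv⟩ := v
      simp only at h
      subst h
      exact smx
    · exact rdg_v hA hS v h
  have hsd : ∀ v : {v // v ∉ K}, sd G S v = sd (rd G K x) S' (.inl v) := by
    intro v
    by_cases h : (v : V) = x
    · obtain ⟨v, hv⟩ := v
      simp only at h
      subst h
      rw [sd_x hA hx, hn, add_zero]
      unfold sd
      rw [smx, Finset.card_map]
    · unfold sd
      rw [hsmall v, rd_sm_v v h, Finset.card_map, Finset.card_map]
  have hqd : ∀ v : {v // v ∉ K}, qd G S v = qd (rd G K x) S' (.inl v) := by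
    intro v
    have e1 : qd G S v = ((mS G K S' v).filter
        (fun w => sd (rd G K x) S' (.inl w) = 2)).card := by
      unfold qd
      rw [hsmall v, Finset.filter_map, Finset.card_map]
      congr 1
      apply Finset.filter_congr
      intro w _
      change sd G S w = 2 ↔ _
      rw [hsd w]
    rw [e1]
    by_cases h : (v : V) = x
    · obtain ⟨v, hv⟩ := v
      simp only at h
      subst h
      rw [qd_x hA hx, hnx, add_zero]
    · unfold qd
      rw [rd_sm_v v h, Finset.filter_map, Finset.card_map]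
      rfl
  refine goodC_of_bal (S := S) (bal_transfer G (rd G K x) K Sum.inl Sum.inl_injective
    (Finset.univ.map (eR K)) mem_D ∅ S S' hB hS ?_ ?_ ?_ ?_ ?_ ?_)
  · exact fun v _ => ⟨hsd v, fun _ => hqd v⟩
  · simp
  · intro v hv
    rw [hsdK v hv]
    refine ⟨(hk v hv).1, fun h => ?_⟩
    rw [hqdK v hv (by rw [hsdK v hv]; exact h)]
    norm_num
  · rw [sum_D, sum_sg_K hT hTK, hs]
    exact Finset.sum_congr rfl fun i _ => (sg_r i).symm
  · rw [sum_D, Finset.sum_empty, zero_add]
    have e1 : ∑ v ∈ K, w1 G S v = ∑ v ∈ K, (if kd G K T v = 2 then sg T v else 0) := by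
      refine Finset.sum_congr rfl fun v hv => ?_
      unfold w1
      rw [hsdK v hv, hsgK v hv]
    rw [e1, hw]
    refine Finset.sum_congr rfl fun i _ => ?_
    unfold w1
    rw [sd_r hA hx, sg_r]
  · rw [sum_D, Finset.sum_empty, zero_add]
    rw [Finset.sum_eq_zero, Finset.sum_eq_zero]
    · intro i _
      unfold w2
      rw [sd_r hA hx]
      split_ifs with h
      · have h3 := hq i h
        rw [qd_r hA hx, h3.1, if_neg (fun h' => h3.2 h'.1)]
        simp
      · rfl
    · intro v hv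
      unfold w2
      split_ifs with h
      · rw [hqdK v hv h]; simp
      · rfl

theorem R2common (hA : Attach G K x x x0 y0) (hx : Sum.inl ⟨x, hA.hX⟩ ∉ S')
    (hTK : T ⊆ K) (h0 : x0 ∈ T) (h1 : y0 ∉ T) (hle : ∀ v ∈ K, kd G K T v ≤ 1) :
    ∃ S : Finset V, (∀ v : {v // v ∉ K}, ((v : V) ∈ S ↔ Sum.inl v ∈ S')) ∧
      (∀ v ∈ K, (v ∈ S ↔ v ∈ T)) ∧
      sd G S x = (mS G K S' ⟨x, hA.hX⟩).card + 1 ∧
      sm G S x = (mS G K S' ⟨x, hA.hX⟩).map (sub K) ∪ {y0} ∧
      sm G S y0 = kn G K T y0 ∪ {x} ∧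
      sd G S y0 = kd G K T y0 + 1 ∧
      (∀ v ∈ K, v ≠ y0 → sd G S v ≤ 1) ∧
      (∀ v : {v // v ∉ K}, (v : V) ≠ x → sd G S v = sd (rd G K x) S' (.inl v)) ∧
      (∀ v : {v // v ∉ K}, (v : V) ≠ x → (⟨x, hA.hX⟩ ∈ mS G K S' v →
        (sd G S x = 2 ↔ sd (rd G K x) S' (.inl ⟨x, hA.hX⟩) = 2)) →
        qd G S v = qd (rd G K x) S' (.inl v)) := by
  obtain ⟨S, hS, hT⟩ := exists_glue2 S' hTK
  have xS : x ∉ S := fun h => hx ((hS ⟨x, hA.hX⟩).1 h)
  have aS : x0 ∈ S := (hT x0 hA.mx).2 h0
  have bS : y0 ∉ S := fun h => h1 ((hT y0 hA.my).1 h)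
  have smx : sm G S x = (mS G K S' ⟨x, hA.hX⟩).map (sub K) ∪ {y0} := by
    rw [rdg_x hA hS, if_neg (by tauto), if_pos (by tauto), Finset.empty_union]
  have ny : y0 ∉ (mS G K S' ⟨x, hA.hX⟩).map (sub K) := by
    rw [Finset.mem_map]
    rintro ⟨w, -, e⟩
    exact w.2 (by rw [show (w : V) = y0 from e]; exact hA.my)
  have smy : sm G S y0 = kn G K T y0 ∪ {x} := by
    rw [glue_x0 hA.symm hT, if_pos (by tauto)]
  have nxk : x ∉ kn G K T y0 := fun h => hA.hX (mem_kn.1 h).1
  have hsd : ∀ v : {v // v ∉ K}, (v : V) ≠ x → sd G S v = sd (rd G K x) S' (.inl v) := by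
    intro v h
    unfold sd
    rw [rdg_v hA hS v h, rd_sm_v v h, Finset.card_map, Finset.card_map]
  refine ⟨S, hS, hT, ?_, smx, smy, ?_, ?_, hsd, ?_⟩
  · unfold sd
    rw [smx, Finset.card_union_of_disjoint (by simpa using ny), Finset.card_map,
      Finset.card_singleton]
  · unfold sd kd
    rw [smy, Finset.card_union_of_disjoint (by simpa using nxk), Finset.card_singleton]
  · intro v hv h2
    by_cases h3 : v = x0
    · subst h3
      unfold sd
      rw [glue_x0 hA hT, if_neg (by tauto), Finset.union_empty]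
      exact hle v hv
    · unfold sd
      rw [glue_K hA hT hv h3 h2]
      exact hle v hv
  · intro v h h2
    unfold qd
    rw [rdg_v hA hS v h, rd_sm_v v h, Finset.filter_map, Finset.filter_map, Finset.card_map,
      Finset.card_map]
    congr 1
    apply Finset.filter_congr
    intro w hw
    change sd G S w = 2 ↔ sd (rd G K x) S' (.inl w) = 2
    by_cases h3 : (w : V) = x
    · have e : w = ⟨x, hA.hX⟩ := Subtype.ext h3
      rw [e] at hw ⊢
      exact h2 hw
    · rw [hsd w h3]

/-- Finishing, type 1 with the third neighbour of `x` white. -/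
theorem R2fin2a (hA : Attach G K x x x0 y0) (hx : Sum.inl ⟨x, hA.hX⟩ ∉ S')
    (hB : Bal (rd G K x) S') (hTK : T ⊆ K) (h0 : x0 ∈ T) (h1 : y0 ∉ T)
    (hle : ∀ v ∈ K, kd G K T v ≤ 1) (hs : 2 * T.card = K.card) (hk : kd G K T y0 = 0)
    (hn : nx (cc S') = 0) (hm : (mS G K S' ⟨x, hA.hX⟩).card = 0)
    (hsg : ∑ i, sgc (cc S' i) = 0) (hc : ∀ i, sc (cc S') i ≤ 1) : GoodC G := by
  obtain ⟨S, hS, hT, sdx, smx, smy, sdy, hK, hsd, hqd⟩ := R2common hA hx hTK h0 h1 hle
  have e1 : sd (rd G K x) S' (.inl ⟨x, hA.hX⟩) = 0 := by rw [sd_x hA hx, hm, hn]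
  have e2 : sd G S x = 1 := by rw [sdx, hm]
  have hK' : ∀ v ∈ K, sd G S v ≤ 1 := by
    intro v hv
    by_cases h : v = y0
    · subst h; rw [sdy, hk]
    · exact hK v hv h
  refine goodC_of_bal (S := S) (bal_transfer G (rd G K x) K Sum.inl Sum.inl_injective
    (Finset.univ.map (eR K)) mem_D {⟨x, hA.hX⟩} S S' hB hS ?_ ?_ ?_ ?_ ?_ ?_)
  · intro v hv
    rw [Finset.mem_singleton] at hv
    have hv' : (v : V) ≠ x := fun e => hv (Subtype.ext e)
    refine ⟨hsd v hv', fun _ => hqd v hv' fun _ => ?_⟩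
    rw [e1, e2]; norm_num
  · intro v hv
    rw [Finset.mem_singleton] at hv
    rw [hv]
    exact e2.le
  · intro v hv
    have := hK' v hv
    exact ⟨by omega, fun h => by omega⟩
  · rw [sum_D, sum_sg_K hT hTK]
    have : (2 * T.card : ℤ) = K.card := by exact_mod_cast hs
    rw [Finset.sum_congr rfl fun i _ => sg_r i, hsg]
    linarith
  · rw [sum_D, Finset.sum_singleton, Finset.sum_eq_zero fun v hv => w1_zero (hK' v hv),
      w1_zero (by rw [e1]; norm_num), Finset.sum_eq_zero, add_zero]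
    exact fun i _ => w1_zero (by rw [sd_r hA hx]; exact hc i)
  · rw [sum_D, Finset.sum_singleton, Finset.sum_eq_zero fun v hv => w2_zero (hK' v hv),
      w2_zero (by rw [e1]; norm_num), Finset.sum_eq_zero, add_zero]
    exact fun i _ => w2_zero (by rw [sd_r hA hx]; exact hc i)

/-- Finishing, type 3. -/
theorem R2fin2b (hA : Attach G K x x x0 y0) (hx : Sum.inl ⟨x, hA.hX⟩ ∉ S')
    (hB : Bal (rd G K x) S') (hTK : T ⊆ K) (h0 : x0 ∈ T) (h1 : y0 ∉ T)
    (hle : ∀ v ∈ K, kd G K T v ≤ 1) (hs : 2 * T.card = K.card) (hk : kd G K T y0 = 1)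
    (hn : nx (cc S') = 1) (hq1 : nq (cc S') = 1)
    (hsg : ∑ i, sgc (cc S' i) = 0)
    (hw : (∑ i, if sc (cc S') i = 2 then sgc (cc S' i) else 0) = -1)
    (hq : ∀ i, sc (cc S') i = 2 →
      qc (cc S') i = 0 ∧ ((i = 0 ∨ i = 3) ∧ cc S' i = false)) : GoodC G := by
  obtain ⟨S, hS, hT, sdx, smx, smy, sdy, hK, hsd, hqd⟩ := R2common hA hx hTK h0 h1 hle
  have bS : y0 ∉ S := fun h => h1 ((hT y0 hA.my).1 h)
  have e1 : sd G S x = sd (rd G K x) S' (.inl ⟨x, hA.hX⟩) := by rw [sd_x hA hx, sdx, hn]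
  have e2 : sd G S y0 = 2 := by rw [sdy, hk]
  have ny : y0 ∉ (mS G K S' ⟨x, hA.hX⟩).map (sub K) := by
    rw [Finset.mem_map]
    rintro ⟨w, -, e⟩
    exact w.2 (by rw [show (w : V) = y0 from e]; exact hA.my)
  have nxk : x ∉ kn G K T y0 := fun h => hA.hX (mem_kn.1 h).1
  have hqx : qd G S x = qd (rd G K x) S' (.inl ⟨x, hA.hX⟩) := by
    rw [qd_x hA hx, hq1]
    unfold qd
    rw [smx, Finset.filter_union, Finset.card_union_of_disjoint, Finset.filter_map,
      Finset.card_map, Finset.filter_singleton, if_pos e2, Finset.card_singleton]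
    · congr 2
      apply Finset.filter_congr
      intro w hw
      change sd G S w = 2 ↔ _
      rw [hsd w (fun e => (mem_mS.1 hw).1.ne e.symm)]
    · apply Finset.disjoint_filter_filter
      simpa using ny
  have hqy : qd G S y0 = if sd G S x = 2 then 1 else 0 := by
    unfold qd
    rw [smy, Finset.filter_union, Finset.card_union_of_disjoint, Finset.filter_singleton,
      Finset.card_eq_zero.2, zero_add]
    · split_ifs <;> simp
    · apply Finset.filter_eq_empty_iff.2
      intro w hw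
      have hwK := (mem_kn.1 hw).1
      have hwy : w ≠ y0 := (mem_kn.1 hw).2.1.ne'
      have := hK w hwK hwy
      omega
    · apply Finset.disjoint_filter_filter
      simpa using nxk
  refine goodC_of_bal (S := S) (bal_transfer G (rd G K x) K Sum.inl Sum.inl_injective
    (Finset.univ.map (eR K)) mem_D ∅ S S' hB hS ?_ ?_ ?_ ?_ ?_ ?_)
  · intro v _
    by_cases h : (v : V) = x
    · obtain ⟨v, hv⟩ := v
      simp only at h
      subst h
      exact ⟨e1, fun _ => hqx⟩
    · exact ⟨hsd v h, fun _ => hqd v h fun _ => by rw [e1]⟩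
  · simp
  · intro v hv
    by_cases h : v = y0
    · subst h
      rw [e2, hqy]
      exact ⟨le_rfl, fun _ => by split_ifs <;> norm_num⟩
    · have := hK v hv h
      exact ⟨by omega, fun h => by omega⟩
  · rw [sum_D, sum_sg_K hT hTK]
    have : (2 * T.card : ℤ) = K.card := by exact_mod_cast hs
    rw [Finset.sum_congr rfl fun i _ => sg_r i, hsg]
    linarith
  · rw [sum_D, Finset.sum_empty, zero_add,
      sum_K_single hA.my (fun v hv h2 => w1_zero (hK v hv h2))]
    have e3 : ∀ i, w1 (rd G K x) S' (Sum.inr i) = if sc (cc S') i = 2 then sgc (cc S' i) else 0 := by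
      intro i
      unfold w1
      rw [sd_r hA hx, sg_r]
    rw [Finset.sum_congr rfl fun i _ => e3 i, hw]
    unfold w1 sg
    rw [if_pos e2, if_neg bS]
  · rw [sum_D, Finset.sum_empty, zero_add,
      sum_K_single hA.my (fun v hv h2 => w2_zero (hK v hv h2))]
    have e3 : ∀ i, w2 (rd G K x) S' (Sum.inr i) =
        (if sc (cc S') i = 2 then sgc (cc S' i) else 0) *
          (if sd (rd G K x) S' (.inl ⟨x, hA.hX⟩) = 2 then 1 else 0) := by
      intro i
      unfold w2
      rw [sd_r hA hx, sg_r, qd_r hA hx]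
      split_ifs with h3 h4 h5 h6 h7
      · rw [(hq i h3).1]; simp
      · exact absurd h4.2 h5
      · exact absurd ⟨(hq i h3).2, h6⟩ h4
      · rw [(hq i h3).1]; simp
      · simp
      · simp
    rw [Finset.sum_congr rfl fun i _ => e3 i, ← Finset.sum_mul, hw]
    unfold w2 sg
    rw [if_pos e2, if_neg bS, hqy, e1]
    split_ifs <;> simp

/-- Finishing, type 4. -/
theorem R2fin2c (hA : Attach G K x x x0 y0) (hx : Sum.inl ⟨x, hA.hX⟩ ∉ S')
    (hB : Bal (rd G K x) S') (hTK : T ⊆ K) (h0 : x0 ∈ T) (h1 : y0 ∉ T)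
    (hle : ∀ v ∈ K, kd G K T v ≤ 1) (hs : 2 * T.card = K.card) (hk : kd G K T y0 = 1)
    (hn : nx (cc S') = 2) (hm : (mS G K S' ⟨x, hA.hX⟩).card = 0)
    (hsg : ∑ i, sgc (cc S' i) = 0) (hc : ∀ i, sc (cc S') i ≤ 1) : GoodC G := by
  obtain ⟨S, hS, hT, sdx, smx, smy, sdy, hK, hsd, hqd⟩ := R2common hA hx hTK h0 h1 hle
  have bS : y0 ∉ S := fun h => h1 ((hT y0 hA.my).1 h)
  have e1 : sd (rd G K x) S' (.inl ⟨x, hA.hX⟩) = 2 := by rw [sd_x hA hx, hm, hn]
  have e2 : sd G S x = 1 := by rw [sdx, hm]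
  have e3 : sd G S y0 = 2 := by rw [sdy, hk]
  have hm' : mS G K S' ⟨x, hA.hX⟩ = ∅ := Finset.card_eq_zero.1 hm
  have nxk : x ∉ kn G K T y0 := fun h => hA.hX (mem_kn.1 h).1
  have hnq : nq (cc S') = 0 := by
    unfold nq
    rw [Finset.card_eq_zero, Finset.filter_eq_empty_iff]
    intro i _ h
    have := hc i
    omega
  have hqx : qd (rd G K x) S' (.inl ⟨x, hA.hX⟩) = 0 := by
    rw [qd_x hA hx, hnq, hm']
    simp
  have hqy : qd G S y0 = 0 := by
    unfold qd
    rw [smy, Finset.card_eq_zero, Finset.filter_eq_empty_iff]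
    intro w hw
    rw [Finset.mem_union, Finset.mem_singleton] at hw
    rcases hw with hw | rfl
    · have hwK := (mem_kn.1 hw).1
      have hwy : w ≠ y0 := (mem_kn.1 hw).2.1.ne'
      have := hK w hwK hwy
      omega
    · omega
  refine goodC_of_bal (S := S) (bal_transfer G (rd G K x) K Sum.inl Sum.inl_injective
    (Finset.univ.map (eR K)) mem_D {⟨x, hA.hX⟩} S S' hB hS ?_ ?_ ?_ ?_ ?_ ?_)
  · intro v hv
    rw [Finset.mem_singleton] at hv
    have hv' : (v : V) ≠ x := fun e => hv (Subtype.ext e)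
    refine ⟨hsd v hv', fun _ => hqd v hv' fun h => ?_⟩
    exfalso
    have h2 : v ∈ mS G K S' ⟨x, hA.hX⟩ := by
      rw [mem_mS] at h ⊢
      exact ⟨h.1.symm, h.2.symm⟩
    rw [hm'] at h2
    simp at h2
  · intro v hv
    rw [Finset.mem_singleton] at hv
    rw [hv]
    exact e2.le
  · intro v hv
    by_cases h : v = y0
    · subst h
      rw [e3, hqy]
      exact ⟨le_rfl, fun _ => by norm_num⟩
    · have := hK v hv h
      exact ⟨by omega, fun h => by omega⟩
  · rw [sum_D, sum_sg_K hT hTK]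
    have : (2 * T.card : ℤ) = K.card := by exact_mod_cast hs
    rw [Finset.sum_congr rfl fun i _ => sg_r i, hsg]
    linarith
  · rw [sum_D, Finset.sum_singleton,
      sum_K_single hA.my (fun v hv h2 => w1_zero (hK v hv h2))]
    rw [Finset.sum_eq_zero (s := (Finset.univ : Finset (Fin 4)))
      (fun i _ => w1_zero (by rw [sd_r hA hx]; exact hc i)), add_zero]
    unfold w1 sg
    rw [if_pos e3, if_neg bS, if_pos e1, if_neg hx]
  · rw [sum_D, Finset.sum_singleton,
      sum_K_single hA.my (fun v hv h2 => w2_zero (hK v hv h2))]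
    rw [Finset.sum_eq_zero (s := (Finset.univ : Finset (Fin 4)))
      (fun i _ => w2_zero (by rw [sd_r hA hx]; exact hc i)), add_zero]
    unfold w2
    rw [hqx, hqy]
    simp

end

/-- R2. -/
theorem Lad.R2 (hG : G.IsRegularOfDegree 3) {n : ℕ} {x x0 y0 : V} {K : Finset V}
    (h : Lad G (n + 2) x x x0 y0 K) (hg : GoodC (rd G K x)) : GoodC G := by
  have hA := h.attach hG
  obtain ⟨S', hB, hx⟩ := exists_bal_black hg (Sum.inl ⟨x, hA.hX⟩)
  have hg4 := (good4_iff (rd G K x) S').1 hB.good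
  have c1 : ∀ i, sc (cc S') i ≤ 2 := fun i => by
    rw [← sd_r hA hx]; exact (hg4 _).1
  have c2 : ∀ i, sc (cc S') i = 2 → qc (cc S') i ≤ 1 := fun i h => by
    have := (hg4 (Sum.inr i)).2 (by rw [sd_r hA hx]; exact h)
    rw [qd_r hA hx] at this
    omega
  have hsx := (hg4 (Sum.inl ⟨x, hA.hX⟩)).1
  rw [sd_x hA hx] at hsx
  -- the third neighbour of x
  have hm1 : (mS G K S' ⟨x, hA.hX⟩).card ≤ 1 := by
    have e1 : (mS G K S' ⟨x, hA.hX⟩).map (sub K) ⊆
        ((G.neighborFinset x).erase x0).erase y0 := by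
      intro w hw
      rw [Finset.mem_map] at hw
      obtain ⟨w', hw, rfl⟩ := hw
      rw [Finset.mem_erase, Finset.mem_erase, SimpleGraph.mem_neighborFinset]
      refine ⟨fun e => w'.2 ?_, fun e => w'.2 ?_, (mem_mS.1 hw).1⟩
      · rw [show (w' : V) = y0 from e]; exact hA.my
      · rw [show (w' : V) = x0 from e]; exact hA.mx
    have e2 := Finset.card_le_card e1
    rw [Finset.card_map, Finset.card_erase_of_mem, Finset.card_erase_of_mem,
      SimpleGraph.card_neighborFinset_eq_degree, hG] at e2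
    · exact e2
    · rw [SimpleGraph.mem_neighborFinset]; exact hA.aX
    · rw [Finset.mem_erase, SimpleGraph.mem_neighborFinset]
      exact ⟨hA.ne.symm, hA.aY⟩
  rcases classify (cc S') c1 c2 with ⟨a1, a2, a3⟩ | ⟨a1, a2, a3, a4⟩ | ⟨a1, a2, a3, a4, a5⟩ |
    ⟨a1, a2, a3⟩
  · by_cases hm : (mS G K S' ⟨x, hA.hX⟩).card = 0
    · obtain ⟨T, hTK, t1, t2, t3, t4, t5⟩ := h.patA hG
      exact R2fin2a hA hx hB hTK t2 t3 t4 t1 (t5 (by omega)).2 a1 hm a2 a3
    · obtain ⟨T, hTK, t1, t2, t3, t4⟩ := h.patE hG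
      have t1' : (2 * T.card : ℤ) = K.card := by exact_mod_cast t1
      have hz : (∑ i, if sc (cc S') i = 2 then sgc (cc S' i) else 0) = 0 := by
        apply Finset.sum_eq_zero
        intro i _
        rw [if_neg]
        have := a3 i
        omega
      have hq : ∀ i, sc (cc S') i = 2 →
          qc (cc S') i = 0 ∧ ¬ ((i = 0 ∨ i = 3) ∧ cc S' i = false) := by
        intro i h
        have := a3 i
        omega
      rcases t4 with t4 | ⟨v0, m0, v1, m1, b0, b1, e0, e1, w0, w1, al⟩
      · refine R2fin1 hA hx hB hTK t2 t3 a1 (by rw [a2]; linarith) ?_ ?_ hq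
        · intro v hv
          have := t4 v hv
          exact ⟨by omega, fun h => by omega⟩
        · rw [hz]
          apply Finset.sum_eq_zero
          intro v hv
          rw [if_neg]
          have := t4 v hv
          omega
      · have hne : v0 ≠ v1 := fun e => b1 (e ▸ b0)
        refine R2fin1 hA hx hB hTK t2 t3 a1 (by rw [a2]; linarith) ?_ ?_ hq
        · intro v hv
          by_cases h0 : v = v0
          · subst h0
            exact ⟨e0.le, fun _ => w0⟩
          · by_cases h1 : v = v1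
            · subst h1
              exact ⟨e1.le, fun _ => w1⟩
            · have := al v hv h0 h1
              exact ⟨by omega, fun h => by omega⟩
        · rw [hz, ← Finset.add_sum_erase K _ m0,
            ← Finset.add_sum_erase (K.erase v0) _ (Finset.mem_erase.2 ⟨hne.symm, m1⟩),
            Finset.sum_eq_zero, if_pos e0, if_pos e1]
          · unfold sg
            rw [if_pos b0, if_neg b1]
            norm_num
          · intro v hv
            rw [Finset.mem_erase, Finset.mem_erase] at hv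
            have := al v hv.2.2 hv.2.1 hv.1
            rw [if_neg]
            omega
  · obtain ⟨T, hTK, t1, t2, t3, v0, m0, b0, e0, w0, al⟩ := h.patD hG
    have t1' : (2 * T.card : ℤ) = K.card + 2 := by exact_mod_cast t1
    refine R2fin1 hA hx hB hTK t2 t3 a1 (by rw [a2]; linarith) ?_ ?_ a4
    · intro v hv
      by_cases h0 : v = v0
      · subst h0
        exact ⟨e0.le, fun _ => w0⟩
      · have := al v hv h0
        exact ⟨by omega, fun h => by omega⟩
    · rw [a3, ← Finset.add_sum_erase K _ m0, Finset.sum_eq_zero, if_pos e0]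
      · unfold sg
        rw [if_pos b0]
        norm_num
      · intro v hv
        rw [Finset.mem_erase] at hv
        have := al v hv.2 hv.1
        rw [if_neg]
        omega
  · obtain ⟨T, hTK, t1, t2, t3, t4, t5⟩ := h.patC hG
    exact R2fin2b hA hx hB hTK t2 t3 t4 t1 t5 a1 a4 a2 a3 a5
  · obtain ⟨T, hTK, t1, t2, t3, t4, t5⟩ := h.patC hG
    exact R2fin2c hA hx hB hTK t2 t3 t4 t1 t5 a1 (by omega) a2 a3

end Pool.Agent.Lib.Ando.Dia
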