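import Mathlib
import Pool.Agent.Lib.Ando.DiaR2

set_option autoImplicit false
set_option linter.unusedSectionVars false
set_option linter.unusedSimpArgs false

/-!
# Ando.DiaMain: in a minimal counterexample every diamond lies in a pendant `L_0` or `L_1`
-/

namespace Pool.Agent.Lib.Ando.Dia

universe u

variable {V : Type u} [Fintype V] [DecidableEq V] {G : SimpleGraph V} [DecidableRel G.Adj]

/-- Every diamond `a; b, c; d` is attached on both sides to one vertex `x`, or on both sides to the
two ends of an edge `r s` which are both adjacent to one vertex `x`. -/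
def DiamOK (G : SimpleGraph V) : Prop :=
  ∀ a b c d : V, a ≠ d → G.Adj a b → G.Adj a c → G.Adj b c → G.Adj b d → G.Adj c d →
    (∃ x, Lad G 0 x x a d {a, b, c, d}) ∨
    (∃ x r s, Lad G 0 r s a d {a, b, c, d} ∧ Lad G 1 x x r s (insert r (insert s {a, b, c, d})))

/-- a third neighbour -/
theorem third (hG : G.IsRegularOfDegree 3) {v p q : V} (hp : G.Adj v p) (hq : G.Adj v q)
    (hpq : p ≠ q) : ∃ w, G.Adj v w ∧ w ≠ p ∧ w ≠ q := by
  have h : 0 < (((G.neighborFinset v).erase p).erase q).card := by
    rw [Finset.card_erase_of_mem, Finset.card_erase_of_mem,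
      SimpleGraph.card_neighborFinset_eq_degree, hG]
    · norm_num
    · rw [SimpleGraph.mem_neighborFinset]; exact hp
    · rw [Finset.mem_erase, SimpleGraph.mem_neighborFinset]
      exact ⟨hpq.symm, hq⟩
  obtain ⟨w, hw⟩ := Finset.card_pos.1 h
  rw [Finset.mem_erase, Finset.mem_erase, SimpleGraph.mem_neighborFinset] at hw
  exact ⟨w, hw.2.2, hw.2.1, hw.1⟩

/-- A ladder attached to adjacent vertices can be extended. -/
theorem Lad.extend (hG : G.IsRegularOfDegree 3) {n : ℕ} {X Y x0 y0 : V} {K : Finset V}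
    (h : Lad G n X Y x0 y0 K) (hXY : G.Adj X Y) :
    ∃ X' Y', Lad G (n + 1) X' Y' X Y (insert X (insert Y K)) := by
  have hA := h.attach hG
  have e1 : x0 ≠ Y := fun e => hA.hY (e ▸ hA.mx)
  have e2 : y0 ≠ X := fun e => hA.hX (e ▸ hA.my)
  obtain ⟨X', a1, a2, a3⟩ := third hG hA.aX hXY e1
  obtain ⟨Y', b1, b2, b3⟩ := third hG hA.aY hXY.symm e2
  refine ⟨X', Y', ?_, ?_, a1.symm, b1.symm, x0, y0, K, h, hXY.ne, hXY, rfl⟩
  · rw [Finset.mem_insert, Finset.mem_insert, not_or, not_or]
    refine ⟨a1.ne', a3, fun hk => ?_⟩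
    rcases hA.out X' hk X hA.hX a1.symm with h | h
    · exact a2 h.1
    · exact hXY.ne h.2
  · rw [Finset.mem_insert, Finset.mem_insert, not_or, not_or]
    refine ⟨b3, b1.ne', fun hk => ?_⟩
    rcases hA.out Y' hk Y hA.hY b1.symm with h | h
    · exact hXY.ne' h.2
    · exact b2 h.1

theorem card_sub (K : Finset V) : Fintype.card {v // v ∉ K} + K.card = Fintype.card V := by
  rw [Fintype.card_subtype]
  have : (Finset.univ.filter (fun v => v ∉ K)) = Kᶜ := by ext v; simp
  rw [this, Finset.card_compl_add_card]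

/-- The induction hypothesis. -/
def IHyp (N : ℕ) : Prop :=
  ∀ (W : Type u) [Fintype W] [DecidableEq W] (H : SimpleGraph W) [DecidableRel H.Adj],
    Fintype.card W < N → H.IsRegularOfDegree 3 → GoodC H

theorem Lad.useR1 (hG : G.IsRegularOfDegree 3) (IH : IHyp.{u} (Fintype.card V)) {n : ℕ}
    {X Y x0 y0 : V} {K : Finset V} (h : Lad G n X Y x0 y0 K) (hXY : X ≠ Y)
    (hn : ¬ G.Adj X Y) : GoodC G := by
  refine h.R1 hG hXY hn (IH _ (rg G K X Y) ?_ (rg_regular hG (h.attach hG) hXY hn))
  have h1 := card_sub K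
  have h2 := h.card
  omega

theorem Lad.useR2 (hG : G.IsRegularOfDegree 3) (IH : IHyp.{u} (Fintype.card V)) {n : ℕ}
    {x x0 y0 : V} {K : Finset V} (h : Lad G (n + 2) x x x0 y0 K) : GoodC G := by
  refine h.R2 hG (IH _ (rd G K x) ?_ (rd_regular hG (h.attach hG)))
  have h1 := card_sub K
  have h2 := h.card
  rw [Fintype.card_sum, Fintype.card_fin]
  omega

theorem Lad.useBig (hG : G.IsRegularOfDegree 3) (IH : IHyp.{u} (Fintype.card V)) :
    ∀ (m n : ℕ) {X Y x0 y0 : V} {K : Finset V}, Fintype.card V - K.card ≤ m →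
      Lad G (n + 2) X Y x0 y0 K → GoodC G := by
  intro m
  induction m with
  | zero =>
    intro n X Y x0 y0 K hm h
    exfalso
    have hX := h.core.1
    have : K.card < Fintype.card V := by
      rw [← Finset.card_univ]
      apply Finset.card_lt_card
      rw [Finset.ssubset_univ_iff]
      intro e
      exact hX (e ▸ Finset.mem_univ X)
    omega
  | succ m ih =>
    intro n X Y x0 y0 K hm h
    by_cases hXY : X = Y
    · subst hXY
      exact h.useR2 hG IH
    · by_cases hn : G.Adj X Y
      · obtain ⟨X', Y', h'⟩ := h.extend hG hn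
        refine ih (n + 1) ?_ h'
        have h1 := h.card
        have h2 := h'.card
        omega
      · exact h.useR1 hG IH hXY hn

/-- R0: a component `K_4`. -/
theorem R0 {a b c d : V} (hG : G.IsRegularOfDegree 3) (IH : IHyp.{u} (Fintype.card V))
    (had : G.Adj a d) (hab : G.Adj a b) (hac : G.Adj a c) (hbc : G.Adj b c) (hbd : G.Adj b d)
    (hcd : G.Adj c d) : GoodC G := by
  set K : Finset V := {a, b, c, d} with hK
  have out : ∀ v ∈ K, ∀ w, G.Adj v w → w ∈ K := by
    intro v hv w hvw
    simp only [hK, Finset.mem_insert, Finset.mem_singleton] at hv ⊢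
    rcases hv with rfl | rfl | rfl | rfl
    · rcases nbr3 hG hab hac had hbc.ne hbd.ne hcd.ne hvw with h | h | h <;> tauto
    · rcases nbr3 hG hab.symm hbc hbd hac.ne had.ne hcd.ne hvw with h | h | h <;> tauto
    · rcases nbr3 hG hac.symm hbc.symm hcd hab.ne had.ne hbd.ne hvw with h | h | h <;> tauto
    · rcases nbr3 hG had.symm hbd.symm hcd.symm hab.ne hac.ne hbc.ne hvw with h | h | h <;> tauto
  have hcard : K.card = 4 := by
    rw [hK, Finset.card_insert_of_notMem, Finset.card_insert_of_notMem,
      Finset.card_insert_of_notMem, Finset.card_singleton]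
    · simpa using hcd.ne
    · simpa using ⟨hbc.ne, hbd.ne⟩
    · simpa using ⟨hab.ne, hac.ne, had.ne⟩
  let H : SimpleGraph {v // v ∉ K} := G.comap Subtype.val
  have hH : ∀ v w : {v // v ∉ K}, H.Adj v w ↔ G.Adj v w := fun v w => Iff.rfl
  have hnb : ∀ v : {v // v ∉ K}, (H.neighborFinset v).map (sub K) = G.neighborFinset v := by
    intro v
    ext w
    simp only [Finset.mem_map, SimpleGraph.mem_neighborFinset]
    constructor
    · rintro ⟨w', h, rfl⟩
      exact h
    · intro h
      exact ⟨⟨w, fun hw => v.2 (out w hw v h.symm)⟩, h, rfl⟩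
  have hreg : H.IsRegularOfDegree 3 := by
    intro v
    rw [← SimpleGraph.card_neighborFinset_eq_degree, ← Finset.card_map (sub K), hnb,
      SimpleGraph.card_neighborFinset_eq_degree, hG]
  have hlt : Fintype.card {v // v ∉ K} < Fintype.card V := by
    have := card_sub K
    omega
  obtain ⟨S', hB⟩ := exists_bal (IH _ H hlt hreg)
  have hTK : ({a, b} : Finset V) ⊆ K := by
    intro x
    simp only [hK, Finset.mem_insert, Finset.mem_singleton]
    tauto
  obtain ⟨S, hS, hT⟩ := exists_glue S' hTK
  have hsm : ∀ v : {v // v ∉ K}, sm G S v = (sm H S' v).map (sub K) := by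
    intro v
    ext w
    rw [mem_sm, Finset.mem_map]
    constructor
    · rintro ⟨h3, h4⟩
      refine ⟨⟨w, fun hw => v.2 (out w hw v h3.symm)⟩, mem_sm.2 ⟨h3, ?_⟩, rfl⟩
      rw [← hS, ← hS]; exact h4
    · rintro ⟨w', h3, rfl⟩
      rw [mem_sm, ← hS, ← hS] at h3
      exact h3
  have hsd : ∀ v : {v // v ∉ K}, sd G S v = sd H S' v := fun v => sd_of_map (sub K) (hsm v)
  have ma : a ∈ K := by simp [hK]
  have mb : b ∈ K := by simp [hK]
  have mc : c ∈ K := by simp [hK]
  have md : d ∈ K := by simp [hK]
  have sa : a ∈ S := (hT a ma).2 (by simp)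
  have sb : b ∈ S := (hT b mb).2 (by simp)
  have scc : c ∉ S := fun h => by
    have := (hT c mc).1 h
    simp [hac.ne', hbc.ne'] at this
  have sdd : d ∉ S := fun h => by
    have := (hT d md).1 h
    simp [had.ne', hbd.ne'] at this
  have hKle : ∀ v ∈ K, sd G S v ≤ 1 := by
    have key : ∀ v x : V, (∀ w ∈ K, G.Adj v w → (w ∈ S ↔ v ∈ S) → w = x) → v ∈ K →
        sd G S v ≤ 1 := by
      intro v x h hv
      unfold sd
      rw [← Finset.card_singleton x]
      apply Finset.card_le_card
      intro w hw
      rw [mem_sm] at hw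
      rw [Finset.mem_singleton]
      exact h w (out v hv w hw.1) hw.1 hw.2
    intro v hv
    have hv' := hv
    simp only [hK, Finset.mem_insert, Finset.mem_singleton] at hv'
    rcases hv' with rfl | rfl | rfl | rfl
    · refine key v b (fun w hw h1 h2 => ?_) hv
      simp only [hK, Finset.mem_insert, Finset.mem_singleton] at hw
      rcases hw with rfl | rfl | rfl | rfl
      · exact absurd h1 (G.loopless.irrefl _)
      · rfl
      · tauto
      · tauto
    · refine key v a (fun w hw h1 h2 => ?_) hv
      simp only [hK, Finset.mem_insert, Finset.mem_singleton] at hw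
      rcases hw with rfl | rfl | rfl | rfl
      · rfl
      · exact absurd h1 (G.loopless.irrefl _)
      · tauto
      · tauto
    · refine key v d (fun w hw h1 h2 => ?_) hv
      simp only [hK, Finset.mem_insert, Finset.mem_singleton] at hw
      rcases hw with rfl | rfl | rfl | rfl
      · tauto
      · tauto
      · exact absurd h1 (G.loopless.irrefl _)
      · rfl
    · refine key v c (fun w hw h1 h2 => ?_) hv
      simp only [hK, Finset.mem_insert, Finset.mem_singleton] at hw
      rcases hw with rfl | rfl | rfl | rfl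
      · tauto
      · tauto
      · rfl
      · exact absurd h1 (G.loopless.irrefl _)
  refine goodC_of_bal (S := S) (bal_transfer G H K id Function.injective_id ∅ ?_ ∅ S S'
    hB hS ?_ ?_ ?_ ?_ ?_ ?_)
  · intro w
    simp
  · intro v _
    refine ⟨hsd v, fun _ => ?_⟩
    exact qd_of_map (sub K) (hsm v) (fun x _ => by
      have := hsd x
      change sd G S x = 2 ↔ _
      rw [this])
  · simp
  · intro v hv
    have := hKle v hv
    exact ⟨by omega, fun h => by omega⟩
  · rw [sum_sg_K hT hTK, Finset.sum_empty, hcard, Finset.card_pair hab.ne]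
    norm_num
  · rw [Finset.sum_empty, Finset.sum_empty, add_zero]
    exact Finset.sum_eq_zero fun v hv => w1_zero (hKle v hv)
  · rw [Finset.sum_empty, Finset.sum_empty, add_zero]
    exact Finset.sum_eq_zero fun v hv => w2_zero (hKle v hv)

/-- The reduction of diamonds: in a minimal counterexample every diamond lies in a pendant `L_0` or
`L_1`. -/
theorem dia_step (hG : G.IsRegularOfDegree 3) (IH : IHyp.{u} (Fintype.card V)) :
    GoodC G ∨ DiamOK G := by
  by_contra hcon
  rw [not_or] at hcon
  obtain ⟨hgc, hd⟩ := hcon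
  apply hd
  intro a b c d had hab hac hbc hbd hcd
  by_cases hadj : G.Adj a d
  · exact absurd (R0 hG IH hadj hab hac hbc hbd hcd) hgc
  · obtain ⟨X, a1, a2, a3⟩ := third hG hab hac hbc.ne
    obtain ⟨Y, b1, b2, b3⟩ := third hG hbd.symm hcd.symm hbc.ne
    have hL : Lad G 0 X Y a d {a, b, c, d} := by
      refine ⟨?_, ?_, a1.symm, b1.symm, b, c, had, hadj, hab, hac, hbc, hbd, hcd, rfl⟩
      · simp only [Finset.mem_insert, Finset.mem_singleton, not_or]
        exact ⟨a1.ne', a2, a3, fun e => hadj (e ▸ a1)⟩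
      · simp only [Finset.mem_insert, Finset.mem_singleton, not_or]
        exact ⟨fun e => hadj (e ▸ b1).symm, b2, b3, b1.ne'⟩
    by_cases hXY : X = Y
    · subst hXY
      exact Or.inl ⟨X, hL⟩
    · by_cases hn : G.Adj X Y
      · obtain ⟨X', Y', h'⟩ := hL.extend hG hn
        by_cases hXY' : X' = Y'
        · subst hXY'
          exact Or.inr ⟨X', X, Y, hL, h'⟩
        · by_cases hn' : G.Adj X' Y'
          · obtain ⟨X'', Y'', h''⟩ := h'.extend hG hn'
            exact absurd (Lad.useBig hG IH _ 0 le_rfl h'') hgc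
          · exact absurd (h'.useR1 hG IH hXY' hn') hgc
      · exact absurd (hL.useR1 hG IH hXY hn) hgc

end Pool.Agent.Lib.Ando.Dia
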