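import Mathlib
import Pool.Agent.Lib.Ando.DiaMain
import Pool.Agent.Lib.Ando.LevelE

set_option autoImplicit false
set_option linter.unusedSectionVars false
set_option linter.unusedSimpArgs false

/-!
# Ando.DiaLevel: level colourings near the pendants `L_0` and `L_1`
-/

namespace Pool.Agent.Lib.Ando.Dia

variable {V : Type*} [Fintype V] [DecidableEq V] {G : SimpleGraph V} [DecidableRel G.Adj]

/-- adjacency of the pendant `L_1` with its outer neighbour: 0 = x, 1 = r, 2 = s, 3 = a, 4 = b,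
5 = c, 6 = d, 7 = z -/
def adjB (i j : Fin 8) : Bool :=
  decide ((i, j) ∈ ([(0, 1), (0, 2), (0, 7), (1, 2), (1, 3), (2, 6), (3, 4), (3, 5), (4, 5),
    (4, 6), (5, 6), (1, 0), (2, 0), (7, 0), (2, 1), (3, 1), (6, 2), (4, 3), (5, 3), (5, 4),
    (6, 4), (6, 5)] : List (Fin 8 × Fin 8)))

/-- A pendant `L_1`. -/
structure L1 (G : SimpleGraph V) (v : Fin 8 → V) : Prop where
  inj : Function.Injective v
  adj : ∀ i j, adjB i j = true → G.Adj (v i) (v j)

/-- colours -/
def fB (S : Finset V) (v : Fin 8 → V) (i : Fin 8) : Bool := decide (v i ∈ S)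

theorem fB_eq {S : Finset V} {v : Fin 8 → V} {i j : Fin 8} :
    fB S v i = fB S v j ↔ (v i ∈ S ↔ v j ∈ S) := by
  unfold fB
  by_cases h1 : v i ∈ S <;> by_cases h2 : v j ∈ S <;> simp [h1, h2]

def sB (f : Fin 8 → Bool) (i : Fin 8) : ℕ :=
  (Finset.univ.filter (fun j => adjB i j = true ∧ f j = f i)).card

/-- white vertices of the pendant -/
def wB (f : Fin 8 → Bool) : ℕ := (Finset.univ.filter (fun i : Fin 8 => i ≠ 7 ∧ f i = true)).card

/-- sum of the degrees -/
def tB (f : Fin 8 → Bool) : ℕ := ∑ i, sB f i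

theorem adjB_card : ∀ i : Fin 8, i ≠ 7 →
    (Finset.univ.filter (fun j => adjB i j = true)).card = 3 := by decide

theorem adjB_symm : ∀ i j : Fin 8, adjB i j = true → adjB j i = true := by decide

theorem adjB_seven : ∀ i : Fin 8, adjB 7 i = true ↔ i = 0 := by decide

theorem L1.nbr (hG : G.IsRegularOfDegree 3) {v : Fin 8 → V} (h : L1 G v) {i : Fin 8}
    (hi : i ≠ 7) {w : V} (hw : G.Adj (v i) w) : ∃ j, adjB i j = true ∧ v j = w := by
  have h1 : (Finset.univ.filter (fun j => adjB i j = true)).map ⟨v, h.inj⟩ ⊆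
      G.neighborFinset (v i) := by
    intro y hy
    rw [Finset.mem_map] at hy
    obtain ⟨j, hj, rfl⟩ := hy
    rw [Finset.mem_filter] at hj
    rw [SimpleGraph.mem_neighborFinset]
    exact h.adj i j hj.2
  have h2 := Finset.eq_of_subset_of_card_le h1 (by
    rw [Finset.card_map, adjB_card i hi, SimpleGraph.card_neighborFinset_eq_degree, hG])
  have h3 : w ∈ G.neighborFinset (v i) := by rw [SimpleGraph.mem_neighborFinset]; exact hw
  rw [← h2, Finset.mem_map] at h3
  obtain ⟨j, hj, e⟩ := h3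
  rw [Finset.mem_filter] at hj
  exact ⟨j, hj.2, e⟩

theorem L1.smL (hG : G.IsRegularOfDegree 3) {v : Fin 8 → V} (h : L1 G v) (S : Finset V)
    {i : Fin 8} (hi : i ≠ 7) : sm G S (v i) =
      (Finset.univ.filter (fun j => adjB i j = true ∧ fB S v j = fB S v i)).map ⟨v, h.inj⟩ := by
  ext w
  rw [mem_sm, Finset.mem_map]
  constructor
  · rintro ⟨h1, h2⟩
    obtain ⟨j, hj, rfl⟩ := h.nbr hG hi h1
    exact ⟨j, Finset.mem_filter.2 ⟨Finset.mem_univ _, hj, fB_eq.2 h2⟩, rfl⟩
  · rintro ⟨j, hj, rfl⟩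
    rw [Finset.mem_filter] at hj
    exact ⟨h.adj i j hj.2.1, fB_eq.1 hj.2.2⟩

theorem L1.sdL (hG : G.IsRegularOfDegree 3) {v : Fin 8 → V} (h : L1 G v) (S : Finset V)
    {i : Fin 8} (hi : i ≠ 7) : sd G S (v i) = sB (fB S v) i := by
  unfold sd sB
  rw [h.smL hG S hi, Finset.card_map]

/-- Recolour the pendant. -/
theorem L1.exists_T {v : Fin 8 → V} (h : L1 G v) (S : Finset V) (g : Fin 8 → Bool)
    (hg : g 7 = fB S v 7) : ∃ T : Finset V, fB T v = g ∧
      (∀ w, (∀ i, i ≠ 7 → v i ≠ w) → (w ∈ T ↔ w ∈ S)) := by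
  refine ⟨(S \ Finset.univ.image v) ∪ (Finset.univ.filter (fun i => g i = true)).image v, ?_, ?_⟩
  · funext i
    unfold fB
    have : (v i ∈ (S \ Finset.univ.image v) ∪
        (Finset.univ.filter (fun i => g i = true)).image v) ↔ g i = true := by
      rw [Finset.mem_union, Finset.mem_sdiff, Finset.mem_image, Finset.mem_image]
      constructor
      · rintro (⟨-, h2⟩ | ⟨j, hj, e⟩)
        · exact absurd ⟨i, Finset.mem_univ _, rfl⟩ h2
        · rw [← h.inj e]
          exact (Finset.mem_filter.1 hj).2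
      · intro hi
        exact Or.inr ⟨i, Finset.mem_filter.2 ⟨Finset.mem_univ _, hi⟩, rfl⟩
    by_cases hi : g i = true
    · rw [hi]; simpa using this.2 hi
    · rw [Bool.not_eq_true] at hi
      rw [hi]
      simp only [decide_eq_false_iff_not]
      rw [this, hi]
      simp
  · intro w hw
    rw [Finset.mem_union, Finset.mem_sdiff, Finset.mem_image, Finset.mem_image]
    by_cases h7 : v 7 = w
    · subst h7
      constructor
      · rintro (⟨h1, -⟩ | ⟨j, hj, e⟩)
        · exact h1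
        · rw [h.inj e, Finset.mem_filter, hg] at hj
          simpa [fB] using hj.2
      · intro h1
        right
        refine ⟨7, Finset.mem_filter.2 ⟨Finset.mem_univ _, ?_⟩, rfl⟩
        rw [hg]
        simpa [fB] using h1
    · constructor
      · rintro (⟨h1, -⟩ | ⟨j, hj, e⟩)
        · exact h1
        · exfalso
          by_cases hj7 : j = 7
          · exact h7 (hj7 ▸ e)
          · exact hw j hj7 e
      · intro h1
        left
        refine ⟨h1, ?_⟩
        rintro ⟨j, -, e⟩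
        by_cases hj7 : j = 7
        · exact h7 (hj7 ▸ e)
        · exact hw j hj7 e

/-- Outside the pendant nothing changes. -/
theorem L1.sd_out (hG : G.IsRegularOfDegree 3) {v : Fin 8 → V} (h : L1 G v) {S T : Finset V}
    (hT : ∀ w, (∀ i, i ≠ 7 → v i ≠ w) → (w ∈ T ↔ w ∈ S)) {w : V} (hw : ∀ i, v i ≠ w) :
    sm G T w = sm G S w := by
  ext y
  rw [mem_sm, mem_sm]
  by_cases hy : G.Adj w y
  · have h1 : ∀ i, i ≠ 7 → v i ≠ y := by
      intro i hi e
      rw [← e] at hy
      obtain ⟨j, -, e⟩ := h.nbr hG hi hy.symm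
      exact hw j e
    rw [hT y h1, hT w fun i _ => hw i]
  · simp [hy]

theorem L1.sm_seven (hG : G.IsRegularOfDegree 3) {v : Fin 8 → V} (h : L1 G v) {S T : Finset V}
    (hT : ∀ w, (∀ i, i ≠ 7 → v i ≠ w) → (w ∈ T ↔ w ∈ S)) :
    (sm G T (v 7)).erase (v 0) = (sm G S (v 7)).erase (v 0) := by
  have h7 : v 7 ∈ T ↔ v 7 ∈ S := hT _ fun i hi e => hi (h.inj e)
  ext y
  rw [Finset.mem_erase, Finset.mem_erase, mem_sm, mem_sm]
  by_cases hy : G.Adj (v 7) y ∧ y ≠ v 0
  · have h1 : ∀ i, i ≠ 7 → v i ≠ y := by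
      intro i hi e
      rw [← e] at hy
      obtain ⟨j, h2, e⟩ := h.nbr hG hi hy.1.symm
      rw [h.inj e] at h2
      have := (adjB_seven i).1 (adjB_symm _ _ h2)
      exact hy.2 (by rw [this])
    rw [hT y h1, h7]
  · constructor
    · rintro ⟨h1, h2, -⟩
      exact absurd ⟨h2, h1⟩ hy
    · rintro ⟨h1, h2, -⟩
      exact absurd ⟨h2, h1⟩ hy

theorem L1.sd_seven (hG : G.IsRegularOfDegree 3) {v : Fin 8 → V} (h : L1 G v) (S : Finset V) :
    sd G S (v 7) = ((sm G S (v 7)).erase (v 0)).card + sB (fB S v) 7 := by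
  have e1 : sB (fB S v) 7 = if v 0 ∈ sm G S (v 7) then 1 else 0 := by
    unfold sB
    have : (Finset.univ.filter (fun j => adjB 7 j = true ∧ fB S v j = fB S v 7)) =
        if v 0 ∈ sm G S (v 7) then {0} else ∅ := by
      ext j
      rw [Finset.mem_filter]
      split_ifs with hc
      · rw [Finset.mem_singleton, adjB_seven]
        constructor
        · exact fun h => h.2.1
        · rintro rfl
          exact ⟨Finset.mem_univ _, rfl, fB_eq.2 (mem_sm.1 hc).2⟩
      · simp only [Finset.notMem_empty, iff_false]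
        rintro ⟨-, h1, h2⟩
        rw [adjB_seven] at h1
        subst h1
        exact hc (mem_sm.2 ⟨h.adj 7 0 (by decide), fB_eq.1 h2⟩)
    rw [this]
    split_ifs <;> simp
  rw [e1]
  unfold sd
  split_ifs with hc
  · rw [Finset.card_erase_of_mem hc]
    have : 0 < (sm G S (v 7)).card := Finset.card_pos.2 ⟨_, hc⟩
    omega
  · rw [Finset.erase_eq_of_notMem hc, add_zero]

theorem L1.sum_image {v : Fin 8 → V} (h : L1 G v) (f : V → ℤ) :
    ∑ w, f w = ∑ i, f (v i) + ∑ w ∈ (Finset.univ.image v)ᶜ, f w := by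
  rw [← Finset.sum_add_sum_compl (Finset.univ.image v) f,
    Finset.sum_image (fun x _ y _ e => h.inj e)]

/-- The change of `mm`. -/
theorem L1.mm_diff (hG : G.IsRegularOfDegree 3) {v : Fin 8 → V} (h : L1 G v) {S T : Finset V}
    (hT : ∀ w, (∀ i, i ≠ 7 → v i ≠ w) → (w ∈ T ↔ w ∈ S)) :
    mm G T - mm G S = (tB (fB T v) : ℤ) - tB (fB S v) := by
  unfold mm
  rw [h.sum_image, h.sum_image]
  have e1 : ∑ w ∈ (Finset.univ.image v)ᶜ, (sd G T w : ℤ) =
      ∑ w ∈ (Finset.univ.image v)ᶜ, (sd G S w : ℤ) := by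
    refine Finset.sum_congr rfl fun w hw => ?_
    rw [Finset.mem_compl, Finset.mem_image] at hw
    unfold sd
    rw [h.sd_out hG hT fun i e => hw ⟨i, Finset.mem_univ _, e⟩]
  rw [e1, Fin.sum_univ_castSucc (fun i => (sd G T (v i) : ℤ)),
    Fin.sum_univ_castSucc (fun i => (sd G S (v i) : ℤ))]
  have e2 : ∀ S : Finset V, ∑ i : Fin 7, (sd G S (v i.castSucc) : ℤ) =
      ∑ i : Fin 7, (sB (fB S v) i.castSucc : ℤ) := by
    intro S
    refine Finset.sum_congr rfl fun i _ => ?_
    rw [h.sdL hG S (Fin.castSucc_lt_last i).ne]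
  rw [e2, e2]
  have e3 := h.sd_seven hG S
  have e4 := h.sd_seven hG T
  rw [h.sm_seven hG hT] at e4
  unfold tB
  push_cast
  rw [Fin.sum_univ_castSucc (fun i => (sB (fB T v) i : ℤ)),
    Fin.sum_univ_castSucc (fun i => (sB (fB S v) i : ℤ))]
  have e5 : Fin.last 7 = 7 := rfl
  rw [e5, e3, e4]
  push_cast
  ring

theorem L1.imb_diff {v : Fin 8 → V} (h : L1 G v) {S T : Finset V}
    (hT : ∀ w, (∀ i, i ≠ 7 → v i ≠ w) → (w ∈ T ↔ w ∈ S)) :
    imb T - imb S = 2 * ((wB (fB T v) : ℤ) - wB (fB S v)) := by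
  have h7 : v 7 ∈ T ↔ v 7 ∈ S := hT _ fun i hi e => hi (h.inj e)
  rw [← sum_sg, ← sum_sg, h.sum_image, h.sum_image]
  have e1 : ∑ w ∈ (Finset.univ.image v)ᶜ, sg T w = ∑ w ∈ (Finset.univ.image v)ᶜ, sg S w := by
    refine Finset.sum_congr rfl fun w hw => ?_
    rw [Finset.mem_compl, Finset.mem_image] at hw
    unfold sg
    have := hT w fun i _ e => hw ⟨i, Finset.mem_univ _, e⟩
    simp only [this]
  have e2 : ∀ S : Finset V, ∑ i, sg S (v i) = 2 * (wB (fB S v) : ℤ) - 7 + sg S (v 7) := by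
    intro S
    have key : ∀ f : Fin 8 → Bool, (∑ i, (if f i = true then (1 : ℤ) else -1)) =
        2 * (wB f : ℤ) - 7 + (if f 7 = true then 1 else -1) := by decide +kernel
    have := key (fB S v)
    unfold fB at this
    simp only [decide_eq_true_eq] at this
    exact this
  rw [e1, e2, e2]
  have e3 : sg T (v 7) = sg S (v 7) := by
    unfold sg
    simp only [h7]
  rw [e3]
  ring

/-- The exchange used for every illegal state. -/
def mv (f : Fin 8 → Bool) : Fin 8 → Bool :=
  if f 0 = true then ![true, false, false, true, false, false, true, f 7]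
  else if f 7 = false then ![true, false, false, true, false, false, true, f 7]
  else ![false, false, true, true, false, true, false, f 7]

theorem mv_spec : ∀ f : Fin 8 → Bool, (∀ i, i ≠ 7 → sB f i ≤ 1) → wB f ≠ 3 →
    mv f 7 = f 7 ∧ wB (mv f) + 1 = wB f ∧ (tB (mv f) ≤ tB f ∨
      (tB (mv f) ≤ tB f + 2 ∧ (∀ i, i ≠ 7 → sB (mv f) i ≤ 1) ∧ sB (mv f) 7 ≤ sB f 7)) := by
  decide +kernel

/-- In a level colouring with `k ≥ 1` a pendant `L_1` has exactly three white vertices. -/
theorem L1.white (hG : G.IsRegularOfDegree 3) {v : Fin 8 → V} (h : L1 G v) {k : ℕ}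
    {S : Finset V} (hL : Level G k S) (hk : 1 ≤ k) : wB (fB S v) = 3 := by
  by_contra hne
  have hle : ∀ i, i ≠ 7 → sB (fB S v) i ≤ 1 := fun i hi => by
    rw [← h.sdL hG S hi]; exact hL.tf _
  obtain ⟨h1, h2, h3⟩ := mv_spec _ hle hne
  obtain ⟨T, hT1, hT2⟩ := h.exists_T S (mv (fB S v)) h1
  have hm := h.mm_diff hG hT2
  have hi := h.imb_diff hT2
  rw [hT1] at hm hi
  have hi' : imb T = 2 * (k : ℤ) - 2 := by
    have := hL.imb_eq
    have h2' : (wB (mv (fB S v)) : ℤ) + 1 = wB (fB S v) := by exact_mod_cast h2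
    linarith
  have hkz : (1 : ℤ) ≤ k := by exact_mod_cast hk
  have habs : |imb T| = 2 * (k : ℤ) - 2 := by
    rw [hi']
    exact abs_of_nonneg (by linarith)
  have habs2 := LevelEAux.imb_abs hL
  have hopt := hL.opt T
  rw [habs, habs2] at hopt
  rcases h3 with h3 | ⟨h3, h4, h5⟩
  · have : (tB (mv (fB S v)) : ℤ) ≤ tB (fB S v) := by exact_mod_cast h3
    linarith
  · have h3' : (tB (mv (fB S v)) : ℤ) ≤ tB (fB S v) + 2 := by exact_mod_cast h3
    have heq : mm G T + |imb T| = mm G S + |imb S| := by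
      rw [habs, habs2]
      linarith
    have htf : ∀ w, sd G T w ≤ 1 := by
      intro w
      by_cases hw : ∀ i, v i ≠ w
      · unfold sd
        rw [h.sd_out hG hT2 hw]
        exact hL.tf w
      · push Not at hw
        obtain ⟨i, rfl⟩ := hw
        by_cases hi7 : i = 7
        · subst hi7
          have e3 := h.sd_seven hG S
          have e4 := h.sd_seven hG T
          rw [h.sm_seven hG hT2, hT1] at e4
          have := hL.tf (v 7)
          omega
        · rw [h.sdL hG T hi7, hT1]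
          exact h4 i hi7
    have := hL.low T htf heq
    rw [habs, habs2] at this
    linarith

theorem states : ∀ f : Fin 8 → Bool, (∀ i, i ≠ 7 → sB f i ≤ 1) → wB f = 3 →
    (∀ i, i ≠ 7 → f i = false → sB f i = 1) ∧
    (f 3 = false → f 6 = false → f 4 = false ∨ f 5 = false) ∧
    (f 0 = true → f 7 = false → sB f 0 = 0) := by
  decide +kernel

theorem L1.hle (hG : G.IsRegularOfDegree 3) {v : Fin 8 → V} (h : L1 G v) {k : ℕ}
    {S : Finset V} (hL : Level G k S) : ∀ i, i ≠ 7 → sB (fB S v) i ≤ 1 := fun i hi => by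
  rw [← h.sdL hG S hi]; exact hL.tf _

/-- All black vertices of a pendant `L_1` have monochromatic degree one. -/
theorem L1.black (hG : G.IsRegularOfDegree 3) {v : Fin 8 → V} (h : L1 G v) {k : ℕ}
    {S : Finset V} (hL : Level G k S) (hk : 1 ≤ k) {i : Fin 8} (hi : i ≠ 7) (hS : v i ∉ S) :
    sd G S (v i) = 1 := by
  rw [h.sdL hG S hi]
  exact (states _ (h.hle hG hL) (h.white hG hL hk)).1 i hi (by simpa [fB] using hS)

/-- A star flip is impossible in the presence of a pendant `L_1`. -/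
theorem L1.no_sflip (hG : G.IsRegularOfDegree 3) {v : Fin 8 → V} (h : L1 G v)
    {S F : Finset V} {b : V} (hL : Level G 1 S) (hb : b ∉ S) (sb : sd G S b = 0)
    (hF : ∀ y ∈ F, y = b ∨ (y ∈ S ∧ sd G S y = 1 ∧ G.Adj b y))
    (hL2 : Level G 1 (symmDiff S F)ᶜ) : False := by
  have key : ∀ i, i ≠ 7 → v i ∉ F := by
    intro i hi hiF
    rcases hF _ hiF with e | ⟨e1, e2, e3⟩
    · have := h.black hG hL le_rfl hi (by rw [e]; exact hb)
      rw [e, sb] at this
      omega
    · obtain ⟨j, hj, hjb⟩ := h.nbr hG hi e3.symm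
      by_cases hj7 : j = 7
      · subst hj7
        have hi0 : i = 0 := (adjB_seven i).1 (adjB_symm _ _ hj)
        subst hi0
        have h1 := (states _ (h.hle hG hL) (h.white hG hL le_rfl)).2.2
          (by simpa [fB] using e1) (by rw [← hjb] at hb; simpa [fB] using hb)
        rw [h.sdL hG S (by decide), h1] at e2
        omega
      · have := h.black hG hL le_rfl hj7 (by rw [hjb]; exact hb)
        rw [hjb, sb] at this
        omega
  have h1 := h.white hG hL le_rfl
  have h2 := h.white hG hL2 le_rfl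
  have h3 : ∀ i, i ≠ 7 → fB (symmDiff S F)ᶜ v i = !(fB S v i) := by
    intro i hi
    have := key i hi
    unfold fB
    by_cases hS : v i ∈ S
    · simp [Finset.mem_symmDiff, this, hS]
    · simp [Finset.mem_symmDiff, this, hS]
  have h4 : ∀ f g : Fin 8 → Bool, (∀ i, i ≠ 7 → g i = !(f i)) → wB f + wB g = 7 := by
    intro f g hfg
    have e : ∀ g : Fin 8 → Bool, wB g = ∑ i : Fin 7, (if g i.castSucc = true then 1 else 0) := by
      decide +kernel
    rw [e f, e g, ← Finset.sum_add_distrib]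
    have : ∀ i : Fin 7, ((if f i.castSucc = true then 1 else 0) +
        (if g i.castSucc = true then 1 else 0) : ℕ) = 1 := by
      intro i
      rw [hfg _ (Fin.castSucc_lt_last i).ne]
      cases f i.castSucc <;> simp
    rw [Finset.sum_congr rfl fun i _ => this i]
    simp
  have := h4 _ _ h3
  omega

end Pool.Agent.Lib.Ando.Dia
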