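import Mathlib
import Pool.Agent.Lib.Ando.DiaLevel

set_option autoImplicit false
set_option linter.unusedSectionVars false
set_option linter.unusedSimpArgs false

/-!
# Ando.DiaApex: black-white triangles of a level colouring do not lie in diamonds
-/

namespace Pool.Agent.Lib.Ando.Dia

variable {V : Type*} [Fintype V] [DecidableEq V] {G : SimpleGraph V} [DecidableRel G.Adj]

theorem L1.of_lad (hG : G.IsRegularOfDegree 3) {a b c d r s x : V} (had : a ≠ d)
    (hab : G.Adj a b) (hac : G.Adj a c) (hbc : G.Adj b c) (hbd : G.Adj b d) (hcd : G.Adj c d)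
    (h0 : Lad G 0 r s a d {a, b, c, d})
    (h1 : Lad G 1 x x r s (insert r (insert s {a, b, c, d}))) :
    ∃ v : Fin 8 → V, L1 G v ∧ v 3 = a ∧ v 4 = b ∧ v 5 = c ∧ v 6 = d := by
  obtain ⟨f1, f2, hra, hsd, -⟩ := h0
  have hA := h1.attach hG
  obtain ⟨g1, -, hxr, hxs, r', s', K', -, hrs', hrs, -⟩ := h1
  obtain ⟨z, hxz, hzr, hzs⟩ := third hG hxr hxs hrs'
  have hz : z ∉ insert r (insert s ({a, b, c, d} : Finset V)) := by
    intro hz
    rcases hA.out z hz x hA.hX hxz.symm with h | h
    · exact hzr h.1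
    · exact hzs h.1
  simp only [Finset.mem_insert, Finset.mem_singleton, not_or] at f1 f2 g1 hz
  refine ⟨![x, r, s, a, b, c, d, z], ⟨?_, ?_⟩, rfl, rfl, rfl, rfl⟩
  · have key : ∀ i j : Fin 8, i < j → (![x, r, s, a, b, c, d, z] : Fin 8 → V) i ≠
        (![x, r, s, a, b, c, d, z] : Fin 8 → V) j := by
      have i1 := hab.ne
      have i2 := hac.ne
      have i3 := hbc.ne
      have i4 := hbd.ne
      have i5 := hcd.ne
      have i6 := hxz.ne
      obtain ⟨f1a, f1b, f1c, f1d⟩ := f1
      obtain ⟨f2a, f2b, f2c, f2d⟩ := f2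
      obtain ⟨gr, gs, ga, gb, gc, gd⟩ := g1
      obtain ⟨zr, zs, za, zb, zc, zd⟩ := hz
      intro i j hij
      fin_cases i <;> fin_cases j <;>
        first
        | (exfalso; revert hij; decide)
        | assumption
        | (refine Ne.symm ?_; assumption)
    intro i j hij
    rcases lt_trichotomy i j with h | h | h
    · exact absurd hij (key i j h)
    · exact h
    · exact absurd hij.symm (key j i h)
  · intro i j hij
    simp only [adjB, decide_eq_true_eq, List.mem_cons, Prod.mk.injEq, List.not_mem_nil,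
      or_false] at hij
    rcases hij with ⟨rfl, rfl⟩ | ⟨rfl, rfl⟩ | ⟨rfl, rfl⟩ | ⟨rfl, rfl⟩ | ⟨rfl, rfl⟩ | ⟨rfl, rfl⟩ | ⟨rfl, rfl⟩ | ⟨rfl, rfl⟩ | ⟨rfl, rfl⟩ | ⟨rfl, rfl⟩ | ⟨rfl, rfl⟩ | ⟨rfl, rfl⟩ | ⟨rfl, rfl⟩ | ⟨rfl, rfl⟩ | ⟨rfl, rfl⟩ | ⟨rfl, rfl⟩ | ⟨rfl, rfl⟩ | ⟨rfl, rfl⟩ | ⟨rfl, rfl⟩ | ⟨rfl, rfl⟩ | ⟨rfl, rfl⟩ | ⟨rfl, rfl⟩
    · exact hxr
    · exact hxs
    · exact hxz
    · exact hrs
    · exact hra
    · exact hsd
    · exact hab
    · exact hac
    · exact hbc
    · exact hbd
    · exact hcd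
    · exact hxr.symm
    · exact hxs.symm
    · exact hxz.symm
    · exact hrs.symm
    · exact hra.symm
    · exact hsd.symm
    · exact hab.symm
    · exact hac.symm
    · exact hbc.symm
    · exact hbd.symm
    · exact hcd.symm


/-- two different neighbours of the same colour -/
theorem sd_two {S : Finset V} {v p q : V} (hp : G.Adj v p) (hq : G.Adj v q) (hpq : p ≠ q)
    (h1 : p ∈ S ↔ v ∈ S) (h2 : q ∈ S ↔ v ∈ S) (h : sd G S v ≤ 1) : False := by
  have : ({p, q} : Finset V) ⊆ sm G S v := by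
    intro y hy
    simp only [Finset.mem_insert, Finset.mem_singleton] at hy
    rcases hy with rfl | rfl
    · exact mem_sm.2 ⟨hp, h1⟩
    · exact mem_sm.2 ⟨hq, h2⟩
  have := Finset.card_le_card this
  rw [Finset.card_pair hpq] at this
  unfold sd at h
  omega

/-- Two adjacent white vertices have at most one common neighbour which is black of monochromatic
degree one. -/
theorem dia_one (hG : G.IsRegularOfDegree 3) (hD : DiamOK G) {k : ℕ} {S : Finset V}
    (hL : Level G k S) (hk : 1 ≤ k) {l z z' : V} (hl : l ∉ S) (sl : sd G S l = 1) (hz : z ∈ S)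
    (hz' : z' ∈ S) (a1 : G.Adj l z) (a2 : G.Adj l z') (a3 : G.Adj z z') :
    ∀ p, G.Adj p z → G.Adj p z' → p = l := by
  intro p p1 p2
  by_contra hpl
  have hp : p ∉ S := fun hp => sd_two a3 p1.symm p2.ne' (by tauto) (by tauto) (hL.tf z)
  rcases hD l z z' p (Ne.symm hpl) a1 a2 a3 p1.symm p2.symm with ⟨x, h⟩ | ⟨x, r, s, h0, h1⟩
  · obtain ⟨h1, -, h2, h3, -⟩ := h
    simp only [Finset.mem_insert, Finset.mem_singleton, not_or] at h1
    have hx : x ∉ S := by
      intro hx
      have h4 : sm G S l ⊆ ∅ := by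
        intro y hy
        rw [mem_sm] at hy
        rcases nbr3 hG a1 a2 h2.symm a3.ne (Ne.symm h1.2.1) (Ne.symm h1.2.2.1) hy.1 with
          rfl | rfl | rfl <;> tauto
      have := Finset.card_le_card h4
      unfold sd at sl
      rw [sl] at this
      simp at this
    exact sd_two h2 h3 (Ne.symm hpl) (by tauto) (by tauto) (hL.tf x)
  · obtain ⟨v, hv, e3, e4, e5, e6⟩ := L1.of_lad hG (Ne.symm hpl) a1 a2 a3 p1.symm p2.symm h0 h1
    have := (states _ (hv.hle hG hL) (hv.white hG hL hk)).2.1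
    unfold fB at this
    rw [e3, e4, e5, e6] at this
    simp [hl, hp, hz, hz'] at this

/-- The only diamond which contains a black-white triangle with a black vertex of monochromatic
degree one lies in a pendant `L_1`. -/
theorem dia_two (hG : G.IsRegularOfDegree 3) (hD : DiamOK G) {k : ℕ} {S : Finset V}
    (hL : Level G k S) {l z z' : V} (hl : l ∉ S) (hz : z ∈ S)
    (hz' : z' ∈ S) (a1 : G.Adj l z) (a2 : G.Adj l z') (a3 : G.Adj z z') {p : V}
    (p1 : G.Adj p l) (p2 : G.Adj p z) (hp : p ≠ z') :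
    ∃ v : Fin 8 → V, L1 G v ∧ v 3 = z' ∧ v 4 = l ∧ v 5 = z ∧ v 6 = p := by
  have hpS : p ∉ S := fun h => sd_two a3 p2.symm hp.symm (by tauto) (by tauto) (hL.tf z)
  rcases hD z' l z p hp.symm a2.symm a3.symm a1 p1.symm p2.symm with ⟨x, h⟩ | ⟨x, r, s, h0, h1⟩
  · exfalso
    obtain ⟨h1, -, h2, h3, -⟩ := h
    simp only [Finset.mem_insert, Finset.mem_singleton, not_or] at h1
    by_cases hx : x ∈ S
    · exact sd_two h2.symm a3.symm h1.2.2.1 (by tauto) (by tauto) (hL.tf z')
    · exact sd_two h3.symm p1 h1.2.1 (by tauto) (by tauto) (hL.tf p)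
  · exact L1.of_lad hG hp.symm a2.symm a3.symm a1 p1.symm p2.symm h0 h1

/-- the colours of the exceptional state -/
theorem states2 : ∀ f : Fin 8 → Bool, (∀ i, i ≠ 7 → sB f i ≤ 1) → wB f = 3 →
    f 3 = true → f 4 = false → f 5 = true →
    f = ![false, false, true, true, false, true, false, f 7] := by
  decide +kernel

/-- The colours in the exceptional case. -/
theorem dia_state (hG : G.IsRegularOfDegree 3) {k : ℕ} {S : Finset V}
    (hL : Level G k S) (hk : 1 ≤ k) {v : Fin 8 → V} (hv : L1 G v)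
    (h3 : v 3 ∈ S) (h4 : v 4 ∉ S) (h5 : v 5 ∈ S) :
    fB S v = ![false, false, true, true, false, true, false, fB S v 7] :=
  states2 _ (hv.hle hG hL) (hv.white hG hL hk) (by simpa [fB] using h3)
    (by simpa [fB] using h4) (by simpa [fB] using h5)


/-- The property of one colouring used instead of the absence of diamonds. -/
def DL (G : SimpleGraph V) [DecidableRel G.Adj] (S : Finset V) : Prop :=
  ∀ l z z' : V, l ∉ S → sd G S l = 1 → z ∈ S → z' ∈ S → G.Adj l z → G.Adj l z' → G.Adj z z' →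
    (∀ p, G.Adj p z → G.Adj p z' → p = l) ∧ (∀ p, G.Adj p l → G.Adj p z → p = z')

/-- For every level colouring with `k ≥ 1`: a black-white triangle `l z z'` with `l` in L shares the
edge `z z'` with no other triangle; if it shares `l z` with a triangle `l z p`, `p ≠ z'`, then all
black neighbours of `z` and `z'` have monochromatic degree one. -/
theorem dl_weak (hG : G.IsRegularOfDegree 3) (hD : DiamOK G) {k : ℕ} {S : Finset V}
    (hL : Level G k S) (hk : 1 ≤ k) {l z z' : V} (hl : l ∉ S) (sl : sd G S l = 1) (hz : z ∈ S)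
    (hz' : z' ∈ S) (a1 : G.Adj l z) (a2 : G.Adj l z') (a3 : G.Adj z z') :
    (∀ p, G.Adj p z → G.Adj p z' → p = l) ∧
    (∀ p, G.Adj p l → G.Adj p z → p = z' ∨
      (p ∉ S ∧ sd G S p = 1 ∧ ∀ q, q ∉ S → G.Adj q z ∨ G.Adj q z' → sd G S q = 1)) := by
  refine ⟨dia_one hG hD hL hk hl sl hz hz' a1 a2 a3, fun p p1 p2 => ?_⟩
  by_cases hp : p = z'
  · exact Or.inl hp
  · right
    obtain ⟨v, hv, e3, e4, e5, e6⟩ := dia_two hG hD hL hl hz hz' a1 a2 a3 p1 p2 hp
    have hpS : p ∉ S := fun h => sd_two a3 p2.symm (Ne.symm hp) (by tauto) (by tauto) (hL.tf z)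
    refine ⟨hpS, ?_, fun q hq hq2 => ?_⟩
    · rw [← e6]
      exact hv.black hG hL hk (by decide) (by rw [e6]; exact hpS)
    · rcases hq2 with h | h
      · rw [← e5] at h
        obtain ⟨j, hj, rfl⟩ := hv.nbr hG (by decide) h.symm
        refine hv.black hG hL hk ?_ hq
        rintro rfl
        revert hj
        decide
      · rw [← e3] at h
        obtain ⟨j, hj, rfl⟩ := hv.nbr hG (by decide) h.symm
        refine hv.black hG hL hk ?_ hq
        rintro rfl
        revert hj
        decide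

/-- black vertices of monochromatic degree one in a triangle with two white vertices -/
def Apx (G : SimpleGraph V) [DecidableRel G.Adj] (S : Finset V) : Finset V :=
  Finset.univ.filter (fun l => l ∉ S ∧ sd G S l = 1 ∧ ∃ z z', z ∈ S ∧ z' ∈ S ∧ G.Adj l z ∧
    G.Adj l z' ∧ G.Adj z z')

theorem apx_states : ∀ i j j' : Fin 8, ∀ c : Bool, i ≠ 7 → adjB i j = true → adjB i j' = true →
    adjB j j' = true → ¬ ((![false, false, true, true, false, false, true, c] : Fin 8 → Bool) i =
      false ∧ (![false, false, true, true, false, false, true, c] : Fin 8 → Bool) j = true ∧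
      (![false, false, true, true, false, false, true, c] : Fin 8 → Bool) j' = true) := by
  decide +kernel

theorem apx_B : ∀ c : Bool,
    tB ![false, false, true, true, false, false, true, c] =
      tB ![false, false, true, true, false, true, false, c] ∧
    wB ![false, false, true, true, false, false, true, c] = 3 ∧
    wB ![false, false, true, true, false, true, false, c] = 3 ∧
    ((∀ i, i ≠ 7 → sB ![false, false, true, true, false, true, false, c] i ≤ 1) →
      ∀ i, i ≠ 7 → sB ![false, false, true, true, false, false, true, c] i ≤ 1) ∧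
    sB ![false, false, true, true, false, false, true, c] 7 =
      sB ![false, false, true, true, false, true, false, c] 7 := by
  decide +kernel


/-- The exceptional state can be removed. -/
theorem apx_drop (hG : G.IsRegularOfDegree 3) {k : ℕ} {S : Finset V}
    (hL : Level G k S) {v : Fin 8 → V} (hv : L1 G v)
    (hf : fB S v = ![false, false, true, true, false, true, false, fB S v 7]) :
    ∃ T : Finset V, Level G k T ∧ (Apx G T).card < (Apx G S).card := by
  obtain ⟨T, hT1, hT2⟩ := hv.exists_T S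
    ![false, false, true, true, false, false, true, fB S v 7] rfl
  obtain ⟨b1, b2, b3, b4, b5⟩ := apx_B (fB S v 7)
  have hle := hv.hle hG hL
  have hm := hv.mm_diff hG hT2
  have hi := hv.imb_diff hT2
  rw [hT1] at hm hi
  rw [← hf] at b1 b3 b4 b5
  rw [b1, sub_self] at hm
  rw [b2, b3, sub_self, mul_zero] at hi
  have hm' : mm G T = mm G S := by linarith
  have hi' : imb T = imb S := by linarith
  have htf : ∀ w, sd G T w ≤ 1 := by
    intro w
    by_cases hw : ∀ i, v i ≠ w
    · unfold sd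
      rw [hv.sd_out hG hT2 hw]
      exact hL.tf w
    · push Not at hw
      obtain ⟨i, rfl⟩ := hw
      by_cases hi7 : i = 7
      · subst hi7
        have e3 := hv.sd_seven hG S
        have e4 := hv.sd_seven hG T
        rw [hv.sm_seven hG hT2, hT1, b5] at e4
        have := hL.tf (v 7)
        omega
      · rw [hv.sdL hG T hi7, hT1]
        exact b4 hle i hi7
  have hLT : Level G k T := by
    refine ⟨by rw [hi']; exact hL.imb_eq, fun U => ?_, htf, fun U h1 h2 => ?_⟩
    · rw [hm', hi']; exact hL.opt U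
    · rw [hi']
      rw [hm', hi'] at h2
      exact hL.low U h1 h2
  have hTi : ∀ i, v i ∈ T ↔ fB T v i = true := by
    intro i
    unfold fB
    simp
  have hSi : ∀ i, v i ∈ S ↔ fB S v i = true := by
    intro i
    unfold fB
    simp
  have h4T : v 4 ∉ Apx G T ∧ ∀ i, i ≠ 7 → v i ∉ Apx G T := by
    have key : ∀ i, i ≠ 7 → v i ∉ Apx G T := by
      intro i hi hm
      unfold Apx at hm
      rw [Finset.mem_filter] at hm
      obtain ⟨-, m1, -, z, z', m2, m3, m4, m5, m6⟩ := hm
      obtain ⟨j, hj, rfl⟩ := hv.nbr hG hi m4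
      obtain ⟨j', hj', rfl⟩ := hv.nbr hG hi m5
      have hjj : adjB j j' = true := by
        by_cases hj7 : j = 7
        · by_cases hj7' : j' = 7
          · exact absurd (congrArg v (hj7.trans hj7'.symm)) m6.ne
          · obtain ⟨t, ht, hte⟩ := hv.nbr hG hj7' m6.symm
            rw [← hv.inj hte]
            exact adjB_symm _ _ ht
        · obtain ⟨t, ht, hte⟩ := hv.nbr hG hj7 m6
          rw [← hv.inj hte]
          exact ht
      refine apx_states i j j' (fB S v 7) hi hj hj' hjj ⟨?_, ?_, ?_⟩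
      · rw [← hT1]
        rw [hTi] at m1
        simpa using m1
      · rw [← hT1]
        exact (hTi j).1 m2
      · rw [← hT1]
        exact (hTi j').1 m3
    exact ⟨key 4 (by decide), key⟩
  refine ⟨T, hLT, Finset.card_lt_card ⟨?_, fun hss => ?_⟩⟩
  · intro m hm
    have hmv : ∀ i, i ≠ 7 → v i ≠ m := fun i hi e => h4T.2 i hi (by rw [e]; exact hm)
    have h0T : v 0 ∉ T := by
      rw [hTi, hT1]
      simp
    unfold Apx at hm ⊢
    rw [Finset.mem_filter] at hm ⊢
    obtain ⟨-, m1, m1', z, z', m2, m3, m4, m5, m6⟩ := hm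
    have hz : ∀ y, y ∈ T → G.Adj m y → y ∈ S := by
      intro y hy hmy
      by_cases hyv : ∀ i, i ≠ 7 → v i ≠ y
      · exact (hT2 y hyv).1 hy
      · push Not at hyv
        obtain ⟨i, hi, rfl⟩ := hyv
        obtain ⟨j, hj, hjm⟩ := hv.nbr hG hi hmy.symm
        have hj7 : j = 7 := by
          by_contra hne
          exact hmv j hne hjm
        subst hj7
        have hi0 : i = 0 := (adjB_seven i).1 (adjB_symm _ _ hj)
        subst hi0
        exact absurd hy h0T
    refine ⟨Finset.mem_univ _, fun h => m1 ((hT2 m hmv).2 h), ?_, z, z', hz z m2 m4,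
      hz z' m3 m5, m4, m5, m6⟩
    by_cases hw : ∀ i, v i ≠ m
    · unfold sd
      rw [← hv.sd_out hG hT2 hw]
      exact m1'
    · push Not at hw
      obtain ⟨i, rfl⟩ := hw
      by_cases hi7 : i = 7
      · subst hi7
        have e3 := hv.sd_seven hG S
        have e4 := hv.sd_seven hG T
        rw [hv.sm_seven hG hT2, hT1, b5] at e4
        omega
      · exact absurd rfl (hmv i hi7)
  · have : v 4 ∈ Apx G S := by
      have c3 : v 3 ∈ S := by rw [hSi, hf]; rfl
      have c4 : v 4 ∉ S := by rw [hSi, hf]; simp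
      have c5 : v 5 ∈ S := by rw [hSi, hf]; rfl
      unfold Apx
      rw [Finset.mem_filter]
      refine ⟨Finset.mem_univ _, c4, ?_, v 3, v 5, c3, c5, hv.adj _ _ (by decide),
        hv.adj _ _ (by decide), hv.adj _ _ (by decide)⟩
      rw [hv.sdL hG S (by decide), hf]
      generalize fB S v 7 = c
      revert c
      decide +kernel
    exact h4T.1 (hss this)

/-- Level colourings with the smallest number of apices. -/
theorem dl_of_min (hG : G.IsRegularOfDegree 3) (hD : DiamOK G) {k : ℕ} {S : Finset V}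
    (hL : Level G k S) (hk : 1 ≤ k)
    (hmin : ∀ T, Level G k T → (Apx G S).card ≤ (Apx G T).card) : DL G S := by
  intro l z z' hl sl hz hz' a1 a2 a3
  refine ⟨dia_one hG hD hL hk hl sl hz hz' a1 a2 a3, fun p p1 p2 => ?_⟩
  by_contra hp
  obtain ⟨v, hv, e3, e4, e5, e6⟩ := dia_two hG hD hL hl hz hz' a1 a2 a3 p1 p2 hp
  obtain ⟨T, hT1, hT2⟩ := apx_drop hG hL hv (dia_state hG hL hk hv (by rw [e3]; exact hz')
    (by rw [e4]; exact hl) (by rw [e5]; exact hz))
  have := hmin T hT1
  omega

/-- Without pendants `L_1`. -/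
theorem dl_of_noL1 (hG : G.IsRegularOfDegree 3) (hD : DiamOK G) {k : ℕ} {S : Finset V}
    (hL : Level G k S) (hk : 1 ≤ k) (hn : ∀ v : Fin 8 → V, ¬ L1 G v) : DL G S := by
  intro l z z' hl sl hz hz' a1 a2 a3
  refine ⟨dia_one hG hD hL hk hl sl hz hz' a1 a2 a3, fun p p1 p2 => ?_⟩
  by_contra hp
  obtain ⟨v, hv, -⟩ := dia_two hG hD hL hl hz hz' a1 a2 a3 p1 p2 hp
  exact hn v hv

end Pool.Agent.Lib.Ando.Dia
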