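import Mathlib
import Pool.Agent.Lib.Ando.DiaWt
import Pool.Agent.Lib.Ando.Trans

set_option autoImplicit false
set_option linter.unusedSectionVars false

/-!
# Ando.DiaBack: the numeric form `GoodC` follows from `Good`
-/

namespace Pool.Agent.Lib.Ando

namespace DiaBackAux

theorem P4_of {X : Type*} [Fintype X] [DecidableEq X] (H : SimpleGraph X) [DecidableRel H.Adj]
    (hd : ∀ x, H.degree x ≤ 2) (ha : H.IsAcyclic)
    (hc : ∀ c : H.ConnectedComponent, c.supp.ncard ≤ 4) : P4 H := by
  intro x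
  refine ⟨hd x, fun _ => ?_⟩
  by_contra hcon
  rw [not_le, Finset.one_lt_card] at hcon
  obtain ⟨a, ha1, b, hb1, hab⟩ := hcon
  rw [Finset.mem_filter, SimpleGraph.mem_neighborFinset] at ha1 hb1
  have ex : ∀ y, H.Adj x y → H.degree y = 2 → ∃ y', H.Adj y y' ∧ y' ≠ x := by
    intro y hxy hy
    have : 0 < ((H.neighborFinset y).erase x).card := by
      rw [Finset.card_erase_of_mem (by rw [SimpleGraph.mem_neighborFinset]; exact hxy.symm),
        SimpleGraph.card_neighborFinset_eq_degree, hy]
      norm_num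
    obtain ⟨w, hw⟩ := Finset.card_pos.1 this
    rw [Finset.mem_erase, SimpleGraph.mem_neighborFinset] at hw
    exact ⟨w, hw.2, hw.1⟩
  obtain ⟨a', ha2, ha3⟩ := ex a ha1.1 ha1.2
  obtain ⟨b', hb2, hb3⟩ := ex b hb1.1 hb1.2
  have tri : ∀ p q, H.Adj x p → H.Adj x q → p ≠ q → ¬ H.Adj p q := by
    intro p q h1 h2 h3 h4
    let w1 : H.Path x q := ⟨SimpleGraph.Walk.cons h2 SimpleGraph.Walk.nil, by
      simp [SimpleGraph.Walk.isPath_def, h2.ne]⟩
    let w2 : H.Path x q := ⟨SimpleGraph.Walk.cons h1 (SimpleGraph.Walk.cons h4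
      SimpleGraph.Walk.nil), by
      simp [SimpleGraph.Walk.isPath_def, h1.ne, h2.ne, h3]⟩
    have e : w1 = w2 := (ha.subsingleton_path _ _).elim w1 w2
    have e2 := congrArg (fun w : H.Path x q => w.1.length) e
    simp [w1, w2] at e2
  have n1 : a' ≠ b := fun e => tri a b ha1.1 hb1.1 hab (e ▸ ha2)
  have n2 : b' ≠ a := fun e => tri b a hb1.1 ha1.1 hab.symm (e ▸ hb2)
  have n3 : a' ≠ b' := by
    intro e
    subst e
    let w1 : H.Path x a' := ⟨SimpleGraph.Walk.cons ha1.1 (SimpleGraph.Walk.cons ha2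
      SimpleGraph.Walk.nil), by
      simp [SimpleGraph.Walk.isPath_def, ha1.1.ne, ha2.ne, ha3.symm]⟩
    let w2 : H.Path x a' := ⟨SimpleGraph.Walk.cons hb1.1 (SimpleGraph.Walk.cons hb2
      SimpleGraph.Walk.nil), by
      simp [SimpleGraph.Walk.isPath_def, hb1.1.ne, hb2.ne, ha3.symm]⟩
    have e : w1 = w2 := (ha.subsingleton_path _ _).elim w1 w2
    have e2 := congrArg (fun w : H.Path x a' => w.1.getVert 1) e
    simp [w1, w2] at e2
    exact hab e2
  have h5 : ({x, a, b, a', b'} : Finset X).card = 5 := by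
    rw [Finset.card_insert_of_notMem, Finset.card_insert_of_notMem, Finset.card_insert_of_notMem,
      Finset.card_insert_of_notMem, Finset.card_singleton]
    · simpa using n3
    · simpa using ⟨n1.symm, hb2.ne⟩
    · simpa using ⟨hab, ha2.ne, n2.symm⟩
    · simpa using ⟨ha1.1.ne, hb1.1.ne, ha3.symm, hb3.symm⟩
  have hsub : (({x, a, b, a', b'} : Finset X) : Set X) ⊆ (H.connectedComponentMk x).supp := by
    intro y hy
    rw [Finset.mem_coe] at hy
    simp only [Finset.mem_insert, Finset.mem_singleton] at hy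
    rw [SimpleGraph.ConnectedComponent.mem_supp_iff, SimpleGraph.ConnectedComponent.eq]
    rcases hy with rfl | rfl | rfl | rfl | rfl
    · exact SimpleGraph.Reachable.refl _
    · exact ha1.1.symm.reachable
    · exact hb1.1.symm.reachable
    · exact ha2.symm.reachable.trans ha1.1.symm.reachable
    · exact hb2.symm.reachable.trans hb1.1.symm.reachable
  have := Set.ncard_le_ncard hsub (Set.toFinite _)
  rw [Set.ncard_coe_finset, h5] at this
  have := hc (H.connectedComponentMk x)
  omega

end DiaBackAux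

variable {V : Type*} [Fintype V] [DecidableEq V] {G : SimpleGraph V} [DecidableRel G.Adj]

open DiaBackAux

theorem goodC_of_good (h : Good G) : GoodC G := by
  obtain ⟨S, hc, ⟨φ⟩, a1, a2, d1, d2, c1, c2⟩ := h
  have deg : ∀ T : Finset V, (∀ v ∈ T, (T.filter (fun w => G.Adj v w)).card ≤ 2) →
      ∀ v : (T : Set V), (G.induce (T : Set V)).degree v ≤ 2 := by
    intro T hT v
    rw [deg_induce]
    have h1 : sm G T v.1 = T.filter (fun w => G.Adj v.1 w) := by
      ext w
      have hv : v.1 ∈ T := v.2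
      rw [Finset.mem_filter, mem_sm]
      constructor
      · rintro ⟨a, b⟩
        exact ⟨b.2 hv, a⟩
      · rintro ⟨a, b⟩
        exact ⟨b, fun _ => hv, fun _ => a⟩
    unfold sd
    rw [h1]
    exact hT v.1 v.2
  have p1 : P4 (G.induce (S : Set V)) := P4_of _ (deg S d1) a1 c1
  have p2 : P4 (G.induce ((Sᶜ : Finset V) : Set V)) := P4_of _ (deg Sᶜ d2) a2 c2
  have g4 : ∀ T : Finset V, P4 (G.induce (T : Set V)) → ∀ v ∈ T, sd G T v ≤ 2 ∧
      (sd G T v = 2 → ((sm G T v).filter (fun w => sd G T w = 2)).card ≤ 1) := by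
    intro T hT v hv
    have := hT ⟨v, hv⟩
    rw [deg_induce, TransAux.card_filter_nbr] at this
    exact this
  have h4 : Good4 G S := by
    intro v
    by_cases hv : v ∈ S
    · exact g4 S p1 v hv
    · have := g4 Sᶜ p2 v (Finset.mem_compl.2 hv)
      simp only [sd_compl, sm_compl] at this
      exact this
  have hdeg : ∀ v, (G.induce ((Sᶜ : Finset V) : Set V)).degree (φ v) =
      (G.induce (S : Set V)).degree v := fun v => φ.degree_eq v
  have hn : n2 G S S = n2 G S Sᶜ := by
    rw [← GoodOfAux.n2_compl G S Sᶜ, ← n2_induce, ← n2_induce]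
    refine Finset.card_bij (fun v _ => φ v) ?_ ?_ ?_
    · intro v hv
      rw [Finset.mem_filter] at hv ⊢
      exact ⟨Finset.mem_univ _, by rw [hdeg]; exact hv.2⟩
    · intro v _ w _ hvw
      exact φ.injective hvw
    · intro w hw
      rw [Finset.mem_filter] at hw
      refine ⟨φ.symm w, ?_, by simp⟩
      rw [Finset.mem_filter]
      refine ⟨Finset.mem_univ _, ?_⟩
      rw [← hdeg]
      simpa using hw.2
  have hq : q2 G S S = q2 G S Sᶜ := by
    rw [← GoodOfAux.q2_compl G S Sᶜ, ← q2_induce, ← q2_induce, Finset.sum_filter,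
      Finset.sum_filter]
    refine Fintype.sum_equiv φ.toEquiv _ _ fun v => ?_
    have e1 : (G.induce ((Sᶜ : Finset V) : Set V)).degree (φ.toEquiv v) =
      (G.induce (S : Set V)).degree v := hdeg v
    rw [e1]
    congr 1
    refine Finset.card_bij (fun v _ => φ v) ?_ ?_ ?_
    · intro w hw
      rw [Finset.mem_filter, SimpleGraph.mem_neighborFinset] at hw ⊢
      exact ⟨φ.map_rel_iff.2 hw.1, by rw [hdeg]; exact hw.2⟩
    · intro v _ w _ hvw
      exact φ.injective hvw
    · intro w hw
      rw [Finset.mem_filter, SimpleGraph.mem_neighborFinset] at hw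
      refine ⟨φ.symm w, ?_, by simp⟩
      rw [Finset.mem_filter, SimpleGraph.mem_neighborFinset]
      refine ⟨?_, ?_⟩
      · have : (G.induce ((Sᶜ : Finset V) : Set V)).Adj (φ v) (φ (φ.symm w)) := by
          simpa using hw.1
        exact φ.map_rel_iff.1 this
      · rw [← hdeg]
        simpa using hw.2
  refine ⟨S, ?_, h4, hn, hq⟩
  unfold imb
  omega

end Pool.Agent.Lib.Ando
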