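import Mathlib
import Pool.Agent.Lib.Ando.Cost

set_option autoImplicit false
set_option linter.unusedSectionVars false

/-!
# Ando.Exist: level colourings exist (any cubic graph)
-/

namespace Pool.Agent.Lib.Ando

variable {V : Type*} [Fintype V] [DecidableEq V] (G : SimpleGraph V) [DecidableRel G.Adj]

variable {G} in
private theorem cost_single (S : Finset V) (v : V) : cost G S {v} = 3 - 2 * (sd G S v : ℤ) := by
  unfold cost
  simp

private theorem iot_single (S : Finset V) (v : V) : iot S {v} = 1 ∨ iot S {v} = -1 := by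
  unfold iot
  by_cases h : v ∈ S
  · right
    have h1 : ({v} : Finset V) \ S = ∅ := by
      rw [Finset.sdiff_eq_empty_iff_subset, Finset.singleton_subset_iff]; exact h
    have h2 : ({v} : Finset V) ∩ S = {v} := Finset.singleton_inter_of_mem h
    rw [h1, h2]; simp
  · left
    have h1 : ({v} : Finset V) \ S = {v} := by
      rw [Finset.sdiff_eq_self_iff_disjoint, Finset.disjoint_singleton_left]; exact h
    have h2 : ({v} : Finset V) ∩ S = ∅ := Finset.singleton_inter_of_notMem h
    rw [h1, h2]; simp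

variable {G} in
theorem exists_level (hG : G.IsRegularOfDegree 3) : ∃ (k : ℕ) (S : Finset V), Level G k S := by
  obtain ⟨T, -, hT⟩ := Finset.exists_min_image (Finset.univ : Finset (Finset V))
    (fun T => mm G T + |imb T|) ⟨∅, Finset.mem_univ _⟩
  replace hT : ∀ T' : Finset V, mm G T + |imb T| ≤ mm G T' + |imb T'| := fun T' =>
    hT T' (Finset.mem_univ _)
  obtain ⟨T0, hT0, hmax⟩ := Finset.exists_max_image
    (Finset.univ.filter (fun T' : Finset V => mm G T' + |imb T'| = mm G T + |imb T|))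
    (fun T' => |imb T'|) ⟨T, by simp⟩
  rw [Finset.mem_filter] at hT0
  replace hT0 := hT0.2
  replace hmax : ∀ T' : Finset V, mm G T' + |imb T'| = mm G T + |imb T| → |imb T'| ≤ |imb T0| :=
    fun T' h => hmax T' (by rw [Finset.mem_filter]; exact ⟨Finset.mem_univ _, h⟩)
  have htf : ∀ v, sd G T0 v ≤ 1 := by
    intro v
    by_contra hv
    push Not at hv
    have h1 := mm_flip hG T0 {v}
    have h2 := imb_flip T0 {v}
    rw [cost_single] at h1
    have hv' : (2 : ℤ) ≤ (sd G T0 v : ℤ) := by exact_mod_cast hv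
    have h3 : mm G (symmDiff T0 {v}) ≤ mm G T0 - 2 := by rw [h1]; linarith
    have h4 : |imb (symmDiff T0 {v})| ≤ |imb T0| + 2 := by
      rw [h2]
      rcases iot_single T0 v with h | h
      · rw [h]
        exact (abs_add_le _ _).trans (by norm_num)
      · rw [h]
        exact (abs_add_le _ _).trans (by norm_num)
    have h5 := hT (symmDiff T0 {v})
    have h6 : mm G (symmDiff T0 {v}) + |imb (symmDiff T0 {v})| = mm G T + |imb T| := by
      apply le_antisymm _ h5
      linarith
    have h7 := hmax _ h6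
    linarith
  obtain ⟨S, hS, hmin⟩ := Finset.exists_min_image
    (Finset.univ.filter (fun T' : Finset V => (∀ v, sd G T' v ≤ 1) ∧
      mm G T' + |imb T'| = mm G T + |imb T|))
    (fun T' => |imb T'|) ⟨T0, by
      rw [Finset.mem_filter]; exact ⟨Finset.mem_univ _, htf, hT0⟩⟩
  rw [Finset.mem_filter] at hS
  obtain ⟨-, hS1, hS2⟩ := hS
  replace hmin : ∀ T' : Finset V, (∀ v, sd G T' v ≤ 1) →
      mm G T' + |imb T'| = mm G T + |imb T| → |imb S| ≤ |imb T'| :=
    fun T' h h' => hmin T' (by rw [Finset.mem_filter]; exact ⟨Finset.mem_univ _, h, h'⟩)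
  obtain ⟨S', hS', hn, ha⟩ : ∃ S' : Finset V, (∀ v, sd G S' v ≤ 1) ∧ 0 ≤ imb S' ∧
      |imb S'| = |imb S| ∧ mm G S' = mm G S := by
    rcases le_total 0 (imb S) with h | h
    · exact ⟨S, hS1, h, rfl, rfl⟩
    · refine ⟨Sᶜ, fun v => ?_, ?_, ?_, mm_compl G S⟩
      · rw [sd_compl]; exact hS1 v
      · rw [imb_compl]; linarith
      · rw [imb_compl, abs_neg]
  obtain ⟨ha1, ha2⟩ := ha
  obtain ⟨j, hj⟩ := imb_even hG S'
  have hj0 : 0 ≤ j := by linarith
  obtain ⟨k, rfl⟩ := Int.eq_ofNat_of_zero_le hj0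
  refine ⟨k, S', ⟨hj, fun T' => ?_, hS', fun T' h h' => ?_⟩⟩
  · rw [ha1, ha2, hS2]; exact hT T'
  · rw [ha1]
    rw [ha1, ha2, hS2] at h'
    exact hmin T' h h'

end Pool.Agent.Lib.Ando
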