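import Mathlib
import Pool.Agent.Lib.Ando.LevelE
import Pool.Agent.Lib.Ando.Fact1

/-!
# Ando.Fact2: a black vertex b of Z with three neighbours in U: k = 1 and the three are sites

Conventions: S = white vertices. Z / L = black vertices with sd = 0 / 1, O / U = white vertices with sd = 0 / 1. For v in L or U let v* be the member of sm S v. Every vertex of U has
sm S u = {u*} and op S u with two members (`sd_add_op`); a vertex of O or Z has op S with three members.
`Level.cost_ge`: cost S F >= k - |k + iot S F|; `Level.exists_two`: if equality holds and |k + iot| < k, some vertex has sd >= 2 after the exchange.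
To compute `cost S F` for an explicit F: F is an insert of different vertices, so expand the sums with `Finset.sum_insert`; the double sum counts each adjacent pair in F twice:
2 times (number of bichromatic pairs) - 2 times (number of monochromatic pairs). For an upper bound of the cost it is enough to know enough bichromatic pairs and that the other
pairs are not monochromatic edges (the terms of the double sum are then >= 0).

Proof. op S b has three members (sd S b = 0), all in UN S b: u1, u2, u3. F = {b, u1, u2, u3}: three bichromatic edges b-ui, no edges between the ui (NoTri). cost S F = (3 + 1 + 1 + 1) - 6 = 0,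
iot S F = 1 - 3 = -2. `cost_ge`: 0 >= k - |k - 2|, so k <= 1 (for k >= 2 it says 0 >= 2). So k = 1.
Let c be a black neighbour of some ui with sd S c = 1 (suppose ui is not a site; c is in op S ui). c /= b as sd S b = 0. F' = {b, u1, u2, u3, c}: cost = 0 + 1 - 2 * (number of j with uj adjacent to c) + 0;
at least one (and the others, if adjacent, are also bichromatic edges, they only lower the cost; in fact by NoSq / fact1 exactly one); b and c are both black and not adjacent (sd S b = 0). So cost S F' <= -1, iot S F' = 2 - 3 = -1,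
and `cost_ge` with k = 1 gives cost >= 1 - |0| = 1. Contradiction.
-/

set_option autoImplicit false
set_option linter.unusedSectionVars false

namespace Pool.Agent.Lib.Ando

variable {V : Type*} [Fintype V] [DecidableEq V] (G : SimpleGraph V) [DecidableRel G.Adj]

namespace Fact2Aux

theorem cost_insert (S F : Finset V) (x : V) (hx : x ∉ F) :
    cost G S (insert x F) = cost G S F + (3 - 2 * (sd G S x : ℤ)) - 2 * ∑ y ∈ F, CostAux.sg G S x y := by
  have e : ∀ A : Finset V, cost G S A = (∑ v ∈ A, (3 - 2 * (sd G S v : ℤ))) - ∑ x ∈ A, ∑ y ∈ A, CostAux.sg G S x y := fun A => rfl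
  rw [e, e, Finset.sum_insert hx, Finset.sum_insert hx]
  have h1 : ∀ z ∈ F, ∑ y ∈ insert x F, CostAux.sg G S z y = CostAux.sg G S x z + ∑ y ∈ F, CostAux.sg G S z y := by
    intro z _
    rw [Finset.sum_insert hx, CostAux.sg_comm]
  rw [Finset.sum_congr rfl h1, Finset.sum_add_distrib, Finset.sum_insert hx]
  have h2 : CostAux.sg G S x x = 0 := by
    unfold CostAux.sg
    simp
  rw [h2]
  ring

theorem cost_empty (S : Finset V) : cost G S ∅ = 0 := by
  unfold cost
  simp

theorem iot_insert (S F : Finset V) (x : V) (hx : x ∉ F) :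
    iot S (insert x F) = iot S F + (if x ∈ S then -1 else 1) := by
  unfold iot
  by_cases h : x ∈ S
  · rw [Finset.insert_sdiff_of_mem _ h, Finset.insert_inter_of_mem h, if_pos h,
      Finset.card_insert_of_notMem (fun h' => hx (Finset.mem_inter.1 h').1)]
    push_cast
    ring
  · rw [Finset.insert_sdiff_of_notMem _ h, Finset.insert_inter_of_notMem h, if_neg h,
      Finset.card_insert_of_notMem (fun h' => hx (Finset.mem_sdiff.1 h').1)]
    push_cast
    ring

theorem iot_empty (S : Finset V) : iot S ∅ = 0 := by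
  unfold iot
  simp

theorem sg_nonadj {S : Finset V} {x y : V} (h : ¬ G.Adj x y) : CostAux.sg G S x y = 0 := by
  unfold CostAux.sg
  rw [if_neg h]

theorem sg_bi {S : Finset V} {x y : V} (h : G.Adj x y) (h2 : ¬ (x ∈ S ↔ y ∈ S)) : CostAux.sg G S x y = 1 := by
  unfold CostAux.sg
  rw [if_pos h, if_neg h2]

theorem sg_nonneg {S : Finset V} {x y : V} (h2 : ¬ (x ∈ S ↔ y ∈ S)) : 0 ≤ CostAux.sg G S x y := by
  unfold CostAux.sg
  rw [if_neg h2]
  split_ifs <;> norm_num

end Fact2Aux

open Fact2Aux

variable {G} in
theorem fact2 (hG : G.IsRegularOfDegree 3) (h3 : NoTri G) {k : ℕ} {S : Finset V}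
    (hL : Level G k S) (hk : 1 ≤ k) {b : V} (hb : b ∉ S) (sb : sd G S b = 0)
    (hc : (UN G S b).card = 3) : k = 1 ∧ ∀ u ∈ UN G S b, u ∈ sites G S := by
  have hu : ∀ u ∈ UN G S b, G.Adj b u ∧ u ∈ S ∧ sd G S u = 1 := by
    intro u hu
    unfold UN op at hu
    simp only [Finset.mem_filter, Finset.mem_univ, true_and] at hu
    refine ⟨hu.1.1, ?_, hu.2⟩
    by_contra h
    exact hu.1.2 ⟨fun h' => absurd h' h, fun h' => absurd h' hb⟩
  obtain ⟨u1, u2, u3, n12, n13, n23, hU⟩ := Finset.card_eq_three.1 hc
  have m1 := hu u1 (by rw [hU]; simp)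
  have m2 := hu u2 (by rw [hU]; simp)
  have m3 := hu u3 (by rw [hU]; simp)
  have a12 : ¬ G.Adj u1 u2 := fun h => h3 u1 b u2 m1.1.symm m2.1 h
  have a13 : ¬ G.Adj u1 u3 := fun h => h3 u1 b u3 m1.1.symm m3.1 h
  have a23 : ¬ G.Adj u2 u3 := fun h => h3 u2 b u3 m2.1.symm m3.1 h
  have nb : ∀ u, u ∈ S → b ≠ u := fun u h h' => hb (h' ▸ h)
  have b1 := nb u1 m1.2.1
  have b2 := nb u2 m2.2.1
  have b3 := nb u3 m3.2.1
  have c3 : cost G S {u3} = 1 := by
    have := cost_insert G S ∅ u3 (by simp)
    rw [cost_empty, m3.2.2, Finset.sum_empty] at this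
    simpa using this
  have c2 : cost G S {u2, u3} = 2 := by
    rw [cost_insert G S {u3} u2 (by simpa using n23), c3, m2.2.2, Finset.sum_singleton, sg_nonadj G a23]
    norm_num
  have c1 : cost G S {u1, u2, u3} = 3 := by
    rw [cost_insert G S {u2, u3} u1 (by simp [n12, n13]), c2, m1.2.2, Finset.sum_pair n23, sg_nonadj G a12,
      sg_nonadj G a13]
    norm_num
  have c0 : cost G S {b, u1, u2, u3} = 0 := by
    rw [cost_insert G S {u1, u2, u3} b (by simp [b1, b2, b3]), c1, sb,
      Finset.sum_insert (by simp [n12, n13]), Finset.sum_pair n23,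
      sg_bi G m1.1 (by simp [hb, m1.2.1]), sg_bi G m2.1 (by simp [hb, m2.2.1]), sg_bi G m3.1 (by simp [hb, m3.2.1])]
    norm_num
  have i3 : iot S {u3} = -1 := by
    have := iot_insert S ∅ u3 (by simp)
    rw [iot_empty, if_pos m3.2.1] at this
    simpa using this
  have i2 : iot S {u2, u3} = -2 := by
    rw [iot_insert S {u3} u2 (by simpa using n23), i3, if_pos m2.2.1]
    norm_num
  have i1 : iot S {u1, u2, u3} = -3 := by
    rw [iot_insert S {u2, u3} u1 (by simp [n12, n13]), i2, if_pos m1.2.1]
    norm_num
  have i0 : iot S {b, u1, u2, u3} = -2 := by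
    rw [iot_insert S {u1, u2, u3} b (by simp [b1, b2, b3]), i1, if_neg hb]
    norm_num
  have hk1 : k = 1 := by
    have h := hL.cost_ge hG {b, u1, u2, u3}
    rw [c0, i0] at h
    by_contra hne
    have hk2 : (2 : ℤ) ≤ k := by
      have : 2 ≤ k := by omega
      exact_mod_cast this
    rw [abs_of_nonneg (by linarith)] at h
    linarith
  refine ⟨hk1, fun u hu' => ?_⟩
  have mu := hu u hu'
  unfold sites
  simp only [Finset.mem_filter, Finset.mem_univ, true_and]
  refine ⟨mu.2.1, mu.2.2, fun c hcu => ?_⟩
  by_contra hne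
  have sc : sd G S c = 1 := le_antisymm (hL.tf c) (Nat.one_le_iff_ne_zero.2 hne)
  unfold op at hcu
  simp only [Finset.mem_filter, Finset.mem_univ, true_and] at hcu
  have cS : c ∉ S := by
    intro h
    exact hcu.2 ⟨fun _ => mu.2.1, fun _ => h⟩
  have hcb : c ≠ b := by
    intro h
    rw [h, sb] at sc
    exact absurd sc (by norm_num)
  have hcu' : ∀ v, v ∈ S → c ≠ v := fun v h h' => cS (h' ▸ h)
  have hadj : ¬ G.Adj c b := by
    intro h
    have : c ∈ sm G S b := by
      unfold sm
      simp only [Finset.mem_filter, Finset.mem_univ, true_and]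
      exact ⟨h.symm, ⟨fun h' => absurd h' cS, fun h' => absurd h' hb⟩⟩
    have h0 : sm G S b = ∅ := Finset.card_eq_zero.1 sb
    rw [h0] at this
    exact absurd this (Finset.notMem_empty _)
  have hcF : c ∉ ({b, u1, u2, u3} : Finset V) := by
    simp [hcb, hcu' u1 m1.2.1, hcu' u2 m2.2.1, hcu' u3 m3.2.1]
  have hsum : 1 ≤ ∑ y ∈ ({b, u1, u2, u3} : Finset V), CostAux.sg G S c y := by
    rw [Finset.sum_insert (by simp [b1, b2, b3]), sg_nonadj G hadj, zero_add, ← hU,
      ← Finset.add_sum_erase _ _ hu']
    have h1 : CostAux.sg G S c u = 1 := sg_bi G hcu.1.symm (by simp [cS, mu.2.1])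
    have h2 : 0 ≤ ∑ y ∈ (UN G S b).erase u, CostAux.sg G S c y := by
      apply Finset.sum_nonneg
      intro y hy
      have := hu y (Finset.mem_of_mem_erase hy)
      exact sg_nonneg G (by simp [cS, this.2.1])
    linarith
  have h := hL.cost_ge hG (insert c {b, u1, u2, u3})
  rw [cost_insert G S _ c hcF, iot_insert S _ c hcF, c0, i0, sc, if_neg cS, hk1] at h
  norm_num at h
  linarith

end Pool.Agent.Lib.Ando
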