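import Mathlib
import Pool.Agent.Lib.Ando.DiaApex
import Pool.Agent.Lib.Ando.DiaBack
import Pool.Agent.Lib.Ando.Exist
import Pool.Agent.Lib.AndoB.Main
import Pool.Agent.Lib.AndoC.Defs

set_option autoImplicit false
set_option linter.unusedSectionVars false

/-!
# Ando.DiaFin: Case B without a hypothesis on diamonds, and the frame of the proof

`frame`: only Case A (`AndoC.NoTriple`) remains to be proved.
-/

namespace Pool.Agent.Lib.Ando.Dia

open Pool.Agent.Lib.AndoB

universe u

variable {V : Type u} [Fintype V] [DecidableEq V] {G : SimpleGraph V} [DecidableRel G.Adj]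

/-- A pair excludes pendants `L_1`. -/
theorem noL1_of_pair (hG : G.IsRegularOfDegree 3) {S : Finset V} (hL : Level G 1 S)
    {b u1 u2 u3 x1 x2 x3 v1 v2 v3 : V} (h : Pair G S b u1 u2 u3 x1 x2 x3 v1 v2 v3)
    (v : Fin 8 → V) : ¬ L1 G v := by
  intro hv
  have h2 := (pair_flip hG hL h).1
  unfold sflip at h2
  have hob : ∀ y ∈ ({u1, u2, u3} : Finset V), G.Adj b y := by
    intro y hy
    rw [← h.ob, mem_op] at hy
    exact hy.1
  have hsd : ∀ {y w : V}, sm G S y = {w} → sd G S y = 1 := fun e => by
    unfold sd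
    rw [e, Finset.card_singleton]
  refine hv.no_sflip hG hL h.hb (F := {b, u1, u2, u3}) ?_ ?_ h2
  · exact h.sb
  · intro y hy
    rw [Finset.mem_insert] at hy
    rcases hy with rfl | hy
    · exact Or.inl rfl
    · right
      refine ⟨?_, ?_, hob y hy⟩
      · simp only [Finset.mem_insert, Finset.mem_singleton] at hy
        rcases hy with rfl | rfl | rfl
        · exact h.h1
        · exact h.h2
        · exact h.h3
      · simp only [Finset.mem_insert, Finset.mem_singleton] at hy
        rcases hy with rfl | rfl | rfl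
        · exact hsd h.s1
        · exact hsd h.s2
        · exact hsd h.s3

theorem dlfree_of_pair (hG : G.IsRegularOfDegree 3) (hD : DiamOK G) {S : Finset V}
    (hL : Level G 1 S) {b u1 u2 u3 x1 x2 x3 v1 v2 v3 : V}
    (h : Pair G S b u1 u2 u3 x1 x2 x3 v1 v2 v3) : DLfree G 1 :=
  fun _ hT => dl_of_noL1 hG hD hT le_rfl (noL1_of_pair hG hL h)

/-- Case B. -/
theorem caseB_dia (hG : G.IsRegularOfDegree 3) (hD : DiamOK G) {k : ℕ} {S : Finset V}
    (hL : Level G k S) (hk : 1 ≤ k) {b u1 u2 u3 : V} (hb : b ∉ S) (sb : sd G S b = 0)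
    (ob : op G S b = {u1, u2, u3}) (n12 : u1 ≠ u2) (n13 : u1 ≠ u3) (n23 : u2 ≠ u3)
    (s1 : sd G S u1 = 1) (s2 : sd G S u2 = 1) (s3 : sd G S u3 = 1)
    (a12 : ¬ G.Adj u1 u2) (a13 : ¬ G.Adj u1 u3) (a23 : ¬ G.Adj u2 u3) : Good G := by
  obtain ⟨rfl, x1, x2, x3, v1, v2, v3, h⟩ :=
    exists_pair hG hL hk hb sb ob n12 n13 n23 s1 s2 s3 a12 a13 a23
  exact pair_good hG (dlfree_of_pair hG hD hL h) hL h

/-- A triple of pairwise non-adjacent white neighbours of monochromatic degree one. -/
theorem caseB_triple (hG : G.IsRegularOfDegree 3) (hD : DiamOK G) {k : ℕ} (hk : 1 ≤ k)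
    (hn : ¬ AndoC.NoTriple G k) : Good G := by
  unfold AndoC.NoTriple at hn
  push Not at hn
  obtain ⟨S, hL, b, u1, u2, u3, hb, sb, h1, h2, h3, n12, n13, n23, a12, a13, a23⟩ := hn
  have hc : (op G S b).card = 3 := by
    have := sd_add_op hG S b
    omega
  unfold UN at h1 h2 h3
  rw [Finset.mem_filter] at h1 h2 h3
  have hsub : ({u1, u2, u3} : Finset V) ⊆ op G S b := by
    intro y hy
    simp only [Finset.mem_insert, Finset.mem_singleton] at hy
    rcases hy with rfl | rfl | rfl
    · exact h1.1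
    · exact h2.1
    · exact h3.1
  have ob : op G S b = {u1, u2, u3} := by
    refine (Finset.eq_of_subset_of_card_le hsub ?_).symm
    rw [hc, Finset.card_eq_three.2 ⟨u1, u2, u3, n12, n13, n23, rfl⟩]
  exact caseB_dia hG hD hL hk hb sb ob n12 n13 n23 h1.2 h2.2 h3.2 a12 a13 a23

/-- `DL1` holds under `DiamOK`. -/
theorem dl1_of_diamOK (hG : G.IsRegularOfDegree 3) (hD : DiamOK G) {k : ℕ} (hk : 1 ≤ k) :
    AndoC.DL1 G k :=
  fun _ hL _ _ _ hl sl hz hz' a1 a2 a3 => dia_one hG hD hL hk hl sl hz hz' a1 a2 a3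

/-- The frame: after Case B and the reduction of diamonds only Case A remains. -/
theorem frame
    (hA : ∀ (W : Type u) [Fintype W] [DecidableEq W] (H : SimpleGraph W) [DecidableRel H.Adj],
      H.IsRegularOfDegree 3 → DiamOK H → ∀ (k : ℕ), 1 ≤ k → (∃ S, Level H k S) →
      AndoC.NoTriple H k → Good H) :
    ∀ (W : Type u) [Fintype W] [DecidableEq W] (H : SimpleGraph W) [DecidableRel H.Adj],
      H.IsRegularOfDegree 3 → Good H := by
  have main : ∀ N, IHyp.{u} N := by
    intro N
    induction N with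
    | zero =>
      intro W _ _ H _ hN
      omega
    | succ N ih =>
      intro W _ _ H _ hN hH
      by_cases hlt : Fintype.card W < N
      · exact ih W H hlt hH
      · have hc : Fintype.card W = N := by omega
        rcases dia_step hH (hc.symm ▸ ih) with h | hD
        · exact h
        · apply goodC_of_good
          obtain ⟨k, S, hL⟩ := exists_level hH
          rcases Nat.eq_zero_or_pos k with rfl | hk
          · exact good_of_level_zero hH hL
          · by_cases hp : AndoC.NoTriple H k
            · exact hA W H hH hD k hk ⟨S, hL⟩ hp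
            · exact caseB_triple hH hD hk hp
  intro W _ _ H _ hH
  exact (main _ W H (Nat.lt_succ_self _) hH).good hH

end Pool.Agent.Lib.Ando.Dia
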