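import Mathlib
import Pool.Agent.Lib.Ando.DiaApex
import Pool.Agent.Lib.Ando.Fact2

set_option autoImplicit false
set_option linter.unusedSectionVars false
set_option linter.unusedSimpArgs false

/-!
# Ando.DiaSite: two adjacent white vertices with the same two black neighbours

The only diamonds with two black ends: in a pendant `L_0` whose attaching vertex `x` is white.
-/

namespace Pool.Agent.Lib.Ando.Dia

variable {V : Type*} [Fintype V] [DecidableEq V] {G : SimpleGraph V} [DecidableRel G.Adj]

open Fact2Aux in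
/-- Two adjacent white vertices `u`, `u'` with two common black neighbours `b`, `b'`: both `b` and
`b'` have monochromatic degree zero and the same third neighbour `x`, which is white and has
monochromatic degree zero. -/
theorem dia_site (hG : G.IsRegularOfDegree 3) (hD : DiamOK G) {k : ℕ} {S : Finset V}
    (hL : Level G k S) (hk : 1 ≤ k) {b b' u u' : V} (hb : b ∉ S) (hb' : b' ∉ S) (hbb : b ≠ b')
    (hu : u ∈ S) (hu' : u' ∈ S) (a0 : G.Adj u u') (a1 : G.Adj b u) (a2 : G.Adj b u')
    (a3 : G.Adj b' u) (a4 : G.Adj b' u') :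
    sd G S b = 0 ∧ sd G S b' = 0 ∧ ∃ x, x ∈ S ∧ sd G S x = 0 ∧ x ≠ u ∧ x ≠ u' ∧
      op G S b = {u, u', x} ∧ op G S b' = {u, u', x} := by
  have hz : ∀ {l p : V}, l ∉ S → l ≠ p → G.Adj l u → G.Adj l u' → G.Adj p u → G.Adj p u' →
      sd G S l = 0 := by
    intro l p hl hlp h1 h2 h3 h4
    have h5 := hL.tf l
    by_contra h6
    exact hlp (dia_one hG hD hL hk hl (by omega) hu hu' h1 h2 a0 p h3 h4).symm
  have sb : sd G S b = 0 := hz hb hbb a1 a2 a3 a4
  have sb' : sd G S b' = 0 := hz hb' hbb.symm a3 a4 a1 a2
  refine ⟨sb, sb', ?_⟩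
  have wht : ∀ {c y : V}, c ∉ S → sd G S c = 0 → G.Adj c y → y ∈ S := by
    intro c y hc sc hy
    by_contra h
    have : y ∈ sm G S c := mem_sm.2 ⟨hy, by tauto⟩
    unfold sd at sc
    rw [Finset.card_eq_zero] at sc
    rw [sc] at this
    simp at this
  have hopb : ∀ {c y : V}, c ∉ S → sd G S c = 0 → G.Adj c u → G.Adj c u' → G.Adj c y →
      u ≠ y → u' ≠ y → op G S c = {u, u', y} := by
    intro c y hc sc h1 h2 h3 h4 h5
    ext w
    rw [mem_op]
    simp only [Finset.mem_insert, Finset.mem_singleton]
    constructor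
    · rintro ⟨h6, -⟩
      exact nbr3 hG h1 h2 h3 a0.ne h4 h5 h6
    · have hy := wht hc sc h3
      rintro (rfl | rfl | rfl)
      · exact ⟨h1, by tauto⟩
      · exact ⟨h2, by tauto⟩
      · exact ⟨h3, by tauto⟩
  rcases hD b u u' b' hbb a1 a2 a0 a3.symm a4.symm with ⟨x, h⟩ | ⟨x, r, s, h0, h1⟩
  · obtain ⟨h1, -, h2, h3, -⟩ := h
    simp only [Finset.mem_insert, Finset.mem_singleton, not_or] at h1
    obtain ⟨xb, xu, xu', xb'⟩ := h1
    have hxS : x ∈ S := wht hb sb h2.symm
    refine ⟨x, hxS, ?_, xu, xu', hopb hb sb a1 a2 h2.symm (Ne.symm xu) (Ne.symm xu'),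
      hopb hb' sb' a3 a4 h3.symm (Ne.symm xu) (Ne.symm xu')⟩
    by_contra hne
    have sx : sd G S x = 1 := by
      have := hL.tf x
      omega
    have su : ∀ {y w : V}, y ∈ S → w ∈ S → G.Adj y w → sd G S y = 1 := by
      intro y w hy hw hyw
      have h4 := hL.tf y
      have : 0 < sd G S y := by
        unfold sd
        exact Finset.card_pos.2 ⟨w, mem_sm.2 ⟨hyw, by tauto⟩⟩
      omega
    have su1 := su hu hu' a0
    have su2 := su hu' hu a0.symm
    have ne : ∀ {y w : V}, y ∈ S → w ∉ S → y ≠ w := fun h1 h2 e => h2 (e ▸ h1)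
    have nxu : ¬ G.Adj x u := fun e => by
      rcases nbr3 hG a1.symm a3.symm a0 hbb (ne hu' hb).symm (ne hu' hb').symm e.symm with h | h | h
      · exact ne hxS hb h
      · exact ne hxS hb' h
      · exact xu' h
    have nxu' : ¬ G.Adj x u' := fun e => by
      rcases nbr3 hG a2.symm a4.symm a0.symm hbb (ne hu hb).symm (ne hu hb').symm e.symm with h | h | h
      · exact ne hxS hb h
      · exact ne hxS hb' h
      · exact xu h
    have nbb : ¬ G.Adj b b' := fun e => by
      have := wht hb sb e
      exact hb' this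
    have sgm : ∀ {y w : V}, G.Adj y w → (y ∈ S ↔ w ∈ S) → CostAux.sg G S y w = -1 := by
      intro y w h1 h2
      unfold CostAux.sg
      rw [if_pos h1, if_pos h2]
    have c0 : cost G S {u} = 1 := by
      have := cost_insert G S ∅ u (by simp)
      rw [cost_empty, su1, Finset.sum_empty] at this
      simpa using this
    have c1 : cost G S {u', u} = 4 := by
      rw [cost_insert G S {u} u' (by simpa using a0.ne'), c0, su2, Finset.sum_singleton,
        sgm a0.symm (by tauto)]
      norm_num
    have c2 : cost G S {b', u', u} = 3 := by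
      rw [cost_insert G S {u', u} b' (by simp [(ne hu' hb').symm, (ne hu hb').symm]), c1, sb',
        Finset.sum_insert (by simpa using a0.ne'), Finset.sum_singleton,
        sg_bi G a4 (by tauto), sg_bi G a3 (by tauto)]
      norm_num
    have c3 : cost G S {b, b', u', u} = 2 := by
      rw [cost_insert G S {b', u', u} b (by simp [hbb, (ne hu' hb).symm, (ne hu hb).symm]), c2, sb,
        Finset.sum_insert (by simp [(ne hu' hb').symm, (ne hu hb').symm]),
        Finset.sum_insert (by simpa using a0.ne'), Finset.sum_singleton,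
        sg_bi G a2 (by tauto), sg_bi G a1 (by tauto), sg_nonadj G nbb]
      norm_num
    have c4 : cost G S {x, b, b', u', u} = -1 := by
      rw [cost_insert G S {b, b', u', u} x (by simp [xb, xb', xu, xu']), c3, sx,
        Finset.sum_insert (by simp [hbb, (ne hu' hb).symm, (ne hu hb).symm]),
        Finset.sum_insert (by simp [(ne hu' hb').symm, (ne hu hb').symm]),
        Finset.sum_insert (by simpa using a0.ne'), Finset.sum_singleton,
        sg_bi G h2 (by tauto), sg_bi G h3 (by tauto), sg_nonadj G nxu, sg_nonadj G nxu']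
      norm_num
    have i4 : iot S {x, b, b', u', u} = -1 := by
      rw [iot_insert S {b, b', u', u} x (by simp [xb, xb', xu, xu']),
        iot_insert S {b', u', u} b (by simp [hbb, (ne hu' hb).symm, (ne hu hb).symm]),
        iot_insert S {u', u} b' (by simp [(ne hu' hb').symm, (ne hu hb').symm]),
        iot_insert S {u} u' (by simpa using a0.ne')]
      have := iot_insert S ∅ u (by simp)
      rw [iot_empty] at this
      rw [show ({u} : Finset V) = insert u ∅ from rfl, this, if_pos hxS, if_neg hb, if_neg hb',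
        if_pos hu', if_pos hu]
      norm_num
    have hge := hL.cost_ge hG {x, b, b', u', u}
    rw [c4, i4] at hge
    have hk' : (1 : ℤ) ≤ k := by exact_mod_cast hk
    rw [abs_of_nonneg (by linarith)] at hge
    linarith
  · exfalso
    obtain ⟨v, hv, e3, -⟩ := L1.of_lad hG hbb a1 a2 a0 a3.symm a4.symm h0 h1
    have := hv.black hG hL hk (i := 3) (by decide) (by rw [e3]; exact hb)
    rw [e3, sb] at this
    omega

end Pool.Agent.Lib.Ando.Dia
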