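import Mathlib
import Pool.Agent.Lib.Ando.Basic

set_option autoImplicit false
set_option linter.unusedSectionVars false

/-!
# Ando.OpB3: the operation B3 (any graph; k = 1)

General recipe. Let T = symmDiff S F. By `sm_flip_not_mem`, `sm_flip_mem`: for v not in F: sm T v = (sm S v minus F) union (op S v inter F); for v in F: sm T v = (op S v minus F)
union (sm S v inter F). A vertex v outside F and not adjacent to F has sm T v = sm S v, so sd T v <= 1. So only the vertices of F and
their neighbours must be looked at, and all of them are listed below. From this list: {v : sd T v = 2}, `Good4`, n2, q2; and imb T from `card` of symmDiff.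

F = {b, u2, t}. b black, op S b = {u1, u2, u3}, sd b = 0; op S u2 = {b, x2}, sd x2 = 0; sm S u1 = {t} (so t is the white neighbour of u1), t adjacent to x2: op S t = {x2, c}, sd c = 0; sm S u3 = {v3}; u1, u2, u3 pairwise
not adjacent (hypotheses in terms of sm). New values: b is white, sm T b = {u1, u3}. sm T u1 = {b} (t has become black; u2 is not in sm S u1). sm T u3 = {v3, b} (v3 is neither u2 nor t, as sm S t = {u1}).
sm T v3 = {u3} (v3 is not adjacent to b as it is none of u1, u2, u3). u2 is black, sm T u2 = {x2}. sm T x2 = {u2, t}. t is black, sm T t = {x2, c}. sm T c = {t} (c is not adjacent to u2: op S u2 = {b, x2}, c /= x2, and c /= b because t is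
not adjacent to b: t is none of u1, u2, u3). The white neighbour of u2: sm T = empty. So the vertices with sd T = 2 are b, u3 (white, adjacent) and x2, t (black, adjacent). Numbers: i = -1 (b becomes white, u2, t black), 2 2 2 2.
-/

namespace Pool.Agent.Lib.Ando

variable {V : Type*} [Fintype V] [DecidableEq V] (G : SimpleGraph V) [DecidableRel G.Adj]

namespace OpB3Aux

theorem imb_eq' (S : Finset V) : imb S = 2 * (S.card : ℤ) - (Fintype.card V : ℤ) := by
  have h := Finset.card_add_card_compl S
  unfold imb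
  omega

theorem imb_flip' (S F : Finset V) : imb (symmDiff S F) = imb S + 2 * iot S F := by
  have h1 : (symmDiff S F).card = (S \ F).card + (F \ S).card := by
    have h2 : symmDiff S F = (S \ F) ∪ (F \ S) := rfl
    rw [h2, Finset.card_union_of_disjoint]
    rw [Finset.disjoint_left]
    intro x hx hx'
    rw [Finset.mem_sdiff] at hx hx'
    exact hx'.2 hx.1
  have h2 : (S \ F).card + (S ∩ F).card = S.card := Finset.card_sdiff_add_card_inter S F
  have h3 : (F ∩ S).card = (S ∩ F).card := by rw [Finset.inter_comm]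
  rw [imb_eq', imb_eq', h1]
  unfold iot
  rw [h3]
  push_cast
  omega

end OpB3Aux

theorem eff_B3 {S : Finset V} (htf : ∀ v, sd G S v ≤ 1) {b u1 u2 u3 x2 t c : V}
    (hb : b ∉ S) (sb : sd G S b = 0) (ob : op G S b = {u1, u2, u3}) (n12 : u1 ≠ u2)
    (n13 : u1 ≠ u3) (n23 : u2 ≠ u3) (h1 : u1 ∈ S) (h2 : u2 ∈ S) (h3 : u3 ∈ S)
    (o2 : op G S u2 = {b, x2}) (b2 : b ≠ x2) (z2 : sd G S x2 = 0)
    (s1 : sm G S u1 = {t}) (ot : op G S t = {x2, c}) (hxc : x2 ≠ c) (hc : sd G S c = 0)
    (s3 : sd G S u3 = 1) (t2 : t ≠ u2) (t3 : t ≠ u3) (hu23 : u2 ∉ sm G S u3) :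
    Eff G S {b, u2, t} (-1) 2 2 2 2 := by
  -- basic facts
  have smb : sm G S b = ∅ := Finset.card_eq_zero.1 sb
  have smx : sm G S x2 = ∅ := Finset.card_eq_zero.1 z2
  have smc : sm G S c = ∅ := Finset.card_eq_zero.1 hc
  have htu1 : t ∈ sm G S u1 := by rw [s1]; simp
  have ht : t ∈ S := (mem_sm.1 htu1).2.2 h1
  have t1 : t ≠ u1 := fun e => by
    have := (mem_sm.1 htu1).1
    rw [e] at this
    exact G.loopless.irrefl _ this
  have hx2o : x2 ∈ op G S u2 := by rw [o2]; simp
  have hx2 : x2 ∉ S := fun hm => (mem_op.1 hx2o).2 ⟨fun _ => h2, fun _ => hm⟩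
  have hco : c ∈ op G S t := by rw [ot]; simp
  have hcS : c ∉ S := fun hm => (mem_op.1 hco).2 ⟨fun _ => ht, fun _ => hm⟩
  have hxt : x2 ∈ op G S t := by rw [ot]; simp
  have smt : sm G S t = {u1} := by
    have h5 : u1 ∈ sm G S t := sm_symm htu1
    have h6 := htf t
    unfold sd at h6
    exact (Finset.eq_of_subset_of_card_le (Finset.singleton_subset_iff.2 h5) (by simpa using h6)).symm
  have hbt : b ∉ op G S t := by
    intro hm
    have h5 := op_symm hm
    rw [ob] at h5
    simp only [Finset.mem_insert, Finset.mem_singleton] at h5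
    rcases h5 with h5 | h5 | h5
    · exact t1 h5
    · exact t2 h5
    · exact t3 h5
  have hcb : c ≠ b := fun e => hbt (e ▸ hco)
  obtain ⟨v3, hv3⟩ := Finset.card_eq_one.1 (show (sm G S u3).card = 1 from s3)
  have hv3m : v3 ∈ sm G S u3 := by rw [hv3]; simp
  have hv3S : v3 ∈ S := (mem_sm.1 hv3m).2.2 h3
  have v3b : v3 ≠ b := fun e => hb (e ▸ hv3S)
  have v3u2 : v3 ≠ u2 := fun e => hu23 (e ▸ hv3m)
  have v3u3 : v3 ≠ u3 := fun e => by
    have := (mem_sm.1 hv3m).1
    rw [e] at this
    exact G.loopless.irrefl _ this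
  have v3t : v3 ≠ t := by
    intro e
    have h5 := sm_symm hv3m
    rw [e, smt, Finset.mem_singleton] at h5
    exact n13 h5.symm
  have v3x : v3 ≠ x2 := fun e => hx2 (e ▸ hv3S)
  have u1b : u1 ≠ b := fun e => hb (e ▸ h1)
  have u2b : u2 ≠ b := fun e => hb (e ▸ h2)
  have u3b : u3 ≠ b := fun e => hb (e ▸ h3)
  have tb : t ≠ b := fun e => hb (e ▸ ht)
  have xu2 : x2 ≠ u2 := fun e => hx2 (e ▸ h2)
  have xu1 : x2 ≠ u1 := fun e => hx2 (e ▸ h1)
  have xu3 : x2 ≠ u3 := fun e => hx2 (e ▸ h3)
  have xt : x2 ≠ t := fun e => hx2 (e ▸ ht)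
  have ct : c ≠ t := fun e => hcS (e ▸ ht)
  have cu2 : c ≠ u2 := fun e => hcS (e ▸ h2)
  have cu3 : c ≠ u3 := fun e => hcS (e ▸ h3)
  have hbo3 : b ∈ op G S u3 := op_symm (by rw [ob]; simp)
  have hF : ∀ z, z ∈ ({b, u2, t} : Finset V) ↔ z = b ∨ z = u2 ∨ z = t := by
    intro z; simp
  -- the new neighbourhoods
  have Tb : sm G (symmDiff S {b, u2, t}) b = {u1, u3} := by
    rw [sm_flip_mem G (by simp), smb, Finset.empty_inter, Finset.union_empty, ob]
    ext z
    simp only [Finset.mem_sdiff, Finset.mem_insert, Finset.mem_singleton]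
    constructor
    · rintro ⟨h5 | h5 | h5, h6⟩
      · exact Or.inl h5
      · exact absurd (Or.inr (Or.inl h5)) h6
      · exact Or.inr h5
    · rintro (h5 | h5)
      · refine ⟨Or.inl h5, ?_⟩
        rw [h5]
        rintro (h6 | h6 | h6)
        · exact u1b h6
        · exact n12 h6
        · exact t1 h6.symm
      · refine ⟨Or.inr (Or.inr h5), ?_⟩
        rw [h5]
        rintro (h6 | h6 | h6)
        · exact u3b h6
        · exact n23 h6.symm
        · exact t3 h6.symm
  have Tu3 : sm G (symmDiff S {b, u2, t}) u3 = {v3, b} := by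
    rw [sm_flip_not_mem G (by rw [hF]; rintro (h6 | h6 | h6); exacts [u3b h6, n23 h6.symm, t3 h6.symm]), hv3]
    ext z
    simp only [Finset.mem_union, Finset.mem_sdiff, Finset.mem_inter, Finset.mem_insert,
      Finset.mem_singleton]
    constructor
    · rintro (⟨h5, h6⟩ | ⟨h5, h6 | h6 | h6⟩)
      · exact Or.inl h5
      · exact Or.inr h6
      · rw [h6] at h5
        exact absurd ⟨fun _ => h3, fun _ => h2⟩ (mem_op.1 h5).2
      · rw [h6] at h5
        exact absurd ⟨fun _ => h3, fun _ => ht⟩ (mem_op.1 h5).2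
    · rintro (h5 | h5)
      · left
        refine ⟨h5, ?_⟩
        rw [h5]
        rintro (h6 | h6 | h6)
        exacts [v3b h6, v3u2 h6, v3t h6]
      · right
        rw [h5]
        exact ⟨hbo3, Or.inl rfl⟩
  have Tx : sm G (symmDiff S {b, u2, t}) x2 = {u2, t} := by
    rw [sm_flip_not_mem G (by rw [hF]; rintro (h6 | h6 | h6); exacts [b2 h6.symm, xu2 h6, xt h6]), smx]
    ext z
    simp only [Finset.mem_union, Finset.mem_sdiff, Finset.mem_inter, Finset.mem_insert,
      Finset.mem_singleton, Finset.notMem_empty, false_and, false_or]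
    constructor
    · rintro ⟨h5, h6 | h6 | h6⟩
      · rw [h6] at h5
        exact absurd ⟨fun hm => absurd hm hb, fun hm => absurd hm hx2⟩ (mem_op.1 h5).2
      · exact Or.inl h6
      · exact Or.inr h6
    · rintro (h5 | h5)
      · rw [h5]
        exact ⟨op_symm hx2o, Or.inr (Or.inl rfl)⟩
      · rw [h5]
        exact ⟨op_symm hxt, Or.inr (Or.inr rfl)⟩
  have Tt : sm G (symmDiff S {b, u2, t}) t = {x2, c} := by
    rw [sm_flip_mem G (by simp), smt, ot]
    ext z
    simp only [Finset.mem_union, Finset.mem_sdiff, Finset.mem_inter, Finset.mem_insert,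
      Finset.mem_singleton]
    constructor
    · rintro (⟨h5, h6⟩ | ⟨h5, h6 | h6 | h6⟩)
      · exact h5
      · exact absurd (h5.symm.trans h6) u1b
      · exact absurd (h5.symm.trans h6) n12
      · exact absurd (h5.symm.trans h6).symm t1
    · intro h5
      left
      refine ⟨h5, ?_⟩
      rcases h5 with h5 | h5
      · rw [h5]
        rintro (h6 | h6 | h6)
        exacts [b2 h6.symm, xu2 h6, xt h6]
      · rw [h5]
        rintro (h6 | h6 | h6)
        exacts [hcb h6, cu2 h6, ct h6]
  have rest : ∀ v, v ≠ b → v ≠ u3 → v ≠ x2 → v ≠ t → sd G (symmDiff S {b, u2, t}) v ≤ 1 := by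
    intro v e1 e2 e3 e4
    unfold sd
    by_cases hv2 : v = u2
    · subst hv2
      have hsub : sm G (symmDiff S {b, v, t}) v ⊆ {x2} := by
        rw [sm_flip_mem G (by simp), o2]
        intro z hz
        simp only [Finset.mem_union, Finset.mem_sdiff, Finset.mem_inter, Finset.mem_insert,
          Finset.mem_singleton] at hz ⊢
        rcases hz with ⟨h5 | h5, h6⟩ | ⟨h5, h6 | h6 | h6⟩
        · exact absurd (Or.inl h5) h6
        · exact h5
        · rw [h6] at h5
          exact absurd ((mem_sm.1 h5).2.2 h2) hb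
        · rw [h6] at h5
          exact absurd (mem_sm.1 h5).1 (G.loopless.irrefl _)
        · rw [h6] at h5
          have h7 := sm_symm h5
          rw [smt, Finset.mem_singleton] at h7
          exact absurd h7.symm n12
      simpa using Finset.card_le_card hsub
    have hvF : v ∉ ({b, u2, t} : Finset V) := by
      rw [hF]
      rintro (h6 | h6 | h6)
      exacts [e1 h6, hv2 h6, e4 h6]
    rw [sm_flip_not_mem G hvF]
    by_cases hv1 : v = u1
    · subst hv1
      have hsub : (sm G S v \ {b, u2, t}) ∪ (op G S v ∩ {b, u2, t}) ⊆ {b} := by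
        rw [s1]
        intro z hz
        simp only [Finset.mem_union, Finset.mem_sdiff, Finset.mem_inter, Finset.mem_insert,
          Finset.mem_singleton] at hz ⊢
        rcases hz with ⟨h5, h6⟩ | ⟨h5, h6 | h6 | h6⟩
        · exact absurd (Or.inr (Or.inr h5)) h6
        · exact h6
        · rw [h6] at h5
          exact absurd ⟨fun _ => h1, fun _ => h2⟩ (mem_op.1 h5).2
        · rw [h6] at h5
          exact absurd ⟨fun _ => h1, fun _ => ht⟩ (mem_op.1 h5).2
      simpa using Finset.card_le_card hsub
    by_cases hvc : v = c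
    · subst hvc
      have hsub : (sm G S v \ {b, u2, t}) ∪ (op G S v ∩ {b, u2, t}) ⊆ {t} := by
        rw [smc]
        intro z hz
        simp only [Finset.mem_union, Finset.mem_sdiff, Finset.mem_inter, Finset.mem_insert,
          Finset.mem_singleton, Finset.notMem_empty, false_and, false_or] at hz ⊢
        rcases hz with ⟨h5, h6 | h6 | h6⟩
        · rw [h6] at h5
          exact absurd ⟨fun hm => absurd hm hb, fun hm => absurd hm hcS⟩ (mem_op.1 h5).2
        · rw [h6] at h5
          have h7 := op_symm h5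
          rw [o2] at h7
          simp only [Finset.mem_insert, Finset.mem_singleton] at h7
          rcases h7 with h7 | h7
          exacts [absurd h7 e1, absurd h7 e3]
        · exact h6
      simpa using Finset.card_le_card hsub
    have hop : op G S v ∩ {b, u2, t} = ∅ := by
      rw [Finset.eq_empty_iff_forall_notMem]
      intro z hz
      rw [Finset.mem_inter, hF] at hz
      obtain ⟨h5, h6 | h6 | h6⟩ := hz
      · rw [h6] at h5
        have h7 := op_symm h5
        rw [ob] at h7
        simp only [Finset.mem_insert, Finset.mem_singleton] at h7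
        rcases h7 with h7 | h7 | h7
        exacts [hv1 h7, hv2 h7, e2 h7]
      · rw [h6] at h5
        have h7 := op_symm h5
        rw [o2] at h7
        simp only [Finset.mem_insert, Finset.mem_singleton] at h7
        rcases h7 with h7 | h7
        exacts [e1 h7, e3 h7]
      · rw [h6] at h5
        have h7 := op_symm h5
        rw [ot] at h7
        simp only [Finset.mem_insert, Finset.mem_singleton] at h7
        rcases h7 with h7 | h7
        exacts [e3 h7, hvc h7]
    rw [hop, Finset.union_empty]
    exact le_trans (Finset.card_le_card Finset.sdiff_subset) (htf v)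
  have db : sd G (symmDiff S {b, u2, t}) b = 2 := by
    unfold sd; rw [Tb, Finset.card_pair n13]
  have du3 : sd G (symmDiff S {b, u2, t}) u3 = 2 := by
    unfold sd; rw [Tu3, Finset.card_pair v3b]
  have dx : sd G (symmDiff S {b, u2, t}) x2 = 2 := by
    unfold sd; rw [Tx, Finset.card_pair t2.symm]
  have dt : sd G (symmDiff S {b, u2, t}) t = 2 := by
    unfold sd; rw [Tt, Finset.card_pair hxc]
  have d1 := rest u1 u1b n13 xu1.symm t1.symm
  have dv := rest v3 v3b v3u3 v3x v3t
  have d2 := rest u2 u2b n23 xu2.symm t2.symm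
  have dc := rest c hcb cu3 hxc.symm ct
  -- the filtered neighbourhoods
  have Fb : (sm G (symmDiff S {b, u2, t}) b).filter
      (fun w => sd G (symmDiff S {b, u2, t}) w = 2) = {u3} := by
    rw [Tb, Finset.filter_insert, if_neg (by omega), Finset.filter_singleton, if_pos du3]
  have Fu3 : (sm G (symmDiff S {b, u2, t}) u3).filter
      (fun w => sd G (symmDiff S {b, u2, t}) w = 2) = {b} := by
    rw [Tu3, Finset.filter_insert, if_neg (by omega), Finset.filter_singleton, if_pos db]
  have Fx : (sm G (symmDiff S {b, u2, t}) x2).filter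
      (fun w => sd G (symmDiff S {b, u2, t}) w = 2) = {t} := by
    rw [Tx, Finset.filter_insert, if_neg (by omega), Finset.filter_singleton, if_pos dt]
  have Ft : (sm G (symmDiff S {b, u2, t}) t).filter
      (fun w => sd G (symmDiff S {b, u2, t}) w = 2) = {x2} := by
    rw [Tt, Finset.filter_insert, if_pos dx, Finset.filter_singleton, if_neg (by omega)]
    rfl
  have W : (symmDiff S {b, u2, t}).filter
      (fun w => sd G (symmDiff S {b, u2, t}) w = 2) = {b, u3} := by
    ext z
    rw [Finset.mem_filter, Finset.mem_symmDiff, hF]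
    simp only [Finset.mem_insert, Finset.mem_singleton]
    constructor
    · rintro ⟨h5, h6⟩
      by_contra hcon
      push Not at hcon
      by_cases e3 : z = x2
      · rw [e3] at h5
        rcases h5 with ⟨h7, _⟩ | ⟨h7 | h7 | h7, _⟩
        exacts [hx2 h7, b2 h7.symm, xu2 h7, xt h7]
      by_cases e4 : z = t
      · rw [e4] at h5
        rcases h5 with ⟨_, h7⟩ | ⟨_, h7⟩
        exacts [h7 (Or.inr (Or.inr rfl)), h7 ht]
      have := rest z hcon.1 hcon.2 e3 e4
      omega
    · rintro (h5 | h5)
      · rw [h5]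
        exact ⟨Or.inr ⟨Or.inl rfl, hb⟩, db⟩
      · rw [h5]
        refine ⟨Or.inl ⟨h3, ?_⟩, du3⟩
        rintro (h6 | h6 | h6)
        exacts [u3b h6, n23 h6.symm, t3 h6.symm]
  have W' : ((symmDiff S {b, u2, t})ᶜ).filter
      (fun w => sd G (symmDiff S {b, u2, t}) w = 2) = {x2, t} := by
    ext z
    rw [Finset.mem_filter, Finset.mem_compl, Finset.mem_symmDiff, hF]
    simp only [Finset.mem_insert, Finset.mem_singleton]
    constructor
    · rintro ⟨h5, h6⟩
      by_contra hcon
      push Not at hcon
      by_cases e3 : z = b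
      · rw [e3] at h5
        exact h5 (Or.inr ⟨Or.inl rfl, hb⟩)
      by_cases e4 : z = u3
      · rw [e4] at h5
        refine h5 (Or.inl ⟨h3, ?_⟩)
        rintro (h6 | h6 | h6)
        exacts [u3b h6, n23 h6.symm, t3 h6.symm]
      have := rest z e3 e4 hcon.1 hcon.2
      omega
    · rintro (h5 | h5)
      · rw [h5]
        refine ⟨?_, dx⟩
        rintro (⟨h7, _⟩ | ⟨h7 | h7 | h7, _⟩)
        exacts [hx2 h7, b2 h7.symm, xu2 h7, xt h7]
      · rw [h5]
        refine ⟨?_, dt⟩
        rintro (⟨_, h7⟩ | ⟨_, h7⟩)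
        exacts [h7 (Or.inr (Or.inr rfl)), h7 ht]
  refine ⟨?_, ?_, ?_, ?_, ?_, ?_⟩
  · intro v
    by_cases e1 : v = b
    · rw [e1, db, Fb]; simp
    by_cases e2 : v = u3
    · rw [e2, du3, Fu3]; simp
    by_cases e3 : v = x2
    · rw [e3, dx, Fx]; simp
    by_cases e4 : v = t
    · rw [e4, dt, Ft]; simp
    have := rest v e1 e2 e3 e4
    exact ⟨by omega, fun h5 => by omega⟩
  · rw [OpB3Aux.imb_flip']
    have i1 : ({b, u2, t} : Finset V) \ S = {b} := by
      ext z
      rw [Finset.mem_sdiff, hF, Finset.mem_singleton]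
      constructor
      · rintro ⟨h5 | h5 | h5, h6⟩
        · exact h5
        · exact absurd (h5 ▸ h2) h6
        · exact absurd (h5 ▸ ht) h6
      · intro h5
        rw [h5]
        exact ⟨Or.inl rfl, hb⟩
    have i2 : ({b, u2, t} : Finset V) ∩ S = {u2, t} := by
      ext z
      rw [Finset.mem_inter, hF, Finset.mem_insert, Finset.mem_singleton]
      constructor
      · rintro ⟨h5 | h5 | h5, h6⟩
        · exact absurd (h5 ▸ h6) hb
        · exact Or.inl h5
        · exact Or.inr h5
      · rintro (h5 | h5)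
        · rw [h5]; exact ⟨Or.inr (Or.inl rfl), h2⟩
        · rw [h5]; exact ⟨Or.inr (Or.inr rfl), ht⟩
    unfold iot
    rw [i1, i2, Finset.card_singleton, Finset.card_pair t2.symm]
    norm_num
  · unfold n2
    rw [W, Finset.card_pair u3b.symm]
  · unfold q2
    rw [W, Finset.sum_pair u3b.symm, Fb, Fu3]
    simp
  · unfold n2
    rw [W', Finset.card_pair xt]
  · unfold q2
    rw [W', Finset.sum_pair xt, Fx, Ft]
    simp

end Pool.Agent.Lib.Ando
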