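import Mathlib
import Pool.Agent.Lib.Ando.Basic

set_option autoImplicit false
set_option linter.unusedSectionVars false

/-!
# Ando.OpB2: the operation B2 (any graph; k = 1)

General recipe. Let T = symmDiff S F. By `sm_flip_not_mem`, `sm_flip_mem`: for v not in F: sm T v = (sm S v minus F) union (op S v inter F); for v in F: sm T v = (op S v minus F)
union (sm S v inter F). A vertex v outside F and not adjacent to F has sm T v = sm S v, so sd T v <= 1. So only the vertices of F and
their neighbours must be looked at, and all of them are listed below. From this list: {v : sd T v = 2}, `Good4`, n2, q2; and imb T from `card` of symmDiff.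

F = {x1, u1, u2}. b black with op S b = {u1, u2, u3}; u1, u2 white with op S u1 = {b, x1}, op S u2 = {b, x2}; x1, x2 black, different, sd b = sd x1 = sd x2 = 0; op S x1 = {u1, w, o}, sd w = 1, sd o = 0.
u2 not in sm S u1, w not in sm S u1, w not in sm S u2, w /= u2. Let sm S w = {w'}. New values: x1 is white, sm T x1 = {w, o}. sm T w = {w', x1} (w' is neither u1 nor u2). sm T w' = {w}
(w' is not adjacent to x1). sm T o = {x1}. u1 is black, sm T u1 = {b}. sm T b = {u1, u2} (u3 is white). u2 is black, sm T u2 = {b, x2}. sm T x2 = {u2} (x2 is not adjacent to u1: op S u1 = {b, x1}, x2 /= x1, x2 /= b).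
White neighbours of u1, u2: sm T = empty (they are not w, not o; so not adjacent to x1). So the vertices with sd T = 2 are x1, w (white, adjacent) and b, u2 (black, adjacent). Numbers: i = -1 (x1 becomes white, u1, u2 black), a = 2, a' = 2, b = 2, b' = 2.
-/

namespace Pool.Agent.Lib.Ando

variable {V : Type*} [Fintype V] [DecidableEq V] (G : SimpleGraph V) [DecidableRel G.Adj]

namespace OpB2Aux

variable {G} in
theorem op_nm {S : Finset V} {v w : V} (h : w ∈ op G S v) (hv : v ∈ S) : w ∉ S := by
  rw [mem_op] at h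
  tauto

variable {G} in
theorem op_m {S : Finset V} {v w : V} (h : w ∈ op G S v) (hv : v ∉ S) : w ∈ S := by
  rw [mem_op] at h
  tauto

variable {G} in
theorem sm_m {S : Finset V} {v w : V} (h : w ∈ sm G S v) (hv : v ∈ S) : w ∈ S := by
  rw [mem_sm] at h
  tauto

variable {G} in
theorem sm_nm {S : Finset V} {v w : V} (h : w ∈ sm G S v) (hv : v ∉ S) : w ∉ S := by
  rw [mem_sm] at h
  tauto

variable {G} in
theorem sm_ne {S : Finset V} {v w : V} (h : w ∈ sm G S v) : w ≠ v := by
  rintro rfl
  rw [mem_sm] at h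
  exact G.loopless.irrefl _ h.1

theorem ne_of_mem {S : Finset V} {a c : V} (ha : a ∈ S) (hc : c ∉ S) : a ≠ c := by
  rintro rfl
  exact hc ha

end OpB2Aux

open OpB2Aux

theorem eff_B2 {S : Finset V} (htf : ∀ v, sd G S v ≤ 1) {b u1 u2 u3 x1 x2 w o : V}
    (hb : b ∉ S) (sb : sd G S b = 0) (ob : op G S b = {u1, u2, u3}) (n12 : u1 ≠ u2)
    (n13 : u1 ≠ u3) (n23 : u2 ≠ u3) (h1 : u1 ∈ S) (h2 : u2 ∈ S)
    (o1 : op G S u1 = {b, x1}) (o2 : op G S u2 = {b, x2}) (b1 : b ≠ x1) (b2 : b ≠ x2)
    (x12 : x1 ≠ x2) (z1 : sd G S x1 = 0) (z2 : sd G S x2 = 0)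
    (ox : op G S x1 = {u1, w, o}) (nw : u1 ≠ w) (no : u1 ≠ o) (nwo : w ≠ o)
    (hw : sd G S w = 1) (ho : sd G S o = 0) (hu : u2 ∉ sm G S u1)
    (hw1 : w ∉ sm G S u1) (hw2 : w ∉ sm G S u2) (hw3 : w ≠ u2) :
    Eff G S {x1, u1, u2} (-1) 2 2 2 2 := by
  classical
  have hx1 : x1 ∉ S := op_nm (G := G) (v := u1) (by rw [o1]; simp) h1
  have hx2 : x2 ∉ S := op_nm (G := G) (v := u2) (by rw [o2]; simp) h2
  have h3 : u3 ∈ S := op_m (G := G) (v := b) (by rw [ob]; simp) hb
  have hwS : w ∈ S := op_m (G := G) (v := x1) (by rw [ox]; simp) hx1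
  have hoS : o ∈ S := op_m (G := G) (v := x1) (by rw [ox]; simp) hx1
  have smb : sm G S b = ∅ := Finset.card_eq_zero.1 sb
  have smx1 : sm G S x1 = ∅ := Finset.card_eq_zero.1 z1
  have smx2 : sm G S x2 = ∅ := Finset.card_eq_zero.1 z2
  have smo : sm G S o = ∅ := Finset.card_eq_zero.1 ho
  obtain ⟨w', hw'⟩ := Finset.card_eq_one.1 hw
  have hw'm : w' ∈ sm G S w := by rw [hw']; simp
  have hw'S : w' ∈ S := sm_m hw'm hwS
  -- inequalities
  have nx1u1 : x1 ≠ u1 := (ne_of_mem h1 hx1).symm
  have nx1u2 : x1 ≠ u2 := (ne_of_mem h2 hx1).symm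
  have nx2u1 : x2 ≠ u1 := (ne_of_mem h1 hx2).symm
  have nx2u2 : x2 ≠ u2 := (ne_of_mem h2 hx2).symm
  have nbu1 : b ≠ u1 := (ne_of_mem h1 hb).symm
  have nbu2 : b ≠ u2 := (ne_of_mem h2 hb).symm
  have nu3x1 : u3 ≠ x1 := ne_of_mem h3 hx1
  have nwx1 : w ≠ x1 := ne_of_mem hwS hx1
  have nwb : w ≠ b := ne_of_mem hwS hb
  have nwx2 : w ≠ x2 := ne_of_mem hwS hx2
  have nox1 : o ≠ x1 := ne_of_mem hoS hx1
  have nob : o ≠ b := ne_of_mem hoS hb
  have nox2 : o ≠ x2 := ne_of_mem hoS hx2
  have nw'x1 : w' ≠ x1 := ne_of_mem hw'S hx1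
  have nw'b : w' ≠ b := ne_of_mem hw'S hb
  have nw'w : w' ≠ w := sm_ne hw'm
  have nw'u1 : w' ≠ u1 := by
    rintro rfl
    exact hw1 (sm_symm hw'm)
  have nw'u2 : w' ≠ u2 := by
    rintro rfl
    exact hw2 (sm_symm hw'm)
  have nou2 : o ≠ u2 := by
    rintro rfl
    have : x1 ∈ op G S o := op_symm (by rw [ox]; simp)
    rw [o2] at this
    simp only [Finset.mem_insert, Finset.mem_singleton] at this
    rcases this with h | h
    · exact b1 h.symm
    · exact x12 h
  have hF : ∀ v, v ∈ ({x1, u1, u2} : Finset V) ↔ v = x1 ∨ v = u1 ∨ v = u2 := by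
    intro v; simp
  set F : Finset V := {x1, u1, u2} with hFdef
  have fx1 : x1 ∈ F := by rw [hF]; simp
  have fu1 : u1 ∈ F := by rw [hF]; simp
  have fu2 : u2 ∈ F := by rw [hF]; simp
  have fb : b ∉ F := by rw [hF]; tauto
  have fx2 : x2 ∉ F := by
    rw [hF]
    have := x12.symm
    tauto
  have fw : w ∉ F := by
    rw [hF]
    have := nw.symm
    tauto
  have fo : o ∉ F := by
    rw [hF]
    have := no.symm
    tauto
  set T : Finset V := symmDiff S F with hT
  have sTx1 : sm G T x1 = {w, o} := by
    rw [hT, sm_flip_mem G fx1, ox, smx1]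
    ext y
    simp only [Finset.mem_union, Finset.mem_sdiff, Finset.mem_inter, Finset.mem_insert,
      Finset.mem_singleton, Finset.notMem_empty, false_and, or_false]
    constructor
    · rintro ⟨rfl | h, h'⟩
      · exact absurd fu1 h'
      · exact h
    · rintro (rfl | rfl)
      · exact ⟨Or.inr (Or.inl rfl), fw⟩
      · exact ⟨Or.inr (Or.inr rfl), fo⟩
  have sTu1 : sm G T u1 = {b} := by
    rw [hT, sm_flip_mem G fu1, o1]
    ext y
    simp only [Finset.mem_union, Finset.mem_sdiff, Finset.mem_inter, Finset.mem_insert,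
      Finset.mem_singleton]
    constructor
    · rintro (⟨rfl | rfl, h'⟩ | ⟨h, h'⟩)
      · rfl
      · exact absurd fx1 h'
      · exfalso
        rcases (hF y).1 h' with rfl | rfl | rfl
        · exact hx1 (sm_m h h1)
        · exact sm_ne h rfl
        · exact hu h
    · rintro rfl
      exact Or.inl ⟨Or.inl rfl, fb⟩
  have sTu2 : sm G T u2 = {b, x2} := by
    rw [hT, sm_flip_mem G fu2, o2]
    ext y
    simp only [Finset.mem_union, Finset.mem_sdiff, Finset.mem_inter, Finset.mem_insert,
      Finset.mem_singleton]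
    constructor
    · rintro (⟨h, _⟩ | ⟨h, h'⟩)
      · exact h
      · exfalso
        rcases (hF y).1 h' with rfl | rfl | rfl
        · exact hx1 (sm_m h h2)
        · exact hu (sm_symm h)
        · exact sm_ne h rfl
    · rintro (rfl | rfl)
      · exact Or.inl ⟨Or.inl rfl, fb⟩
      · exact Or.inl ⟨Or.inr rfl, fx2⟩
  have sTb : sm G T b = {u1, u2} := by
    rw [hT, sm_flip_not_mem G fb, ob, smb]
    ext y
    simp only [Finset.mem_union, Finset.mem_sdiff, Finset.mem_inter, Finset.mem_insert,
      Finset.mem_singleton, Finset.notMem_empty, false_and, false_or]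
    constructor
    · rintro ⟨rfl | rfl | rfl, h'⟩
      · exact Or.inl rfl
      · exact Or.inr rfl
      · rcases (hF y).1 h' with h | h | h
        · exact absurd h nu3x1
        · exact absurd h.symm n13
        · exact absurd h.symm n23
    · rintro (rfl | rfl)
      · exact ⟨Or.inl rfl, fu1⟩
      · exact ⟨Or.inr (Or.inl rfl), fu2⟩
  have sTx2 : sm G T x2 = {u2} := by
    rw [hT, sm_flip_not_mem G fx2, smx2]
    ext y
    simp only [Finset.mem_union, Finset.mem_sdiff, Finset.mem_inter,
      Finset.mem_singleton, Finset.notMem_empty, false_and, false_or]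
    constructor
    · rintro ⟨h, h'⟩
      rcases (hF y).1 h' with rfl | rfl | rfl
      · exact absurd (op_m h hx2) hx1
      · exfalso
        have := op_symm h
        rw [o1] at this
        simp only [Finset.mem_insert, Finset.mem_singleton] at this
        rcases this with h5 | h5
        · exact b2 h5.symm
        · exact x12 h5.symm
      · rfl
    · rintro rfl
      exact ⟨op_symm (by rw [o2]; simp), fu2⟩
  have sTw : sm G T w = {w', x1} := by
    rw [hT, sm_flip_not_mem G fw, hw']
    ext y
    simp only [Finset.mem_union, Finset.mem_sdiff, Finset.mem_inter, Finset.mem_insert,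
      Finset.mem_singleton]
    constructor
    · rintro (⟨h, _⟩ | ⟨h, h'⟩)
      · exact Or.inl h
      · rcases (hF y).1 h' with rfl | rfl | rfl
        · exact Or.inr rfl
        · exact absurd h1 (op_nm h hwS)
        · exact absurd h2 (op_nm h hwS)
    · rintro (rfl | rfl)
      · refine Or.inl ⟨rfl, fun h => ?_⟩
        rcases (hF y).1 h with h | h | h
        · exact nw'x1 h
        · exact nw'u1 h
        · exact nw'u2 h
      · exact Or.inr ⟨op_symm (by rw [ox]; simp), fx1⟩
  have sTo : sm G T o = {x1} := by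
    rw [hT, sm_flip_not_mem G fo, smo]
    ext y
    simp only [Finset.mem_union, Finset.mem_sdiff, Finset.mem_inter,
      Finset.mem_singleton, Finset.notMem_empty, false_and, false_or]
    constructor
    · rintro ⟨h, h'⟩
      rcases (hF y).1 h' with rfl | rfl | rfl
      · rfl
      · exact absurd h1 (op_nm h hoS)
      · exact absurd h2 (op_nm h hoS)
    · rintro rfl
      exact ⟨op_symm (by rw [ox]; simp), fx1⟩
  have sTv : ∀ v, v ≠ x1 → v ≠ u1 → v ≠ u2 → v ≠ b → v ≠ x2 → v ≠ w → v ≠ o → sd G T v ≤ 1 := by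
    intro v a1 a2 a3 a4 a5 a6 a7
    have fv : v ∉ F := by rw [hF]; tauto
    refine le_trans ?_ (htf v)
    unfold sd
    apply Finset.card_le_card
    rw [hT, sm_flip_not_mem G fv]
    intro y hy
    rcases Finset.mem_union.1 hy with hy | hy
    · exact (Finset.mem_sdiff.1 hy).1
    · exfalso
      obtain ⟨hy1, hy2⟩ := Finset.mem_inter.1 hy
      have hv := op_symm hy1
      rcases (hF y).1 hy2 with rfl | rfl | rfl
      · rw [ox] at hv
        simp only [Finset.mem_insert, Finset.mem_singleton] at hv
        tauto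
      · rw [o1] at hv
        simp only [Finset.mem_insert, Finset.mem_singleton] at hv
        tauto
      · rw [o2] at hv
        simp only [Finset.mem_insert, Finset.mem_singleton] at hv
        tauto
  have dx1 : sd G T x1 = 2 := by
    unfold sd; rw [sTx1]; exact Finset.card_pair nwo
  have du1 : sd G T u1 = 1 := by
    unfold sd; rw [sTu1]; exact Finset.card_singleton _
  have du2 : sd G T u2 = 2 := by
    unfold sd; rw [sTu2]; exact Finset.card_pair b2
  have db : sd G T b = 2 := by
    unfold sd; rw [sTb]; exact Finset.card_pair n12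
  have dx2 : sd G T x2 = 1 := by
    unfold sd; rw [sTx2]; exact Finset.card_singleton _
  have dw : sd G T w = 2 := by
    unfold sd; rw [sTw]; exact Finset.card_pair nw'x1
  have do_ : sd G T o = 1 := by
    unfold sd; rw [sTo]; exact Finset.card_singleton _
  have hcls : ∀ v, sd G T v = 2 ↔ v = x1 ∨ v = u2 ∨ v = b ∨ v = w := by
    intro v
    constructor
    · intro h
      by_contra hc
      push Not at hc
      by_cases a2 : v = u1
      · subst a2; omega
      by_cases a5 : v = x2
      · subst a5; omega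
      by_cases a7 : v = o
      · subst a7; omega
      have := sTv v hc.1 a2 hc.2.1 hc.2.2.1 a5 hc.2.2.2 a7
      omega
    · rintro (rfl | rfl | rfl | rfl)
      · exact dx1
      · exact du2
      · exact db
      · exact dw
  have hle : ∀ v, sd G T v ≤ 2 := by
    intro v
    by_cases a1 : v = x1
    · subst a1; omega
    by_cases a2 : v = u1
    · subst a2; omega
    by_cases a3 : v = u2
    · subst a3; omega
    by_cases a4 : v = b
    · subst a4; omega
    by_cases a5 : v = x2
    · subst a5; omega
    by_cases a6 : v = w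
    · subst a6; omega
    by_cases a7 : v = o
    · subst a7; omega
    have := sTv v a1 a2 a3 a4 a5 a6 a7
    omega
  have dw' : sd G T w' ≠ 2 := by
    intro h
    rcases (hcls w').1 h with h | h | h | h
    · exact nw'x1 h
    · exact nw'u2 h
    · exact nw'b h
    · exact nw'w h
  have fx1c : (sm G T x1).filter (fun v => sd G T v = 2) = {w} := by
    rw [sTx1]
    simp [Finset.filter_insert, Finset.filter_singleton, dw, do_]
  have fwc : (sm G T w).filter (fun v => sd G T v = 2) = {x1} := by
    rw [sTw]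
    simp [Finset.filter_insert, Finset.filter_singleton, dw', dx1]
  have fbc : (sm G T b).filter (fun v => sd G T v = 2) = {u2} := by
    rw [sTb]
    simp [Finset.filter_insert, Finset.filter_singleton, du1, du2]
  have fu2c : (sm G T u2).filter (fun v => sd G T v = 2) = {b} := by
    rw [sTu2]
    simp [Finset.filter_insert, Finset.filter_singleton, db, dx2]
  have mT : ∀ v, v ∈ T ↔ (v ∈ S ∧ v ∉ F) ∨ (v ∈ F ∧ v ∉ S) := fun v => Finset.mem_symmDiff
  have tx1 : x1 ∈ T := (mT x1).2 (Or.inr ⟨fx1, hx1⟩)
  have tw : w ∈ T := (mT w).2 (Or.inl ⟨hwS, fw⟩)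
  have tb : b ∉ T := by rw [mT]; tauto
  have tu2 : u2 ∉ T := by rw [mT]; tauto
  have fT : T.filter (fun v => sd G T v = 2) = {x1, w} := by
    ext v
    rw [Finset.mem_filter, hcls, Finset.mem_insert, Finset.mem_singleton]
    constructor
    · rintro ⟨h, rfl | rfl | rfl | rfl⟩
      · exact Or.inl rfl
      · exact absurd h tu2
      · exact absurd h tb
      · exact Or.inr rfl
    · rintro (rfl | rfl)
      · exact ⟨tx1, Or.inl rfl⟩
      · exact ⟨tw, Or.inr (Or.inr (Or.inr rfl))⟩
  have fTc : Tᶜ.filter (fun v => sd G T v = 2) = {b, u2} := by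
    ext v
    rw [Finset.mem_filter, hcls, Finset.mem_insert, Finset.mem_singleton, Finset.mem_compl]
    constructor
    · rintro ⟨h, rfl | rfl | rfl | rfl⟩
      · exact absurd tx1 h
      · exact Or.inr rfl
      · exact Or.inl rfl
      · exact absurd tw h
    · rintro (rfl | rfl)
      · exact ⟨tb, Or.inr (Or.inr (Or.inl rfl))⟩
      · exact ⟨tu2, Or.inr (Or.inl rfl)⟩
  refine ⟨?_, ?_, ?_, ?_, ?_, ?_⟩
  · intro v
    refine ⟨hle v, fun h => ?_⟩
    rcases (hcls v).1 h with rfl | rfl | rfl | rfl
    · rw [fx1c]; simp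
    · rw [fu2c]; simp
    · rw [fbc]; simp
    · rw [fwc]; simp
  · have hSF : S ∩ F = {u1, u2} := by
      ext v
      rw [Finset.mem_inter, hF, Finset.mem_insert, Finset.mem_singleton]
      constructor
      · rintro ⟨h, rfl | h'⟩
        · exact absurd h hx1
        · exact h'
      · rintro (rfl | rfl)
        · exact ⟨h1, Or.inr (Or.inl rfl)⟩
        · exact ⟨h2, Or.inr (Or.inr rfl)⟩
    have hFS : F \ S = {x1} := by
      ext v
      rw [Finset.mem_sdiff, hF, Finset.mem_singleton]
      constructor
      · rintro ⟨rfl | rfl | rfl, h⟩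
        · rfl
        · exact absurd h1 h
        · exact absurd h2 h
      · rintro rfl
        exact ⟨Or.inl rfl, hx1⟩
    have e1 : T = (S \ F) ∪ (F \ S) := rfl
    have e2 : T.card = (S \ F).card + (F \ S).card := by
      rw [e1]
      apply Finset.card_union_of_disjoint
      rw [Finset.disjoint_left]
      intro v h h'
      exact (Finset.mem_sdiff.1 h).2 (Finset.mem_sdiff.1 h').1
    have e3 : (S \ F).card + (S ∩ F).card = S.card := Finset.card_sdiff_add_card_inter S F
    rw [hSF, Finset.card_pair n12] at e3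
    rw [hFS, Finset.card_singleton] at e2
    have e4 : S.card + Sᶜ.card = Fintype.card V := Finset.card_add_card_compl S
    have e5 : T.card + Tᶜ.card = Fintype.card V := Finset.card_add_card_compl T
    rw [← hT]
    unfold imb
    omega
  · unfold n2
    rw [fT]
    exact Finset.card_pair nwx1.symm
  · unfold q2
    rw [fT, Finset.sum_pair nwx1.symm, fx1c, fwc]
    simp
  · unfold n2
    rw [fTc]
    exact Finset.card_pair nbu2
  · unfold q2
    rw [fTc, Finset.sum_pair nbu2, fbc, fu2c]
    simp

end Pool.Agent.Lib.Ando
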