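import Mathlib
import Pool.Agent.Lib.Ando.Fact2

set_option autoImplicit false
set_option linter.unusedSectionVars false

/-!
# Ando.StarBasic: stars

Conventions: S = white vertices. Z / L = black vertices with sd = 0 / 1, O / U = white vertices with sd = 0 / 1. For v in L or U let v* be the member of sm S v. Every vertex of U has
sm S u = {u*} and op S u with two members (`sd_add_op`); a vertex of O or Z has op S with three members.
`Level.cost_ge`: cost S F >= k - |k + iot S F|; `Level.exists_two`: if equality holds and |k + iot| < k, some vertex has sd >= 2 after the exchange.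
To compute `cost S F` for an explicit F: F is an insert of different vertices, so expand the sums with `Finset.sum_insert`; the double sum counts each adjacent pair in F twice:
2 times (number of bichromatic pairs) - 2 times (number of monochromatic pairs). For an upper bound of the cost it is enough to know enough bichromatic pairs and that the other
pairs are not monochromatic edges (the terms of the double sum are then >= 0).

`exists_star`: b in Z with three neighbours in U. op S b = UN S b = {u1, u2, u3} (card 3). By `fact2` each ui is a site; op S ui has two elements, one is b (`op_symm`), the other is xi, sd 0. sm S ui = {vi}.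
`Star.swap`, `Star.rot`: permuting the indices (op S b = {u2, u1, u3} etc.).
`Star.facts`: the xi are different (NoSq: x1 = x2 would give the 4-cycle b u1 x1 u2; b /= x1, u1 /= u2). ui not in sm S uj (NoTri with b). The vi are in S (`mem_sm`: same colour as ui), have sd 1, sm S vi = {ui}; vi /= uj (i /= j: `ui not in sm S uj`);
the vi are different (if v1 = v2 then u1, u2 in sm S v1, sd S v1 <= 1, so u1 = u2). b is not adjacent to vi: op S b = {u1, u2, u3} and vi /= uj for j /= i, vi /= ui (adjacent). xi is not in op S vi (NoTri: xi, ui, vi). xi not in op S uj for i /= j.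
-/

namespace Pool.Agent.Lib.Ando

variable {V : Type*} [Fintype V] [DecidableEq V] (G : SimpleGraph V) [DecidableRel G.Adj]

namespace StarBasicAux

theorem pair_of_card {s : Finset V} {b : V} (hb : b ∈ s) (hc : s.card = 2) :
    ∃ x, b ≠ x ∧ s = {b, x} := by
  obtain ⟨x, y, hxy, rfl⟩ := Finset.card_eq_two.1 hc
  rw [Finset.mem_insert, Finset.mem_singleton] at hb
  rcases hb with rfl | rfl
  · exact ⟨y, hxy, rfl⟩
  · exact ⟨x, hxy.symm, Finset.pair_comm _ _⟩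

variable {G} in
theorem one (hG : G.IsRegularOfDegree 3) {S : Finset V} {b u : V} (hu : u ∈ UN G S b)
    (hs : u ∈ sites G S) :
    u ∈ S ∧ ∃ x v, sm G S u = {v} ∧ op G S u = {b, x} ∧ b ≠ x ∧ sd G S x = 0 := by
  have h1 : u ∈ op G S b ∧ sd G S u = 1 := by simpa [UN] using hu
  have h2 : u ∈ S ∧ sd G S u = 1 ∧ ∀ c ∈ op G S u, sd G S c = 0 := by simpa [sites] using hs
  have h3 : (op G S u).card = 2 := by
    have := sd_add_op hG S u
    omega
  obtain ⟨x, hbx, hx⟩ := pair_of_card (op_symm h1.1) h3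
  obtain ⟨v, hv⟩ := Finset.card_eq_one.1 (show (sm G S u).card = 1 from h1.2)
  refine ⟨h2.1, x, v, hv, hx, hbx, h2.2.2 x ?_⟩
  rw [hx]
  simp

end StarBasicAux

variable {G} in
theorem exists_star (hG : G.IsRegularOfDegree 3) (h3 : NoTri G) {k : ℕ} {S : Finset V}
    (hL : Level G k S) (hk : 1 ≤ k) {b : V} (hb : b ∉ S) (sb : sd G S b = 0)
    (hc : (UN G S b).card = 3) :
    k = 1 ∧ ∃ u1 u2 u3 x1 x2 x3 v1 v2 v3, Star G S b u1 u2 u3 x1 x2 x3 v1 v2 v3 := by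
  obtain ⟨hk1, hsite⟩ := fact2 hG h3 hL hk hb sb hc
  have hop : (op G S b).card = 3 := by
    have := sd_add_op hG S b
    omega
  have heq : UN G S b = op G S b := by
    apply Finset.eq_of_subset_of_card_le
    · exact Finset.filter_subset _ _
    · rw [hop, hc]
  obtain ⟨u1, u2, u3, h12, h13, h23, hset⟩ := Finset.card_eq_three.1 hc
  have m1 : u1 ∈ UN G S b := by rw [hset]; simp
  have m2 : u2 ∈ UN G S b := by rw [hset]; simp
  have m3 : u3 ∈ UN G S b := by rw [hset]; simp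
  obtain ⟨hu1, x1, v1, s1, o1, b1, z1⟩ := StarBasicAux.one hG m1 (hsite u1 m1)
  obtain ⟨hu2, x2, v2, s2, o2, b2, z2⟩ := StarBasicAux.one hG m2 (hsite u2 m2)
  obtain ⟨hu3, x3, v3, s3, o3, b3, z3⟩ := StarBasicAux.one hG m3 (hsite u3 m3)
  exact ⟨hk1, u1, u2, u3, x1, x2, x3, v1, v2, v3,
    { hb := hb, sb := sb, ob := by rw [← heq, hset], n12 := h12, n13 := h13, n23 := h23,
      h1 := hu1, h2 := hu2, h3 := hu3, s1 := s1, s2 := s2, s3 := s3, o1 := o1, o2 := o2,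
      o3 := o3, b1 := b1, b2 := b2, b3 := b3, z1 := z1, z2 := z2, z3 := z3 }⟩

variable {G} in
theorem Star.swap {S : Finset V} {b u1 u2 u3 x1 x2 x3 v1 v2 v3 : V}
    (h : Star G S b u1 u2 u3 x1 x2 x3 v1 v2 v3) :
    Star G S b u2 u1 u3 x2 x1 x3 v2 v1 v3 :=
  { hb := h.hb, sb := h.sb, ob := by rw [h.ob, Finset.insert_comm], n12 := h.n12.symm,
    n13 := h.n23, n23 := h.n13, h1 := h.h2, h2 := h.h1, h3 := h.h3, s1 := h.s2, s2 := h.s1,
    s3 := h.s3, o1 := h.o2, o2 := h.o1, o3 := h.o3, b1 := h.b2, b2 := h.b1, b3 := h.b3,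
    z1 := h.z2, z2 := h.z1, z3 := h.z3 }

variable {G} in
theorem Star.rot {S : Finset V} {b u1 u2 u3 x1 x2 x3 v1 v2 v3 : V}
    (h : Star G S b u1 u2 u3 x1 x2 x3 v1 v2 v3) :
    Star G S b u2 u3 u1 x2 x3 x1 v2 v3 v1 :=
  { hb := h.hb, sb := h.sb,
    ob := by
      rw [h.ob]
      ext a
      simp only [Finset.mem_insert, Finset.mem_singleton]
      tauto
    n12 := h.n23, n13 := h.n12.symm, n23 := h.n13.symm, h1 := h.h2, h2 := h.h3, h3 := h.h1,
    s1 := h.s2, s2 := h.s3, s3 := h.s1, o1 := h.o2, o2 := h.o3, o3 := h.o1, b1 := h.b2,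
    b2 := h.b3, b3 := h.b1, z1 := h.z2, z2 := h.z3, z3 := h.z1 }

namespace StarBasicAux

variable {G} in
theorem pairFacts (h3 : NoTri G) (h4 : NoSq G) {S : Finset V} (htf : ∀ v, sd G S v ≤ 1)
    {b u1 u2 u3 x1 x2 x3 v1 v2 v3 : V} (h : Star G S b u1 u2 u3 x1 x2 x3 v1 v2 v3) :
    x1 ≠ x2 ∧ v1 ≠ v2 ∧ u1 ≠ v1 ∧ u1 ≠ v2 ∧ u2 ≠ v1 ∧ v1 ∈ S ∧ sd G S v1 = 1 ∧
    sm G S v1 = {u1} ∧ ¬ G.Adj b v1 ∧ ¬ G.Adj x1 v1 ∧ ¬ G.Adj x1 u2 ∧ ¬ G.Adj x2 u1 := by
  have a1 : G.Adj b u1 := by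
    have : u1 ∈ op G S b := by rw [h.ob]; simp
    exact (mem_op.1 this).1
  have a2 : G.Adj b u2 := by
    have : u2 ∈ op G S b := by rw [h.ob]; simp
    exact (mem_op.1 this).1
  have c1 : G.Adj u1 x1 := by
    have : x1 ∈ op G S u1 := by rw [h.o1]; simp
    exact (mem_op.1 this).1
  have c2 : G.Adj u2 x2 := by
    have : x2 ∈ op G S u2 := by rw [h.o2]; simp
    exact (mem_op.1 this).1
  have mv1 : v1 ∈ sm G S u1 := by rw [h.s1]; simp
  have mv2 : v2 ∈ sm G S u2 := by rw [h.s2]; simp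
  have d1 : G.Adj u1 v1 := (mem_sm.1 mv1).1
  have d2 : G.Adj u2 v2 := (mem_sm.1 mv2).1
  have hv1 : v1 ∈ S := (mem_sm.1 mv1).2.2 h.h1
  have hsm1 : sm G S v1 = {u1} := by
    have hm := sm_symm mv1
    have hc : (sm G S v1).card ≤ 1 := htf v1
    exact (Finset.eq_singleton_iff_unique_mem.2
      ⟨hm, fun y hy => Finset.card_le_one.1 hc y hy u1 hm⟩)
  have hsd1 : sd G S v1 = 1 := by
    unfold sd
    rw [hsm1, Finset.card_singleton]
  have hx1u2 : ¬ G.Adj x1 u2 := by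
    intro hh
    rcases h4 b u1 x1 u2 a1 c1 hh a2.symm with e | e
    · exact h.b1 e
    · exact h.n12 e
  have hx2u1 : ¬ G.Adj x2 u1 := by
    intro hh
    rcases h4 b u2 x2 u1 a2 c2 hh a1.symm with e | e
    · exact h.b2 e
    · exact h.n12 e.symm
  have hu1v2 : u1 ≠ v2 := by
    intro e
    rw [← e] at d2
    exact h3 b u2 u1 a2 d2 a1
  have hu2v1 : u2 ≠ v1 := by
    intro e
    rw [← e] at d1
    exact h3 b u1 u2 a1 d1 a2
  refine ⟨?_, ?_, d1.ne, hu1v2, hu2v1, hv1, hsd1, hsm1, h3 b u1 v1 a1 d1, h3 x1 u1 v1 c1.symm d1,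
    hx1u2, hx2u1⟩
  · intro e
    exact hx1u2 (e ▸ c2.symm)
  · intro e
    rw [← e] at mv2
    have := sm_symm mv2
    rw [hsm1, Finset.mem_singleton] at this
    exact h.n12 this.symm

end StarBasicAux

variable {G} in
theorem Star.facts (h3 : NoTri G) (h4 : NoSq G) {S : Finset V} (htf : ∀ v, sd G S v ≤ 1)
    {b u1 u2 u3 x1 x2 x3 v1 v2 v3 : V} (h : Star G S b u1 u2 u3 x1 x2 x3 v1 v2 v3) :
    x1 ≠ x2 ∧ x1 ≠ x3 ∧ x2 ≠ x3 ∧ v1 ≠ v2 ∧ v1 ≠ v3 ∧ v2 ≠ v3 ∧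
    u1 ≠ v1 ∧ u1 ≠ v2 ∧ u1 ≠ v3 ∧ u2 ≠ v1 ∧ u2 ≠ v2 ∧ u2 ≠ v3 ∧ u3 ≠ v1 ∧ u3 ≠ v2 ∧ u3 ≠ v3 ∧
    v1 ∈ S ∧ v2 ∈ S ∧ v3 ∈ S ∧ sd G S v1 = 1 ∧ sd G S v2 = 1 ∧ sd G S v3 = 1 ∧
    sm G S v1 = {u1} ∧ sm G S v2 = {u2} ∧ sm G S v3 = {u3} ∧
    ¬ G.Adj b v1 ∧ ¬ G.Adj b v2 ∧ ¬ G.Adj b v3 ∧
    ¬ G.Adj x1 v1 ∧ ¬ G.Adj x2 v2 ∧ ¬ G.Adj x3 v3 ∧
    ¬ G.Adj x1 u2 ∧ ¬ G.Adj x1 u3 ∧ ¬ G.Adj x2 u1 ∧ ¬ G.Adj x2 u3 ∧
    ¬ G.Adj x3 u1 ∧ ¬ G.Adj x3 u2 := by
  obtain ⟨p1, p2, p3, p4, p5, p6, p7, p8, p9, p10, p11, p12⟩ :=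
    StarBasicAux.pairFacts h3 h4 htf h
  obtain ⟨q1, q2, q3, q4, q5, q6, q7, q8, q9, q10, q11, q12⟩ :=
    StarBasicAux.pairFacts h3 h4 htf h.rot
  obtain ⟨r1, r2, r3, r4, r5, r6, r7, r8, r9, r10, r11, r12⟩ :=
    StarBasicAux.pairFacts h3 h4 htf h.rot.rot
  exact ⟨p1, r1.symm, q1, p2, r2.symm, q2, p3, p4, r5, p5, q3, q4, r4, q5, r3, p6, q6, r6, p7,
    q7, r7, p8, q8, r8, p9, q9, r9, p10, q10, r10, p11, r12, p12, q11, r11, q12⟩

end Pool.Agent.Lib.Ando
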