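import Mathlib
import Pool.Agent.Lib.Ando.StarBasic
import Pool.Agent.Lib.Ando.Fact3
import Pool.Agent.Lib.Ando.Fact4
import Pool.Agent.Lib.Ando.Assem
import Pool.Agent.Lib.Ando.OpLeaf
import Pool.Agent.Lib.Ando.OpZZ
import Pool.Agent.Lib.Ando.OpB2
import Pool.Agent.Lib.Ando.Ter

set_option autoImplicit false
set_option linter.unusedSectionVars false

/-!
# Ando.StarB12: steps B1 and B2 (k = 1)

Conventions: S = white vertices. Z / L = black vertices with sd = 0 / 1, O / U = white vertices with sd = 0 / 1. For v in L or U let v* be the member of sm S v. Every vertex of U has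
sm S u = {u*} and op S u with two members (`sd_add_op`); a vertex of O or Z has op S with three members.
`Level.cost_ge`: cost S F >= k - |k + iot S F|; `Level.exists_two`: if equality holds and |k + iot| < k, some vertex has sd >= 2 after the exchange.
To compute `cost S F` for an explicit F: F is an insert of different vertices, so expand the sums with `Finset.sum_insert`; the double sum counts each adjacent pair in F twice:
2 times (number of bichromatic pairs) - 2 times (number of monochromatic pairs). For an upper bound of the cost it is enough to know enough bichromatic pairs and that the other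
pairs are not monochromatic edges (the terms of the double sum are then >= 0).

Star with UN S x1 of card <= 2 (it contains u1).
B1: UN S x1 = {u1}. op S x1 = {u1, o, o'} with sd o = sd o' = 0, op S u1 = {x1, b}. So `eff_leaf` for (u1, x1) with b' := b: effect (0; 1, 0, 0, 0) for {u1, x1}; its territory is {u1, v1, x1, b, o, o'} (`ter_leaf`). There are at least 6 sites (`fact4`), so there is a site w not in {u1, v1, u2, u3}; op S w = {c, d}.
 c, d are not b (otherwise w in op S b = {u1, u2, u3}) and not x1 (otherwise w in UN S x1 = {u1}). Territory {w, w*, c, d}; w* is not u1 (w would be v1), not v1 (w would be u1), not o, o' (sd 1). So disjoint. `assemble` with k = 1 and the two sets ({u1, x1}: (0; 1, 0, 0, 0), {w}: (-1; 0, 0, 1, 0)), e.g. index type Bool or Fin 2.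
B2: card UN S x1 = 2: UN S x1 = {u1, w}, op S x1 = {u1, w, o}, sd o = 0. w is not a site? (not needed). w not in sm S u1 (NoTri: w, x1, u1). If w is not in sm S u2: `eff_B2` with F = {x1, u1, u2} (w /= u2 because x1 is not adjacent to u2, `Star.facts`). If w is in sm S u2, then w is not in sm S u3 (w = v2 /= v3), and
 `eff_B2` for the star with 2 and 3 exchanged (`Star.swap`, `Star.rot`). In both cases the effect is (-1; 2, 2, 2, 2) and T = symmDiff S F satisfies imb T = 2 - 2 = 0, n2 and q2 agree, so `good_of`.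
-/

namespace Pool.Agent.Lib.Ando

variable {V : Type*} [Fintype V] [DecidableEq V] (G : SimpleGraph V) [DecidableRel G.Adj]


namespace StarB12Aux

variable {G}

theorem mem_UN {S : Finset V} {b u : V} : u ∈ UN G S b ↔ u ∈ op G S b ∧ sd G S u = 1 := by
  unfold UN
  rw [Finset.mem_filter]

theorem mem_sites {S : Finset V} {u : V} :
    u ∈ sites G S ↔ u ∈ S ∧ sd G S u = 1 ∧ ∀ b ∈ op G S u, sd G S b = 0 := by
  unfold sites
  rw [Finset.mem_filter]
  exact ⟨fun h => h.2, fun h => ⟨Finset.mem_univ _, h⟩⟩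

theorem good_of_eff (hG : G.IsRegularOfDegree 3) {S F : Finset V} (hi : imb S = 2)
    (he : Eff G S F (-1) 2 2 2 2) : Good G := by
  refine good_of hG (symmDiff S F) ?_ he.good ?_ ?_
  · rw [he.imb_eq, hi]
    norm_num
  · rw [he.nw, he.nb]
  · rw [he.qw, he.qb]

/-- The three opposite neighbours of `x`, two of them given. -/
theorem three {s : Finset V} (hs : s.card = 3) {a b : V} (ha : a ∈ s) (hb : b ∈ s) (hab : a ≠ b) :
    ∃ c, s = {a, b, c} ∧ a ≠ c ∧ b ≠ c := by
  have h1 : ((s.erase a).erase b).card = 1 := by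
    rw [Finset.card_erase_of_mem (Finset.mem_erase.2 ⟨hab.symm, hb⟩), Finset.card_erase_of_mem ha,
      hs]
  obtain ⟨c, hc⟩ := Finset.card_eq_one.1 h1
  have hcm : c ∈ (s.erase a).erase b := by rw [hc]; exact Finset.mem_singleton_self c
  rw [Finset.mem_erase, Finset.mem_erase] at hcm
  refine ⟨c, ?_, hcm.2.1.symm, hcm.1.symm⟩
  ext x
  rw [Finset.mem_insert, Finset.mem_insert, Finset.mem_singleton]
  constructor
  · intro hx
    by_cases hxa : x = a
    · exact Or.inl hxa
    by_cases hxb : x = b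
    · exact Or.inr (Or.inl hxb)
    right
    right
    have h2 : x ∈ (s.erase a).erase b :=
      Finset.mem_erase.2 ⟨hxb, Finset.mem_erase.2 ⟨hxa, hx⟩⟩
    rw [hc, Finset.mem_singleton] at h2
    exact h2
  · rintro (rfl | rfl | rfl)
    · exact ha
    · exact hb
    · exact hcm.2.2

theorem three' {s : Finset V} (hs : s.card = 3) {a : V} (ha : a ∈ s) :
    ∃ b c, s = {a, b, c} ∧ a ≠ b ∧ a ≠ c ∧ b ≠ c := by
  have h1 : (s.erase a).card = 2 := by
    rw [Finset.card_erase_of_mem ha, hs]
  obtain ⟨b, c, hbc, h2⟩ := Finset.card_eq_two.1 h1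
  have hb : b ∈ s.erase a := by rw [h2]; simp
  have hc : c ∈ s.erase a := by rw [h2]; simp
  rw [Finset.mem_erase] at hb hc
  refine ⟨b, c, ?_, hb.1.symm, hc.1.symm, hbc⟩
  rw [← h2, Finset.insert_erase ha]

/-- Step B1. -/
theorem stepB1 (hG : G.IsRegularOfDegree 3) (h3 : NoTri G) (h4 : NoSq G) {S : Finset V}
    (hL : Level G 1 S) {b u1 u2 u3 x1 x2 x3 v1 v2 v3 : V}
    (h : Star G S b u1 u2 u3 x1 x2 x3 v1 v2 v3)
    (hx1 : x1 ∉ S) (hu1x : u1 ∈ op G S x1) (hop3 : (op G S x1).card = 3)
    (hc : UN G S x1 = {u1}) : Good G := by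
  have htf := hL.tf
  obtain ⟨-, -, -, -, -, -, hu1v1, -, -, -, -, -, -, -, -, hv1S, -, -, sv1, -, -, smv1, -⟩ :=
    Star.facts h3 h4 htf h
  obtain ⟨o, o', hopx, hn1, hn2, hn3⟩ := three' hop3 hu1x
  have hoS : ∀ y ∈ op G S x1, y ∈ S := by
    intro y hy
    rw [mem_op] at hy
    by_contra hyS
    exact hy.2 ⟨fun h => absurd h hyS, fun h => absurd h hx1⟩
  have hom : o ∈ op G S x1 := by rw [hopx]; simp
  have hom' : o' ∈ op G S x1 := by rw [hopx]; simp
  have hsd0 : ∀ y ∈ op G S x1, y ≠ u1 → sd G S y = 0 := by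
    intro y hy hne
    have h1 := htf y
    by_contra h0
    have h2 : sd G S y = 1 := by omega
    have h5 : y ∈ UN G S x1 := mem_UN.2 ⟨hy, h2⟩
    rw [hc, Finset.mem_singleton] at h5
    exact hne h5
  have so : sd G S o = 0 := hsd0 o hom hn1.symm
  have so' : sd G S o' = 0 := hsd0 o' hom' hn2.symm
  have hopu : op G S u1 = {x1, b} := by rw [h.o1]; exact Finset.pair_comm b x1
  have heff := eff_leaf G htf h.h1 hopu h.b1.symm h.z1 h.sb hopx hn1 hn2 hn3 so so'
  have hter := ter_leaf G h.s1 hopu h.z1 h.sb hopx so so' (htf v1)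
  have hcard : ({u1, v1, u2, u3} : Finset V).card < (sites G S).card := by
    have h5 := fact4 hG h3 hL (le_refl 1)
    have h6 : ({u1, v1, u2, u3} : Finset V).card ≤ 4 := Finset.card_le_four
    omega
  obtain ⟨w, hws, hwn⟩ := Finset.exists_mem_notMem_of_card_lt_card hcard
  rw [Finset.mem_insert, Finset.mem_insert, Finset.mem_insert, Finset.mem_singleton,
    not_or, not_or, not_or] at hwn
  obtain ⟨hw1, hw2, hw3, hw4⟩ := hwn
  obtain ⟨hwS, sw, hwop⟩ := mem_sites.1 hws
  have hopw2 : (op G S w).card = 2 := by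
    have h5 := sd_add_op hG S w
    omega
  obtain ⟨c, d, hcd, hopw⟩ := Finset.card_eq_two.1 hopw2
  have hcm : c ∈ op G S w := by rw [hopw]; simp
  have hdm : d ∈ op G S w := by rw [hopw]; simp
  obtain ⟨w', hw'⟩ := Finset.card_eq_one.1 (show (sm G S w).card = 1 from sw)
  have hw'm : w' ∈ sm G S w := by rw [hw']; exact Finset.mem_singleton_self _
  have heff2 := eff_zz G htf hwS hopw hcd (hwop c hcm) (hwop d hdm)
  have hter2 := ter_zz G hw' hopw (hwop c hcm) (hwop d hdm) (htf w')
  have hw'S : w' ∈ S := (mem_sm.1 hw'm).2.2 hwS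
  have sw' : 1 ≤ sd G S w' := Finset.card_pos.2 ⟨w, sm_symm hw'm⟩
  have hopS : ∀ y ∈ op G S w, y ∉ S := by
    intro y hy hyS
    rw [mem_op] at hy
    exact hy.2 ⟨fun _ => hwS, fun _ => hyS⟩
  have hopx1 : ∀ y ∈ op G S w, y ≠ x1 := by
    intro y hy hyx
    rw [hyx] at hy
    have h5 : w ∈ UN G S x1 := mem_UN.2 ⟨op_symm hy, sw⟩
    rw [hc, Finset.mem_singleton] at h5
    exact hw1 h5
  have hopb : ∀ y ∈ op G S w, y ≠ b := by
    intro y hy hyb
    rw [hyb] at hy
    have h5 := op_symm hy
    rw [h.ob, Finset.mem_insert, Finset.mem_insert, Finset.mem_singleton] at h5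
    rcases h5 with h5 | h5 | h5
    · exact hw1 h5
    · exact hw3 h5
    · exact hw4 h5
  have hdisj : Disjoint (ter G S {u1, x1}) (ter G S {w}) := by
    rw [hter, hter2, Finset.disjoint_left]
    intro y hy1 hy2
    simp only [Finset.mem_insert, Finset.mem_singleton] at hy1 hy2
    have key : ∀ z ∈ op G S w, y ≠ z := by
      intro z hz hyz
      have hzS := hopS z hz
      rcases hy1 with e | e | e | e | e | e
      · rw [← hyz, e] at hzS; exact hzS h.h1
      · rw [← hyz, e] at hzS; exact hzS hv1S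
      · exact hopx1 z hz (hyz.symm.trans e)
      · exact hopb z hz (hyz.symm.trans e)
      · rw [← hyz, e] at hzS; exact hzS (hoS o hom)
      · rw [← hyz, e] at hzS; exact hzS (hoS o' hom')
    rcases hy2 with e2 | e2 | e2 | e2
    · rw [e2] at hy1
      rcases hy1 with e | e | e | e | e | e
      · exact hw1 e
      · exact hw2 e
      · rw [e] at hwS; exact hx1 hwS
      · rw [e] at hwS; exact h.hb hwS
      · rw [e, so] at sw; omega
      · rw [e, so'] at sw; omega
    · rw [e2] at hy1
      rcases hy1 with e | e | e | e | e | e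
      · have h5 := sm_symm hw'm
        rw [e, h.s1, Finset.mem_singleton] at h5
        exact hw2 h5
      · have h5 := sm_symm hw'm
        rw [e, smv1, Finset.mem_singleton] at h5
        exact hw1 h5
      · rw [e] at hw'S; exact hx1 hw'S
      · rw [e] at hw'S; exact h.hb hw'S
      · rw [e, so] at sw'; omega
      · rw [e, so'] at sw'; omega
    · exact key c hcm e2
    · exact key d hdm e2
  refine assemble hG (k := 1) (by rw [hL.imb_eq]) htf (Finset.univ : Finset Bool)
    (fun i => cond i ({w} : Finset V) {u1, x1}) ?_ (fun i => cond i (-1) 0)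
    (fun i => cond i 0 1) (fun i => cond i 0 0) (fun i => cond i 1 0) (fun i => cond i 0 0)
    ?_ ?_ ?_ ?_
  · intro i _ j _ hij
    cases i <;> cases j
    · exact absurd rfl hij
    · exact hdisj
    · exact hdisj.symm
    · exact absurd rfl hij
  · intro i _
    cases i
    · exact heff
    · exact heff2
  · simp
  · simp
  · simp

end StarB12Aux

variable {G} in
theorem star_good12 (hG : G.IsRegularOfDegree 3) (h3 : NoTri G) (h4 : NoSq G) {S : Finset V}
    (hL : Level G 1 S) {b u1 u2 u3 x1 x2 x3 v1 v2 v3 : V}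
    (h : Star G S b u1 u2 u3 x1 x2 x3 v1 v2 v3)
    (hc : (UN G S x1).card ≤ 2) : Good G := by
  have htf := hL.tf
  obtain ⟨hx12, hx13, -, hv12, hv13, hv23, hu1v1, -, -, hu2v1, -, -, hu3v1, -, -, hv1S, -, -,
    sv1, -, -, smv1, -, -, -, -, -, -, -, -, hx1u2, hx1u3, -⟩ := Star.facts h3 h4 htf h
  have hx1m : x1 ∈ op G S u1 := by rw [h.o1]; simp
  have hu1x : u1 ∈ op G S x1 := op_symm hx1m
  have hx1 : x1 ∉ S := by
    intro hxS
    exact (mem_op.1 hx1m).2 ⟨fun _ => h.h1, fun _ => hxS⟩
  have hop3 : (op G S x1).card = 3 := by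
    have h5 := sd_add_op hG S x1
    rw [h.z1] at h5
    omega
  have su1 : sd G S u1 = 1 := by
    unfold sd
    rw [h.s1, Finset.card_singleton]
  have hu1U : u1 ∈ UN G S x1 := StarB12Aux.mem_UN.2 ⟨hu1x, su1⟩
  have hpos : 1 ≤ (UN G S x1).card := Finset.card_pos.2 ⟨u1, hu1U⟩
  by_cases hone : (UN G S x1).card = 1
  · obtain ⟨y, hy⟩ := Finset.card_eq_one.1 hone
    have h5 : u1 = y := by
      rw [hy, Finset.mem_singleton] at hu1U
      exact hu1U
    exact StarB12Aux.stepB1 hG h3 h4 hL h hx1 hu1x hop3 (by rw [hy, h5])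
  · have htwo : ((UN G S x1).erase u1).card = 1 := by
      rw [Finset.card_erase_of_mem hu1U]
      omega
    obtain ⟨w, hw⟩ := Finset.card_eq_one.1 htwo
    have hwm : w ∈ (UN G S x1).erase u1 := by rw [hw]; exact Finset.mem_singleton_self _
    rw [Finset.mem_erase] at hwm
    obtain ⟨hwu, hwU⟩ := hwm
    obtain ⟨hwx, sw⟩ := StarB12Aux.mem_UN.1 hwU
    obtain ⟨o, hox, hno, hwo⟩ := StarB12Aux.three hop3 hu1x hwx (Ne.symm hwu)
    have hom : o ∈ op G S x1 := by rw [hox]; simp
    have so : sd G S o = 0 := by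
      have h1 := htf o
      by_contra h0
      have h2 : sd G S o = 1 := by omega
      have h5 : o ∈ (UN G S x1).erase u1 :=
        Finset.mem_erase.2 ⟨hno.symm, StarB12Aux.mem_UN.2 ⟨hom, h2⟩⟩
      rw [hw, Finset.mem_singleton] at h5
      exact hwo h5.symm
    have hax1w : G.Adj x1 w := (mem_op.1 hwx).1
    have hax1u : G.Adj x1 u1 := (mem_op.1 hu1x).1
    have hwsm1 : w ∉ sm G S u1 := by
      intro h5
      exact h3 u1 x1 w hax1u.symm hax1w (mem_sm.1 h5).1
    have hwu2 : w ≠ u2 := by
      intro h5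
      rw [h5] at hax1w
      exact hx1u2 hax1w
    have hwu3 : w ≠ u3 := by
      intro h5
      rw [h5] at hax1w
      exact hx1u3 hax1w
    have himb : imb S = 2 := by
      have h5 := hL.imb_eq
      rw [h5]
      norm_num
    by_cases hw2 : w ∈ sm G S u2
    · have hwv : w = v2 := by
        rw [h.s2, Finset.mem_singleton] at hw2
        exact hw2
      have hw3 : w ∉ sm G S u3 := by
        rw [h.s3, Finset.mem_singleton, hwv]
        exact hv23
      have hob : op G S b = {u1, u3, u2} := by
        rw [h.ob]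
        congr 1
        exact Finset.pair_comm u2 u3
      have hu : u3 ∉ sm G S u1 := by
        rw [h.s1, Finset.mem_singleton]
        exact hu3v1
      exact StarB12Aux.good_of_eff hG himb
        (eff_B2 G htf h.hb h.sb hob h.n13 h.n12 h.n23.symm h.h1 h.h3 h.o1 h.o3 h.b1 h.b3 hx13
          h.z1 h.z3 hox (Ne.symm hwu) hno hwo sw so hu hwsm1 hw3 hwu3)
    · have hu : u2 ∉ sm G S u1 := by
        rw [h.s1, Finset.mem_singleton]
        exact hu2v1
      exact StarB12Aux.good_of_eff hG himb
        (eff_B2 G htf h.hb h.sb h.ob h.n12 h.n13 h.n23 h.h1 h.h2 h.o1 h.o2 h.b1 h.b2 hx12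
          h.z1 h.z2 hox (Ne.symm hwu) hno hwo sw so hu hwsm1 hw2 hwu2)

end Pool.Agent.Lib.Ando
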