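import Mathlib
import Pool.Agent.Lib.Ando.StarB12
import Pool.Agent.Lib.Ando.OpB3

set_option autoImplicit false
set_option linter.unusedSectionVars false

/-!
# Ando.StarB3: step B3 (k = 1)

Conventions: S = white vertices. Z / L = black vertices with sd = 0 / 1, O / U = white vertices with sd = 0 / 1. For v in L or U let v* be the member of sm S v. Every vertex of U has
sm S u = {u*} and op S u with two members (`sd_add_op`); a vertex of O or Z has op S with three members.
`Level.cost_ge`: cost S F >= k - |k + iot S F|; `Level.exists_two`: if equality holds and |k + iot| < k, some vertex has sd >= 2 after the exchange.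
To compute `cost S F` for an explicit F: F is an insert of different vertices, so expand the sums with `Finset.sum_insert`; the double sum counts each adjacent pair in F twice:
2 times (number of bichromatic pairs) - 2 times (number of monochromatic pairs). For an upper bound of the cost it is enough to know enough bichromatic pairs and that the other
pairs are not monochromatic edges (the terms of the double sum are then >= 0).

Star, v1 adjacent to x2. v1 in S, sd S v1 = 1, so op S v1 = {x2, c}, x2 /= c. If sd S c = 0: `eff_B3` with t = v1 (use `Star.facts`): effect (-1; 2, 2, 2, 2), `good_of` for symmDiff S {b, u2, v1}.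
If sd S c /= 0: v1 is not a site. v1 is in UN S x2 (v1 in op S x2, sd S v1 = 1). card UN S x2 <= 3; if it is 3 then by `fact2` (x2 in Z) all members of UN S x2 are sites, contradiction. So card UN S x2 <= 2 and `star_good12` applied to the star with 1 and 2 exchanged (`Star.swap`).
-/

namespace Pool.Agent.Lib.Ando

variable {V : Type*} [Fintype V] [DecidableEq V] (G : SimpleGraph V) [DecidableRel G.Adj]

variable {G} in
theorem star_good3 (hG : G.IsRegularOfDegree 3) (h3 : NoTri G) (h4 : NoSq G) {S : Finset V}
    (hL : Level G 1 S) {b u1 u2 u3 x1 x2 x3 v1 v2 v3 : V}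
    (h : Star G S b u1 u2 u3 x1 x2 x3 v1 v2 v3)
    (ha : G.Adj v1 x2) : Good G := by
  obtain ⟨-, -, -, -, -, -, -, -, -, n2v1, -, n2v3, n3v1, -, -, hv1, -, -, sv1, -, -, -, -, -,
    -, -, -, -, -, -, -, -, -, -, -, -⟩ := h.facts h3 h4 hL.tf
  have hx2S : x2 ∉ S := by
    have h1 : x2 ∈ op G S u2 := by rw [h.o2]; simp
    exact fun hm => (mem_op.1 h1).2 ⟨fun _ => h.h2, fun _ => hm⟩
  have hx2o : x2 ∈ op G S v1 := by
    rw [mem_op]
    exact ⟨ha, fun hm => hx2S (hm.2 hv1)⟩
  have hcard : (op G S v1).card = 2 := by
    have := sd_add_op hG S v1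
    omega
  obtain ⟨c, hc⟩ : ∃ c, (op G S v1).erase x2 = {c} := by
    apply Finset.card_eq_one.1
    rw [Finset.card_erase_of_mem hx2o, hcard]
  have hop : op G S v1 = {x2, c} := by
    rw [← Finset.insert_erase hx2o, hc]
  have hcm : c ∈ (op G S v1).erase x2 := by rw [hc]; simp
  have hxc : x2 ≠ c := fun e => (Finset.mem_erase.1 hcm).1 e.symm
  have hco : c ∈ op G S v1 := (Finset.mem_erase.1 hcm).2
  by_cases hc0 : sd G S c = 0
  · have he := eff_B3 G hL.tf h.hb h.sb h.ob h.n12 h.n13 h.n23 h.h1 h.h2 h.h3 h.o2 h.b2 h.z2
      h.s1 hop hxc hc0 (by unfold sd; rw [h.s3]; simp) n2v1.symm n3v1.symm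
      (by rw [h.s3, Finset.mem_singleton]; exact n2v3)
    refine good_of hG (symmDiff S {b, u2, v1}) ?_ he.good ?_ ?_
    · rw [he.imb_eq, hL.imb_eq]
      norm_num
    · rw [he.nw, he.nb]
    · rw [he.qw, he.qb]
  · have hUN : v1 ∈ UN G S x2 := by
      unfold UN
      rw [Finset.mem_filter]
      exact ⟨op_symm hx2o, sv1⟩
    have hle : (UN G S x2).card ≤ (op G S x2).card :=
      Finset.card_le_card (Finset.filter_subset _ _)
    have hsum := sd_add_op hG S x2
    have hz := h.z2
    have h2 : (UN G S x2).card ≤ 2 := by
      by_contra hcon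
      have h33 : (UN G S x2).card = 3 := by omega
      have hsite := (fact2 hG h3 hL le_rfl hx2S h.z2 h33).2 v1 hUN
      unfold sites at hsite
      rw [Finset.mem_filter] at hsite
      exact hc0 (hsite.2.2.2 c hco)
    exact star_good12 hG h3 h4 hL h.swap h2

end Pool.Agent.Lib.Ando
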