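import Mathlib
import Pool.Agent.Lib.Ando.StarBasic
import Pool.Agent.Lib.Ando.LevelE

set_option autoImplicit false
set_option linter.unusedSectionVars false

/-!
# Ando.StarFlip: the star flip (step B4)

Conventions: S = white vertices. Z / L = black vertices with sd = 0 / 1, O / U = white vertices with sd = 0 / 1. For v in L or U let v* be the member of sm S v. Every vertex of U has
sm S u = {u*} and op S u with two members (`sd_add_op`); a vertex of O or Z has op S with three members.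
`Level.cost_ge`: cost S F >= k - |k + iot S F|; `Level.exists_two`: if equality holds and |k + iot| < k, some vertex has sd >= 2 after the exchange.
To compute `cost S F` for an explicit F: F is an insert of different vertices, so expand the sums with `Finset.sum_insert`; the double sum counts each adjacent pair in F twice:
2 times (number of bichromatic pairs) - 2 times (number of monochromatic pairs). For an upper bound of the cost it is enough to know enough bichromatic pairs and that the other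
pairs are not monochromatic edges (the terms of the double sum are then >= 0).

Let F = {b, u1, u2, u3}, T = symmDiff S F, S' = complement of T. cost S F = (3 + 1 + 1 + 1) - 2 * 3 = 0 (the ui are pairwise not adjacent), iot S F = 1 - 3 = -2 = -2 * 1. sd T is at most one everywhere: sm T b = op S b minus F = empty; sm T ui = op S ui minus F = {xi}
(sm S ui = {vi}, vi not in F); for x not in F: op S x inter F nonempty only if x in {x1, x2, x3} (a neighbour of b outside F does not exist) and then it is {ui} (`Star.facts`), sm S xi = empty: sd T xi = 1. sm S x inter F nonempty only for x = vi (x in sm S uj, so x = vj; x is not adjacent to b in the same colour: sd S b = 0):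
sm T vi = empty. All other x: sm T x = sm S x. So by `Level.flip_compl` S' is a level colouring with k = 1.
In S' (`sm_compl`, `op_compl`: the same sm, op as for T): b not in S' (b is black in S, white in T, black in S'), sm S' b = empty, op S' b = {u1, u2, u3}; ui in S'; sm S' ui = {xi}; op S' ui = {b, vi}; sd S' vi = 0; b /= vi.
So Star S' b u1 u2 u3 v1 v2 v3 x1 x2 x3. The last statement: for y outside {b, u1, u2, u3, x1, x2, x3, v1, v2, v3} nothing changes except that the colours are exchanged.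
-/

namespace Pool.Agent.Lib.Ando

variable {V : Type*} [Fintype V] [DecidableEq V] (G : SimpleGraph V) [DecidableRel G.Adj]

/-- The colouring after the star flip. -/
def sflip (S : Finset V) (b u1 u2 u3 : V) : Finset V := (symmDiff S {b, u1, u2, u3})ᶜ

namespace StarFlipAux

variable {G}

def IsF (F : Finset V) (b u1 u2 u3 : V) : Prop :=
  ∀ y, y ∈ F ↔ (y = b ∨ y = u1 ∨ y = u2 ∨ y = u3)

theorem IsF.rot {F : Finset V} {b u1 u2 u3 : V} (h : IsF F b u1 u2 u3) : IsF F b u2 u3 u1 := by
  intro y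
  rw [h y]
  tauto

theorem isF (b u1 u2 u3 : V) : IsF ({b, u1, u2, u3} : Finset V) b u1 u2 u3 := by
  intro y
  simp only [Finset.mem_insert, Finset.mem_singleton]

theorem smb {S : Finset V} {b u1 u2 u3 x1 x2 x3 v1 v2 v3 : V}
    (h : Star G S b u1 u2 u3 x1 x2 x3 v1 v2 v3) : sm G S b = ∅ := Finset.card_eq_zero.1 h.sb

theorem smx {S : Finset V} {b u1 u2 u3 x1 x2 x3 v1 v2 v3 : V}
    (h : Star G S b u1 u2 u3 x1 x2 x3 v1 v2 v3) : sm G S x1 = ∅ := Finset.card_eq_zero.1 h.z1

theorem x1S {S : Finset V} {b u1 u2 u3 x1 x2 x3 v1 v2 v3 : V}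
    (h : Star G S b u1 u2 u3 x1 x2 x3 v1 v2 v3) : x1 ∉ S := by
  intro hx
  have h1 : x1 ∈ op G S u1 := by rw [h.o1]; simp
  rw [mem_op] at h1
  exact h1.2 ⟨fun _ => h.h1, fun _ => hx⟩

theorem part1 (h3 : NoTri G) (h4 : NoSq G) {S : Finset V} (htf : ∀ v, sd G S v ≤ 1)
    {b u1 u2 u3 x1 x2 x3 v1 v2 v3 : V} (h : Star G S b u1 u2 u3 x1 x2 x3 v1 v2 v3)
    {F : Finset V} (hF : IsF F b u1 u2 u3) :
    sm G (symmDiff S F) u1 = {x1} ∧ op G (symmDiff S F) u1 = {b, v1} ∧
    sm G (symmDiff S F) x1 = {u1} ∧ sm G (symmDiff S F) v1 = ∅ := by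
  obtain ⟨x12, x13, x23, v12, v13, v23, a11, a12, a13, a21, a22, a23, a31, a32, a33,
    vS1, vS2, vS3, sv1, sv2, sv3, mv1, mv2, mv3, bv1, bv2, bv3, xv1, xv2, xv3,
    xu12, xu13, xu21, xu23, xu31, xu32⟩ := Star.facts h3 h4 htf h
  have hxS := x1S h
  have hxF : x1 ∉ F := by
    rw [hF]
    rintro (h0 | h0 | h0 | h0)
    · exact h.b1 h0.symm
    · exact hxS (h0 ▸ h.h1)
    · exact hxS (h0 ▸ h.h2)
    · exact hxS (h0 ▸ h.h3)
  have hvF : v1 ∉ F := by
    rw [hF]
    rintro (h0 | h0 | h0 | h0)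
    · exact h.hb (h0 ▸ vS1)
    · exact a11 h0.symm
    · exact a21 h0.symm
    · exact a31 h0.symm
  have huF : u1 ∈ F := (hF u1).2 (Or.inr (Or.inl rfl))
  have hbF : b ∈ F := (hF b).2 (Or.inl rfl)
  refine ⟨?_, ?_, ?_, ?_⟩
  · rw [sm_flip_mem G huF, h.o1, h.s1]
    ext y
    simp only [Finset.mem_union, Finset.mem_sdiff, Finset.mem_inter, Finset.mem_insert,
      Finset.mem_singleton]
    constructor
    · rintro (⟨h1 | h1, h2⟩ | ⟨h1, h2⟩)
      · subst h1; exact absurd hbF h2
      · exact h1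
      · subst h1; exact absurd h2 hvF
    · rintro rfl
      exact Or.inl ⟨Or.inr rfl, hxF⟩
  · rw [op_flip_mem G huF, h.o1, h.s1]
    ext y
    simp only [Finset.mem_union, Finset.mem_sdiff, Finset.mem_inter, Finset.mem_insert,
      Finset.mem_singleton]
    constructor
    · rintro (⟨h1, h2⟩ | ⟨h1 | h1, h2⟩)
      · exact Or.inr h1
      · exact Or.inl h1
      · subst h1; exact absurd h2 hxF
    · rintro (rfl | rfl)
      · exact Or.inr ⟨Or.inl rfl, hbF⟩
      · exact Or.inl ⟨rfl, hvF⟩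
  · rw [sm_flip_not_mem G hxF, smx h]
    ext y
    simp only [Finset.mem_union, Finset.mem_sdiff, Finset.mem_inter, Finset.notMem_empty,
      Finset.mem_singleton, false_and, false_or]
    constructor
    · rintro ⟨h1, h2⟩
      rw [hF] at h2
      rw [mem_op] at h1
      rcases h2 with rfl | rfl | rfl | rfl
      · exact absurd ⟨fun h5 => absurd h5 h.hb, fun h5 => absurd h5 hxS⟩ h1.2
      · rfl
      · exact absurd h1.1 xu12
      · exact absurd h1.1 xu13
    · rintro rfl
      refine ⟨op_symm ?_, huF⟩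
      rw [h.o1]; simp
  · rw [sm_flip_not_mem G hvF, mv1]
    ext y
    simp only [Finset.mem_union, Finset.mem_sdiff, Finset.mem_inter, Finset.notMem_empty,
      Finset.mem_singleton, iff_false]
    rintro (⟨h1, h2⟩ | ⟨h1, h2⟩)
    · subst h1; exact h2 huF
    · rw [hF] at h2
      rw [mem_op] at h1
      rcases h2 with rfl | rfl | rfl | rfl
      · exact bv1 h1.1.symm
      · exact h1.2 ⟨fun _ => vS1, fun _ => h.h1⟩
      · exact h1.2 ⟨fun _ => vS1, fun _ => h.h2⟩
      · exact h1.2 ⟨fun _ => vS1, fun _ => h.h3⟩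

theorem partb {S : Finset V}
    {b u1 u2 u3 x1 x2 x3 v1 v2 v3 : V} (h : Star G S b u1 u2 u3 x1 x2 x3 v1 v2 v3)
    {F : Finset V} (hF : IsF F b u1 u2 u3) :
    sm G (symmDiff S F) b = ∅ ∧ op G (symmDiff S F) b = {u1, u2, u3} := by
  have hbF : b ∈ F := (hF b).2 (Or.inl rfl)
  constructor
  · rw [sm_flip_mem G hbF, h.ob, smb h]
    ext y
    simp only [Finset.mem_union, Finset.mem_sdiff, Finset.mem_inter, Finset.notMem_empty,
      Finset.mem_insert, Finset.mem_singleton, false_and, or_false, iff_false, hF y]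
    tauto
  · rw [op_flip_mem G hbF, h.ob, smb h]
    ext y
    simp only [Finset.mem_union, Finset.mem_sdiff, Finset.mem_inter, Finset.notMem_empty,
      Finset.mem_insert, Finset.mem_singleton, false_and, false_or, hF y]
    tauto

theorem rest {S : Finset V} {b u1 u2 u3 x1 x2 x3 v1 v2 v3 : V}
    (h : Star G S b u1 u2 u3 x1 x2 x3 v1 v2 v3)
    {F : Finset V} (hF : IsF F b u1 u2 u3) {y : V} (hy : y ∉ F)
    (n1 : y ≠ x1) (n2 : y ≠ x2) (n3 : y ≠ x3) (m1 : y ≠ v1) (m2 : y ≠ v2) (m3 : y ≠ v3) :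
    sm G (symmDiff S F) y = sm G S y ∧ op G (symmDiff S F) y = op G S y := by
  have hn := hF y
  have hs : ∀ z, z ∈ sm G S y → z ∉ F := by
    intro z hz hzF
    have hz' := sm_symm hz
    rw [hF] at hzF
    rcases hzF with rfl | rfl | rfl | rfl
    · rw [smb h] at hz'; simp at hz'
    · rw [h.s1] at hz'; exact m1 (Finset.mem_singleton.1 hz')
    · rw [h.s2] at hz'; exact m2 (Finset.mem_singleton.1 hz')
    · rw [h.s3] at hz'; exact m3 (Finset.mem_singleton.1 hz')
  have ho : ∀ z, z ∈ op G S y → z ∉ F := by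
    intro z hz hzF
    have hz' := op_symm hz
    rw [hF] at hzF
    rcases hzF with rfl | rfl | rfl | rfl
    · rw [h.ob] at hz'
      simp only [Finset.mem_insert, Finset.mem_singleton] at hz'
      exact hy (hn.2 (Or.inr hz'))
    · rw [h.o1] at hz'
      simp only [Finset.mem_insert, Finset.mem_singleton] at hz'
      rcases hz' with hz' | hz'
      · exact hy (hn.2 (Or.inl hz'))
      · exact n1 hz'
    · rw [h.o2] at hz'
      simp only [Finset.mem_insert, Finset.mem_singleton] at hz'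
      rcases hz' with hz' | hz'
      · exact hy (hn.2 (Or.inl hz'))
      · exact n2 hz'
    · rw [h.o3] at hz'
      simp only [Finset.mem_insert, Finset.mem_singleton] at hz'
      rcases hz' with hz' | hz'
      · exact hy (hn.2 (Or.inl hz'))
      · exact n3 hz'
  constructor
  · rw [sm_flip_not_mem G hy]
    ext z
    simp only [Finset.mem_union, Finset.mem_sdiff, Finset.mem_inter]
    constructor
    · rintro (h1 | h1)
      · exact h1.1
      · exact absurd h1.2 (ho z h1.1)
    · intro h1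
      exact Or.inl ⟨h1, hs z h1⟩
  · rw [op_flip_not_mem G hy]
    ext z
    simp only [Finset.mem_union, Finset.mem_sdiff, Finset.mem_inter]
    constructor
    · rintro (h1 | h1)
      · exact h1.1
      · exact absurd h1.2 (hs z h1.1)
    · intro h1
      exact Or.inl ⟨h1, ho z h1⟩

theorem cost_zero (h3 : NoTri G) {S : Finset V} {b u1 u2 u3 x1 x2 x3 v1 v2 v3 : V}
    (h : Star G S b u1 u2 u3 x1 x2 x3 v1 v2 v3) :
    cost G S {b, u1, u2, u3} = 0 := by
  have hb1 : b ≠ u1 := fun e => h.hb (e ▸ h.h1)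
  have hb2 : b ≠ u2 := fun e => h.hb (e ▸ h.h2)
  have hb3 : b ≠ u3 := fun e => h.hb (e ▸ h.h3)
  have A : ∀ u, u ∈ op G S b → G.Adj b u := fun u hu => (mem_op.1 hu).1
  have A1 : G.Adj b u1 := A u1 (by rw [h.ob]; simp)
  have A2 : G.Adj b u2 := A u2 (by rw [h.ob]; simp)
  have A3 : G.Adj b u3 := A u3 (by rw [h.ob]; simp)
  have N12 : ¬ G.Adj u1 u2 := h3 u1 b u2 A1.symm A2
  have N13 : ¬ G.Adj u1 u3 := h3 u1 b u3 A1.symm A3
  have N23 : ¬ G.Adj u2 u3 := h3 u2 b u3 A2.symm A3
  have N21 : ¬ G.Adj u2 u1 := fun e => N12 e.symm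
  have N31 : ¬ G.Adj u3 u1 := fun e => N13 e.symm
  have N32 : ¬ G.Adj u3 u2 := fun e => N23 e.symm
  have s1 : sd G S u1 = 1 := by unfold sd; rw [h.s1]; rfl
  have s2 : sd G S u2 = 1 := by unfold sd; rw [h.s2]; rfl
  have s3 : sd G S u3 = 1 := by unfold sd; rw [h.s3]; rfl
  have m0 : b ∉ ({u1, u2, u3} : Finset V) := by simp [hb1, hb2, hb3]
  have m1 : u1 ∉ ({u2, u3} : Finset V) := by simp [h.n12, h.n13]
  have m2 : u2 ∉ ({u3} : Finset V) := by simp [h.n23]
  have hS := h.hb
  have S1 := h.h1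
  have S2 := h.h2
  have S3 := h.h3
  unfold cost
  simp only [Finset.sum_insert m0, Finset.sum_insert m1, Finset.sum_insert m2,
    Finset.sum_singleton, s1, s2, s3, h.sb, A1, A2, A3, A1.symm, A2.symm, A3.symm,
    N12, N13, N23, N21, N31, N32, hS, S1, S2, S3, SimpleGraph.irrefl, if_true, if_false]
  norm_num

theorem iot_val {S : Finset V} {b u1 u2 u3 x1 x2 x3 v1 v2 v3 : V}
    (h : Star G S b u1 u2 u3 x1 x2 x3 v1 v2 v3) :
    iot S {b, u1, u2, u3} = -2 := by
  have m1 : u1 ∉ ({u2, u3} : Finset V) := by simp [h.n12, h.n13]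
  have m2 : u2 ∉ ({u3} : Finset V) := by simp [h.n23]
  have e1 : ({b, u1, u2, u3} : Finset V) \ S = {b} := by
    ext y
    simp only [Finset.mem_sdiff, Finset.mem_insert, Finset.mem_singleton]
    constructor
    · rintro ⟨rfl | rfl | rfl | rfl, h2⟩
      · rfl
      · exact absurd h.h1 h2
      · exact absurd h.h2 h2
      · exact absurd h.h3 h2
    · rintro rfl
      exact ⟨Or.inl rfl, h.hb⟩
  have e2 : ({b, u1, u2, u3} : Finset V) ∩ S = {u1, u2, u3} := by
    ext y
    simp only [Finset.mem_inter, Finset.mem_insert, Finset.mem_singleton]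
    constructor
    · rintro ⟨rfl | rfl | rfl | rfl, h2⟩
      · exact absurd h2 h.hb
      · exact Or.inl rfl
      · exact Or.inr (Or.inl rfl)
      · exact Or.inr (Or.inr rfl)
    · rintro (rfl | rfl | rfl)
      · exact ⟨Or.inr (Or.inl rfl), h.h1⟩
      · exact ⟨Or.inr (Or.inr (Or.inl rfl)), h.h2⟩
      · exact ⟨Or.inr (Or.inr (Or.inr rfl)), h.h3⟩
  unfold iot
  rw [e1, e2, Finset.card_insert_of_notMem m1, Finset.card_insert_of_notMem m2]
  simp

end StarFlipAux

open StarFlipAux in
variable {G} in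
theorem star_flip (hG : G.IsRegularOfDegree 3) (h3 : NoTri G) (h4 : NoSq G) {S : Finset V}
    (hL : Level G 1 S) {b u1 u2 u3 x1 x2 x3 v1 v2 v3 : V}
    (h : Star G S b u1 u2 u3 x1 x2 x3 v1 v2 v3) :
    Level G 1 (sflip S b u1 u2 u3) ∧
    Star G (sflip S b u1 u2 u3) b u1 u2 u3 v1 v2 v3 x1 x2 x3 := by
  have hF := isF b u1 u2 u3
  have hf := Star.facts h3 h4 hL.tf h
  obtain ⟨p1, p2, p3, p4⟩ := part1 h3 h4 hL.tf h hF
  obtain ⟨q1, q2, q3, q4⟩ := part1 h3 h4 hL.tf h.rot hF.rot
  obtain ⟨r1, r2, r3, r4⟩ := part1 h3 h4 hL.tf h.rot.rot hF.rot.rot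
  obtain ⟨pb, pb'⟩ := partb h hF
  constructor
  · refine hL.flip_compl hG _ ?_ (cost_zero h3 h) ?_
    · rw [iot_val h]; norm_num
    · intro v
      unfold sd
      by_cases e0 : v = b
      · subst e0; rw [pb]; simp
      by_cases e1 : v = u1
      · subst e1; rw [p1]; simp
      by_cases e2 : v = u2
      · subst e2; rw [q1]; simp
      by_cases e3 : v = u3
      · subst e3; rw [r1]; simp
      by_cases e4 : v = x1
      · subst e4; rw [p3]; simp
      by_cases e5 : v = x2
      · subst e5; rw [q3]; simp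
      by_cases e6 : v = x3
      · subst e6; rw [r3]; simp
      by_cases e7 : v = v1
      · subst e7; rw [p4]; simp
      by_cases e8 : v = v2
      · subst e8; rw [q4]; simp
      by_cases e9 : v = v3
      · subst e9; rw [r4]; simp
      have hv : v ∉ ({b, u1, u2, u3} : Finset V) := by
        rw [hF]; tauto
      rw [(rest h hF hv e4 e5 e6 e7 e8 e9).1]
      exact hL.tf v
  · have hc : ∀ y, y ∈ sflip S b u1 u2 u3 ↔ ¬ ((y ∈ S ∧ y ∉ ({b, u1, u2, u3} : Finset V)) ∨
        (y ∈ ({b, u1, u2, u3} : Finset V) ∧ y ∉ S)) := by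
      intro y
      unfold sflip
      rw [Finset.mem_compl, Finset.mem_symmDiff]
    obtain ⟨x12, x13, x23, v12, v13, v23, a11, a12, a13, a21, a22, a23, a31, a32, a33,
      vS1, vS2, vS3, -⟩ := hf
    constructor
    · rw [hc]; simp [h.hb]
    · unfold sflip; rw [sd_compl]; unfold sd; rw [pb]; rfl
    · unfold sflip; rw [op_compl, pb']
    · exact h.n12
    · exact h.n13
    · exact h.n23
    · rw [hc]; simp [h.h1]
    · rw [hc]; simp [h.h2]
    · rw [hc]; simp [h.h3]
    · unfold sflip; rw [sm_compl, p1]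
    · unfold sflip; rw [sm_compl, q1]
    · unfold sflip; rw [sm_compl, r1]
    · unfold sflip; rw [op_compl, p2]
    · unfold sflip; rw [op_compl, q2]
    · unfold sflip; rw [op_compl, r2]
    · intro e; exact h.hb (e ▸ vS1)
    · intro e; exact h.hb (e ▸ vS2)
    · intro e; exact h.hb (e ▸ vS3)
    · unfold sflip; rw [sd_compl]; unfold sd; rw [p4]; rfl
    · unfold sflip; rw [sd_compl]; unfold sd; rw [q4]; rfl
    · unfold sflip; rw [sd_compl]; unfold sd; rw [r4]; rfl

open StarFlipAux in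
variable {G} in
theorem star_flip_rest {S : Finset V} {b u1 u2 u3 x1 x2 x3 v1 v2 v3 : V}
    (h : Star G S b u1 u2 u3 x1 x2 x3 v1 v2 v3) {y : V} (hb : y ≠ b) (h1 : y ≠ u1) (h2 : y ≠ u2)
    (h3 : y ≠ u3) :
    (y ∈ sflip S b u1 u2 u3 ↔ y ∉ S) ∧
    (y ≠ x1 → y ≠ x2 → y ≠ x3 → y ≠ v1 → y ≠ v2 → y ≠ v3 →
      sm G (sflip S b u1 u2 u3) y = sm G S y ∧ op G (sflip S b u1 u2 u3) y = op G S y) := by
  have hF := isF b u1 u2 u3
  have hy : y ∉ ({b, u1, u2, u3} : Finset V) := by
    rw [hF]; tauto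
  constructor
  · unfold sflip
    rw [Finset.mem_compl, Finset.mem_symmDiff]
    tauto
  · intro n1 n2 n3 m1 m2 m3
    obtain ⟨r1, r2⟩ := rest h hF hy n1 n2 n3 m1 m2 m3
    unfold sflip
    rw [sm_compl, op_compl]
    exact ⟨r1, r2⟩

end Pool.Agent.Lib.Ando
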