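import Mathlib
import Pool.Agent.Lib.Ando.StarB3
import Pool.Agent.Lib.Ando.StarFlip

set_option autoImplicit false
set_option linter.unusedSectionVars false

/-!
# Ando.StarB6: steps B5 and B6, and Case B

Conventions: S = white vertices. Z / L = black vertices with sd = 0 / 1, O / U = white vertices with sd = 0 / 1. For v in L or U let v* be the member of sm S v. Every vertex of U has
sm S u = {u*} and op S u with two members (`sd_add_op`); a vertex of O or Z has op S with three members.
`Level.cost_ge`: cost S F >= k - |k + iot S F|; `Level.exists_two`: if equality holds and |k + iot| < k, some vertex has sd >= 2 after the exchange.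
To compute `cost S F` for an explicit F: F is an insert of different vertices, so expand the sums with `Finset.sum_insert`; the double sum counts each adjacent pair in F twice:
2 times (number of bichromatic pairs) - 2 times (number of monochromatic pairs). For an upper bound of the cost it is enough to know enough bichromatic pairs and that the other
pairs are not monochromatic edges (the terms of the double sum are then >= 0).

`star5`. Let S' = sflip S b u1 u2 u3. Suppose y in op S v1 has sd S y /= 1, so sd S y = 0. If v1 is adjacent to x2: `star_good3`; if v1 is adjacent to x3: `star_good3` for the star with 2, 3 exchanged. So y is none of x1, x2, x3 (x1: `Star.facts`). y is black in S, so y is none of u1, u2, u3, v1, v2, v3; y /= b (v1 not adjacent to b).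
By `star_flip_rest` sm S' y = sm S y = empty. By `star_flip` Level 1 S' and Star S' b u1 u2 u3 v1 v2 v3 x1 x2 x3. UN S' v1 is contained in the three neighbours of v1 minus y (sd S' y = 0), so has card <= 2 (degree 3). So `star_good12` for S' gives Good.
`star_good`. By `star5`, Good or all y in op S v1 have sd S y = 1. In the second case op S v1 = {g, h}, black, sd 1. g, h are none of b, x1, x2, x3 (sd 0) and none of ui, vi (white). So in S' they are white with sd 1 (`star_flip_rest`). sm S g = {g2}, sm S' g = {g2}; g2 black in S, sd S g2 = 1.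
In S': v1 is black with sd 0 (Star of `star_flip`, field z1), its neighbours are u1, g, h (neighbours of v1 in S: sm {u1}, op {g, h}); all have sd S' = 1 and are white. So UN S' v1 has card 3, and `exists_star` for (S', v1) gives a star with {U1, U2, U3} = {u1, g, h}; after a permutation (`Star.swap`, `Star.rot`) U1 = g; then V1 = g2 since sm S' g = {g2}.
`star5` for this star: Good or every z in op S' g2 has sd S' z = 1. g2 is none of the ten vertices (sd 1 and black in S), so op S' g2 = op S g2, which has two elements, at most one of which has sd S = 1 (`fact1`: UN S g2 has card <= 1). So there is z in op S g2 with sd S z = 0, z white in S. z is none of the ten vertices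
(ui, vi have sd 1; b, xi are black), so sd S' z = 0, contradiction. So Good.
`caseB`: if some b in Z has more than two neighbours in U then card UN S b = 3 (card op S b = 3), `exists_star`, k = 1, `star_good`.
-/

namespace Pool.Agent.Lib.Ando

variable {V : Type*} [Fintype V] [DecidableEq V] (G : SimpleGraph V) [DecidableRel G.Adj]

variable {G} in
theorem star5 (hG : G.IsRegularOfDegree 3) (h3 : NoTri G) (h4 : NoSq G) {S : Finset V}
    (hL : Level G 1 S) {b u1 u2 u3 x1 x2 x3 v1 v2 v3 : V}
    (h : Star G S b u1 u2 u3 x1 x2 x3 v1 v2 v3) :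
    Good G ∨ ∀ y ∈ op G S v1, sd G S y = 1 := by
  by_cases hall : ∀ y ∈ op G S v1, sd G S y = 1
  · exact Or.inr hall
  left
  push Not at hall
  obtain ⟨y, hy, hy1⟩ := hall
  have hy0 : sd G S y = 0 := by
    have := hL.tf y
    omega
  by_cases ha2 : G.Adj v1 x2
  · exact star_good3 hG h3 h4 hL h ha2
  by_cases ha3 : G.Adj v1 x3
  · exact star_good3 hG h3 h4 hL h.rot.rot.swap ha3
  obtain ⟨-, -, -, -, -, -, -, -, -, -, -, -, -, -, -, hv1, hv2, hv3, -, -, -, -, -, -, hbv1, -, -,
    hx1v1, -, -, -, -, -, -, -, -⟩ := h.facts h3 h4 hL.tf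
  have hya : G.Adj v1 y := (mem_op.1 hy).1
  have hyS : y ∉ S := fun hm => (mem_op.1 hy).2 ⟨fun _ => hv1, fun _ => hm⟩
  have e0 : y ≠ b := fun e => hbv1 (e ▸ hya.symm)
  have e1 : y ≠ u1 := fun e => hyS (e ▸ h.h1)
  have e2 : y ≠ u2 := fun e => hyS (e ▸ h.h2)
  have e3 : y ≠ u3 := fun e => hyS (e ▸ h.h3)
  have e4 : y ≠ x1 := fun e => hx1v1 (e ▸ hya.symm)
  have e5 : y ≠ x2 := fun e => ha2 (e ▸ hya)
  have e6 : y ≠ x3 := fun e => ha3 (e ▸ hya)
  have e7 : y ≠ v1 := fun e => hyS (e ▸ hv1)
  have e8 : y ≠ v2 := fun e => hyS (e ▸ hv2)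
  have e9 : y ≠ v3 := fun e => hyS (e ▸ hv3)
  have hr := (star_flip_rest h e0 e1 e2 e3).2 e4 e5 e6 e7 e8 e9
  obtain ⟨hL', h'⟩ := star_flip hG h3 h4 hL h
  have hsd' : sd G (sflip S b u1 u2 u3) y = 0 := by
    unfold sd
    rw [hr.1]
    exact hy0
  refine star_good12 hG h3 h4 hL' h' ?_
  have hsub : UN G (sflip S b u1 u2 u3) v1 ⊆ (G.neighborFinset v1).erase y := by
    intro z hz
    unfold UN at hz
    rw [Finset.mem_filter] at hz
    rw [Finset.mem_erase]
    refine ⟨?_, ?_⟩
    · intro e
      rw [e] at hz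
      omega
    · rw [SimpleGraph.mem_neighborFinset]
      exact (mem_op.1 hz.1).1
  have hcard := Finset.card_le_card hsub
  rw [Finset.card_erase_of_mem (by rw [SimpleGraph.mem_neighborFinset]; exact hya),
    SimpleGraph.card_neighborFinset_eq_degree, hG v1] at hcard
  omega

variable {G} in
private theorem starPerm {S : Finset V} {b U1 U2 U3 X1 X2 X3 V1 V2 V3 g : V}
    (h : Star G S b U1 U2 U3 X1 X2 X3 V1 V2 V3) (hg : g ∈ op G S b) :
    ∃ u2 u3 x1 x2 x3 v1 v2 v3, Star G S b g u2 u3 x1 x2 x3 v1 v2 v3 := by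
  rw [h.ob] at hg
  simp only [Finset.mem_insert, Finset.mem_singleton] at hg
  rcases hg with rfl | rfl | rfl
  · exact ⟨_, _, _, _, _, _, _, _, h⟩
  · exact ⟨_, _, _, _, _, _, _, _, h.rot⟩
  · exact ⟨_, _, _, _, _, _, _, _, h.rot.rot⟩

variable {G} in
theorem star_good (hG : G.IsRegularOfDegree 3) (h3 : NoTri G) (h4 : NoSq G) {S : Finset V}
    (hL : Level G 1 S) {b u1 u2 u3 x1 x2 x3 v1 v2 v3 : V}
    (h : Star G S b u1 u2 u3 x1 x2 x3 v1 v2 v3) : Good G := by
  rcases star5 hG h3 h4 hL h with hgood | hall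
  · exact hgood
  obtain ⟨-, -, -, -, -, -, -, -, -, -, -, -, -, -, -, hv1, hv2, hv3, sv1, sv2, sv3, mv1, mv2, mv3,
    hbv1, -, -, -, -, -, -, -, -, -, -, -⟩ := h.facts h3 h4 hL.tf
  have su1 : sd G S u1 = 1 := by unfold sd; rw [h.s1]; simp
  have su2 : sd G S u2 = 1 := by unfold sd; rw [h.s2]; simp
  have su3 : sd G S u3 = 1 := by unfold sd; rw [h.s3]; simp
  have hop2 : (op G S v1).card = 2 := by
    have := sd_add_op hG S v1
    omega
  obtain ⟨g, g', hgg', hop⟩ := Finset.card_eq_two.1 hop2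
  have hg : g ∈ op G S v1 := by rw [hop]; simp
  have hg' : g' ∈ op G S v1 := by rw [hop]; simp
  obtain ⟨hL', h'⟩ := star_flip hG h3 h4 hL h
  -- a black vertex with `sd = 1` is none of the ten vertices
  have hrest : ∀ z, z ∉ S → sd G S z = 1 →
      (z ∈ sflip S b u1 u2 u3) ∧ sm G (sflip S b u1 u2 u3) z = sm G S z ∧
        op G (sflip S b u1 u2 u3) z = op G S z := by
    intro z hzS hz1
    have e0 : z ≠ b := by rintro rfl; have := h.sb; omega
    have e1 : z ≠ u1 := fun e => hzS (e ▸ h.h1)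
    have e2 : z ≠ u2 := fun e => hzS (e ▸ h.h2)
    have e3 : z ≠ u3 := fun e => hzS (e ▸ h.h3)
    have e4 : z ≠ x1 := by rintro rfl; have := h.z1; omega
    have e5 : z ≠ x2 := by rintro rfl; have := h.z2; omega
    have e6 : z ≠ x3 := by rintro rfl; have := h.z3; omega
    have e7 : z ≠ v1 := fun e => hzS (e ▸ hv1)
    have e8 : z ≠ v2 := fun e => hzS (e ▸ hv2)
    have e9 : z ≠ v3 := fun e => hzS (e ▸ hv3)
    have hr := star_flip_rest h e0 e1 e2 e3
    exact ⟨hr.1.2 hzS, hr.2 e4 e5 e6 e7 e8 e9⟩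
  have hgS : g ∉ S := fun hm => (mem_op.1 hg).2 ⟨fun _ => hv1, fun _ => hm⟩
  have hgS' : g' ∉ S := fun hm => (mem_op.1 hg').2 ⟨fun _ => hv1, fun _ => hm⟩
  have sg : sd G S g = 1 := hall g hg
  have sg' : sd G S g' = 1 := hall g' hg'
  obtain ⟨g2, hg2⟩ := Finset.card_eq_one.1 (show (sm G S g).card = 1 from sg)
  have hg2m : g2 ∈ sm G S g := by rw [hg2]; simp
  have hg2S : g2 ∉ S := fun hm => hgS ((mem_sm.1 hg2m).2.1 hm)
  have sg2 : sd G S g2 = 1 := by
    have h1 : 0 < sd G S g2 := Finset.card_pos.2 ⟨g, sm_symm hg2m⟩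
    have h2 := hL.tf g2
    omega
  -- the colouring after the flip
  have hv1S' : v1 ∉ sflip S b u1 u2 u3 := by
    have h1 : v1 ∈ op G (sflip S b u1 u2 u3) u1 := by rw [h'.o1]; simp
    intro hm
    exact (mem_op.1 h1).2 ⟨fun _ => h'.h1, fun _ => hm⟩
  have hopv : op G (sflip S b u1 u2 u3) v1 = {u1, g, g'} := by
    have h1 := sm_union_op G (sflip S b u1 u2 u3) v1
    have h2 := sm_union_op G S v1
    have h5 : sm G (sflip S b u1 u2 u3) v1 = ∅ := Finset.card_eq_zero.1 h'.z1
    rw [h5, Finset.empty_union] at h1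
    rw [h1, ← h2, mv1, hop]
    rfl
  have hUN : UN G (sflip S b u1 u2 u3) v1 = {u1, g, g'} := by
    unfold UN
    rw [hopv]
    apply Finset.filter_true_of_mem
    intro z hz
    simp only [Finset.mem_insert, Finset.mem_singleton] at hz
    rcases hz with rfl | rfl | rfl
    · unfold sd; rw [h'.s1]; simp
    · unfold sd; rw [(hrest z hgS sg).2.1]; exact sg
    · unfold sd; rw [(hrest z hgS' sg').2.1]; exact sg'
  have hcardU : (UN G (sflip S b u1 u2 u3) v1).card = 3 := by
    rw [hUN]
    have n1 : u1 ≠ g := fun e => hgS (e ▸ h.h1)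
    have n2 : u1 ≠ g' := fun e => hgS' (e ▸ h.h1)
    rw [Finset.card_insert_of_notMem (by simp [n1, n2]), Finset.card_insert_of_notMem (by simp [hgg'])]
    simp
  obtain ⟨-, U1, U2, U3, X1, X2, X3, W1, W2, W3, hS2⟩ :=
    exists_star hG h3 hL' le_rfl hv1S' h'.z1 hcardU
  obtain ⟨p2, p3, q1, q2, q3, r1, r2, r3, hS3⟩ := starPerm hS2 (g := g) (by rw [hopv]; simp)
  have hr1 : r1 = g2 := by
    have h1 := hS3.s1
    rw [(hrest g hgS sg).2.1, hg2] at h1
    exact (Finset.singleton_inj.1 h1).symm
  subst hr1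
  rcases star5 hG h3 h4 hL' hS3 with hgood | hall2
  · exact hgood
  exfalso
  rw [(hrest r1 hg2S sg2).2.2] at hall2
  have hall3 : ∀ z ∈ op G S r1, sd G S z = 1 := by
    intro z hz
    have hz1 := hall2 z hz
    have hzS : z ∈ S := by
      by_contra hc
      exact (mem_op.1 hz).2 ⟨fun hm => absurd hm hc, fun hm => absurd hm hg2S⟩
    by_cases e1 : z = u1
    · rw [e1]; exact su1
    by_cases e2 : z = u2
    · rw [e2]; exact su2
    by_cases e3 : z = u3
    · rw [e3]; exact su3
    by_cases e7 : z = v1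
    · rw [e7]; exact sv1
    by_cases e8 : z = v2
    · rw [e8]; exact sv2
    by_cases e9 : z = v3
    · rw [e9]; exact sv3
    have hxS : x1 ∉ S ∧ x2 ∉ S ∧ x3 ∉ S := by
      refine ⟨fun hm => ?_, fun hm => ?_, fun hm => ?_⟩
      · have h1 : x1 ∈ op G S u1 := by rw [h.o1]; simp
        exact (mem_op.1 h1).2 ⟨fun _ => h.h1, fun _ => hm⟩
      · have h1 : x2 ∈ op G S u2 := by rw [h.o2]; simp
        exact (mem_op.1 h1).2 ⟨fun _ => h.h2, fun _ => hm⟩
      · have h1 : x3 ∈ op G S u3 := by rw [h.o3]; simp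
        exact (mem_op.1 h1).2 ⟨fun _ => h.h3, fun _ => hm⟩
    have e0 : z ≠ b := fun e => h.hb (e ▸ hzS)
    have e4 : z ≠ x1 := fun e => hxS.1 (e ▸ hzS)
    have e5 : z ≠ x2 := fun e => hxS.2.1 (e ▸ hzS)
    have e6 : z ≠ x3 := fun e => hxS.2.2 (e ▸ hzS)
    have hr := (star_flip_rest h e0 e1 e2 e3).2 e4 e5 e6 e7 e8 e9
    unfold sd at hz1 ⊢
    rw [hr.1] at hz1
    exact hz1
  have hUN2 : UN G S r1 = op G S r1 := by
    unfold UN
    exact Finset.filter_true_of_mem hall3
  have hf := fact1 hG h3 hL le_rfl hg2S sg2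
  rw [hUN2] at hf
  have := sd_add_op hG S r1
  omega

variable {G} in
theorem caseB (hG : G.IsRegularOfDegree 3) (h3 : NoTri G) (h4 : NoSq G) {k : ℕ} {S : Finset V}
    (hL : Level G k S) (hk : 1 ≤ k) {b : V} (hb : b ∉ S) (sb : sd G S b = 0)
    (hc : 2 < (UN G S b).card) : Good G := by
  have h1 : (UN G S b).card ≤ (op G S b).card := Finset.card_le_card (Finset.filter_subset _ _)
  have h2 := sd_add_op hG S b
  obtain ⟨hk1, u1, u2, u3, x1, x2, x3, v1, v2, v3, hs⟩ :=
    exists_star hG h3 hL hk hb sb (by omega)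
  subst hk1
  exact star_good hG h3 h4 hL hs

end Pool.Agent.Lib.Ando
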