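import Mathlib
import Pool.Agent.Lib.Ando.CaseA
import Pool.Agent.Lib.Ando.StarB6
import Pool.Agent.Lib.Ando.Exist

set_option autoImplicit false
set_option linter.unusedSectionVars false

/-!
# Ando.Final: every cubic graph of girth at least five has a Strong Ando colouring

`exists_level`; k = 0: `good_of_level_zero`; k >= 1: Case A or Case B. From `5 <= G.egirth`: a triangle or a 4-cycle gives a cycle of length 3 or 4
(`SimpleGraph.Walk.IsCycle`, `SimpleGraph.egirth_le_length` or `le_egirth`).
-/

namespace Pool.Agent.Lib.Ando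

variable {V : Type*} [Fintype V] [DecidableEq V] (G : SimpleGraph V) [DecidableRel G.Adj]

variable {G} in
theorem good_of_noTri_noSq (hG : G.IsRegularOfDegree 3) (h3 : NoTri G) (h4 : NoSq G) : Good G := by
  obtain ⟨k, S, hL⟩ := exists_level hG
  rcases Nat.eq_zero_or_pos k with hk | hk
  · subst hk
    exact good_of_level_zero hG hL
  · by_cases hA : ∀ b, b ∉ S → sd G S b = 0 → (UN G S b).card ≤ 2
    · exact caseA hG h3 h4 hL hk hA
    · push Not at hA
      obtain ⟨b, hb, sb, hc⟩ := hA
      exact caseB hG h3 h4 hL hk hb sb hc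

omit [Fintype V] [DecidableEq V] [DecidableRel G.Adj] in
theorem noTri_of_egirth (h : 5 ≤ G.egirth) : NoTri G := by
  intro a b c hab hbc hac
  have hc : (SimpleGraph.Walk.cons hab (SimpleGraph.Walk.cons hbc
      (SimpleGraph.Walk.cons hac.symm SimpleGraph.Walk.nil))).IsCycle := by
    rw [SimpleGraph.Walk.isCycle_def]
    refine ⟨?_, ?_, ?_⟩
    · rw [SimpleGraph.Walk.isTrail_def]
      simp [hab.ne, hab.ne', hbc.ne, hac.ne, hac.ne']
    · simp
    · simp [hab.ne', hbc.ne, hac.ne']
  have h1 := SimpleGraph.egirth_le_length hc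
  have h2 := h.trans h1
  simp at h2
  exact absurd h2 (by decide)

omit [Fintype V] [DecidableEq V] [DecidableRel G.Adj] in
theorem noSq_of_egirth (h : 5 ≤ G.egirth) : NoSq G := by
  intro a b c d hab hbc hcd hda
  by_contra hne
  push Not at hne
  obtain ⟨hac, hbd⟩ := hne
  have hc : (SimpleGraph.Walk.cons hab (SimpleGraph.Walk.cons hbc
      (SimpleGraph.Walk.cons hcd (SimpleGraph.Walk.cons hda SimpleGraph.Walk.nil)))).IsCycle := by
    rw [SimpleGraph.Walk.isCycle_def]
    refine ⟨?_, ?_, ?_⟩
    · rw [SimpleGraph.Walk.isTrail_def]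
      simp [hab.ne, hab.ne', hbc.ne, hcd.ne, hda.ne, hda.ne', hac, hbd, Ne.symm hac]
    · simp
    · simp [hab.ne', hbc.ne, hcd.ne, hda.ne, hbd, Ne.symm hac]
  have h1 := SimpleGraph.egirth_le_length hc
  have h2 := h.trans h1
  simp at h2
  exact absurd h2 (by decide)

end Pool.Agent.Lib.Ando
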